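import Mathlib

/-!
Definitions for the analytic side of MP_eb7570_an (Payne, Polya, Weinberger 1955).

Everything is stated with line derivatives along the two coordinate vectors, so that Lipschitz
functions can be used without choosing points of differentiability.
-/

set_option autoImplicit false

open MeasureTheory

namespace Pool.Agent.PPW

/-- The plane. -/
abbrev E2 : Type := EuclideanSpace ℝ (Fin 2)

/-- The `i`-th coordinate vector. -/
noncomputable def ev (i : Fin 2) : E2 := EuclideanSpace.single i (1 : ℝ)

/-- The `i`-th partial derivative, as a line derivative. -/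
noncomputable def pd (i : Fin 2) (u : E2 → ℝ) (x : E2) : ℝ := lineDeriv ℝ u x (ev i)

/-- The Dirichlet form `∫ ∇u·∇w`. -/
noncomputable def En (u w : E2 → ℝ) : ℝ :=
  ∫ x, (pd 0 u x * pd 0 w x + pd 1 u x * pd 1 w x)

/-- The scalar product `∫ u w`. -/
noncomputable def Ma (u w : E2 → ℝ) : ℝ := ∫ x, u x * w x

/-- Lipschitz functions with compact support in `Ω`. -/
structure Lc (Ω : Set E2) (u : E2 → ℝ) : Prop where
  lip : ∃ C : NNReal, LipschitzWith C u
  cpt : HasCompactSupport u
  sub : tsupport u ⊆ Ω

/-- Smooth functions with compact support in `Ω`. -/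
structure Tc (Ω : Set E2) (u : E2 → ℝ) : Prop where
  smooth : ContDiff ℝ ((⊤ : ℕ∞) : WithTop ℕ∞) u
  cpt : HasCompactSupport u
  sub : tsupport u ⊆ Ω

end Pool.Agent.PPW
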