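import Pool.Agent.Lib.MP_eb7570_an.CDefs

/-!
MP_eb7570_an: Poincare inequality. For u in Tc Omega, Omega in the ball of radius R:
u(x)^2 <= 2R int |d_0 u|^2 along the horizontal line, so Ma u u <= 4 R^2 En u u.
-/

set_option autoImplicit false

open MeasureTheory Filter Topology Metric Set

namespace Pool.Agent.PPW

/-- Integration by parts against the square of a test function. -/
private theorem poinc_ibp {Ω : Set E2} {u : E2 → ℝ} (hu : Tc Ω u) {f : E2 → ℝ} {C : NNReal}
    (hf : LipschitzWith C f) :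
    ∫ x, lineDeriv ℝ f x (ev 0) * u x ^ 2 = ∫ x, (-(2 * f x) * pd 0 u x) * u x := by
  have hg : ContDiff ℝ ((⊤ : ℕ∞) : WithTop ℕ∞) (fun x => u x ^ 2) := hu.smooth.pow 2
  have hcs : HasCompactSupport (fun x => u x ^ 2) := by
    have h1 : (fun x => u x ^ 2) = fun x => u x * u x := by
      funext x
      exact pow_two _
    rw [h1]
    exact hu.cpt.mul_left
  obtain ⟨D, hD⟩ := hg.lipschitzWith_of_hasCompactSupport hcs (by simp)
  have h1 := LipschitzWith.integral_lineDeriv_mul_eq (μ := (volume : Measure E2)) hf hD hcs (ev 0)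
  rw [h1]
  apply integral_congr_ae
  refine Eventually.of_forall fun x => ?_
  have h2 : DifferentiableAt ℝ u x := hu.smooth.differentiable (by simp) x
  have h3 : HasFDerivAt (fun x => u x ^ 2) (((2 : ℕ) • u x ^ (2 - 1)) • fderiv ℝ u x) x :=
    h2.hasFDerivAt.pow 2
  have h4 : lineDeriv ℝ (fun x => u x ^ 2) x (-ev 0) = -(2 * u x * pd 0 u x) := by
    rw [h3.hasLineDerivAt (-ev 0) |>.lineDeriv]
    have h5 : fderiv ℝ u x (ev 0) = pd 0 u x := h2.lineDeriv_eq_fderiv.symm
    simp only [_root_.smul_apply, map_neg, h5, smul_eq_mul, nsmul_eq_mul]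
    norm_num
  show lineDeriv ℝ (fun x => u x ^ 2) x (-ev 0) * f x = (-(2 * f x) * pd 0 u x) * u x
  rw [h4]
  ring

private theorem poinc_low {Ω : Set E2} {R : ℝ} (hR : 0 < R) (hΩ : ∀ x ∈ Ω, ‖x‖ ≤ R)
    {u : E2 → ℝ} (hu : Tc Ω u) : Ma u u ≤ 4 * R ^ 2 * En u u := by
  have hL := hu.toLc
  have hlip : LipschitzWith ‖(EuclideanSpace.proj (0 : Fin 2) : E2 →L[ℝ] ℝ)‖₊
      (fun x : E2 => x 0) := (EuclideanSpace.proj (0 : Fin 2) : E2 →L[ℝ] ℝ).lipschitz
  have h1 := poinc_ibp hu hlip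
  have h2 : ∀ x : E2, lineDeriv ℝ (fun x : E2 => x 0) x (ev 0) = 1 := by
    intro x
    have h3 : HasFDerivAt (fun x : E2 => x 0) (EuclideanSpace.proj (0 : Fin 2) : E2 →L[ℝ] ℝ) x :=
      (EuclideanSpace.proj (0 : Fin 2) : E2 →L[ℝ] ℝ).hasFDerivAt
    rw [h3.hasLineDerivAt (ev 0) |>.lineDeriv]
    simp [ev]
  have h3 : ∫ x, lineDeriv ℝ (fun x : E2 => x 0) x (ev 0) * u x ^ 2 = Ma u u := by
    unfold Ma
    apply integral_congr_ae
    refine Eventually.of_forall fun x => ?_
    show lineDeriv ℝ (fun x : E2 => x 0) x (ev 0) * u x ^ 2 = u x * u x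
    rw [h2]
    ring
  rw [h3] at h1
  have hi1 : Integrable (fun x => (-(2 * x 0) * pd 0 u x) * u x) (volume : Measure E2) := by
    refine hL.int_mul (g := fun x => (-(2 * x 0)) * pd 0 u x) ?_
    exact (Wt.smul 2 (Wt.of_lip hlip)).neg.mul (hL.wtd 0)
  have hi2 : Integrable (fun x => u x * u x) (volume : Measure E2) := hL.int_mul hL.wt
  have hi3 := hL.int_en hL
  have h4 : Ma u u ≤ 1 / 2 * Ma u u + 2 * R ^ 2 * En u u := by
    have hrhs : 1 / 2 * Ma u u + 2 * R ^ 2 * En u u =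
        ∫ x, (1 / 2 * (u x * u x) + 2 * R ^ 2 * (pd 0 u x * pd 0 u x + pd 1 u x * pd 1 u x)) := by
      rw [integral_add (hi2.const_mul _) (hi3.const_mul _), integral_const_mul,
        integral_const_mul]
      rfl
    rw [hrhs]
    calc Ma u u = ∫ x, (-(2 * x 0) * pd 0 u x) * u x := h1
      _ ≤ _ := by
        apply integral_mono hi1 ((hi2.const_mul _).add (hi3.const_mul _))
        intro x
        show (-(2 * x 0) * pd 0 u x) * u x ≤
          1 / 2 * (u x * u x) + 2 * R ^ 2 * (pd 0 u x * pd 0 u x + pd 1 u x * pd 1 u x)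
        by_cases hx : x ∈ tsupport u
        · have h5 := hΩ x (hu.sub hx)
          have h6 : |x 0| ≤ R := (PiLp.norm_apply_le x 0).trans h5
          have h7 : x 0 ^ 2 ≤ R ^ 2 := sq_le_sq' (by linarith [abs_le.1 h6]) (abs_le.1 h6).2
          have h8 : x 0 ^ 2 * pd 0 u x ^ 2 ≤ R ^ 2 * pd 0 u x ^ 2 :=
            mul_le_mul_of_nonneg_right h7 (sq_nonneg _)
          nlinarith [sq_nonneg (u x + 2 * x 0 * pd 0 u x), mul_nonneg (sq_nonneg R)
            (sq_nonneg (pd 1 u x))]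
        · rw [hL.zero_out hx]
          have : 0 ≤ 2 * R ^ 2 * (pd 0 u x * pd 0 u x + pd 1 u x * pd 1 u x) := by
            have := mul_self_nonneg (pd 0 u x)
            have := mul_self_nonneg (pd 1 u x)
            positivity
          linarith
  linarith

/-- Poincare inequality: bounded domains have positive first eigenvalue. -/
theorem lamk_one_pos {Ω : Set E2} (hΩ : Dom Ω) : 0 < lamk 1 Ω := by
  obtain ⟨R, hR⟩ := hΩ.bd.exists_norm_le
  have hR1 : 0 < max R 1 := lt_of_lt_of_le one_pos (le_max_right _ _)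
  have hc : 0 < 1 / (8 * max R 1 ^ 2) := by positivity
  obtain ⟨φ, h1, h2, h3⟩ := exists_near hΩ.op hΩ.ne hc
  have h4 := poinc_low hR1 (fun x hx => (hR x hx).trans (le_max_left _ _)) h1
  rw [h2] at h4
  have h5 : 1 / (4 * max R 1 ^ 2) ≤ En φ φ := by
    rw [div_le_iff₀ (by positivity)]
    linarith
  have h6 : 1 / (8 * max R 1 ^ 2) < 1 / (4 * max R 1 ^ 2) := by
    apply one_div_lt_one_div_of_lt (by positivity)
    nlinarith [sq_pos_of_pos hR1]
  linarith

end Pool.Agent.PPW
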