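import Mathlib
import Pool.Agent.Lib.Brouwer.Fix

/-!
# Selection lemma (Brouwer): a rotated and translated pair with a centred measure and a Gram matrix
of prescribed shape.
-/

open MeasureTheory Metric Set Topology
open scoped ComplexConjugate

namespace Pool.MP_eb7570_an

/-- The parameter space `{(s,w,c) : 0 ≤ s ≤ 1, |w| = 1, |c| ≤ R}`. -/
private def SelX (R : ℝ) : Type :=
  ↥(Icc (0:ℝ) 1 ×ˢ (sphere (0:ℂ) 1 ×ˢ closedBall (0:ℂ) R))

private instance (R : ℝ) : TopologicalSpace (SelX R) :=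
  inferInstanceAs (TopologicalSpace ↥(Icc (0:ℝ) 1 ×ˢ (sphere (0:ℂ) 1 ×ˢ closedBall (0:ℂ) R)))

private instance (R : ℝ) : FirstCountableTopology (SelX R) :=
  inferInstanceAs (FirstCountableTopology
    ↥(Icc (0:ℝ) 1 ×ˢ (sphere (0:ℂ) 1 ×ˢ closedBall (0:ℂ) R)))

private instance (R : ℝ) : T2Space (SelX R) :=
  inferInstanceAs (T2Space ↥(Icc (0:ℝ) 1 ×ˢ (sphere (0:ℂ) 1 ×ˢ closedBall (0:ℂ) R)))

private instance (R : ℝ) : CompactSpace (SelX R) :=
  isCompact_iff_compactSpace.1
    (isCompact_Icc.prod ((isCompact_sphere (0:ℂ) 1).prod (isCompact_closedBall (0:ℂ) R)))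

/-- The rotated and translated field. -/
private noncomputable def SelQ (P : ℝ → ℂ → ℂ) (s : ℝ) (w c y : ℂ) : ℂ :=
  w * P s (conj w * (y - c))

/-- The radial projection to the closed ball of radius `R`. -/
private noncomputable def selProj (R : ℝ) (v : ℂ) : ℂ := ((R / max R ‖v‖ : ℝ) : ℂ) * v

private theorem selProj_cont {R : ℝ} (hR : 0 < R) : Continuous (selProj R) := by
  have h : Continuous fun v : ℂ => R / max R ‖v‖ := by
    refine Continuous.div (by fun_prop) (by fun_prop) fun v => ?_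
    exact (lt_max_of_lt_left hR).ne'
  exact (Complex.continuous_ofReal.comp h).mul continuous_id

private theorem selProj_norm {R : ℝ} (hR : 0 < R) (v : ℂ) : ‖selProj R v‖ ≤ R := by
  have h1 : 0 < max R ‖v‖ := lt_max_of_lt_left hR
  unfold selProj
  rw [norm_mul, Complex.norm_real, Real.norm_eq_abs, abs_of_pos (div_pos hR h1),
    div_mul_eq_mul_div, div_le_iff₀ h1]
  exact mul_le_mul_of_nonneg_left (le_max_right _ _) hR.le

private theorem selProj_small {R : ℝ} (hR : 0 < R) (v : ℂ) (hv : ‖v‖ ≤ R) : selProj R v = v := by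
  unfold selProj
  rw [max_eq_left hv, div_self hR.ne', Complex.ofReal_one, one_mul]

private theorem sel_int_cont {R R0 : ℝ} {E : Type*} [NormedAddCommGroup E] [NormedSpace ℝ E]
    (μ : Measure ℂ) [IsFiniteMeasure μ] (hμ : μ (closedBall (0:ℂ) R0)ᶜ = 0)
    (F : SelX R → ℂ → E) (hF : Continuous (Function.uncurry F)) :
    Continuous fun x => ∫ y, F x y ∂μ := by
  have h1 : (fun x => ∫ y, F x y ∂μ) = fun x => ∫ y in closedBall (0:ℂ) R0, F x y ∂μ := by
    funext x
    rw [Measure.restrict_eq_self_of_ae_mem]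
    rw [ae_iff]
    exact hμ
  rw [h1]
  have : LocallyCompactSpace (SelX R) := inferInstance
  exact continuous_parametric_integral_of_continuous hF (isCompact_closedBall 0 R0)

/-- **Selection lemma.** -/
theorem selection (P : ℝ → ℂ → ℂ)
    (hcont : ContinuousOn (fun p : ℝ × ℂ => P p.1 p.2) (Icc (0:ℝ) 1 ×ˢ univ))
    (hodd : ∀ s ∈ Icc (0:ℝ) 1, ∀ x, P s (-x) = - P s x)
    (hrot : ∀ w : ℂ, ‖w‖ = 1 → ∀ x, P 0 (w * x) = w * P 0 x)
    (R0 R : ℝ) (hR : 0 < R)
    (hin : ∀ s ∈ Icc (0:ℝ) 1, ∀ x c : ℂ, ‖x‖ ≤ R0 → ‖c‖ = R → 0 < (P s (x - c) * conj (-c)).re)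
    (μ : Measure ℂ) [IsProbabilityMeasure μ] (hμ : μ (closedBall (0:ℂ) R0)ᶜ = 0)
    (hnd : ∀ s ∈ Icc (0:ℝ) 1, ∀ w c : ℂ, ‖w‖ = 1 → ‖c‖ ≤ R →
      0 < ∫ x, ‖P s (conj w * (x - c))‖ ^ 2 ∂μ)
    (hnd1 : ∀ w c : ℂ, ‖w‖ = 1 → ‖c‖ ≤ R →
      0 < ∫ x, (P 1 (conj w * (x - c))).im ^ 2 ∂μ) :
    ∃ s ∈ Ico (0:ℝ) 1, ∃ w c : ℂ, ‖w‖ = 1 ∧ ‖c‖ ≤ R ∧
      ∫ x, P s (conj w * (x - c)) ∂μ = 0 ∧
      ∫ x, (P s (conj w * (x - c))) ^ 2 ∂μ
        = ((s * ∫ x, ‖P s (conj w * (x - c))‖ ^ 2 ∂μ : ℝ) : ℂ) := by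
  -- continuity of the basic integrand
  have hQc : Continuous fun p : SelX R × ℂ =>
      SelQ P (p.1.1.1) (p.1.1.2.1) (p.1.1.2.2) p.2 := by
    have hs : Continuous fun p : SelX R × ℂ => p.1.1.1 :=
      continuous_fst.comp (continuous_subtype_val.comp continuous_fst)
    have hw : Continuous fun p : SelX R × ℂ => p.1.1.2.1 :=
      continuous_fst.comp (continuous_snd.comp (continuous_subtype_val.comp continuous_fst))
    have hc : Continuous fun p : SelX R × ℂ => p.1.1.2.2 :=
      continuous_snd.comp (continuous_snd.comp (continuous_subtype_val.comp continuous_fst))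
    have hpair : Continuous fun p : SelX R × ℂ =>
        ((p.1.1.1, conj (p.1.1.2.1) * (p.2 - p.1.1.2.2)) : ℝ × ℂ) :=
      hs.prodMk ((Complex.continuous_conj.comp hw).mul (continuous_snd.sub hc))
    have hP := hcont.comp_continuous hpair fun p => ⟨p.1.2.1, mem_univ _⟩
    exact hw.mul hP
  -- norms
  have hnormQ : ∀ (s : ℝ) (w c y : ℂ), ‖w‖ = 1 →
      ‖SelQ P s w c y‖ = ‖P s (conj w * (y - c))‖ := by
    intro s w c y hw
    rw [SelQ, norm_mul, hw, one_mul]
  let I1 : SelX R → ℂ := fun p => ∫ y, SelQ P p.1.1 p.1.2.1 p.1.2.2 y ∂μ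
  let I2 : SelX R → ℂ := fun p => ∫ y, (SelQ P p.1.1 p.1.2.1 p.1.2.2 y) ^ 2 ∂μ
  let I3 : SelX R → ℝ := fun p => ∫ y, ‖SelQ P p.1.1 p.1.2.1 p.1.2.2 y‖ ^ 2 ∂μ
  have hI1 : Continuous I1 :=
    sel_int_cont μ hμ (fun p y => SelQ P p.1.1 p.1.2.1 p.1.2.2 y) hQc
  have hI2 : Continuous I2 :=
    sel_int_cont μ hμ (fun p y => (SelQ P p.1.1 p.1.2.1 p.1.2.2 y) ^ 2) (hQc.pow 2)
  have hI3 : Continuous I3 :=
    sel_int_cont μ hμ (fun p y => ‖SelQ P p.1.1 p.1.2.1 p.1.2.2 y‖ ^ 2) (hQc.norm.pow 2)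
  have hwn : ∀ p : SelX R, ‖p.1.2.1‖ = 1 := fun p => by
    have := p.2.2.1
    simpa using this
  have hcn : ∀ p : SelX R, ‖p.1.2.2‖ ≤ R := fun p => by
    have := p.2.2.2
    simpa using this
  have hI3pos : ∀ p, 0 < I3 p := by
    intro p
    have h1 := hnd p.1.1 p.2.1 p.1.2.1 p.1.2.2 (hwn p) (hcn p)
    have h2 : I3 p = ∫ x, ‖P p.1.1 (conj p.1.2.1 * (x - p.1.2.2))‖ ^ 2 ∂μ := by
      refine integral_congr_ae (Filter.Eventually.of_forall fun y => ?_)
      show ‖SelQ P p.1.1 p.1.2.1 p.1.2.2 y‖ ^ 2 = _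
      rw [hnormQ _ _ _ _ (hwn p)]
    rw [h2]
    exact h1
  -- the target
  let K : Set (ℂ × ℂ) := closedBall (0:ℂ) 1 ×ˢ closedBall (0:ℂ) R
  have hKc : IsCompact K := (isCompact_closedBall 0 1).prod (isCompact_closedBall 0 R)
  have hKconv : Convex ℝ K := (convex_closedBall 0 1).prod (convex_closedBall 0 R)
  have hKne : K.Nonempty := ⟨(0, 0), by simp [K, hR.le]⟩
  let q : SelX R → K := fun p => ⟨((p.1.1 : ℂ) * p.1.2.1 ^ 2, p.1.2.2), by
    refine ⟨?_, p.2.2.2⟩
    rw [mem_closedBall_zero_iff, norm_mul, norm_pow, hwn p, one_pow, mul_one, Complex.norm_real,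
      Real.norm_eq_abs, abs_of_nonneg p.2.1.1]
    exact p.2.1.2⟩
  have hqc : Continuous q := by
    refine Continuous.subtype_mk ?_ _
    have hs : Continuous fun p : SelX R => p.1.1 := continuous_fst.comp continuous_subtype_val
    have hw : Continuous fun p : SelX R => p.1.2.1 :=
      continuous_fst.comp (continuous_snd.comp continuous_subtype_val)
    have hc : Continuous fun p : SelX R => p.1.2.2 :=
      continuous_snd.comp (continuous_snd.comp continuous_subtype_val)
    exact ((Complex.continuous_ofReal.comp hs).mul (hw.pow 2)).prodMk hc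
  have hqs : Function.Surjective q := by
    rintro ⟨⟨z, c⟩, hz, hc⟩
    have hz' : ‖z‖ ≤ 1 := by simpa using hz
    obtain ⟨w, hw, hwz⟩ : ∃ w : ℂ, ‖w‖ = 1 ∧ (‖z‖ : ℂ) * w ^ 2 = z := by
      by_cases h0 : z = 0
      · exact ⟨1, by simp, by simp [h0]⟩
      · obtain ⟨w, hw⟩ := IsAlgClosed.exists_pow_nat_eq (z / (‖z‖ : ℂ)) (n := 2) (by norm_num)
        have hn0 : (‖z‖ : ℂ) ≠ 0 := by
          rw [Complex.ofReal_ne_zero]
          exact norm_ne_zero_iff.2 h0
        refine ⟨w, ?_, ?_⟩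
        · have h1 : ‖w‖ ^ 2 = 1 := by
            rw [← norm_pow, hw, norm_div, Complex.norm_real, norm_norm,
              div_self (norm_ne_zero_iff.2 h0)]
          have h2 := norm_nonneg w
          nlinarith
        · rw [hw, mul_div_cancel₀ _ hn0]
    refine ⟨⟨(‖z‖, w, c), ⟨norm_nonneg z, hz'⟩, by simpa using hw, hc⟩, ?_⟩
    refine Subtype.ext ?_
    show ((‖z‖ : ℂ) * w ^ 2, c) = (z, c)
    rw [hwz]
  let qC : C(SelX R, K) := ⟨q, hqc⟩
  have hquot : IsQuotientMap qC := hqc.isClosedMap.isQuotientMap hqc hqs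
  let f : C(SelX R, K) := ⟨fun p => ⟨(I2 p / (I3 p : ℂ), selProj R (p.1.2.2 + I1 p)), by
      refine ⟨?_, ?_⟩
      · rw [mem_closedBall_zero_iff, norm_div, Complex.norm_real, Real.norm_eq_abs,
          abs_of_pos (hI3pos p), div_le_one (hI3pos p)]
        refine (norm_integral_le_integral_norm _).trans (le_of_eq ?_)
        refine integral_congr_ae (Filter.Eventually.of_forall fun y => ?_)
        show ‖(SelQ P p.1.1 p.1.2.1 p.1.2.2 y) ^ 2‖ = ‖SelQ P p.1.1 p.1.2.1 p.1.2.2 y‖ ^ 2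
        rw [norm_pow]
      · rw [mem_closedBall_zero_iff]
        exact selProj_norm hR _⟩, by
    refine Continuous.subtype_mk ?_ _
    have hc : Continuous fun p : SelX R => p.1.2.2 :=
      continuous_snd.comp (continuous_snd.comp continuous_subtype_val)
    refine Continuous.prodMk ?_ ((selProj_cont hR).comp (hc.add hI1))
    refine hI2.div (Complex.continuous_ofReal.comp hI3) fun p => ?_
    exact Complex.ofReal_ne_zero.2 (hI3pos p).ne'⟩
  -- `f` is constant on the fibres of `q`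
  have hcomp : Function.FactorsThrough f qC := by
    intro p p' hpp
    have h1 : ((p.1.1 : ℂ) * p.1.2.1 ^ 2, p.1.2.2) = ((p'.1.1 : ℂ) * p'.1.2.1 ^ 2, p'.1.2.2) :=
      congrArg Subtype.val hpp
    have h2 : (p.1.1 : ℂ) * p.1.2.1 ^ 2 = (p'.1.1 : ℂ) * p'.1.2.1 ^ 2 := (Prod.ext_iff.1 h1).1
    have hc : p.1.2.2 = p'.1.2.2 := (Prod.ext_iff.1 h1).2
    have hs : p.1.1 = p'.1.1 := by
      have h3 := congrArg norm h2
      rw [norm_mul, norm_mul, norm_pow, norm_pow, hwn p, hwn p', one_pow, mul_one, mul_one,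
        Complex.norm_real, Complex.norm_real, Real.norm_eq_abs, Real.norm_eq_abs,
        abs_of_nonneg p.2.1.1, abs_of_nonneg p'.2.1.1] at h3
      exact h3
    have hQ : ∀ y, SelQ P p.1.1 p.1.2.1 p.1.2.2 y = SelQ P p'.1.1 p'.1.2.1 p'.1.2.2 y := by
      intro y
      by_cases h0 : p.1.1 = 0
      · have h0' : p'.1.1 = 0 := by rw [← hs]; exact h0
        have key : ∀ w : ℂ, ‖w‖ = 1 → ∀ x : ℂ, w * P 0 (conj w * x) = P 0 x := by
          intro w hw x
          rw [hrot (conj w) (by rw [RCLike.norm_conj, hw]), ← mul_assoc, Complex.mul_conj,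
            Complex.normSq_eq_norm_sq, hw]
          simp
        rw [SelQ, SelQ, h0, h0', key _ (hwn p), key _ (hwn p'), hc]
      · have h4 : p.1.2.1 ^ 2 = p'.1.2.1 ^ 2 := by
          have h5 : (p.1.1 : ℂ) ≠ 0 := Complex.ofReal_ne_zero.2 h0
          rw [← hs] at h2
          exact mul_left_cancel₀ h5 h2
        rcases sq_eq_sq_iff_eq_or_eq_neg.1 h4 with h | h
        · rw [hs, h, hc]
        · rw [SelQ, SelQ, h, hc, hs, map_neg, neg_mul (conj p'.1.2.1), hodd _ p'.2.1]
          ring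
    have e1 : I1 p = I1 p' := integral_congr_ae (Filter.Eventually.of_forall hQ)
    have e2 : I2 p = I2 p' := integral_congr_ae (Filter.Eventually.of_forall fun y => by
      show (SelQ P p.1.1 p.1.2.1 p.1.2.2 y) ^ 2 = (SelQ P p'.1.1 p'.1.2.1 p'.1.2.2 y) ^ 2
      rw [hQ y])
    have e3 : I3 p = I3 p' := integral_congr_ae (Filter.Eventually.of_forall fun y => by
      show ‖SelQ P p.1.1 p.1.2.1 p.1.2.2 y‖ ^ 2 = ‖SelQ P p'.1.1 p'.1.2.1 p'.1.2.2 y‖ ^ 2
      rw [hQ y])
    refine Subtype.ext ?_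
    show (I2 p / (I3 p : ℂ), selProj R (p.1.2.2 + I1 p))
      = (I2 p' / (I3 p' : ℂ), selProj R (p'.1.2.2 + I1 p'))
    rw [e1, e2, e3, hc]
  let T : C(K, K) := hquot.lift f hcomp
  have hT : ∀ p, T (q p) = f p := fun p => by
    have := hquot.lift_comp f hcomp
    exact DFunLike.congr_fun this p
  obtain ⟨k, hk⟩ := BrouwerFP.brouwer_subtype hKc hKconv hKne T T.continuous
  obtain ⟨p, rfl⟩ := hqs k
  rw [hT] at hk
  have hk' : (I2 p / (I3 p : ℂ), selProj R (p.1.2.2 + I1 p))
      = ((p.1.1 : ℂ) * p.1.2.1 ^ 2, p.1.2.2) := congrArg Subtype.val hk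
  have hk1 : I2 p / (I3 p : ℂ) = (p.1.1 : ℂ) * p.1.2.1 ^ 2 := (Prod.ext_iff.1 hk').1
  have hk2 : selProj R (p.1.2.2 + I1 p) = p.1.2.2 := (Prod.ext_iff.1 hk').2
  obtain ⟨⟨s, w, c⟩, hs, hw, hc⟩ := p
  have hw1 : ‖w‖ = 1 := by simpa using hw
  have hc1 : ‖c‖ ≤ R := by simpa using hc
  have hw0 : w ≠ 0 := fun h => by simp [h] at hw1
  simp only at hk1 hk2
  set p : SelX R := ⟨(s, w, c), hs, hw, hc⟩ with hp
  -- integrals in terms of `P`
  have hcts : Continuous fun y => P s (conj w * (y - c)) := by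
    have hpair : Continuous fun y : ℂ => ((s, conj w * (y - c)) : ℝ × ℂ) := by fun_prop
    exact hcont.comp_continuous hpair fun y => ⟨hs, mem_univ _⟩
  have hintg : ∀ {E : Type} [NormedAddCommGroup E] (g : ℂ → E), Continuous g →
      Integrable g μ := by
    intro E _ g hg
    have h1 : μ = μ.restrict (closedBall (0:ℂ) R0) := by
      rw [Measure.restrict_eq_self_of_ae_mem]
      rw [ae_iff]
      exact hμ
    rw [h1]
    exact hg.continuousOn.integrableOn_compact (isCompact_closedBall 0 R0)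
  have hJ1 : I1 p = w * ∫ x, P s (conj w * (x - c)) ∂μ := by
    show ∫ y, SelQ P s w c y ∂μ = _
    rw [← integral_const_mul]
    rfl
  have hJ2 : I2 p = w ^ 2 * ∫ x, (P s (conj w * (x - c))) ^ 2 ∂μ := by
    show ∫ y, (SelQ P s w c y) ^ 2 ∂μ = _
    rw [← integral_const_mul]
    refine integral_congr_ae (Filter.Eventually.of_forall fun y => ?_)
    show (w * P s (conj w * (y - c))) ^ 2 = _
    ring
  have hJ3 : I3 p = ∫ x, ‖P s (conj w * (x - c))‖ ^ 2 ∂μ := by
    refine integral_congr_ae (Filter.Eventually.of_forall fun y => ?_)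
    show ‖SelQ P s w c y‖ ^ 2 = _
    rw [hnormQ _ _ _ _ hw1]
  have hI3p := hI3pos p
  -- the second moment identity
  have hsecond : ∫ x, (P s (conj w * (x - c))) ^ 2 ∂μ
      = ((s * ∫ x, ‖P s (conj w * (x - c))‖ ^ 2 ∂μ : ℝ) : ℂ) := by
    have h3 : (I3 p : ℂ) ≠ 0 := Complex.ofReal_ne_zero.2 hI3p.ne'
    have h4 : I2 p = (s : ℂ) * w ^ 2 * (I3 p : ℂ) := (div_eq_iff h3).1 hk1
    rw [hJ2] at h4
    have h5 : w ^ 2 ≠ 0 := pow_ne_zero 2 hw0
    have h6 : w ^ 2 * ∫ x, (P s (conj w * (x - c))) ^ 2 ∂μ = w ^ 2 * ((s : ℂ) * (I3 p : ℂ)) := by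
      rw [h4]; ring
    rw [mul_left_cancel₀ h5 h6, hJ3]
    push_cast
    rfl
  -- the first moment
  have hfirst : ∫ x, P s (conj w * (x - c)) ∂μ = 0 := by
    set V : ℂ := I1 p with hV
    have hV0 : V = 0 := by
      by_cases hle : ‖c + V‖ ≤ R
      · rw [selProj_small hR _ hle] at hk2
        have : c + V = c + 0 := by rw [hk2, add_zero]
        exact add_left_cancel this
      · exfalso
        push Not at hle
        have hmax : max R ‖c + V‖ = ‖c + V‖ := max_eq_right hle.le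
        have hpos : 0 < ‖c + V‖ := hR.trans hle
        have hk3 : ((R / ‖c + V‖ : ℝ) : ℂ) * (c + V) = c := by
          have := hk2
          unfold selProj at this
          rwa [hmax] at this
        have hcR : ‖c‖ = R := by
          have h1 := congrArg norm hk3
          rw [norm_mul, Complex.norm_real, Real.norm_eq_abs, abs_of_pos (div_pos hR hpos),
            div_mul_cancel₀ _ hpos.ne'] at h1
          exact h1.symm
        have hV1 : V = (((‖c + V‖ / R - 1 : ℝ)) : ℂ) * c := by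
          have h1 : c + V = ((‖c + V‖ / R : ℝ) : ℂ) * c := by
            have h9 : ‖c + V‖ / R * (R / ‖c + V‖) = 1 := by
              field_simp
            have h10 : ((‖c + V‖ / R : ℝ) : ℂ) * (((R / ‖c + V‖ : ℝ) : ℂ) * (c + V)) = c + V := by
              rw [← mul_assoc, ← Complex.ofReal_mul, h9, Complex.ofReal_one, one_mul]
            rw [hk3] at h10
            exact h10.symm
          rw [Complex.ofReal_sub, Complex.ofReal_one, sub_mul, one_mul, ← h1]
          ring
        have hneg : (V * conj (-c)).re < 0 := by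
          have h1 : V * conj (-c) = -(((‖c + V‖ / R - 1) * ‖c‖ ^ 2 : ℝ) : ℂ) := by
            conv_lhs => rw [hV1]
            rw [map_neg, mul_neg, mul_assoc, Complex.mul_conj, Complex.normSq_eq_norm_sq]
            push_cast
            ring
          rw [h1, Complex.neg_re, Complex.ofReal_re, hcR]
          have h2 : 0 < ‖c + V‖ / R - 1 := by
            rw [sub_pos, one_lt_div hR]
            exact hle
          have h3 : 0 < (‖c + V‖ / R - 1) * R ^ 2 := by positivity
          linarith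
        have hposi : 0 < (V * conj (-c)).re := by
          have h1 : V * conj (-c) = ∫ y, SelQ P s w c y * conj (-c) ∂μ := by
            rw [integral_mul_const]
          have hSc : Continuous fun y => SelQ P s w c y * conj (-c) :=
            (continuous_const.mul hcts).mul continuous_const
          have h2 : (V * conj (-c)).re = ∫ y, (SelQ P s w c y * conj (-c)).re ∂μ := by
            rw [h1]
            exact (integral_re (hintg _ hSc)).symm
          rw [h2]
          have hpt : ∀ y, ‖y‖ ≤ R0 → 0 < (SelQ P s w c y * conj (-c)).re := by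
            intro y hy
            have h3 := hin s hs (conj w * y) (conj w * c)
              (by rw [norm_mul, RCLike.norm_conj, hw1, one_mul]; exact hy)
              (by rw [norm_mul, RCLike.norm_conj, hw1, one_mul]; exact hcR)
            have h4 : SelQ P s w c y * conj (-c)
                = P s (conj w * y - conj w * c) * conj (-(conj w * c)) := by
              rw [SelQ, mul_sub, map_neg, map_neg, map_mul, Complex.conj_conj]
              ring
            rw [h4]
            exact h3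
          have hae : ∀ᵐ y ∂μ, 0 < (SelQ P s w c y * conj (-c)).re := by
            have h5 : ∀ᵐ y ∂μ, y ∈ closedBall (0:ℂ) R0 := by
              rw [ae_iff]; exact hμ
            filter_upwards [h5] with y hy
            exact hpt y (by simpa using hy)
          rw [integral_pos_iff_support_of_nonneg_ae (hae.mono fun y hy => hy.le)
            (hintg _ (Complex.continuous_re.comp hSc))]
          have h6 : μ (Function.support fun y => (SelQ P s w c y * conj (-c)).re) = 1 := by
            rw [← (prob_compl_eq_zero_iff₀ ?_)]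
            · refine measure_mono_null ?_ (ae_iff.1 hae)
              intro y hy
              simp only [Function.mem_support, mem_compl_iff, not_not] at hy
              show ¬ (0 < (SelQ P s w c y * conj (-c)).re)
              rw [hy]
              exact lt_irrefl 0
            · exact (Complex.continuous_re.comp hSc).measurable.nullMeasurable
                (measurableSet_singleton 0).compl
          rw [h6]
          exact one_pos
        exact absurd hposi (not_lt.2 hneg.le)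
    have h7 : w * ∫ x, P s (conj w * (x - c)) ∂μ = 0 := by rw [← hJ1, hV0]
    exact (mul_eq_zero.1 h7).resolve_left hw0
  refine ⟨s, ⟨hs.1, ?_⟩, w, c, hw1, hc1, hfirst, hsecond⟩
  -- `s < 1`
  refine lt_of_le_of_ne hs.2 fun hs1 => ?_
  have h1 := congrArg Complex.re hsecond
  rw [Complex.ofReal_re, hs1, one_mul] at h1
  rw [hs1] at hcts
  have h2 : (∫ x, (P 1 (conj w * (x - c))) ^ 2 ∂μ).re
      = ∫ x, ((P 1 (conj w * (x - c))) ^ 2).re ∂μ :=
    (integral_re (hintg _ (hcts.pow 2))).symm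
  rw [h2] at h1
  have h3 : ∫ x, (‖P 1 (conj w * (x - c))‖ ^ 2 - ((P 1 (conj w * (x - c))) ^ 2).re) ∂μ = 0 := by
    have i1 : Integrable (fun x => ‖P 1 (conj w * (x - c))‖ ^ 2) μ := hintg _ (hcts.norm.pow 2)
    have i2 : Integrable (fun x => ((P 1 (conj w * (x - c))) ^ 2).re) μ :=
      hintg _ (Complex.continuous_re.comp (hcts.pow 2))
    rw [integral_sub i1 i2, h1, sub_self]
  have h4 : ∀ z : ℂ, ‖z‖ ^ 2 - (z ^ 2).re = 2 * z.im ^ 2 := by
    intro z
    rw [← Complex.normSq_eq_norm_sq, Complex.normSq_apply, pow_two z, Complex.mul_re]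
    ring
  simp only [h4] at h3
  rw [integral_const_mul] at h3
  have h5 := hnd1 w c hw1 hc1
  linarith

end Pool.MP_eb7570_an
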