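import Pool.Agent.Lib.MP_eb7570_an.Gram
import Pool.Agent.Lib.MP_eb7570_an.Sel

/-!
MP_eb7570_an: the selection lemma for near-minimisers, in real coordinates.
Proof: Sel.selection for P s z = P1 s (z.re, z.im) + i P2 s (z.re, z.im), mu = phi^2 volume pushed to
the complex plane, frame w = a - i b or a + i b (rig a b c x = rot a b (x - c) = conj w (x - c) with
conj w = a + i b).
-/

set_option autoImplicit false

open MeasureTheory Filter Topology Metric Set
open scoped ComplexConjugate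

namespace Pool.Agent.PPW

/-- The complex plane as the Euclidean plane. -/
private noncomputable def sJ : ℂ ≃ₗᵢ[ℝ] E2 := Complex.orthonormalBasisOneI.repr

private theorem sJ0 (z : ℂ) : sJ z 0 = z.re := by
  simp [sJ]

private theorem sJ1 (z : ℂ) : sJ z 1 = z.im := by
  simp [sJ]

private theorem sJ_ext {x y : E2} (h0 : x 0 = y 0) (h1 : x 1 = y 1) : x = y := by
  ext i
  fin_cases i
  · exact h0
  · exact h1

private theorem sJ_rot (w z : ℂ) : sJ (w * z) = rot w.re w.im (sJ z) := by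
  apply sJ_ext
  · rw [sJ0, rot]
    simp [sJ0, sJ1]
  · rw [sJ1, rot]
    simp [sJ0, sJ1]
    ring

/-- The complex version of a pair. -/
private noncomputable def sP (P1 P2 : ℝ → E2 → ℝ) (s : ℝ) (z : ℂ) : ℂ :=
  (P1 s (sJ z) : ℂ) + (P2 s (sJ z) : ℂ) * Complex.I

private theorem sP_re (P1 P2 : ℝ → E2 → ℝ) (s : ℝ) (z : ℂ) :
    (sP P1 P2 s z).re = P1 s (sJ z) := by
  simp [sP]

private theorem sP_im (P1 P2 : ℝ → E2 → ℝ) (s : ℝ) (z : ℂ) :
    (sP P1 P2 s z).im = P2 s (sJ z) := by
  simp [sP]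

/-- The density. -/
private noncomputable def sdens (φ : E2 → ℝ) (x : E2) : NNReal := (φ x ^ 2).toNNReal

private noncomputable def smu (φ : E2 → ℝ) : Measure ℂ :=
  Measure.map (fun x : E2 => sJ.symm x)
    ((volume : Measure E2).withDensity fun x => (sdens φ x : ENNReal))

private theorem sdens_meas {φ : E2 → ℝ} (hφ : Continuous φ) : Measurable (sdens φ) :=
  (hφ.pow 2).measurable.real_toNNReal

private theorem smu_int {φ : E2 → ℝ} (hφ : Continuous φ) {E : Type*} [NormedAddCommGroup E]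
    [NormedSpace ℝ E] (G : ℂ → E) :
    ∫ z, G z ∂(smu φ) = ∫ x, (φ x ^ 2) • G (sJ.symm x) := by
  unfold smu
  have hemb : MeasurableEmbedding (fun x : E2 => sJ.symm x) :=
    sJ.symm.toHomeomorph.measurableEmbedding
  rw [hemb.integral_map, integral_withDensity_eq_integral_smul (sdens_meas hφ)]
  apply integral_congr_ae
  refine Eventually.of_forall fun x => ?_
  show sdens φ x • G (sJ.symm x) = _
  rw [NNReal.smul_def, sdens, Real.coe_toNNReal _ (sq_nonneg _)]

private theorem smu_prob {Ω : Set E2} {φ : E2 → ℝ} (hφ : Tc Ω φ) (h1 : Ma φ φ = 1) :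
    IsProbabilityMeasure (smu φ) := by
  have hc : Continuous φ := hφ.smooth.continuous
  have hcs : HasCompactSupport (fun x => φ x ^ 2) := by
    have h := hφ.cpt.mul_right (f' := φ)
    have e : (fun x => φ x ^ 2) = φ * φ := by
      ext x
      simp [pow_two]
    rw [e]
    exact h
  have hint : Integrable (fun x => φ x ^ 2) (volume : Measure E2) :=
    (hc.pow 2).integrable_of_hasCompactSupport hcs
  constructor
  unfold smu
  rw [Measure.map_apply sJ.symm.continuous.measurable MeasurableSet.univ, preimage_univ,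
    withDensity_apply _ MeasurableSet.univ, Measure.restrict_univ]
  have h2 : (∫⁻ x, (sdens φ x : ENNReal)) = ENNReal.ofReal (∫ x, φ x ^ 2) := by
    rw [ofReal_integral_eq_lintegral_ofReal hint (Eventually.of_forall fun x => sq_nonneg _)]
    rfl
  rw [h2, Ma_eq, h1, ENNReal.ofReal_one]

private theorem smu_supp {Ω : Set E2} {φ : E2 → ℝ} (hφ : Tc Ω φ) {R0 : ℝ}
    (hΩ : ∀ x ∈ Ω, ‖x‖ ≤ R0) : smu φ (closedBall (0 : ℂ) R0)ᶜ = 0 := by
  have hc : Continuous φ := hφ.smooth.continuous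
  unfold smu
  have hm : MeasurableSet (closedBall (0 : ℂ) R0)ᶜ := isClosed_closedBall.measurableSet.compl
  rw [Measure.map_apply sJ.symm.continuous.measurable hm,
    withDensity_apply _ (sJ.symm.continuous.measurable hm)]
  rw [setLIntegral_eq_zero (sJ.symm.continuous.measurable hm)]
  intro x hx
  have h0 : φ x = 0 := by
    apply image_eq_zero_of_notMem_tsupport
    intro h
    apply hx
    rw [mem_closedBall, dist_zero_right, LinearIsometryEquiv.norm_map]
    exact hΩ x (hφ.sub h)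
  simp [sdens, h0]

theorem selection_near {P1 P2 : ℝ → E2 → ℝ} (hP : Path (Icc (0 : ℝ) 1) P1 P2)
    (hequi : Equi (P1 0) (P2 0)) {Ω : Set E2} (hΩ : Dom Ω) :
    ∃ R : ℝ, 0 < R ∧ ∀ φ : E2 → ℝ, Tc Ω φ → Ma φ φ = 1 → En φ φ ≤ 2 →
      ∃ s ∈ Ico (0 : ℝ) 1, ∃ (a b : ℝ) (c : E2), a ^ 2 + b ^ 2 = 1 ∧ ‖c‖ ≤ R ∧
        (∫ x, P1 s (rig a b c x) * φ x ^ 2) = 0 ∧
        (∫ x, P2 s (rig a b c x) * φ x ^ 2) = 0 ∧
        (∫ x, P1 s (rig a b c x) * P2 s (rig a b c x) * φ x ^ 2) = 0 ∧
        rho s * (∫ x, P1 s (rig a b c x) ^ 2 * φ x ^ 2) =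
          ∫ x, P2 s (rig a b c x) ^ 2 * φ x ^ 2 := by
  obtain ⟨R1, hR1⟩ := hΩ.bd.subset_closedBall (0 : E2)
  set R0 : ℝ := max R1 1 with hR0
  have hR0p : 0 < R0 := lt_max_of_lt_right one_pos
  have hΩR : ∀ x ∈ Ω, ‖x‖ ≤ R0 := by
    intro x hx
    have := hR1 hx
    rw [mem_closedBall, dist_zero_right] at this
    exact this.trans (le_max_left _ _)
  obtain ⟨R, hR, hin⟩ := hP.inward hR0p
  obtain ⟨c0, hc0, hmass⟩ := hP.mass_lower R0 R
  refine ⟨R, hR, ?_⟩
  intro φ hφ h1 h2
  have hφc : Continuous φ := hφ.smooth.continuous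
  haveI := smu_prob hφ h1
  have hcs : HasCompactSupport (fun x => φ x ^ 2) := by
    have h := hφ.cpt.mul_right (f' := φ)
    have e : (fun x => φ x ^ 2) = φ * φ := by
      ext x
      simp [pow_two]
    rw [e]
    exact h
  obtain ⟨L, hL⟩ := hP.lip
  -- the frame
  have hfr : ∀ (w c : ℂ) (x : E2),
      sJ (conj w * (sJ.symm x - c)) = rig w.re (-w.im) (sJ c) x := by
    intro w c x
    rw [sJ_rot, rig, map_sub, LinearIsometryEquiv.apply_symm_apply, Complex.conj_re,
      Complex.conj_im]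
  have hunit : ∀ w : ℂ, ‖w‖ = 1 → w.re ^ 2 + (-w.im) ^ 2 = 1 := by
    intro w hw
    have h3 : ‖w‖ ^ 2 = w.re ^ 2 + w.im ^ 2 := by
      rw [← Complex.normSq_eq_norm_sq, Complex.normSq_apply]
      ring
    rw [hw] at h3
    rw [neg_sq]
    linarith
  have hrigc : ∀ (a b : ℝ) (c : E2), Continuous (rig a b c) := by
    intro a b c
    unfold rig rot
    fun_prop
  have hu1 : ∀ s ∈ Icc (0:ℝ) 1, ∀ (a b : ℝ) (c : E2), Continuous fun x => P1 s (rig a b c x) :=
    fun s hs a b c => (hL s hs).1.continuous.comp (hrigc a b c)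
  have hu2 : ∀ s ∈ Icc (0:ℝ) 1, ∀ (a b : ℝ) (c : E2), Continuous fun x => P2 s (rig a b c x) :=
    fun s hs a b c => (hL s hs).2.continuous.comp (hrigc a b c)
  have hint : ∀ u : E2 → ℝ, Continuous u → Integrable (fun x => u x * φ x ^ 2)
      (volume : Measure E2) := by
    intro u hu
    exact (hu.mul (hφc.pow 2)).integrable_of_hasCompactSupport (hcs.mul_left (f := u))
  -- the square of the norm
  have hnsq : ∀ z : ℂ, ‖z‖ ^ 2 = z.re ^ 2 + z.im ^ 2 := by
    intro z
    rw [← Complex.normSq_eq_norm_sq, Complex.normSq_apply]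
    ring
  have hI3 : ∀ s ∈ Icc (0:ℝ) 1, ∀ w c : ℂ,
      ∫ z, ‖sP P1 P2 s (conj w * (z - c))‖ ^ 2 ∂(smu φ) =
        (∫ x, P1 s (rig w.re (-w.im) (sJ c) x) ^ 2 * φ x ^ 2) +
        ∫ x, P2 s (rig w.re (-w.im) (sJ c) x) ^ 2 * φ x ^ 2 := by
    intro s hs w c
    rw [smu_int hφc, ← integral_add
      (hint (fun x => P1 s (rig w.re (-w.im) (sJ c) x) ^ 2) ((hu1 s hs _ _ _).pow 2))
      (hint (fun x => P2 s (rig w.re (-w.im) (sJ c) x) ^ 2) ((hu2 s hs _ _ _).pow 2))]
    apply integral_congr_ae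
    refine Eventually.of_forall fun x => ?_
    simp only
    rw [hnsq, sP_re, sP_im, hfr, smul_eq_mul]
    ring
  obtain ⟨s, hs, w, c, hw, hc, e1, e2⟩ := Pool.MP_eb7570_an.selection (sP P1 P2)
    (by
      have hm : MapsTo (fun p : ℝ × ℂ => ((p.1, sJ p.2) : ℝ × E2)) (Icc (0:ℝ) 1 ×ˢ univ)
          (Icc (0:ℝ) 1 ×ˢ univ) := fun p hp => ⟨hp.1, mem_univ _⟩
      have hcc : ContinuousOn (fun p : ℝ × ℂ => ((p.1, sJ p.2) : ℝ × E2))
          (Icc (0:ℝ) 1 ×ˢ univ) :=
        (continuous_fst.prodMk (sJ.continuous.comp continuous_snd)).continuousOn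
      have k1 := hP.cont1.comp hcc hm
      have k2 := hP.cont2.comp hcc hm
      exact (Complex.continuous_ofReal.comp_continuousOn k1).add
        ((Complex.continuous_ofReal.comp_continuousOn k2).mul continuousOn_const))
    (by
      intro s hs z
      apply Complex.ext
      · rw [sP_re, Complex.neg_re, sP_re, map_neg, hP.odd1 s hs]
      · rw [sP_im, Complex.neg_im, sP_im, map_neg, hP.odd2 s hs])
    (by
      intro w hw z
      have h3 : w.re ^ 2 + w.im ^ 2 = 1 := by
        have := hunit w hw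
        rwa [neg_sq] at this
      have h4 := hequi w.re w.im h3 (sJ z)
      apply Complex.ext
      · rw [sP_re, Complex.mul_re, sP_re, sP_im, sJ_rot, h4.1]
      · rw [sP_im, Complex.mul_im, sP_re, sP_im, sJ_rot, h4.2]
        ring)
    R0 R hR
    (by
      intro s hs x c hx hc
      have h3 := hin s hs (sJ x) (sJ c) (by rw [LinearIsometryEquiv.norm_map]; exact hx)
        (by rw [LinearIsometryEquiv.norm_map]; exact hc)
      rw [Complex.mul_re, sP_re, sP_im, Complex.conj_re, Complex.conj_im, map_sub]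
      rw [sJ0, sJ1] at h3
      simp only [Complex.neg_re, Complex.neg_im]
      linarith)
    (smu φ) (smu_supp hφ hΩR)
    (by
      intro s hs w c hw hc
      rw [hI3 s hs w c]
      have h3 := hmass Ω φ hΩR hφ h1 h2 s hs w.re (-w.im) (hunit w hw) (sJ c)
        (by rw [LinearIsometryEquiv.norm_map]; exact hc)
      linarith [h3.1, h3.2])
    (by
      intro w c hw hc
      have h3 := hmass Ω φ hΩR hφ h1 h2 1 (by constructor <;> norm_num) w.re (-w.im)
        (hunit w hw) (sJ c) (by rw [LinearIsometryEquiv.norm_map]; exact hc)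
      have h4 : ∫ z, (sP P1 P2 1 (conj w * (z - c))).im ^ 2 ∂(smu φ) =
          ∫ x, P2 1 (rig w.re (-w.im) (sJ c) x) ^ 2 * φ x ^ 2 := by
        rw [smu_int hφc]
        apply integral_congr_ae
        refine Eventually.of_forall fun x => ?_
        simp only
        rw [sP_im, hfr, smul_eq_mul]
        ring
      rw [h4]
      linarith [h3.1])
  have hs' : s ∈ Icc (0:ℝ) 1 := ⟨hs.1, hs.2.le⟩
  refine ⟨s, hs, w.re, -w.im, sJ c, hunit w hw, by rw [LinearIsometryEquiv.norm_map]; exact hc, ?_⟩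
  -- the real and imaginary parts of an integral
  have hpart : ∀ (u v : E2 → ℝ), Continuous u → Continuous v →
      ∫ x, (φ x ^ 2) • ((u x : ℂ) + (v x : ℂ) * Complex.I) =
        ((∫ x, u x * φ x ^ 2 : ℝ) : ℂ) + ((∫ x, v x * φ x ^ 2 : ℝ) : ℂ) * Complex.I := by
    intro u v hu hv
    rw [← integral_complex_ofReal, ← integral_complex_ofReal, ← integral_mul_const,
      ← integral_add]
    · apply integral_congr_ae
      refine Eventually.of_forall fun x => ?_
      simp only [Complex.real_smul, Complex.ofReal_mul, Complex.ofReal_pow]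
      ring
    · exact (hint u hu).ofReal
    · exact ((hint v hv).ofReal).mul_const _
  set u := fun x => P1 s (rig w.re (-w.im) (sJ c) x) with hu
  set v := fun x => P2 s (rig w.re (-w.im) (sJ c) x) with hv
  have hucont : Continuous u := hu1 s hs' _ _ _
  have hvcont : Continuous v := hu2 s hs' _ _ _
  rw [smu_int hφc] at e1
  rw [smu_int hφc, hI3 s hs' w c] at e2
  have e1' : ((∫ x, u x * φ x ^ 2 : ℝ) : ℂ) + ((∫ x, v x * φ x ^ 2 : ℝ) : ℂ) * Complex.I = 0 := by
    rw [← hpart u v hucont hvcont, ← e1]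
    apply integral_congr_ae
    refine Eventually.of_forall fun x => ?_
    simp only [sP, hfr, hu, hv]
  have e2' : ((∫ x, (u x ^ 2 - v x ^ 2) * φ x ^ 2 : ℝ) : ℂ) +
      ((∫ x, (2 * (u x * v x)) * φ x ^ 2 : ℝ) : ℂ) * Complex.I =
      ((s * ((∫ x, u x ^ 2 * φ x ^ 2) + ∫ x, v x ^ 2 * φ x ^ 2) : ℝ) : ℂ) := by
    rw [← hpart (fun x => u x ^ 2 - v x ^ 2) (fun x => 2 * (u x * v x))
      ((hucont.pow 2).sub (hvcont.pow 2)) (continuous_const.mul (hucont.mul hvcont)), ← e2]
    apply integral_congr_ae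
    refine Eventually.of_forall fun x => ?_
    simp only [sP, hfr, hu, hv]
    congr 1
    push_cast
    have hI : Complex.I ^ 2 = -1 := Complex.I_sq
    linear_combination (-(P2 s (rig w.re (-w.im) (sJ c) x) : ℂ) ^ 2) * hI
  have f1 := congrArg Complex.re e1'
  have f2 := congrArg Complex.im e1'
  have f3 := congrArg Complex.re e2'
  have f4 := congrArg Complex.im e2'
  simp only [Complex.add_re, Complex.add_im, Complex.mul_re, Complex.mul_im, Complex.ofReal_re,
    Complex.ofReal_im, Complex.I_re, Complex.I_im, Complex.zero_re, Complex.zero_im, mul_zero,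
    mul_one, sub_zero, add_zero, zero_add] at f1 f2 f3 f4
  have g3 : ∫ x, (u x ^ 2 - v x ^ 2) * φ x ^ 2 =
      (∫ x, u x ^ 2 * φ x ^ 2) - ∫ x, v x ^ 2 * φ x ^ 2 := by
    rw [← integral_sub (hint (fun x => u x ^ 2) (hucont.pow 2))
      (hint (fun x => v x ^ 2) (hvcont.pow 2))]
    apply integral_congr_ae
    refine Eventually.of_forall fun x => ?_
    simp only
    ring
  have g4 : ∫ x, (2 * (u x * v x)) * φ x ^ 2 = 2 * ∫ x, u x * v x * φ x ^ 2 := by
    rw [← integral_const_mul]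
    apply integral_congr_ae
    refine Eventually.of_forall fun x => ?_
    simp only
    ring
  refine ⟨f1, f2, ?_, ?_⟩
  · have h5 : 2 * ∫ x, u x * v x * φ x ^ 2 = 0 := by rw [← g4]; exact f4
    linarith
  · rw [g3] at f3
    have hpos : 0 < 1 + s := by linarith [hs.1]
    unfold rho
    rw [div_mul_eq_mul_div, div_eq_iff hpos.ne']
    show (1 - s) * (∫ x, u x ^ 2 * φ x ^ 2) = (∫ x, v x ^ 2 * φ x ^ 2) * (1 + s)
    linarith

end Pool.Agent.PPW
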