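import Pool.Agent.Lib.MP_eb7570_an.Form

/-!
Dual certificates: `∫ F φ²` is almost nonnegative for every near ground state `φ`.
-/

set_option autoImplicit false

open MeasureTheory Filter Topology Metric Set

namespace Pool.Agent.PPW

/-- `F` is nonnegative in mean against all near ground states of all plane domains whose first
eigenvalue is at least one, with an error at most `K √ε`. -/
def CertK (K : ℝ) (F : E2 → ℝ) : Prop :=
  ∀ Ω : Set E2, IsOpen Ω → Low 1 Ω → ∀ ε : ℝ, 0 ≤ ε → ε ≤ 1 → ∀ φ : E2 → ℝ, Tc Ω φ →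
    Ma φ φ = 1 → En φ φ ≤ 1 + ε → -(K * Real.sqrt ε) ≤ ∫ x, F x * φ x ^ 2

/-- Bound of the energy of a product. -/
theorem en_mul_le {Ω : Set E2} {φ v : E2 → ℝ} (hφ : Lc Ω φ) {C : NNReal}
    (hv : LipschitzWith C v) {M : ℝ} (hvM : ∀ x, |v x| ≤ M) :
    En (fun x => v x * φ x) (fun x => v x * φ x) ≤
      4 * (C : ℝ) ^ 2 * Ma φ φ + 2 * M ^ 2 * En φ φ := by
  have hw := hφ.mul_lip hv
  have hi1 := hw.int_en hw
  have hi2 : Integrable (fun x => φ x * φ x) (volume : Measure E2) := hφ.int_mul hφ.wt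
  have hi3 := hφ.int_en hφ
  have hrhs : 4 * (C : ℝ) ^ 2 * Ma φ φ + 2 * M ^ 2 * En φ φ =
      ∫ x, (4 * (C : ℝ) ^ 2 * (φ x * φ x) +
        2 * M ^ 2 * (pd 0 φ x * pd 0 φ x + pd 1 φ x * pd 1 φ x)) := by
    rw [integral_add (hi2.const_mul _) (hi3.const_mul _), integral_const_mul, integral_const_mul]
    rfl
  rw [hrhs]
  unfold En
  apply integral_mono_ae hi1 ((hi2.const_mul _).add (hi3.const_mul _))
  filter_upwards [ae_hasPd hv 0, ae_hasPd hv 1, hφ.hasPd 0, hφ.hasPd 1] with x a0 a1 b0 b1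
  have e0 : pd 0 (fun x => v x * φ x) x = pd 0 v x * φ x + v x * pd 0 φ x :=
    (pd_mul a0 b0).lineDeriv
  have e1 : pd 1 (fun x => v x * φ x) x = pd 1 v x * φ x + v x * pd 1 φ x :=
    (pd_mul a1 b1).lineDeriv
  show pd 0 (fun x => v x * φ x) x * pd 0 (fun x => v x * φ x) x +
    pd 1 (fun x => v x * φ x) x * pd 1 (fun x => v x * φ x) x ≤
    4 * (C : ℝ) ^ 2 * (φ x * φ x) +
        2 * M ^ 2 * (pd 0 φ x * pd 0 φ x + pd 1 φ x * pd 1 φ x)
  rw [e0, e1]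
  have c0 : pd 0 v x ^ 2 ≤ (C : ℝ) ^ 2 := sq_le_sq' (by linarith [abs_le.1 (abs_pd_le hv 0 x)])
    (abs_le.1 (abs_pd_le hv 0 x)).2
  have c1 : pd 1 v x ^ 2 ≤ (C : ℝ) ^ 2 := sq_le_sq' (by linarith [abs_le.1 (abs_pd_le hv 1 x)])
    (abs_le.1 (abs_pd_le hv 1 x)).2
  have cv : v x ^ 2 ≤ M ^ 2 := sq_le_sq' (by linarith [abs_le.1 (hvM x)]) (abs_le.1 (hvM x)).2
  have d0 : pd 0 v x ^ 2 * φ x ^ 2 ≤ (C : ℝ) ^ 2 * φ x ^ 2 :=
    mul_le_mul_of_nonneg_right c0 (sq_nonneg _)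
  have d1 : pd 1 v x ^ 2 * φ x ^ 2 ≤ (C : ℝ) ^ 2 * φ x ^ 2 :=
    mul_le_mul_of_nonneg_right c1 (sq_nonneg _)
  have d2 : v x ^ 2 * pd 0 φ x ^ 2 ≤ M ^ 2 * pd 0 φ x ^ 2 :=
    mul_le_mul_of_nonneg_right cv (sq_nonneg _)
  have d3 : v x ^ 2 * pd 1 φ x ^ 2 ≤ M ^ 2 * pd 1 φ x ^ 2 :=
    mul_le_mul_of_nonneg_right cv (sq_nonneg _)
  nlinarith [sq_nonneg (pd 0 v x * φ x - v x * pd 0 φ x),
    sq_nonneg (pd 1 v x * φ x - v x * pd 1 φ x)]

/-- The weak equation of a near ground state, tested with `v φ`. -/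
theorem near_test {Ω : Set E2} (hΩ : IsOpen Ω) (hlow : Low 1 Ω) {ε : ℝ} (_hε : 0 ≤ ε)
    (hε1 : ε ≤ 1) {φ : E2 → ℝ} (hφ : Tc Ω φ) (hm : Ma φ φ = 1) (hE : En φ φ ≤ 1 + ε)
    {v : E2 → ℝ} {C : NNReal} (hv : LipschitzWith C v) {M : ℝ} (hvM : ∀ x, |v x| ≤ M) :
    |En φ (fun x => v x * φ x) - Ma φ (fun x => v x * φ x)| ≤
      2 * (M + C) * Real.sqrt ε := by
  have hφL := hφ.toLc
  have hw := hφL.mul_lip hv
  have h1 := hlow.cs hΩ hφL hw
  rw [one_mul, one_mul, one_mul] at h1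
  refine h1.trans ?_
  have hM0 : 0 ≤ M := (abs_nonneg _).trans (hvM 0)
  have hC0 : (0 : ℝ) ≤ C := C.coe_nonneg
  have h2 : Real.sqrt (En φ φ - Ma φ φ) ≤ Real.sqrt ε := by
    apply Real.sqrt_le_sqrt
    rw [hm]
    linarith
  have h3 : Real.sqrt (En (fun x => v x * φ x) (fun x => v x * φ x) -
      Ma (fun x => v x * φ x) (fun x => v x * φ x)) ≤ 2 * (M + C) := by
    apply Real.sqrt_le_iff.2
    refine ⟨by positivity, ?_⟩
    have h4 := en_mul_le hφL hv hvM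
    have h5 := Ma_nonneg (fun x => v x * φ x)
    rw [hm] at h4
    have h6 : 2 * M ^ 2 * En φ φ ≤ 2 * M ^ 2 * 2 :=
      mul_le_mul_of_nonneg_left (by linarith) (by positivity)
    nlinarith [mul_nonneg hM0 hC0]
  calc Real.sqrt (En φ φ - Ma φ φ) * Real.sqrt (En (fun x => v x * φ x) (fun x => v x * φ x) -
      Ma (fun x => v x * φ x) (fun x => v x * φ x))
      ≤ Real.sqrt ε * (2 * (M + C)) := mul_le_mul h2 h3 (Real.sqrt_nonneg _) (Real.sqrt_nonneg _)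
    _ = 2 * (M + C) * Real.sqrt ε := by ring

/-- Integration by parts of a Lipschitz function against `φ²`. -/
theorem parts_sq {Ω : Set E2} {φ : E2 → ℝ} (hφ : Tc Ω φ) {U : E2 → ℝ} {C : NNReal}
    (hU : LipschitzWith C U) (i : Fin 2) :
    ∫ x, pd i U x * φ x ^ 2 = - ∫ x, U x * (2 * φ x * pd i φ x) := by
  have hφL := hφ.toLc
  obtain ⟨D, hD⟩ := hφL.lip
  have hsq : Lc Ω (fun x => φ x * φ x) := hφL.mul_lip hD
  obtain ⟨D2, hD2⟩ := hsq.lip
  have h1 := hU.integral_lineDeriv_mul_eq (μ := (volume : Measure E2)) hD2 hsq.cpt (ev i)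
  have h2 : ∫ x, pd i U x * φ x ^ 2 = ∫ x, lineDeriv ℝ U x (ev i) * (φ x * φ x) := by
    apply integral_congr_ae
    refine Eventually.of_forall fun x => ?_
    show pd i U x * φ x ^ 2 = pd i U x * (φ x * φ x)
    rw [pow_two]
  rw [h2, h1, ← integral_neg]
  apply integral_congr_ae
  filter_upwards [ae_hasPd hD i] with x hx
  show lineDeriv ℝ (fun x => φ x * φ x) x (-ev i) * U x = -(U x * (2 * φ x * pd i φ x))
  rw [lineDeriv_neg, (pd_mul hx hx).lineDeriv]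
  ring

private theorem int4 {a b c d : E2 → ℝ} (ha : Integrable a (volume : Measure E2))
    (hb : Integrable b (volume : Measure E2)) (hc : Integrable c (volume : Measure E2))
    (hd : Integrable d (volume : Measure E2)) :
    ∫ x, (a x + b x + c x + d x) = (∫ x, a x) + (∫ x, b x) + (∫ x, c x) + ∫ x, d x := by
  have h1 : ∫ x, (a x + b x + c x + d x) = (∫ x, (a x + b x + c x)) + ∫ x, d x :=
    integral_add ((ha.add hb).add hc) hd
  have h2 : ∫ x, (a x + b x + c x) = (∫ x, (a x + b x)) + ∫ x, c x :=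
    integral_add (ha.add hb) hc
  have h3 : ∫ x, (a x + b x) = (∫ x, a x) + ∫ x, b x := integral_add ha hb
  rw [h1, h2, h3]

private theorem int5 {a b c d e : E2 → ℝ} (ha : Integrable a (volume : Measure E2))
    (hb : Integrable b (volume : Measure E2)) (hc : Integrable c (volume : Measure E2))
    (hd : Integrable d (volume : Measure E2)) (he : Integrable e (volume : Measure E2)) :
    ∫ x, ((a x - b x - c x + d x) + e x) =
      ((∫ x, a x) - (∫ x, b x) - (∫ x, c x) + ∫ x, d x) + ∫ x, e x := by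
  have h0 : ∫ x, ((a x - b x - c x + d x) + e x) = (∫ x, (a x - b x - c x + d x)) + ∫ x, e x :=
    integral_add (((ha.sub hb).sub hc).add hd) he
  have h1 : ∫ x, (a x - b x - c x + d x) = (∫ x, (a x - b x - c x)) + ∫ x, d x :=
    integral_add ((ha.sub hb).sub hc) hd
  have h2 : ∫ x, (a x - b x - c x) = (∫ x, (a x - b x)) - ∫ x, c x :=
    integral_sub (ha.sub hb) hc
  have h3 : ∫ x, (a x - b x) = (∫ x, a x) - ∫ x, b x := integral_sub ha hb
  rw [h0, h1, h2, h3]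

/-- THE CERTIFICATE LEMMA. -/
theorem cert_of {v q F : E2 → ℝ} {U0 U1 : E2 → ℝ} {C D0 D1 : NNReal} {M : ℝ}
    (hv : LipschitzWith C v) (hv0 : ∀ x, 0 ≤ v x) (hvM : ∀ x, v x ≤ M)
    (hU0 : LipschitzWith D0 U0) (hU1 : LipschitzWith D1 U1) (hq : Wt q) (hF : Wt F)
    (hq0 : ∀ᵐ x ∂(volume : Measure E2), 0 ≤ q x)
    (hN : ∀ᵐ x ∂(volume : Measure E2),
      (U0 x - pd 0 v x / 2) ^ 2 + (U1 x - pd 1 v x / 2) ^ 2 ≤ v x * q x)
    (hFE : ∀ᵐ x ∂(volume : Measure E2), v x + pd 0 U0 x + pd 1 U1 x + q x ≤ F x) :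
    CertK (2 * (M + C)) F := by
  intro Ω hΩ hlow ε hε hε1 φ hφ hm hE
  have hφL := hφ.toLc
  have hvM' : ∀ x, |v x| ≤ M := fun x => by rw [abs_of_nonneg (hv0 x)]; exact hvM x
  have htest := near_test hΩ hlow hε hε1 hφ hm hE hv hvM'
  have hup := (abs_le.1 htest).2
  have hw := hφL.mul_lip hv
  -- weights
  have wφ : Wt φ := hφL.wt
  have wv : Wt v := Wt.of_lip hv
  have wU0 : Wt U0 := Wt.of_lip hU0
  have wU1 : Wt U1 := Wt.of_lip hU1
  have wp0 : Wt (fun x => pd 0 φ x) := hφL.wtd 0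
  have wp1 : Wt (fun x => pd 1 φ x) := hφL.wtd 1
  have wv0 : Wt (fun x => pd 0 v x) := Wt.pd hv 0
  have wv1 : Wt (fun x => pd 1 v x) := Wt.pd hv 1
  have wu0 : Wt (fun x => pd 0 U0 x) := Wt.pd hU0 0
  have wu1 : Wt (fun x => pd 1 U1 x) := Wt.pd hU1 1
  -- integrability of weight times φ ^ 2
  have isq : ∀ g : E2 → ℝ, Wt g → Integrable (fun x => g x * φ x ^ 2) (volume : Measure E2) := by
    intro g hg
    have h := hφL.int_mul (hg.mul wφ)
    refine h.congr (Eventually.of_forall fun x => ?_)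
    show g x * φ x * φ x = g x * φ x ^ 2
    ring
  -- the test identity
  have hid : En φ (fun x => v x * φ x) - Ma φ (fun x => v x * φ x) =
      ∫ x, ((pd 0 φ x * (pd 0 v x * φ x + v x * pd 0 φ x) +
        pd 1 φ x * (pd 1 v x * φ x + v x * pd 1 φ x)) - v x * φ x ^ 2) := by
    unfold En Ma
    rw [← integral_sub (hφL.int_en hw) (hw.int_mul wφ)]
    apply integral_congr_ae
    filter_upwards [ae_hasPd hv 0, ae_hasPd hv 1, hφL.hasPd 0, hφL.hasPd 1] with x a0 a1 b0 b1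
    show (pd 0 φ x * pd 0 (fun x => v x * φ x) x + pd 1 φ x * pd 1 (fun x => v x * φ x) x) -
      φ x * (v x * φ x) = _
    have e0 : pd 0 (fun x => v x * φ x) x = pd 0 v x * φ x + v x * pd 0 φ x :=
      (pd_mul a0 b0).lineDeriv
    have e1 : pd 1 (fun x => v x * φ x) x = pd 1 v x * φ x + v x * pd 1 φ x :=
      (pd_mul a1 b1).lineDeriv
    rw [e0, e1]
    ring
  have hip0 := parts_sq hφ hU0 0
  have hip1 := parts_sq hφ hU1 1
  -- lower bound of the integral of F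
  have hF1 : ∫ x, (v x + pd 0 U0 x + pd 1 U1 x + q x) * φ x ^ 2 ≤ ∫ x, F x * φ x ^ 2 := by
    apply integral_mono_ae (isq _ (((wv.add wu0).add wu1).add hq)) (isq _ hF)
    filter_upwards [hFE] with x hx
    exact mul_le_mul_of_nonneg_right hx (sq_nonneg _)
  have iA : Integrable (fun x => v x * φ x ^ 2) (volume : Measure E2) := isq _ wv
  have iB : Integrable (fun x => pd 0 U0 x * φ x ^ 2) (volume : Measure E2) := isq _ wu0
  have iC : Integrable (fun x => pd 1 U1 x * φ x ^ 2) (volume : Measure E2) := isq _ wu1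
  have iD : Integrable (fun x => q x * φ x ^ 2) (volume : Measure E2) := isq _ hq
  have hsplit : ∫ x, (v x + pd 0 U0 x + pd 1 U1 x + q x) * φ x ^ 2 =
      (∫ x, v x * φ x ^ 2) + (∫ x, pd 0 U0 x * φ x ^ 2) + (∫ x, pd 1 U1 x * φ x ^ 2) +
        ∫ x, q x * φ x ^ 2 := by
    rw [← int4 iA iB iC iD]
    apply integral_congr_ae
    refine Eventually.of_forall fun x => ?_
    show (v x + pd 0 U0 x + pd 1 U1 x + q x) * φ x ^ 2 =
      v x * φ x ^ 2 + pd 0 U0 x * φ x ^ 2 + pd 1 U1 x * φ x ^ 2 + q x * φ x ^ 2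
    ring
  -- the pointwise inequality
  have iG0 : Integrable (fun x => U0 x * (2 * φ x * pd 0 φ x)) (volume : Measure E2) := by
    have h := hφL.int_mul_pd 0 (wU0.mul (wφ.smul 2))
    refine h.congr (Eventually.of_forall fun x => ?_)
    show U0 x * (2 * φ x) * pd 0 φ x = U0 x * (2 * φ x * pd 0 φ x)
    ring
  have iG1 : Integrable (fun x => U1 x * (2 * φ x * pd 1 φ x)) (volume : Measure E2) := by
    have h := hφL.int_mul_pd 1 (wU1.mul (wφ.smul 2))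
    refine h.congr (Eventually.of_forall fun x => ?_)
    show U1 x * (2 * φ x) * pd 1 φ x = U1 x * (2 * φ x * pd 1 φ x)
    ring
  have iT : Integrable (fun x => (pd 0 φ x * (pd 0 v x * φ x + v x * pd 0 φ x) +
        pd 1 φ x * (pd 1 v x * φ x + v x * pd 1 φ x)) - v x * φ x ^ 2)
      (volume : Measure E2) := by
    have h0 := hφL.int_mul_pd 0 ((wv0.mul wφ).add (wv.mul wp0))
    have h1 := hφL.int_mul_pd 1 ((wv1.mul wφ).add (wv.mul wp1))
    refine ((h0.add h1).sub iA).congr (Eventually.of_forall fun x => ?_)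
    show ((pd 0 v x * φ x + v x * pd 0 φ x) * pd 0 φ x +
      (pd 1 v x * φ x + v x * pd 1 φ x) * pd 1 φ x) - v x * φ x ^ 2 = _
    ring
  have hfin : 0 ≤ ∫ x, ((v x * φ x ^ 2 - U0 x * (2 * φ x * pd 0 φ x) -
      U1 x * (2 * φ x * pd 1 φ x) + q x * φ x ^ 2) +
      ((pd 0 φ x * (pd 0 v x * φ x + v x * pd 0 φ x) +
        pd 1 φ x * (pd 1 v x * φ x + v x * pd 1 φ x)) - v x * φ x ^ 2)) := by
    apply integral_nonneg_of_ae
    filter_upwards [hq0, hN] with x hqx hNx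
    show (0 : ℝ) ≤ _
    have hvx := hv0 x
    set a := pd 0 φ x
    set b := pd 1 φ x
    set n0 := U0 x - pd 0 v x / 2 with hn0
    set n1 := U1 x - pd 1 v x / 2 with hn1
    have e : (v x * φ x ^ 2 - U0 x * (2 * φ x * a) - U1 x * (2 * φ x * b) + q x * φ x ^ 2) +
      ((a * (pd 0 v x * φ x + v x * a) + b * (pd 1 v x * φ x + v x * b)) - v x * φ x ^ 2) =
      q x * φ x ^ 2 + v x * (a ^ 2 + b ^ 2) - 2 * (φ x * (n0 * a + n1 * b)) := by
      rw [hn0, hn1]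
      ring
    rw [e]
    have hA : 0 ≤ q x * φ x ^ 2 := mul_nonneg hqx (sq_nonneg _)
    have hB : 0 ≤ v x * (a ^ 2 + b ^ 2) := mul_nonneg hvx (by positivity)
    have hcs : (n0 * a + n1 * b) ^ 2 ≤ (n0 ^ 2 + n1 ^ 2) * (a ^ 2 + b ^ 2) := by
      nlinarith [sq_nonneg (n0 * b - n1 * a)]
    have hT : (φ x * (n0 * a + n1 * b)) ^ 2 ≤ (q x * φ x ^ 2) * (v x * (a ^ 2 + b ^ 2)) := by
      have h1 : (n0 ^ 2 + n1 ^ 2) * (a ^ 2 + b ^ 2) ≤ (v x * q x) * (a ^ 2 + b ^ 2) :=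
        mul_le_mul_of_nonneg_right hNx (by positivity)
      have h2 := mul_le_mul_of_nonneg_left (hcs.trans h1) (sq_nonneg (φ x))
      nlinarith
    have hAB : (2 * (φ x * (n0 * a + n1 * b))) ^ 2 ≤
        (q x * φ x ^ 2 + v x * (a ^ 2 + b ^ 2)) ^ 2 := by
      nlinarith [sq_nonneg (q x * φ x ^ 2 - v x * (a ^ 2 + b ^ 2))]
    have h3 := abs_le_of_sq_le_sq hAB (by positivity)
    linarith [(abs_le.1 h3).2, le_abs_self (2 * (φ x * (n0 * a + n1 * b)))]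
  have hsum : ∫ x, ((v x * φ x ^ 2 - U0 x * (2 * φ x * pd 0 φ x) -
      U1 x * (2 * φ x * pd 1 φ x) + q x * φ x ^ 2) +
      ((pd 0 φ x * (pd 0 v x * φ x + v x * pd 0 φ x) +
        pd 1 φ x * (pd 1 v x * φ x + v x * pd 1 φ x)) - v x * φ x ^ 2)) =
      ((∫ x, v x * φ x ^ 2) - (∫ x, U0 x * (2 * φ x * pd 0 φ x)) -
        (∫ x, U1 x * (2 * φ x * pd 1 φ x)) + ∫ x, q x * φ x ^ 2) +
      ∫ x, ((pd 0 φ x * (pd 0 v x * φ x + v x * pd 0 φ x) +
        pd 1 φ x * (pd 1 v x * φ x + v x * pd 1 φ x)) - v x * φ x ^ 2) :=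
    int5 iA iG0 iG1 iD iT
  rw [hsum, ← hid] at hfin
  rw [hsplit, hip0, hip1] at hF1
  linarith

/-! ### The cone of certified functions -/

theorem CertK.mono {K K' : ℝ} {F : E2 → ℝ} (h : CertK K F) (hK : K ≤ K') : CertK K' F := by
  intro Ω hΩ hlow ε hε hε1 φ hφ hm hE
  have h1 := h Ω hΩ hlow ε hε hε1 φ hφ hm hE
  have h2 := mul_le_mul_of_nonneg_right hK (Real.sqrt_nonneg ε)
  linarith

/-- integrability of a weight times the square of a test function -/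
theorem int_wt_sq {Ω : Set E2} {φ g : E2 → ℝ} (hφ : Lc Ω φ) (hg : Wt g) :
    Integrable (fun x => g x * φ x ^ 2) (volume : Measure E2) := by
  have h := hφ.int_mul (hg.mul hφ.wt)
  refine h.congr (Eventually.of_forall fun x => ?_)
  show g x * φ x * φ x = g x * φ x ^ 2
  ring

theorem CertK.mono_fun {K : ℝ} {F G : E2 → ℝ} (h : CertK K F) (hF : Wt F) (hG : Wt G)
    (hFG : ∀ᵐ x ∂(volume : Measure E2), F x ≤ G x) : CertK K G := by
  intro Ω hΩ hlow ε hε hε1 φ hφ hm hE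
  refine (h Ω hΩ hlow ε hε hε1 φ hφ hm hE).trans ?_
  apply integral_mono_ae (int_wt_sq hφ.toLc hF) (int_wt_sq hφ.toLc hG)
  filter_upwards [hFG] with x hx
  exact mul_le_mul_of_nonneg_right hx (sq_nonneg _)

theorem CertK.add {K L : ℝ} {F G : E2 → ℝ} (hF : CertK K F) (hG : CertK L G) (wF : Wt F)
    (wG : Wt G) : CertK (K + L) (fun x => F x + G x) := by
  intro Ω hΩ hlow ε hε hε1 φ hφ hm hE
  have h1 := hF Ω hΩ hlow ε hε hε1 φ hφ hm hE
  have h2 := hG Ω hΩ hlow ε hε hε1 φ hφ hm hE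
  have h3 : ∫ x, (F x + G x) * φ x ^ 2 = (∫ x, F x * φ x ^ 2) + ∫ x, G x * φ x ^ 2 := by
    rw [← integral_add (int_wt_sq hφ.toLc wF) (int_wt_sq hφ.toLc wG)]
    apply integral_congr_ae
    exact Eventually.of_forall fun x => add_mul _ _ _
  rw [h3]
  linarith

theorem CertK.smul {K : ℝ} {F : E2 → ℝ} (hF : CertK K F) {c : ℝ} (hc : 0 ≤ c) :
    CertK (c * K) (fun x => c * F x) := by
  intro Ω hΩ hlow ε hε hε1 φ hφ hm hE
  have h1 := hF Ω hΩ hlow ε hε hε1 φ hφ hm hE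
  have h3 : ∫ x, (c * F x) * φ x ^ 2 = c * ∫ x, F x * φ x ^ 2 := by
    rw [← integral_const_mul]
    apply integral_congr_ae
    exact Eventually.of_forall fun x => mul_assoc _ _ _
  rw [h3]
  have h2 := mul_le_mul_of_nonneg_left h1 hc
  linarith

/-- Convex combinations keep the constant. -/
theorem CertK.conv {K : ℝ} {F G : E2 → ℝ} (hF : CertK K F) (hG : CertK K G) (wF : Wt F)
    (wG : Wt G) {t : ℝ} (h0 : 0 ≤ t) (h1 : t ≤ 1) :
    CertK K (fun x => (1 - t) * F x + t * G x) := by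
  have h := (hF.smul (sub_nonneg.2 h1)).add (hG.smul h0) (wF.smul _) (wG.smul _)
  refine h.mono (le_of_eq ?_)
  ring

end Pool.Agent.PPW
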