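import Pool.Agent.Lib.MP_eb7570_an.CDefs
import Pool.Agent.Lib.MP_eb7570_an.Cert

/-!
MP_eb7570_an: trial functions P * phi.

En_trial: product rule a.e.: |grad(P u)|^2 = P^2|grad u|^2 + 2 P u grad P . grad u + |grad P|^2 u^2
and grad u . grad(P^2 u) = P^2 |grad u|^2 + 2 P u grad P . grad u.
Near.En_trial_le: Low.cs for (phi, P^2 phi), En(P^2 phi) <= 2 B^4 En phi phi + 8 B^2 L^2.
-/

set_option autoImplicit false

open MeasureTheory Filter Topology Metric Set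

namespace Pool.Agent.PPW

private theorem sq_eq (P u : E2 → ℝ) : (fun x => P x ^ 2 * u x) = fun x => P x * (P x * u x) := by
  funext x
  ring

private theorem wt_gsq {P : E2 → ℝ} {L : NNReal} (hP : LipschitzWith L P) :
    Wt (fun x => gsq P x) := (Wt.pd hP 0).sq.add (Wt.pd hP 1).sq

theorem En_trial {Ω : Set E2} {P u : E2 → ℝ} {L : NNReal} (hP : LipschitzWith L P)
    (hu : Lc Ω u) :
    Lc Ω (fun x => P x ^ 2 * u x) ∧ Lc Ω (fun x => P x * u x) ∧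
    En (fun x => P x * u x) (fun x => P x * u x) =
      (∫ x, gsq P x * u x ^ 2) + En u (fun x => P x ^ 2 * u x) := by
  have h1 : Lc Ω (fun x => P x * u x) := hu.mul_lip hP
  have h2 : Lc Ω (fun x => P x ^ 2 * u x) := by
    rw [sq_eq]
    exact h1.mul_lip hP
  refine ⟨h2, h1, ?_⟩
  have i1 := int_wt_sq hu (wt_gsq hP)
  have i2 := hu.int_en h2
  unfold En
  rw [← integral_add i1 i2]
  apply integral_congr_ae
  filter_upwards [ae_hasPd hP 0, ae_hasPd hP 1, hu.hasPd 0, hu.hasPd 1] with x a0 a1 b0 b1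
  have e0 : pd 0 (fun x => P x * u x) x = pd 0 P x * u x + P x * pd 0 u x :=
    (pd_mul a0 b0).lineDeriv
  have e1 : pd 1 (fun x => P x * u x) x = pd 1 P x * u x + P x * pd 1 u x :=
    (pd_mul a1 b1).lineDeriv
  have d0 : pd 0 (fun x => P x ^ 2 * u x) x =
      pd 0 P x * (P x * u x) + P x * (pd 0 P x * u x + P x * pd 0 u x) := by
    rw [sq_eq]
    exact (pd_mul a0 (pd_mul a0 b0)).lineDeriv
  have d1 : pd 1 (fun x => P x ^ 2 * u x) x =
      pd 1 P x * (P x * u x) + P x * (pd 1 P x * u x + P x * pd 1 u x) := by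
    rw [sq_eq]
    exact (pd_mul a1 (pd_mul a1 b1)).lineDeriv
  show pd 0 (fun x => P x * u x) x * pd 0 (fun x => P x * u x) x +
    pd 1 (fun x => P x * u x) x * pd 1 (fun x => P x * u x) x =
    gsq P x * u x ^ 2 + (pd 0 u x * pd 0 (fun x => P x ^ 2 * u x) x +
      pd 1 u x * pd 1 (fun x => P x ^ 2 * u x) x)
  rw [e0, e1, d0, d1]
  unfold gsq
  ring

theorem Near.En_trial_le {Ω : Set E2} (hΩ : Dom Ω) (h1 : Low 1 Ω) {ε : ℝ} (h0 : 0 ≤ ε)
    (hε1 : ε ≤ 1) {φ P : E2 → ℝ} {L : NNReal} {B : ℝ} (hP : LipschitzWith L P)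
    (hPB : ∀ x ∈ Ω, |P x| ≤ B) (hφ : Near Ω ε φ) :
    En (fun x => P x * φ x) (fun x => P x * φ x) ≤
      (∫ x, gsq P x * φ x ^ 2) + (∫ x, P x ^ 2 * φ x ^ 2) +
        4 * (B + L) ^ 2 * Real.sqrt ε := by
  have hφL := hφ.tst.toLc
  have hm := hφ.nrm
  have hE := hφ.dir
  obtain ⟨l2, l1, hen⟩ := En_trial hP hφL
  rw [hen]
  have hB0 : 0 ≤ B := by
    obtain ⟨x, hx⟩ := hΩ.ne
    exact (abs_nonneg _).trans (hPB x hx)
  have hL0 : (0 : ℝ) ≤ L := L.coe_nonneg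
  -- Cauchy Schwarz
  have hcs := h1.cs hΩ.op hφL l2
  rw [one_mul, one_mul, one_mul] at hcs
  have hMa : Ma φ (fun x => P x ^ 2 * φ x) = ∫ x, P x ^ 2 * φ x ^ 2 := by
    unfold Ma
    apply integral_congr_ae
    refine Eventually.of_forall fun x => ?_
    show φ x * (P x ^ 2 * φ x) = P x ^ 2 * φ x ^ 2
    ring
  have h2 : Real.sqrt (En φ φ - Ma φ φ) ≤ Real.sqrt ε := by
    apply Real.sqrt_le_sqrt
    rw [hm]
    linarith
  -- energy of P ^ 2 * φ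
  have i1 : Integrable (fun x => φ x * φ x) (volume : Measure E2) := hφL.int_mul hφL.wt
  have i2 := hφL.int_en hφL
  have hen2 : En (fun x => P x ^ 2 * φ x) (fun x => P x ^ 2 * φ x) ≤
      16 * B ^ 2 * (L : ℝ) ^ 2 * Ma φ φ + 2 * B ^ 4 * En φ φ := by
    have hrhs : 16 * B ^ 2 * (L : ℝ) ^ 2 * Ma φ φ + 2 * B ^ 4 * En φ φ =
        ∫ x, (16 * B ^ 2 * (L : ℝ) ^ 2 * (φ x * φ x) +
          2 * B ^ 4 * (pd 0 φ x * pd 0 φ x + pd 1 φ x * pd 1 φ x)) := by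
      rw [integral_add (i1.const_mul _) (i2.const_mul _), integral_const_mul, integral_const_mul]
      rfl
    rw [hrhs]
    unfold En
    apply integral_mono_ae (l2.int_en l2) ((i1.const_mul _).add (i2.const_mul _))
    filter_upwards [ae_hasPd hP 0, ae_hasPd hP 1, hφL.hasPd 0, hφL.hasPd 1] with x a0 a1 b0 b1
    have d0 : pd 0 (fun x => P x ^ 2 * φ x) x =
        pd 0 P x * (P x * φ x) + P x * (pd 0 P x * φ x + P x * pd 0 φ x) := by
      rw [sq_eq]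
      exact (pd_mul a0 (pd_mul a0 b0)).lineDeriv
    have d1 : pd 1 (fun x => P x ^ 2 * φ x) x =
        pd 1 P x * (P x * φ x) + P x * (pd 1 P x * φ x + P x * pd 1 φ x) := by
      rw [sq_eq]
      exact (pd_mul a1 (pd_mul a1 b1)).lineDeriv
    show pd 0 (fun x => P x ^ 2 * φ x) x * pd 0 (fun x => P x ^ 2 * φ x) x +
      pd 1 (fun x => P x ^ 2 * φ x) x * pd 1 (fun x => P x ^ 2 * φ x) x ≤
      16 * B ^ 2 * (L : ℝ) ^ 2 * (φ x * φ x) +
          2 * B ^ 4 * (pd 0 φ x * pd 0 φ x + pd 1 φ x * pd 1 φ x)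
    rw [d0, d1]
    by_cases hx : x ∈ tsupport φ
    · have hxB : |P x| ≤ B := hPB x (hφ.tst.sub hx)
      have cB : P x ^ 2 ≤ B ^ 2 := by
        rw [← sq_abs]
        exact pow_le_pow_left₀ (abs_nonneg _) hxB 2
      have c0 : pd 0 P x ^ 2 ≤ (L : ℝ) ^ 2 := by
        rw [← sq_abs]
        exact pow_le_pow_left₀ (abs_nonneg _) (abs_pd_le hP 0 x) 2
      have c1 : pd 1 P x ^ 2 ≤ (L : ℝ) ^ 2 := by
        rw [← sq_abs]
        exact pow_le_pow_left₀ (abs_nonneg _) (abs_pd_le hP 1 x) 2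
      have f0 : P x ^ 2 * pd 0 P x ^ 2 ≤ B ^ 2 * (L : ℝ) ^ 2 :=
        mul_le_mul cB c0 (sq_nonneg _) (sq_nonneg _)
      have f1 : P x ^ 2 * pd 1 P x ^ 2 ≤ B ^ 2 * (L : ℝ) ^ 2 :=
        mul_le_mul cB c1 (sq_nonneg _) (sq_nonneg _)
      have f2 : P x ^ 2 * P x ^ 2 ≤ B ^ 2 * B ^ 2 :=
        mul_le_mul cB cB (sq_nonneg _) (sq_nonneg _)
      have k0 := mul_le_mul_of_nonneg_right f0 (sq_nonneg (φ x))
      have k1 := mul_le_mul_of_nonneg_right f1 (sq_nonneg (φ x))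
      have k2 := mul_le_mul_of_nonneg_right f2 (sq_nonneg (pd 0 φ x))
      have k3 := mul_le_mul_of_nonneg_right f2 (sq_nonneg (pd 1 φ x))
      have g0 : ∀ p d f e : ℝ, (d * (p * f) + p * (d * f + p * e)) *
          (d * (p * f) + p * (d * f + p * e)) ≤
          8 * (p ^ 2 * d ^ 2 * f ^ 2) + 2 * (p ^ 2 * p ^ 2 * e ^ 2) := by
        intro p d f e
        nlinarith [sq_nonneg (2 * (p * d * f) - p * p * e)]
      have t0 := g0 (P x) (pd 0 P x) (φ x) (pd 0 φ x)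
      have t1 := g0 (P x) (pd 1 P x) (φ x) (pd 1 φ x)
      nlinarith
    · rw [image_eq_zero_of_notMem_tsupport hx, pd_zero_of_notMem hx, pd_zero_of_notMem hx]
      norm_num
  have h3 : Real.sqrt (En (fun x => P x ^ 2 * φ x) (fun x => P x ^ 2 * φ x) -
      Ma (fun x => P x ^ 2 * φ x) (fun x => P x ^ 2 * φ x)) ≤ 4 * (B + L) ^ 2 := by
    apply Real.sqrt_le_iff.2
    refine ⟨by positivity, ?_⟩
    have h5 := Ma_nonneg (fun x => P x ^ 2 * φ x)
    rw [hm] at hen2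
    have h6 : 2 * B ^ 4 * En φ φ ≤ 2 * B ^ 4 * 2 :=
      mul_le_mul_of_nonneg_left (by linarith) (by positivity)
    have h7 : B ^ 2 ≤ (B + L) ^ 2 := by
      apply pow_le_pow_left₀ hB0
      linarith
    have h10 : B ^ 2 * B ^ 2 ≤ (B + L) ^ 2 * (B + L) ^ 2 :=
      mul_le_mul h7 h7 (sq_nonneg _) (sq_nonneg _)
    have h8 : 4 * (B * L) ≤ (B + L) ^ 2 := by nlinarith [sq_nonneg (B - L)]
    have h9 : 4 * (B * L) * (4 * (B * L)) ≤ (B + L) ^ 2 * (B + L) ^ 2 :=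
      mul_le_mul h8 h8 (by positivity) (sq_nonneg _)
    nlinarith
  have h4 : Real.sqrt (En φ φ - Ma φ φ) * Real.sqrt (En (fun x => P x ^ 2 * φ x)
      (fun x => P x ^ 2 * φ x) - Ma (fun x => P x ^ 2 * φ x) (fun x => P x ^ 2 * φ x)) ≤
      Real.sqrt ε * (4 * (B + L) ^ 2) := mul_le_mul h2 h3 (Real.sqrt_nonneg _) (Real.sqrt_nonneg _)
  have h5 := (abs_le.1 (hcs.trans h4)).2
  rw [hMa] at h5
  linarith

end Pool.Agent.PPW
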