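import Pool.Agent.Lib.MP_eb7570_an.CertLem
import Pool.Agent.Lib.MP_eb7570_an.Trial
import Pool.Agent.Lib.MP_eb7570_an.SelNear
import Pool.Agent.Lib.MP_eb7570_an.Poinc

/-!
MP_eb7570_an: the abstract theorem: a certified admissible family bounds the sum of the second and
third eigenvalues of every domain.
Proof. Dilate so that lamk 1 = 1 (lamk_smul, lamk_one_pos). For eps in (0,1] take a near-minimiser phi
(exists_near), the selection (s, a, b, c), u2 = P1(rig) phi, u3 = P2(rig) phi. B = int P2^2 phi^2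
= rho int P1^2 phi^2 >= c0. sum_three_le: 1 + lamk 2 + lamk 3 <= (1 + eps) + En u2/Ma u2 + En u3/Ma u3;
Near.En_trial_le: En u_i <= A_i + B_i + K' sqrt eps. Cert (rigid motion): alpha B + beta B - rho A1 - A2
>= - K sqrt eps. Hence lamk 2 + lamk 3 <= 2 + C + eps + (K + 2 K') sqrt eps / c0, let eps -> 0.
-/

set_option autoImplicit false

open MeasureTheory Filter Topology Metric Set

namespace Pool.Agent.PPW

private theorem a_rot_norm {a b : ℝ} (hab : a ^ 2 + b ^ 2 = 1) (x : E2) : ‖rot a b x‖ = ‖x‖ := by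
  have h : ‖rot a b x‖ ^ 2 = ‖x‖ ^ 2 := by
    rw [EuclideanSpace.norm_sq_eq, EuclideanSpace.norm_sq_eq, Fin.sum_univ_two, Fin.sum_univ_two]
    simp only [Real.norm_eq_abs, sq_abs]
    simp only [rot, Matrix.cons_val_zero, Matrix.cons_val_one, PiLp.toLp_apply]
    linear_combination (x 0 ^ 2 + x 1 ^ 2) * hab
  exact (sq_eq_sq₀ (norm_nonneg _) (norm_nonneg _)).1 h

private theorem a_rot_sub (a b : ℝ) (x y : E2) : rot a b x - rot a b y = rot a b (x - y) := by
  ext i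
  fin_cases i
  · simp only [rot, PiLp.toLp_apply, PiLp.sub_apply]
    simp
    ring
  · simp only [rot, PiLp.toLp_apply, PiLp.sub_apply]
    simp
    ring

private theorem a_rig_lip {a b : ℝ} (hab : a ^ 2 + b ^ 2 = 1) (c : E2) :
    LipschitzWith 1 (rig a b c) := by
  apply LipschitzWith.of_dist_le_mul
  intro x y
  rw [dist_eq_norm, dist_eq_norm]
  unfold rig
  rw [a_rot_sub, a_rot_norm hab]
  simp

private theorem a_lip {a b : ℝ} (hab : a ^ 2 + b ^ 2 = 1) (c : E2) {P : E2 → ℝ} {L : NNReal}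
    (hP : LipschitzWith L P) : LipschitzWith L (fun x => P (rig a b c x)) := by
  have h := hP.comp (a_rig_lip hab c)
  rw [mul_one] at h
  exact h

private theorem a_wt_gsq {u : E2 → ℝ} {L : NNReal} (hu : LipschitzWith L u) : Wt (gsq u) := by
  have h := ((Wt.pd hu 0).sq).add ((Wt.pd hu 1).sq)
  exact h

private theorem a_arith {M1 M2 A1 A2 E1 E2' ρ C K K1 c0 q : ℝ} (hc0 : 0 < c0) (hM1 : c0 ≤ M1)
    (hM2 : c0 ≤ M2) (hρ : ρ * M1 = M2) (hE1 : E1 ≤ A1 + M1 + K1 * q)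
    (hE2 : E2' ≤ A2 + M2 + K1 * q) (hA : ρ * A1 + A2 ≤ C * M2 + K * q) (hK : 0 ≤ K)
    (hK1 : 0 ≤ K1) (hq : 0 ≤ q) :
    E1 / M1 + E2' / M2 ≤ 2 + C + (K + 2 * K1) / c0 * q := by
  have h1 : 0 < M1 := lt_of_lt_of_le hc0 hM1
  have h2 : 0 < M2 := lt_of_lt_of_le hc0 hM2
  have e1 : E1 / M1 ≤ A1 / M1 + 1 + K1 * q / c0 := by
    calc E1 / M1 ≤ (A1 + M1 + K1 * q) / M1 := by gcongr
      _ = A1 / M1 + 1 + K1 * q / M1 := by field_simp
      _ ≤ A1 / M1 + 1 + K1 * q / c0 := by gcongr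
  have e2 : E2' / M2 ≤ A2 / M2 + 1 + K1 * q / c0 := by
    calc E2' / M2 ≤ (A2 + M2 + K1 * q) / M2 := by gcongr
      _ = A2 / M2 + 1 + K1 * q / M2 := by field_simp
      _ ≤ A2 / M2 + 1 + K1 * q / c0 := by gcongr
  have e3 : A1 / M1 + A2 / M2 = (ρ * A1 + A2) / M2 := by
    have hr : ρ = M2 / M1 := by field_simp; linarith
    rw [hr]
    field_simp
  have e4 : (ρ * A1 + A2) / M2 ≤ C + K * q / c0 := by
    calc (ρ * A1 + A2) / M2 ≤ (C * M2 + K * q) / M2 := by gcongr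
      _ = C + K * q / M2 := by field_simp
      _ ≤ C + K * q / c0 := by gcongr
  have e5 : (K + 2 * K1) / c0 * q = K * q / c0 + K1 * q / c0 + K1 * q / c0 := by ring
  rw [e5]
  linarith

private theorem a_int {f g h k : E2 → ℝ} (hf : Integrable f (volume : Measure E2))
    (hg : Integrable g (volume : Measure E2)) (hh : Integrable h (volume : Measure E2))
    (hk : Integrable k (volume : Measure E2)) (r α β : ℝ) :
    (∫ x, (r * (α * f x - g x) + (β * h x - k x))) =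
      r * (α * (∫ x, f x) - ∫ x, g x) + (β * (∫ x, h x) - ∫ x, k x) := by
  have h1 : Integrable (fun x => α * f x - g x) (volume : Measure E2) := (hf.const_mul α).sub hg
  have h2 : Integrable (fun x => β * h x - k x) (volume : Measure E2) := (hh.const_mul β).sub hk
  rw [integral_add (h1.const_mul r) h2, integral_const_mul, integral_sub (hf.const_mul α) hg,
    integral_sub (hh.const_mul β) hk, integral_const_mul, integral_const_mul]

theorem sum_le_of_path_one {C : ℝ} {P1 P2 : ℝ → E2 → ℝ} (hP : Path (Icc (0 : ℝ) 1) P1 P2)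
    (hequi : Equi (P1 0) (P2 0)) (hC : CertPath C (Ico (0 : ℝ) 1) P1 P2) {Ω : Set E2}
    (hΩ : Dom Ω) (h1 : lamk 1 Ω = 1) : lamk 2 Ω + lamk 3 Ω ≤ 2 + C := by
  obtain ⟨R0, hR0⟩ := hΩ.bd.exists_norm_le
  obtain ⟨R, hR, hsel⟩ := selection_near hP hequi hΩ
  obtain ⟨c0, hc0, hmass⟩ := hP.mass_lower R0 R
  obtain ⟨Bd, hBd0, hBd⟩ := hP.bound (R0 + R)
  obtain ⟨K, hK⟩ := hC
  obtain ⟨L, hL⟩ := hP.lip
  have hlow : Low 1 Ω := by
    have := low_lamk Ω
    rwa [h1] at this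
  set K1 : ℝ := 4 * (Bd + L) ^ 2 with hK1
  have hK10 : 0 ≤ K1 := by positivity
  have main : ∀ ε : ℝ, 0 < ε → ε ≤ 1 →
      lamk 2 Ω + lamk 3 Ω ≤ 2 + C + ε + (|K| + 2 * K1) / c0 * Real.sqrt ε := by
    intro ε hε hε1
    obtain ⟨φ, hφ, hφm, hφe⟩ := exists_near hΩ.op hΩ.ne hε
    rw [h1] at hφe
    have hφ2 : En φ φ ≤ 2 := by linarith
    have hnear : Near Ω ε φ := ⟨hφ, hφm, hφe⟩
    obtain ⟨s, hs, a, b, c, hab, hc, o1, o2, o12, hgram⟩ := hsel φ hφ hφm hφ2
    have hsI : s ∈ Icc (0 : ℝ) 1 := ⟨hs.1, hs.2.le⟩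
    obtain ⟨hm2, hm1⟩ := hmass Ω φ hR0 hφ hφm hφ2 s hsI a b hab c hc
    set p1 : E2 → ℝ := fun x => P1 s (rig a b c x) with hp1
    set p2 : E2 → ℝ := fun x => P2 s (rig a b c x) with hp2
    have l1 : LipschitzWith L p1 := a_lip hab c (hL s hsI).1
    have l2 : LipschitzWith L p2 := a_lip hab c (hL s hsI).2
    have hφL : Lc Ω φ := hφ.toLc
    have hrn : ∀ x ∈ Ω, ‖rig a b c x‖ ≤ R0 + R := by
      intro x hx
      unfold rig
      rw [a_rot_norm hab]
      have h3 := hR0 x hx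
      have h4 := norm_sub_le x c
      linarith
    have hb1 : ∀ x ∈ Ω, |p1 x| ≤ Bd := fun x hx => (hBd s hsI _ (hrn x hx)).1
    have hb2 : ∀ x ∈ Ω, |p2 x| ≤ Bd := fun x hx => (hBd s hsI _ (hrn x hx)).2
    have t1 := Near.En_trial_le hΩ hlow hε.le hε1 l1 hb1 hnear
    have t2 := Near.En_trial_le hΩ hlow hε.le hε1 l2 hb2 hnear
    have u2 : Lc Ω (fun x => p1 x * φ x) := hφL.mul_lip l1
    have u3 : Lc Ω (fun x => p2 x * φ x) := hφL.mul_lip l2
    have m22 : Ma (fun x => p1 x * φ x) (fun x => p1 x * φ x) = ∫ x, p1 x ^ 2 * φ x ^ 2 := by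
      unfold Ma
      exact integral_congr_ae (Eventually.of_forall fun x => by ring)
    have m33 : Ma (fun x => p2 x * φ x) (fun x => p2 x * φ x) = ∫ x, p2 x ^ 2 * φ x ^ 2 := by
      unfold Ma
      exact integral_congr_ae (Eventually.of_forall fun x => by ring)
    have m12 : Ma φ (fun x => p1 x * φ x) = 0 := by
      unfold Ma
      rw [← o1]
      exact integral_congr_ae (Eventually.of_forall fun x => by simp only [hp1]; ring)
    have m13 : Ma φ (fun x => p2 x * φ x) = 0 := by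
      unfold Ma
      rw [← o2]
      exact integral_congr_ae (Eventually.of_forall fun x => by simp only [hp2]; ring)
    have m23 : Ma (fun x => p1 x * φ x) (fun x => p2 x * φ x) = 0 := by
      unfold Ma
      rw [← o12]
      exact integral_congr_ae (Eventually.of_forall fun x => by simp only [hp1, hp2]; ring)
    have s3 := sum_three_le hΩ.op hφL u2 u3 (by rw [hφm]; exact one_pos)
      (by rw [m22]; exact lt_of_lt_of_le hc0 hm1) (by rw [m33]; exact lt_of_lt_of_le hc0 hm2)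
      m12 m13 m23
    rw [m22, m33, hφm, h1, div_one] at s3
    obtain ⟨α, β, hαβ, hcert⟩ := hK s hs
    have hcr := (hcert.rig hab c).2 Ω hΩ hlow ε hε.le hε1 φ hnear
    have i1 : Integrable (fun x => p1 x ^ 2 * φ x ^ 2) (volume : Measure E2) := by
      have h := hφL.int_mul (((Wt.of_lip l1).sq).mul hφL.wt)
      refine h.congr (Eventually.of_forall fun x => ?_)
      simp only
      ring
    have i2 : Integrable (fun x => p2 x ^ 2 * φ x ^ 2) (volume : Measure E2) := by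
      have h := hφL.int_mul (((Wt.of_lip l2).sq).mul hφL.wt)
      refine h.congr (Eventually.of_forall fun x => ?_)
      simp only
      ring
    have g1 : Integrable (fun x => gsq p1 x * φ x ^ 2) (volume : Measure E2) := by
      have h := hφL.int_mul ((a_wt_gsq l1).mul hφL.wt)
      refine h.congr (Eventually.of_forall fun x => ?_)
      simp only
      ring
    have g2 : Integrable (fun x => gsq p2 x * φ x ^ 2) (volume : Measure E2) := by
      have h := hφL.int_mul ((a_wt_gsq l2).mul hφL.wt)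
      refine h.congr (Eventually.of_forall fun x => ?_)
      simp only
      ring
    have hint : (∫ x, Fp α β (rho s) (P1 s) (P2 s) (rig a b c x) * φ x ^ 2) =
        rho s * (α * (∫ x, p1 x ^ 2 * φ x ^ 2) - ∫ x, gsq p1 x * φ x ^ 2) +
          (β * (∫ x, p2 x ^ 2 * φ x ^ 2) - ∫ x, gsq p2 x * φ x ^ 2) := by
      have hae := Fp_rig (α := α) (β := β) (r := rho s) (hL s hsI).1 (hL s hsI).2 hab c
      have e1 : (∫ x, Fp α β (rho s) (P1 s) (P2 s) (rig a b c x) * φ x ^ 2) =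
          ∫ x, (rho s * (α * (p1 x ^ 2 * φ x ^ 2) - gsq p1 x * φ x ^ 2) +
            (β * (p2 x ^ 2 * φ x ^ 2) - gsq p2 x * φ x ^ 2)) := by
        apply integral_congr_ae
        filter_upwards [hae] with x hx
        rw [← hx]
        unfold Fp
        ring
      rw [e1]
      exact a_int i1 g1 i2 g2 (rho s) α β
    rw [hint] at hcr
    have hA : rho s * (∫ x, gsq p1 x * φ x ^ 2) + (∫ x, gsq p2 x * φ x ^ 2) ≤
        C * (∫ x, p2 x ^ 2 * φ x ^ 2) + |K| * Real.sqrt ε := by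
      have hq := Real.sqrt_nonneg ε
      have h5 : K * Real.sqrt ε ≤ |K| * Real.sqrt ε :=
        mul_le_mul_of_nonneg_right (le_abs_self K) hq
      have h6 : (α + β) * (∫ x, p2 x ^ 2 * φ x ^ 2) ≤ C * (∫ x, p2 x ^ 2 * φ x ^ 2) :=
        mul_le_mul_of_nonneg_right hαβ (le_trans hc0.le hm2)
      have h7 : rho s * (α * (∫ x, p1 x ^ 2 * φ x ^ 2)) = α * (∫ x, p2 x ^ 2 * φ x ^ 2) := by
        rw [← hgram]
        ring
      nlinarith [h5, h6, h7, hcr]
    have hfin := a_arith hc0 hm1 hm2 hgram t1 t2 hA (abs_nonneg K) hK10 (Real.sqrt_nonneg ε)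
    linarith
  have hlim : Tendsto (fun ε : ℝ => 2 + C + ε + (|K| + 2 * K1) / c0 * Real.sqrt ε) (𝓝[>] 0)
      (𝓝 (2 + C)) := by
    have hcont : Continuous (fun ε : ℝ => 2 + C + ε + (|K| + 2 * K1) / c0 * Real.sqrt ε) := by
      fun_prop
    have h2 := hcont.tendsto 0
    simp only [add_zero, Real.sqrt_zero, mul_zero] at h2
    exact h2.mono_left nhdsWithin_le_nhds
  refine ge_of_tendsto hlim ?_
  have h3 : Ioc (0 : ℝ) 1 ∈ 𝓝[>] (0 : ℝ) := Ioc_mem_nhdsGT one_pos
  filter_upwards [h3] with ε hε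
  exact main ε hε.1 hε.2

theorem sum_le_of_path {C : ℝ} {P1 P2 : ℝ → E2 → ℝ} (hP : Path (Icc (0 : ℝ) 1) P1 P2)
    (hequi : Equi (P1 0) (P2 0)) (hC : CertPath C (Ico (0 : ℝ) 1) P1 P2) {Ω : Set E2}
    (hΩ : Dom Ω) : lamk 2 Ω + lamk 3 Ω ≤ (2 + C) * lamk 1 Ω := by
  have hpos := lamk_one_pos hΩ
  set lam := lamk 1 Ω with hlam
  have hr : 0 < 1 / Real.sqrt lam := by positivity
  have hr2 : (1 / Real.sqrt lam) ^ 2 = 1 / lam := by
    rw [div_pow, one_pow, Real.sq_sqrt hpos.le]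
  have h1 : lamk 1 ((fun x : E2 => (1 / Real.sqrt lam) • x) ⁻¹' Ω) = 1 := by
    rw [lamk_smul 1 Ω hr, hr2, ← hlam]
    field_simp
  have h2 := sum_le_of_path_one hP hequi hC (hΩ.smul hr) h1
  rw [lamk_smul 2 Ω hr, lamk_smul 3 Ω hr, hr2] at h2
  have h3 : lamk 2 Ω + lamk 3 Ω = lam * (1 / lam * lamk 2 Ω + 1 / lam * lamk 3 Ω) := by
    field_simp
  rw [h3]
  calc lam * (1 / lam * lamk 2 Ω + 1 / lam * lamk 3 Ω) ≤ lam * (2 + C) := by gcongr
    _ = (2 + C) * lam := by ring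

end Pool.Agent.PPW
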