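import Pool.Agent.Lib.MP_eb7570_an.Lam

/-!
MP_eb7570_an: near-minimisers, certified functions, admissible families of pairs.
-/

set_option autoImplicit false

open MeasureTheory Filter Topology Metric Set

namespace Pool.Agent.PPW

/-- Domains: open bounded nonempty. -/
structure Dom (Ω : Set E2) : Prop where
  op : IsOpen Ω
  bd : Bornology.IsBounded Ω
  ne : Ω.Nonempty

/-- Near-minimisers, for domains with first eigenvalue one. -/
structure Near (Ω : Set E2) (ε : ℝ) (φ : E2 → ℝ) : Prop where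
  tst : Tc Ω φ
  nrm : Ma φ φ = 1
  dir : En φ φ ≤ 1 + ε

/-- Square of the gradient. -/
noncomputable def gsq (u : E2 → ℝ) (x : E2) : ℝ := pd 0 u x ^ 2 + pd 1 u x ^ 2

/-- Certified functions: the integral against phi^2 is nonnegative up to a small error, for every
domain with first eigenvalue at least one and every near-minimiser. -/
def Cert (K : ℝ) (F : E2 → ℝ) : Prop :=
  Wt F ∧ ∀ Ω : Set E2, Dom Ω → Low 1 Ω → ∀ ε : ℝ, 0 ≤ ε → ε ≤ 1 → ∀ φ : E2 → ℝ,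
    Near Ω ε φ → -(K * Real.sqrt ε) ≤ ∫ x, F x * φ x ^ 2

/-- Locally Lipschitz, in the form: agrees with a Lipschitz function on every ball. -/
def LocLip (u : E2 → ℝ) : Prop :=
  ∀ R : ℝ, ∃ (L : NNReal) (w : E2 → ℝ), LipschitzWith L w ∧ ∀ x, ‖x‖ ≤ R → w x = u x

/-- The functional of a pair of trial functions. -/
noncomputable def Fp (α β ρ : ℝ) (p1 p2 : E2 → ℝ) (x : E2) : ℝ :=
  ρ * (α * p1 x ^ 2 - gsq p1 x) + (β * p2 x ^ 2 - gsq p2 x)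

noncomputable def rho (s : ℝ) : ℝ := (1 - s) / (1 + s)

/-- Admissible families of pairs on a parameter set I. -/
structure Path (I : Set ℝ) (P1 P2 : ℝ → E2 → ℝ) : Prop where
  cont1 : ContinuousOn (fun p : ℝ × E2 => P1 p.1 p.2) (I ×ˢ univ)
  cont2 : ContinuousOn (fun p : ℝ × E2 => P2 p.1 p.2) (I ×ˢ univ)
  odd1 : ∀ s ∈ I, ∀ x, P1 s (-x) = - P1 s x
  odd2 : ∀ s ∈ I, ∀ x, P2 s (-x) = - P2 s x
  sgn1 : ∀ s ∈ I, ∀ x, 0 ≤ x 0 * P1 s x
  sgn2 : ∀ s ∈ I, ∀ x, 0 ≤ x 1 * P2 s x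
  lip : ∃ L : NNReal, ∀ s ∈ I, LipschitzWith L (P1 s) ∧ LipschitzWith L (P2 s)
  low : ∃ c : ℝ, 0 < c ∧ ∀ s ∈ I, ∀ x, c * |x 0| ≤ (1 + ‖x‖) * |P1 s x| ∧
    c * |x 1| ≤ (1 + ‖x‖) * |P2 s x|

/-- Rotation by the unit complex number a + i b. -/
noncomputable def rot (a b : ℝ) (x : E2) : E2 := !₂[a * x 0 - b * x 1, b * x 0 + a * x 1]

/-- Rotation equivariance of a pair. -/
def Equi (p1 p2 : E2 → ℝ) : Prop := ∀ a b : ℝ, a ^ 2 + b ^ 2 = 1 → ∀ x,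
  p1 (rot a b x) = a * p1 x - b * p2 x ∧ p2 (rot a b x) = b * p1 x + a * p2 x

/-- The family is certified at level C. -/
def CertPath (C : ℝ) (I : Set ℝ) (P1 P2 : ℝ → E2 → ℝ) : Prop :=
  ∃ K : ℝ, ∀ s ∈ I, ∃ α β : ℝ, α + β ≤ C ∧ Cert K (Fp α β (rho s) (P1 s) (P2 s))

/-- A single admissible pair. -/
def Node (q1 q2 : E2 → ℝ) : Prop := Path {(0 : ℝ)} (fun _ => q1) (fun _ => q2)

/-- Reachable nodes: there is a certified admissible path from the equivariant pair, ending at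
parameter a in the pair (q1 / sqrt rho(a), q2). -/
def Reach (C a : ℝ) (q1 q2 : E2 → ℝ) : Prop :=
  0 ≤ a ∧ a < 1 ∧ ∃ P1 P2 : ℝ → E2 → ℝ, Path (Icc 0 a) P1 P2 ∧ Equi (P1 0) (P2 0) ∧
    CertPath C (Icc 0 a) P1 P2 ∧ (∀ x, P1 a x = q1 x / Real.sqrt (rho a)) ∧ ∀ x, P2 a x = q2 x

end Pool.Agent.PPW
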