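import Pool.Agent.Lib.MP_eb7570_an.CDefs
import Pool.Agent.Lib.MP_eb7570_an.Cert

/-!
MP_eb7570_an: the certificate lemma and the calculus of certified functions.

Proof of cert_of_data: psi = v * phi is in Lc Omega (Lc.mul_lip). Low.cs with lam = 1 gives
|En phi psi - Ma phi psi| <= sqrt (En phi phi - 1) sqrt (En psi psi - Ma psi psi)
<= sqrt eps * sqrt (En psi psi), and En psi psi <= 2 B^2 En phi phi + 2 L'^2 <= (2 (L + B))^2.
Product rule a.e. (pd_mul_ae): En phi psi = int v |grad phi|^2 + phi grad phi . grad v. Pointwise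
v |grad phi|^2 - 2 phi grad phi . N' + q phi^2 >= 0 as soon as |N'|^2 <= v q (v, q >= 0), with
N' = -N, N_i = U_i - pd i v / 2. So En phi psi >= int (2 phi grad phi . U - q phi^2)
= - int (div U + q) phi^2 (integration by parts for Lipschitz functions:
LipschitzWith.integral_lineDeriv_mul_eq, with U replaced by the Lipschitz function that agrees with
it on a ball containing the support; note pd i of both agree in the open ball).
-/

set_option autoImplicit false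

open MeasureTheory Filter Topology Metric Set

namespace Pool.Agent.PPW

/-! ### Locally Lipschitz functions -/

theorem LocLip.pd_eq {u w : E2 → ℝ} {R : ℝ} (h : ∀ x, ‖x‖ ≤ R → w x = u x) {x : E2}
    (hx : ‖x‖ < R) (i : Fin 2) : pd i w x = pd i u x := by
  unfold pd
  apply Filter.EventuallyEq.lineDeriv_eq
  have h1 : {y : E2 | ‖y‖ < R} ∈ 𝓝 x := (isOpen_lt continuous_norm continuous_const).mem_nhds hx
  filter_upwards [h1] with y hy
  exact h y (le_of_lt hy)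

theorem LocLip.of_lip {u : E2 → ℝ} {L : NNReal} (h : LipschitzWith L u) : LocLip u :=
  fun _ => ⟨L, u, h, fun _ _ => rfl⟩

theorem LocLip.cont {u : E2 → ℝ} (h : LocLip u) : Continuous u := by
  rw [continuous_iff_continuousAt]
  intro x
  obtain ⟨L, w, hw, he⟩ := h (‖x‖ + 1)
  have h1 : {y : E2 | ‖y‖ < ‖x‖ + 1} ∈ 𝓝 x :=
    (isOpen_lt continuous_norm continuous_const).mem_nhds
      (show ‖x‖ < ‖x‖ + 1 from lt_add_one _)
  refine hw.continuous.continuousAt.congr ?_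
  filter_upwards [h1] with y hy
  exact he y (le_of_lt hy)

theorem LocLip.wt {u : E2 → ℝ} (h : LocLip u) : Wt u := Wt.of_continuous h.cont

theorem LocLip.wtd {u : E2 → ℝ} (h : LocLip u) (i : Fin 2) : Wt (fun x => pd i u x) := by
  refine ⟨aestronglyMeasurable_lineDeriv h.cont volume, fun R => ?_⟩
  obtain ⟨L, w, hw, he⟩ := h (R + 1)
  refine ⟨L, L.coe_nonneg, fun x hx => ?_⟩
  rw [← LocLip.pd_eq he (lt_of_le_of_lt hx (lt_add_one R)) i]
  exact abs_pd_le hw i x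

private theorem parts_loc {Ω : Set E2} {φ : E2 → ℝ} (hφ : Tc Ω φ) {U : E2 → ℝ}
    (hU : LocLip U) (i : Fin 2) :
    ∫ x, pd i U x * φ x ^ 2 = - ∫ x, U x * (2 * φ x * pd i φ x) := by
  obtain ⟨R, hR⟩ := hφ.cpt.isCompact.isBounded.exists_norm_le
  obtain ⟨L, w, hw, he⟩ := hU (R + 1)
  have h1 := parts_sq hφ hw i
  have h2 : ∫ x, pd i U x * φ x ^ 2 = ∫ x, pd i w x * φ x ^ 2 := by
    apply integral_congr_ae
    refine Eventually.of_forall fun x => ?_
    show pd i U x * φ x ^ 2 = pd i w x * φ x ^ 2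
    by_cases hx : x ∈ tsupport φ
    · rw [LocLip.pd_eq he (lt_of_le_of_lt (hR x hx) (lt_add_one R)) i]
    · rw [image_eq_zero_of_notMem_tsupport hx]
      ring
  have h3 : ∫ x, U x * (2 * φ x * pd i φ x) = ∫ x, w x * (2 * φ x * pd i φ x) := by
    apply integral_congr_ae
    refine Eventually.of_forall fun x => ?_
    show U x * (2 * φ x * pd i φ x) = w x * (2 * φ x * pd i φ x)
    by_cases hx : x ∈ tsupport φ
    · rw [he x ((hR x hx).trans (le_of_lt (lt_add_one R)))]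
    · rw [image_eq_zero_of_notMem_tsupport hx]
      ring
  rw [h2, h3, h1]

private theorem int4 {a b c d : E2 → ℝ} (ha : Integrable a (volume : Measure E2))
    (hb : Integrable b (volume : Measure E2)) (hc : Integrable c (volume : Measure E2))
    (hd : Integrable d (volume : Measure E2)) :
    ∫ x, (a x + b x + c x + d x) = (∫ x, a x) + (∫ x, b x) + (∫ x, c x) + ∫ x, d x := by
  have h1 : ∫ x, (a x + b x + c x + d x) = (∫ x, (a x + b x + c x)) + ∫ x, d x :=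
    integral_add ((ha.add hb).add hc) hd
  have h2 : ∫ x, (a x + b x + c x) = (∫ x, (a x + b x)) + ∫ x, c x :=
    integral_add (ha.add hb) hc
  have h3 : ∫ x, (a x + b x) = (∫ x, a x) + ∫ x, b x := integral_add ha hb
  rw [h1, h2, h3]

private theorem int5 {a b c d e : E2 → ℝ} (ha : Integrable a (volume : Measure E2))
    (hb : Integrable b (volume : Measure E2)) (hc : Integrable c (volume : Measure E2))
    (hd : Integrable d (volume : Measure E2)) (he : Integrable e (volume : Measure E2)) :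
    ∫ x, ((a x - b x - c x + d x) + e x) =
      ((∫ x, a x) - (∫ x, b x) - (∫ x, c x) + ∫ x, d x) + ∫ x, e x := by
  have h0 : ∫ x, ((a x - b x - c x + d x) + e x) = (∫ x, (a x - b x - c x + d x)) + ∫ x, e x :=
    integral_add (((ha.sub hb).sub hc).add hd) he
  have h1 : ∫ x, (a x - b x - c x + d x) = (∫ x, (a x - b x - c x)) + ∫ x, d x :=
    integral_add ((ha.sub hb).sub hc) hd
  have h2 : ∫ x, (a x - b x - c x) = (∫ x, (a x - b x)) - ∫ x, c x :=
    integral_sub (ha.sub hb) hc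
  have h3 : ∫ x, (a x - b x) = (∫ x, a x) - ∫ x, b x := integral_sub ha hb
  rw [h0, h1, h2, h3]

private theorem cert_core {v q F : E2 → ℝ} {U0 U1 : E2 → ℝ} {C : NNReal} {M : ℝ}
    (hF : Wt F) (hv : LipschitzWith C v) (hv0 : ∀ x, 0 ≤ v x) (hvM : ∀ x, v x ≤ M)
    (hU0 : LocLip U0) (hU1 : LocLip U1) (hq : Wt q)
    (hq0 : ∀ x, 0 ≤ q x)
    (hN : ∀ᵐ x ∂(volume : Measure E2),
      (U0 x - pd 0 v x / 2) ^ 2 + (U1 x - pd 1 v x / 2) ^ 2 ≤ v x * q x)
    (hFE : ∀ᵐ x ∂(volume : Measure E2), v x + pd 0 U0 x + pd 1 U1 x + q x ≤ F x)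
    {Ω : Set E2} (hΩ : IsOpen Ω) (hlow : Low 1 Ω) {ε : ℝ} (hε : 0 ≤ ε) (hε1 : ε ≤ 1)
    {φ : E2 → ℝ} (hφ : Tc Ω φ) (hm : Ma φ φ = 1) (hE : En φ φ ≤ 1 + ε) :
    -(2 * (M + C) * Real.sqrt ε) ≤ ∫ x, F x * φ x ^ 2 := by
  have hφL := hφ.toLc
  have hvM' : ∀ x, |v x| ≤ M := fun x => by rw [abs_of_nonneg (hv0 x)]; exact hvM x
  have htest := near_test hΩ hlow hε hε1 hφ hm hE hv hvM'
  have hup := (abs_le.1 htest).2
  have hw := hφL.mul_lip hv
  -- weights
  have wφ : Wt φ := hφL.wt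
  have wv : Wt v := Wt.of_lip hv
  have wU0 : Wt U0 := hU0.wt
  have wU1 : Wt U1 := hU1.wt
  have wp0 : Wt (fun x => pd 0 φ x) := hφL.wtd 0
  have wp1 : Wt (fun x => pd 1 φ x) := hφL.wtd 1
  have wv0 : Wt (fun x => pd 0 v x) := Wt.pd hv 0
  have wv1 : Wt (fun x => pd 1 v x) := Wt.pd hv 1
  have wu0 : Wt (fun x => pd 0 U0 x) := hU0.wtd 0
  have wu1 : Wt (fun x => pd 1 U1 x) := hU1.wtd 1
  -- integrability of weight times φ ^ 2
  have isq : ∀ g : E2 → ℝ, Wt g → Integrable (fun x => g x * φ x ^ 2) (volume : Measure E2) := by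
    intro g hg
    have h := hφL.int_mul (hg.mul wφ)
    refine h.congr (Eventually.of_forall fun x => ?_)
    show g x * φ x * φ x = g x * φ x ^ 2
    ring
  -- the test identity
  have hid : En φ (fun x => v x * φ x) - Ma φ (fun x => v x * φ x) =
      ∫ x, ((pd 0 φ x * (pd 0 v x * φ x + v x * pd 0 φ x) +
        pd 1 φ x * (pd 1 v x * φ x + v x * pd 1 φ x)) - v x * φ x ^ 2) := by
    unfold En Ma
    rw [← integral_sub (hφL.int_en hw) (hw.int_mul wφ)]
    apply integral_congr_ae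
    filter_upwards [ae_hasPd hv 0, ae_hasPd hv 1, hφL.hasPd 0, hφL.hasPd 1] with x a0 a1 b0 b1
    show (pd 0 φ x * pd 0 (fun x => v x * φ x) x + pd 1 φ x * pd 1 (fun x => v x * φ x) x) -
      φ x * (v x * φ x) = _
    have e0 : pd 0 (fun x => v x * φ x) x = pd 0 v x * φ x + v x * pd 0 φ x :=
      (pd_mul a0 b0).lineDeriv
    have e1 : pd 1 (fun x => v x * φ x) x = pd 1 v x * φ x + v x * pd 1 φ x :=
      (pd_mul a1 b1).lineDeriv
    rw [e0, e1]
    ring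
  have hip0 := parts_loc hφ hU0 0
  have hip1 := parts_loc hφ hU1 1
  -- lower bound of the integral of F
  have hF1 : ∫ x, (v x + pd 0 U0 x + pd 1 U1 x + q x) * φ x ^ 2 ≤ ∫ x, F x * φ x ^ 2 := by
    apply integral_mono_ae (isq _ (((wv.add wu0).add wu1).add hq)) (isq _ hF)
    filter_upwards [hFE] with x hx
    exact mul_le_mul_of_nonneg_right hx (sq_nonneg _)
  have iA : Integrable (fun x => v x * φ x ^ 2) (volume : Measure E2) := isq _ wv
  have iB : Integrable (fun x => pd 0 U0 x * φ x ^ 2) (volume : Measure E2) := isq _ wu0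
  have iC : Integrable (fun x => pd 1 U1 x * φ x ^ 2) (volume : Measure E2) := isq _ wu1
  have iD : Integrable (fun x => q x * φ x ^ 2) (volume : Measure E2) := isq _ hq
  have hsplit : ∫ x, (v x + pd 0 U0 x + pd 1 U1 x + q x) * φ x ^ 2 =
      (∫ x, v x * φ x ^ 2) + (∫ x, pd 0 U0 x * φ x ^ 2) + (∫ x, pd 1 U1 x * φ x ^ 2) +
        ∫ x, q x * φ x ^ 2 := by
    rw [← int4 iA iB iC iD]
    apply integral_congr_ae
    refine Eventually.of_forall fun x => ?_
    show (v x + pd 0 U0 x + pd 1 U1 x + q x) * φ x ^ 2 =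
      v x * φ x ^ 2 + pd 0 U0 x * φ x ^ 2 + pd 1 U1 x * φ x ^ 2 + q x * φ x ^ 2
    ring
  -- the pointwise inequality
  have iG0 : Integrable (fun x => U0 x * (2 * φ x * pd 0 φ x)) (volume : Measure E2) := by
    have h := hφL.int_mul_pd 0 (wU0.mul (wφ.smul 2))
    refine h.congr (Eventually.of_forall fun x => ?_)
    show U0 x * (2 * φ x) * pd 0 φ x = U0 x * (2 * φ x * pd 0 φ x)
    ring
  have iG1 : Integrable (fun x => U1 x * (2 * φ x * pd 1 φ x)) (volume : Measure E2) := by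
    have h := hφL.int_mul_pd 1 (wU1.mul (wφ.smul 2))
    refine h.congr (Eventually.of_forall fun x => ?_)
    show U1 x * (2 * φ x) * pd 1 φ x = U1 x * (2 * φ x * pd 1 φ x)
    ring
  have iT : Integrable (fun x => (pd 0 φ x * (pd 0 v x * φ x + v x * pd 0 φ x) +
        pd 1 φ x * (pd 1 v x * φ x + v x * pd 1 φ x)) - v x * φ x ^ 2)
      (volume : Measure E2) := by
    have h0 := hφL.int_mul_pd 0 ((wv0.mul wφ).add (wv.mul wp0))
    have h1 := hφL.int_mul_pd 1 ((wv1.mul wφ).add (wv.mul wp1))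
    refine ((h0.add h1).sub iA).congr (Eventually.of_forall fun x => ?_)
    show ((pd 0 v x * φ x + v x * pd 0 φ x) * pd 0 φ x +
      (pd 1 v x * φ x + v x * pd 1 φ x) * pd 1 φ x) - v x * φ x ^ 2 = _
    ring
  have hfin : 0 ≤ ∫ x, ((v x * φ x ^ 2 - U0 x * (2 * φ x * pd 0 φ x) -
      U1 x * (2 * φ x * pd 1 φ x) + q x * φ x ^ 2) +
      ((pd 0 φ x * (pd 0 v x * φ x + v x * pd 0 φ x) +
        pd 1 φ x * (pd 1 v x * φ x + v x * pd 1 φ x)) - v x * φ x ^ 2)) := by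
    apply integral_nonneg_of_ae
    filter_upwards [hN] with x hNx
    have hqx := hq0 x
    show (0 : ℝ) ≤ _
    have hvx := hv0 x
    set a := pd 0 φ x
    set b := pd 1 φ x
    set n0 := U0 x - pd 0 v x / 2 with hn0
    set n1 := U1 x - pd 1 v x / 2 with hn1
    have e : (v x * φ x ^ 2 - U0 x * (2 * φ x * a) - U1 x * (2 * φ x * b) + q x * φ x ^ 2) +
      ((a * (pd 0 v x * φ x + v x * a) + b * (pd 1 v x * φ x + v x * b)) - v x * φ x ^ 2) =
      q x * φ x ^ 2 + v x * (a ^ 2 + b ^ 2) - 2 * (φ x * (n0 * a + n1 * b)) := by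
      rw [hn0, hn1]
      ring
    rw [e]
    have hA : 0 ≤ q x * φ x ^ 2 := mul_nonneg hqx (sq_nonneg _)
    have hB : 0 ≤ v x * (a ^ 2 + b ^ 2) := mul_nonneg hvx (by positivity)
    have hcs : (n0 * a + n1 * b) ^ 2 ≤ (n0 ^ 2 + n1 ^ 2) * (a ^ 2 + b ^ 2) := by
      nlinarith [sq_nonneg (n0 * b - n1 * a)]
    have hT : (φ x * (n0 * a + n1 * b)) ^ 2 ≤ (q x * φ x ^ 2) * (v x * (a ^ 2 + b ^ 2)) := by
      have h1 : (n0 ^ 2 + n1 ^ 2) * (a ^ 2 + b ^ 2) ≤ (v x * q x) * (a ^ 2 + b ^ 2) :=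
        mul_le_mul_of_nonneg_right hNx (by positivity)
      have h2 := mul_le_mul_of_nonneg_left (hcs.trans h1) (sq_nonneg (φ x))
      nlinarith
    have hAB : (2 * (φ x * (n0 * a + n1 * b))) ^ 2 ≤
        (q x * φ x ^ 2 + v x * (a ^ 2 + b ^ 2)) ^ 2 := by
      nlinarith [sq_nonneg (q x * φ x ^ 2 - v x * (a ^ 2 + b ^ 2))]
    have h3 := abs_le_of_sq_le_sq hAB (by positivity)
    linarith [(abs_le.1 h3).2, le_abs_self (2 * (φ x * (n0 * a + n1 * b)))]
  have hsum : ∫ x, ((v x * φ x ^ 2 - U0 x * (2 * φ x * pd 0 φ x) -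
      U1 x * (2 * φ x * pd 1 φ x) + q x * φ x ^ 2) +
      ((pd 0 φ x * (pd 0 v x * φ x + v x * pd 0 φ x) +
        pd 1 φ x * (pd 1 v x * φ x + v x * pd 1 φ x)) - v x * φ x ^ 2)) =
      ((∫ x, v x * φ x ^ 2) - (∫ x, U0 x * (2 * φ x * pd 0 φ x)) -
        (∫ x, U1 x * (2 * φ x * pd 1 φ x)) + ∫ x, q x * φ x ^ 2) +
      ∫ x, ((pd 0 φ x * (pd 0 v x * φ x + v x * pd 0 φ x) +
        pd 1 φ x * (pd 1 v x * φ x + v x * pd 1 φ x)) - v x * φ x ^ 2) :=
    int5 iA iG0 iG1 iD iT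
  rw [hsum, ← hid] at hfin
  rw [hsplit, hip0, hip1] at hF1
  linarith

/-- The certificate lemma. -/
theorem cert_of_data {F v U1 U2 q : E2 → ℝ} {L : NNReal} {B : ℝ}
    (hF : Wt F) (hv : LipschitzWith L v) (hv0 : ∀ x, 0 ≤ v x) (hvB : ∀ x, v x ≤ B)
    (hU1 : LocLip U1) (hU2 : LocLip U2) (hq : Wt q) (hq0 : ∀ x, 0 ≤ q x)
    (hN : ∀ᵐ x ∂(volume : Measure E2),
      (U1 x - pd 0 v x / 2) ^ 2 + (U2 x - pd 1 v x / 2) ^ 2 ≤ v x * q x)
    (hE : ∀ᵐ x ∂(volume : Measure E2), v x + pd 0 U1 x + pd 1 U2 x + q x ≤ F x) :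
    Cert (4 * ((L : ℝ) + B)) F := by
  refine ⟨hF, ?_⟩
  intro Ω hΩ hlow ε hε hε1 φ hnear
  have hB0 : 0 ≤ B := (hv0 0).trans (hvB 0)
  have hweak : -(4 * ((L : ℝ) + B) * Real.sqrt ε) ≤ -(2 * (B + L) * Real.sqrt ε) := by
    have h1 : (0 : ℝ) ≤ L := L.coe_nonneg
    nlinarith [Real.sqrt_nonneg ε, mul_nonneg (add_nonneg h1 hB0) (Real.sqrt_nonneg ε)]
  refine hweak.trans ?_
  exact cert_core hF hv hv0 hvB hU1 hU2 hq hq0 hN hE hΩ.op hlow hε hε1 hnear.tst hnear.nrm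
    hnear.dir


theorem Cert.mono_const {K K' : ℝ} {F : E2 → ℝ} (h : Cert K F) (hK : K ≤ K') : Cert K' F := by
  refine ⟨h.1, ?_⟩
  intro Ω hΩ hlow ε hε hε1 φ hφ
  have h1 := h.2 Ω hΩ hlow ε hε hε1 φ hφ
  have h2 := mul_le_mul_of_nonneg_right hK (Real.sqrt_nonneg ε)
  linarith

theorem Cert.add {K K' : ℝ} {F G : E2 → ℝ} (h : Cert K F) (h' : Cert K' G) :
    Cert (K + K') (fun x => F x + G x) := by
  refine ⟨h.1.add h'.1, ?_⟩
  intro Ω hΩ hlow ε hε hε1 φ hφ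
  have h1 := h.2 Ω hΩ hlow ε hε hε1 φ hφ
  have h2 := h'.2 Ω hΩ hlow ε hε hε1 φ hφ
  have h3 : ∫ x, (F x + G x) * φ x ^ 2 = (∫ x, F x * φ x ^ 2) + ∫ x, G x * φ x ^ 2 := by
    rw [← integral_add (int_wt_sq hφ.tst.toLc h.1) (int_wt_sq hφ.tst.toLc h'.1)]
    apply integral_congr_ae
    exact Eventually.of_forall fun x => add_mul _ _ _
  rw [h3]
  linarith

theorem Cert.smul {K c : ℝ} (hc : 0 ≤ c) {F : E2 → ℝ} (h : Cert K F) :
    Cert (c * K) (fun x => c * F x) := by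
  refine ⟨h.1.smul c, ?_⟩
  intro Ω hΩ hlow ε hε hε1 φ hφ
  have h1 := h.2 Ω hΩ hlow ε hε hε1 φ hφ
  have h3 : ∫ x, (c * F x) * φ x ^ 2 = c * ∫ x, F x * φ x ^ 2 := by
    rw [← integral_const_mul]
    apply integral_congr_ae
    exact Eventually.of_forall fun x => mul_assoc _ _ _
  rw [h3]
  have h2 := mul_le_mul_of_nonneg_left h1 hc
  linarith

theorem Cert.mono {K : ℝ} {F G : E2 → ℝ} (h : Cert K F) (hG : Wt G)
    (hFG : ∀ᵐ x ∂(volume : Measure E2), F x ≤ G x) : Cert K G := by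
  refine ⟨hG, ?_⟩
  intro Ω hΩ hlow ε hε hε1 φ hφ
  refine (h.2 Ω hΩ hlow ε hε hε1 φ hφ).trans ?_
  apply integral_mono_ae (int_wt_sq hφ.tst.toLc h.1) (int_wt_sq hφ.tst.toLc hG)
  filter_upwards [hFG] with x hx
  exact mul_le_mul_of_nonneg_right hx (sq_nonneg _)

theorem Cert.congr {K : ℝ} {F G : E2 → ℝ} (h : Cert K F) (hFG : ∀ x, F x = G x) : Cert K G := by
  have h1 : F = G := funext hFG
  rw [← h1]
  exact h

/-- The pair functional is locally bounded and measurable. -/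
theorem Wt_Fp {α β r : ℝ} {p1 p2 : E2 → ℝ} {L : NNReal} (h1 : LipschitzWith L p1)
    (h2 : LipschitzWith L p2) : Wt (Fp α β r p1 p2) := by
  have g1 : Wt (fun x => gsq p1 x) := (Wt.pd h1 0).sq.add (Wt.pd h1 1).sq
  have g2 : Wt (fun x => gsq p2 x) := (Wt.pd h2 0).sq.add (Wt.pd h2 1).sq
  exact ((((Wt.of_lip h1).sq.smul α).sub g1).smul r).add (((Wt.of_lip h2).sq.smul β).sub g2)

end Pool.Agent.PPW
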