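import Pool.Agent.Lib.MP_eb7570_an.GlueReach
import Pool.Agent.Lib.MP_eb7570_an.Node.Data
import Pool.Agent.Lib.MP_eb7570_an.Bes.Zeros

/-!
MP_eb7570_an: the chain from the near-disk pair to the strip pair.
-/

set_option autoImplicit false

open MeasureTheory Filter Topology Metric Set

namespace Pool.Agent.PPW

open Pool.Agent.Lib.MP_eb7570_an.Node Pool.Agent.Lib.MP_eb7570_an.Node.Chain

/-- Certified pair functionals increase with the two parameters. -/
theorem Cert.mono_ab {K α β α' β' : ℝ} {q1 q2 : E2 → ℝ} (hN : Node q1 q2)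
    (h : Cert K (Fp α β 1 q1 q2)) (ha : α ≤ α') (hb : β ≤ β') :
    Cert K (Fp α' β' 1 q1 q2) := by
  obtain ⟨L, hL⟩ := hN.lip
  have h0 := hL 0 (mem_singleton _)
  refine h.mono (Wt_Fp h0.1 h0.2) (Eventually.of_forall fun x => ?_)
  unfold Fp
  nlinarith [mul_le_mul_of_nonneg_right ha (sq_nonneg (q1 x)),
    mul_le_mul_of_nonneg_right hb (sq_nonneg (q2 x))]

/-- The end parameter of the chain: rho aend = 11/500. -/
noncomputable def aend : ℝ := 489 / 511

theorem rho_aend : rho aend = 11 / 500 := by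
  unfold rho aend
  norm_num

/-- From the near-disk family to the last polynomial node and the strip pair. -/
theorem reach_strip {q1 q2 p1 p2 : E2 → ℝ} (h0 : Reach Bes.C0 (1 / 2) q1 q2) (hq : Node q1 q2)
    {α β K : ℝ} (hα : 12753 / 10000 ≤ α) (hβ : 18021 / 10000 ≤ β) (hαβ : α + β ≤ Bes.C0)
    (hc : Cert K (Fp α β 1 q1 q2)) (hp : Node (fun x => Real.sqrt (rho aend) * p1 x) p2)
    {K' : ℝ} (hcp : Cert K' (Fp (4 / 25) (14587 / 5000) 1
      (fun x => Real.sqrt (rho aend) * p1 x) p2)) :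
    Reach Bes.C0 aend (fun x => Real.sqrt (rho aend) * p1 x) p2 := by
  have hC : (3077467934177510 / 10 ^ 15 : ℝ) < Bes.C0 := Bes.C0_gt
  obtain ⟨K1a, h1a⟩ := cert1a
  obtain ⟨K1b, h1b⟩ := cert1b
  obtain ⟨K2a, h2a⟩ := cert2a
  obtain ⟨K2b, h2b⟩ := cert2b
  obtain ⟨K3a, h3a⟩ := cert3a
  obtain ⟨K3b, h3b⟩ := cert3b
  obtain ⟨K4a, h4a⟩ := cert4a
  obtain ⟨K4b, h4b⟩ := cert4b
  obtain ⟨K5a, h5a⟩ := cert5a
  obtain ⟨K5b, h5b⟩ := cert5b
  have r1 := h0.step hq node1 (b := 6 / 10) (by norm_num) (by norm_num) hαβ hc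
    (h1a.mono_ab node1 hα hβ)
  have r2 := r1.step node1 node2 (b := 65 / 100) (by norm_num) (by norm_num)
    (by linarith) h1b h2a
  have r3 := r2.step node2 node3 (b := 7 / 10) (by norm_num) (by norm_num)
    (by linarith) h2b h3a
  have r4 := r3.step node3 node4 (b := 8 / 10) (by norm_num) (by norm_num)
    (by linarith) h3b h4a
  have r5 := r4.step node4 node5 (b := 9 / 10) (by norm_num) (by norm_num)
    (by linarith) h4b h5a
  exact r5.step node5 hp (b := aend) (by unfold aend; norm_num) (by unfold aend; norm_num)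
    (by linarith) h5b hcp

end Pool.Agent.PPW
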