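import Mathlib

/-!
# Simultaneous diagonalisation of two symmetric forms on a finite orthonormal family
-/

namespace Pool.Agent.PPW

/-- An orthonormal family for the form `N` can be replaced by one in the same span which also
diagonalises the symmetric form `D`, with increasing diagonal entries and the same trace. -/
theorem exists_diag {W : Type*} [AddCommGroup W] [Module ℝ W] (N D : W →ₗ[ℝ] W →ₗ[ℝ] ℝ)
    (hD : ∀ x y, D x y = D y x) {k : ℕ} (f : Fin k → W)
    (hN : ∀ i j, N (f i) (f j) = if i = j then 1 else 0) :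
    ∃ (e : Fin k → W) (μ : Fin k → ℝ), Monotone μ ∧
      (∀ i, e i ∈ Submodule.span ℝ (Set.range f)) ∧
      (∀ i j, N (e i) (e j) = if i = j then 1 else 0) ∧
      (∀ i j, D (e i) (e j) = if i = j then μ i else 0) ∧
      ∑ i, μ i = ∑ i, D (f i) (f i) := by
  classical
  set A : Matrix (Fin k) (Fin k) ℝ := Matrix.of fun i j => D (f i) (f j) with hA
  have hH : A.IsHermitian := by
    ext i j
    show star (D (f j) (f i)) = D (f i) (f j)
    rw [star_trivial, hD]
  set b := hH.eigenvectorBasis with hb
  set μ := hH.eigenvalues with hμ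
  have hbil : ∀ (T : W →ₗ[ℝ] W →ₗ[ℝ] ℝ) (c d : Fin k → ℝ),
      T (∑ i, c i • f i) (∑ j, d j • f j) = ∑ i, c i * ∑ j, T (f i) (f j) * d j := by
    intro T c d
    simp only [map_sum, map_smul, LinearMap.sum_apply, LinearMap.smul_apply, smul_eq_mul,
      Finset.mul_sum]
    rw [Finset.sum_comm]
    refine Finset.sum_congr rfl fun i _ => Finset.sum_congr rfl fun j _ => ?_
    ring
  have horth : ∀ i j, ∑ l, b i l * b j l = if i = j then (1 : ℝ) else 0 := by
    intro i j
    have h1 := orthonormal_iff_ite.1 b.orthonormal j i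
    rw [PiLp.inner_apply] at h1
    have h2 : ∑ l, inner ℝ (b j l) (b i l) = ∑ l, b i l * b j l := rfl
    rw [← h2, h1]
    by_cases hij : i = j
    · rw [if_pos hij, if_pos hij.symm]
    · rw [if_neg hij, if_neg (Ne.symm hij)]
  have heig : ∀ j l, ∑ m, D (f l) (f m) * b j m = μ j * b j l := by
    intro j l
    have h1 := congrFun (hH.mulVec_eigenvectorBasis j) l
    exact h1
  set e : Fin k → W := fun j => ∑ i, b j i • f i with he
  have heN : ∀ i j, N (e i) (e j) = if i = j then 1 else 0 := by
    intro i j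
    rw [he]
    show N (∑ l, b i l • f l) (∑ l, b j l • f l) = _
    rw [hbil N (b i) (b j), ← horth i j]
    refine Finset.sum_congr rfl fun l _ => ?_
    congr 1
    rw [Finset.sum_eq_single l]
    · rw [hN, if_pos rfl, one_mul]
    · intro m _ hm
      rw [hN, if_neg (Ne.symm hm), zero_mul]
    · intro h
      exact absurd (Finset.mem_univ _) h
  have heD : ∀ i j, D (e i) (e j) = if i = j then μ i else 0 := by
    intro i j
    rw [he]
    show D (∑ l, b i l • f l) (∑ l, b j l • f l) = _
    rw [hbil D (b i) (b j)]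
    have h1 : ∀ l, b i l * ∑ m, D (f l) (f m) * b j m = μ j * (b i l * b j l) := by
      intro l
      rw [heig j l]
      ring
    rw [Finset.sum_congr rfl fun l _ => h1 l, ← Finset.mul_sum, horth i j]
    by_cases hij : i = j
    · rw [if_pos hij, if_pos hij, mul_one, hij]
    · rw [if_neg hij, if_neg hij, mul_zero]
  have hspan : ∀ i, e i ∈ Submodule.span ℝ (Set.range f) := fun i =>
    sum_mem fun j _ => Submodule.smul_mem _ _ (Submodule.subset_span ⟨j, rfl⟩)
  have htr : ∑ i, μ i = ∑ i, D (f i) (f i) := by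
    have h1 := hH.trace_eq_sum_eigenvalues
    have h2 : A.trace = ∑ i, D (f i) (f i) := rfl
    rw [h2] at h1
    exact h1.symm
  let σ := Tuple.sort μ
  refine ⟨e ∘ σ, μ ∘ σ, Tuple.monotone_sort μ, fun i => hspan _, fun i j => ?_, fun i j => ?_, ?_⟩
  · show N (e (σ i)) (e (σ j)) = _
    rw [heN]
    by_cases hij : i = j
    · rw [if_pos hij, if_pos (congrArg σ hij)]
    · rw [if_neg hij, if_neg fun h => hij (σ.injective h)]
  · show D (e (σ i)) (e (σ j)) = if i = j then μ (σ i) else 0
    rw [heD]
    by_cases hij : i = j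
    · rw [if_pos hij, if_pos (congrArg σ hij)]
    · rw [if_neg hij, if_neg fun h => hij (σ.injective h)]
  · rw [← htr]
    exact Equiv.sum_comp σ μ

end Pool.Agent.PPW
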