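import Pool.Agent.Lib.MP_eb7570_an.Form
import Pool.Agent.Lib.MP_eb7570_an.Diag

/-!
The min-max values of the frozen statement: upper bounds by Lipschitz functions, trace bound,
lower bound of the Dirichlet form, near minimisers.
-/

set_option autoImplicit false

open MeasureTheory Filter Topology Metric Set

namespace Pool.Agent.PPW

/-- The set of admissible numbers in the min-max formula of the frozen statement. -/
def admS (k : ℕ) (Ω : Set E2) : Set ℝ :=
  {t : ℝ | ∃ V : Submodule ℝ (EuclideanSpace ℝ (Fin 2) → ℝ),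
    Module.finrank ℝ V = k ∧
    (∀ u ∈ V, ContDiff ℝ ((⊤ : ℕ∞) : WithTop ℕ∞) u ∧ HasCompactSupport u ∧
      tsupport u ⊆ Ω) ∧
    ∀ u ∈ V, (∫ x, ‖fderiv ℝ u x‖ ^ 2) ≤ t * ∫ x, (u x) ^ 2}

/-- The eigenvalue `λ_k` of the frozen statement. -/
noncomputable def lamk (k : ℕ) (Ω : Set E2) : ℝ := sInf (admS k Ω)

/-- The norm of a functional on the plane in coordinates. -/
theorem norm_clm_sq (L : E2 →L[ℝ] ℝ) : ‖L‖ ^ 2 = L (ev 0) ^ 2 + L (ev 1) ^ 2 := by
  obtain ⟨w, rfl⟩ := (InnerProductSpace.toDual ℝ E2).surjective L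
  rw [LinearIsometryEquiv.norm_map, EuclideanSpace.norm_sq_eq, Fin.sum_univ_two]
  have h : ∀ i, (InnerProductSpace.toDual ℝ E2) w (ev i) = w i := by
    intro i
    rw [InnerProductSpace.toDual_apply_apply, real_inner_comm]
    unfold ev
    rw [EuclideanSpace.inner_single_left]
    simp
  rw [h, h, Real.norm_eq_abs, Real.norm_eq_abs, sq_abs, sq_abs]

/-- The gradient norm in terms of partial derivatives. -/
theorem norm_fderiv_sq {u : E2 → ℝ} {x : E2} (hu : DifferentiableAt ℝ u x) :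
    ‖fderiv ℝ u x‖ ^ 2 = pd 0 u x * pd 0 u x + pd 1 u x * pd 1 u x := by
  rw [norm_clm_sq]
  have h : ∀ i, fderiv ℝ u x (ev i) = pd i u x := fun i => (hu.lineDeriv_eq_fderiv).symm
  rw [h, h]
  ring

theorem En_eq_of_smooth {u : E2 → ℝ} (hu : ContDiff ℝ ((⊤ : ℕ∞) : WithTop ℕ∞) u) :
    (∫ x, ‖fderiv ℝ u x‖ ^ 2) = En u u := by
  unfold En
  apply integral_congr_ae
  refine Eventually.of_forall fun x => ?_
  exact norm_fderiv_sq (hu.differentiable (by simp) x)

theorem Ma_eq (u : E2 → ℝ) : (∫ x, (u x) ^ 2) = Ma u u := by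
  unfold Ma
  apply integral_congr_ae
  exact Eventually.of_forall fun x => pow_two (u x)

theorem Ma_pos {u : E2 → ℝ} (hc : Continuous u) (hs : HasCompactSupport u) (h0 : u ≠ 0) :
    0 < Ma u u := by
  obtain ⟨x, hx⟩ := Function.ne_iff.1 h0
  unfold Ma
  apply Continuous.integral_pos_of_hasCompactSupport_nonneg_nonzero (x := x)
  · exact hc.mul hc
  · exact hs.mul_right
  · intro y
    exact mul_self_nonneg _
  · exact mul_self_ne_zero.2 hx

theorem Ma_smul_smul (a b : ℝ) (u w : E2 → ℝ) :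
    Ma (fun x => a * u x) (fun x => b * w x) = a * b * Ma u w := by
  rw [Ma_smul_left, Ma_comm u, Ma_smul_left, Ma_comm w]
  ring

theorem En_smul_smul (a b : ℝ) (u w : E2 → ℝ) :
    En (fun x => a * u x) (fun x => b * w x) = a * b * En u w := by
  rw [En_smul_left, En_comm u, En_smul_left, En_comm w]
  ring

/-! ### Smooth functions form a subspace -/

theorem Tc.zero (Ω : Set E2) : Tc Ω (fun _ => (0 : ℝ)) :=
  ⟨contDiff_const, (Lc.zero Ω).cpt, (Lc.zero Ω).sub⟩

theorem Tc.add {Ω : Set E2} {u w : E2 → ℝ} (hu : Tc Ω u) (hw : Tc Ω w) :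
    Tc Ω (fun x => u x + w x) :=
  ⟨hu.smooth.add hw.smooth, hu.cpt.add hw.cpt, (hu.toLc.add hw.toLc).sub⟩

theorem Tc.smul {Ω : Set E2} {u : E2 → ℝ} (c : ℝ) (hu : Tc Ω u) :
    Tc Ω (fun x => c * u x) :=
  ⟨contDiff_const.mul hu.smooth, hu.cpt.mul_left, (hu.toLc.smul c).sub⟩

/-- The submodule of test functions. -/
def TcS (Ω : Set E2) : Submodule ℝ (E2 → ℝ) where
  carrier := {u | Tc Ω u}
  add_mem' := fun ha hb => Tc.add ha hb
  zero_mem' := Tc.zero Ω
  smul_mem' := fun c _ hu => Tc.smul c hu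

/-- Linear combination. -/
def comb {k : ℕ} (c : Fin k → ℝ) (e : Fin k → E2 → ℝ) : E2 → ℝ := ∑ i, c i • e i

theorem Tc.comb {Ω : Set E2} {k : ℕ} (c : Fin k → ℝ) {e : Fin k → E2 → ℝ}
    (he : ∀ i, Tc Ω (e i)) : Tc Ω (comb c e) :=
  (TcS Ω).sum_mem fun i _ => (TcS Ω).smul_mem (c i) (he i)

theorem Lc.comb {Ω : Set E2} {k : ℕ} (c : Fin k → ℝ) {e : Fin k → E2 → ℝ}
    (he : ∀ i, Lc Ω (e i)) : Lc Ω (comb c e) :=
  (LcS Ω).sum_mem fun i _ => (LcS Ω).smul_mem (c i) (he i)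

private theorem bil_comb {W : Type*} [AddCommGroup W] [Module ℝ W] (T : W →ₗ[ℝ] W →ₗ[ℝ] ℝ)
    {k : ℕ} (f : Fin k → W) (c : Fin k → ℝ) :
    T (∑ i, c i • f i) (∑ j, c j • f j) = ∑ i, ∑ j, c i * c j * T (f i) (f j) := by
  simp only [map_sum, map_smul, LinearMap.sum_apply, LinearMap.smul_apply, smul_eq_mul,
    Finset.mul_sum]
  rw [Finset.sum_comm]
  refine Finset.sum_congr rfl fun i _ => Finset.sum_congr rfl fun j _ => ?_
  ring

theorem Ma_comb {Ω : Set E2} {k : ℕ} (c : Fin k → ℝ) {e : Fin k → E2 → ℝ}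
    (he : ∀ i, Lc Ω (e i)) :
    Ma (Pool.Agent.PPW.comb c e) (Pool.Agent.PPW.comb c e) =
      ∑ i, ∑ j, c i * c j * Ma (e i) (e j) := by
  have h := bil_comb (MaL Ω) (fun i => (⟨e i, he i⟩ : LcS Ω)) c
  have h2 : ((∑ i, c i • (⟨e i, he i⟩ : LcS Ω) : LcS Ω) : E2 → ℝ) =
      Pool.Agent.PPW.comb c e := by
    rw [AddSubmonoidClass.coe_finsetSum]
    rfl
  rw [MaL_apply, h2] at h
  exact h

theorem En_comb {Ω : Set E2} {k : ℕ} (c : Fin k → ℝ) {e : Fin k → E2 → ℝ}
    (he : ∀ i, Lc Ω (e i)) :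
    En (Pool.Agent.PPW.comb c e) (Pool.Agent.PPW.comb c e) =
      ∑ i, ∑ j, c i * c j * En (e i) (e j) := by
  have h := bil_comb (EnL Ω) (fun i => (⟨e i, he i⟩ : LcS Ω)) c
  have h2 : ((∑ i, c i • (⟨e i, he i⟩ : LcS Ω) : LcS Ω) : E2 → ℝ) =
      Pool.Agent.PPW.comb c e := by
    rw [AddSubmonoidClass.coe_finsetSum]
    rfl
  rw [EnL_apply, h2] at h
  exact h

/-! ### Admissible numbers -/

theorem mem_admS {Ω : Set E2} {k : ℕ} {t m : ℝ} (hm : 0 < m) {e : Fin k → E2 → ℝ}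
    (he : ∀ i, Tc Ω (e i))
    (h1 : ∀ c : Fin k → ℝ, m * ∑ i, c i ^ 2 ≤
      Ma (Pool.Agent.PPW.comb c e) (Pool.Agent.PPW.comb c e))
    (h2 : ∀ c : Fin k → ℝ, En (Pool.Agent.PPW.comb c e) (Pool.Agent.PPW.comb c e) ≤
      t * Ma (Pool.Agent.PPW.comb c e) (Pool.Agent.PPW.comb c e)) : t ∈ admS k Ω := by
  have hmem : ∀ u ∈ Submodule.span ℝ (Set.range e), ∃ c : Fin k → ℝ,
      Pool.Agent.PPW.comb c e = u := by
    intro u hu
    exact (Submodule.mem_span_range_iff_exists_fun ℝ).1 hu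
  have hli : LinearIndependent ℝ e := by
    rw [Fintype.linearIndependent_iff]
    intro c hc i
    have h3 := h1 c
    have h4 : Pool.Agent.PPW.comb c e = 0 := hc
    have h5 : Ma (0 : E2 → ℝ) 0 = 0 := by
      unfold Ma
      simp
    rw [h4, h5] at h3
    have h6 : ∑ i, c i ^ 2 ≤ 0 := by
      by_contra h7
      push Not at h7
      have := mul_pos hm h7
      linarith
    have h7 : ∑ i, c i ^ 2 = 0 := le_antisymm h6 (Finset.sum_nonneg fun i _ => sq_nonneg _)
    have h8 := (Finset.sum_eq_zero_iff_of_nonneg (fun i _ => sq_nonneg (c i))).1 h7 i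
      (Finset.mem_univ i)
    exact pow_eq_zero_iff (two_ne_zero) |>.1 h8
  refine ⟨Submodule.span ℝ (Set.range e), ?_, ?_, ?_⟩
  · rw [finrank_span_eq_card hli, Fintype.card_fin]
  · intro u hu
    obtain ⟨c, rfl⟩ := hmem u hu
    have h3 := Tc.comb c he
    exact ⟨h3.smooth, h3.cpt, h3.sub⟩
  · intro u hu
    obtain ⟨c, rfl⟩ := hmem u hu
    rw [En_eq_of_smooth (Tc.comb c he).smooth, Ma_eq]
    exact h2 c

/-- A nonzero test function with its Rayleigh quotient from an admissible number. -/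
theorem exists_of_mem {Ω : Set E2} {k : ℕ} (hk : k ≠ 0) {t : ℝ} (ht : t ∈ admS k Ω) :
    ∃ u, Tc Ω u ∧ 0 < Ma u u ∧ En u u ≤ t * Ma u u := by
  obtain ⟨V, hV, h1, h2⟩ := ht
  have h3 : 0 < Module.finrank ℝ V := by omega
  have h4 : Nontrivial V := Module.nontrivial_of_finrank_pos h3
  obtain ⟨w, hw⟩ := exists_ne (0 : V)
  obtain ⟨a, b, c⟩ := h1 w w.2
  have hw' : (w : E2 → ℝ) ≠ 0 := fun h => hw (Subtype.ext h)
  refine ⟨w, ⟨a, b, c⟩, Ma_pos a.continuous b hw', ?_⟩
  have h5 := h2 w w.2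
  rw [En_eq_of_smooth a, Ma_eq] at h5
  exact h5

theorem admS_nonneg {Ω : Set E2} {k : ℕ} (hk : k ≠ 0) {t : ℝ} (ht : t ∈ admS k Ω) : 0 ≤ t := by
  obtain ⟨u, hu, h1, h2⟩ := exists_of_mem hk ht
  by_contra h
  push Not at h
  have := mul_neg_of_neg_of_pos h h1
  linarith [En_nonneg u]

theorem admS_bdd {Ω : Set E2} {k : ℕ} (hk : k ≠ 0) : BddBelow (admS k Ω) :=
  ⟨0, fun _ ht => admS_nonneg hk ht⟩

theorem lamk_le {Ω : Set E2} {k : ℕ} (hk : k ≠ 0) {t : ℝ} (ht : t ∈ admS k Ω) :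
    lamk k Ω ≤ t := csInf_le (admS_bdd hk) ht

theorem lamk_nonneg {Ω : Set E2} {k : ℕ} (hk : k ≠ 0) : 0 ≤ lamk k Ω :=
  Real.sInf_nonneg fun _ ht => admS_nonneg hk ht

private theorem sum_err {k : ℕ} (c : Fin k → ℝ) (E : Fin k → Fin k → ℝ) {η : ℝ}
    (hE : ∀ i j, |E i j| ≤ η) :
    |∑ i, ∑ j, c i * c j * E i j| ≤ η * k * ∑ i, c i ^ 2 := by
  rcases Nat.eq_zero_or_pos k with hk | hk
  · subst hk
    simp
  have hη : 0 ≤ η := (abs_nonneg _).trans (hE ⟨0, hk⟩ ⟨0, hk⟩)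
  have h1 : |∑ i, ∑ j, c i * c j * E i j| ≤ ∑ i, ∑ j, |c i| * |c j| * η := by
    refine (Finset.abs_sum_le_sum_abs _ _).trans (Finset.sum_le_sum fun i _ => ?_)
    refine (Finset.abs_sum_le_sum_abs _ _).trans (Finset.sum_le_sum fun j _ => ?_)
    rw [abs_mul, abs_mul]
    exact mul_le_mul_of_nonneg_left (hE i j) (by positivity)
  have h2 : ∑ i, ∑ j, |c i| * |c j| * η = η * (∑ i, |c i|) ^ 2 := by
    rw [pow_two, Finset.sum_mul_sum, Finset.mul_sum]
    refine Finset.sum_congr rfl fun i _ => ?_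
    rw [Finset.mul_sum]
    refine Finset.sum_congr rfl fun j _ => ?_
    ring
  have h3 : (∑ i, |c i|) ^ 2 ≤ k * ∑ i, c i ^ 2 := by
    have h4 := sq_sum_le_card_mul_sum_sq (s := (Finset.univ : Finset (Fin k)))
      (f := fun i => |c i|)
    simp only [sq_abs, Finset.card_univ, Fintype.card_fin] at h4
    exact h4
  calc |∑ i, ∑ j, c i * c j * E i j| ≤ η * (∑ i, |c i|) ^ 2 := h1.trans (le_of_eq h2)
    _ ≤ η * (k * ∑ i, c i ^ 2) := mul_le_mul_of_nonneg_left h3 hη
    _ = η * k * ∑ i, c i ^ 2 := by ring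

/-- Upper bound of `λ_k` by an orthonormal family of Lipschitz functions. -/
theorem lamk_le_of_orthonormal {Ω : Set E2} (hΩ : IsOpen Ω) {k : ℕ} (hk : k ≠ 0) {t : ℝ}
    {e : Fin k → E2 → ℝ} (he : ∀ i, Lc Ω (e i))
    (hN : ∀ i j, Ma (e i) (e j) = if i = j then 1 else 0)
    (hE : ∀ c : Fin k → ℝ, ∑ i, ∑ j, c i * c j * En (e i) (e j) ≤ t * ∑ i, c i ^ 2) :
    lamk k Ω ≤ t := by
  -- `t` is nonnegative
  have ht : 0 ≤ t := by
    have i0 : Fin k := ⟨0, Nat.pos_of_ne_zero hk⟩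
    have h1 := hE (fun i => if i = i0 then 1 else 0)
    have h2 : ∑ i, ∑ j, (if i = i0 then (1 : ℝ) else 0) * (if j = i0 then (1 : ℝ) else 0) *
        En (e i) (e j) = En (e i0) (e i0) := by
      rw [Finset.sum_eq_single i0, Finset.sum_eq_single i0]
      · simp
      · intro j _ hj
        simp [hj]
      · intro h
        exact absurd (Finset.mem_univ _) h
      · intro i _ hi
        simp [hi]
      · intro h
        exact absurd (Finset.mem_univ _) h
    have h3 : ∑ i, (if i = i0 then (1 : ℝ) else 0) ^ 2 = 1 := by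
      simp
    rw [h2, h3, mul_one] at h1
    exact (En_nonneg _).trans h1
  apply le_of_forall_pos_le_add
  intro δ hδ
  apply lamk_le hk
  choose U hU using fun i => exists_apx hΩ (he i)
  set θ : ℝ := δ / (1 + t + δ) with hθ
  have hpos : 0 < 1 + t + δ := by positivity
  have hθ0 : 0 < θ := by positivity
  have hk0 : (0 : ℝ) < k := by
    exact_mod_cast Nat.pos_of_ne_zero hk
  have hη0 : 0 < θ / k := by positivity
  have hconv : ∀ᶠ n in atTop, ∀ i j, |Ma (U i n) (U j n) - Ma (e i) (e j)| < θ / k ∧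
      |En (U i n) (U j n) - En (e i) (e j)| < θ / k := by
    rw [eventually_all]
    intro i
    rw [eventually_all]
    intro j
    have h1 := (Metric.tendsto_nhds.1 ((hU i).ma (hU j))) (θ / k) hη0
    have h2 := (Metric.tendsto_nhds.1 ((hU i).en (hU j))) (θ / k) hη0
    filter_upwards [h1, h2] with n a b
    rw [Real.dist_eq] at a b
    exact ⟨a, b⟩
  obtain ⟨n, hn⟩ := hconv.exists
  have hθ1 : 1 - θ = (1 + t) / (1 + t + δ) := by
    rw [hθ]
    field_simp
    ring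
  have hθ2 : 0 < 1 - θ := by
    rw [hθ1]
    positivity
  have hid : ∀ c : Fin k → ℝ, ∑ i, ∑ j, c i * c j * Ma (e i) (e j) = ∑ i, c i ^ 2 := by
    intro c
    refine Finset.sum_congr rfl fun i _ => ?_
    rw [Finset.sum_eq_single i]
    · rw [hN, if_pos rfl]
      ring
    · intro j _ hj
      rw [hN, if_neg (Ne.symm hj), mul_zero]
    · intro h
      exact absurd (Finset.mem_univ _) h
  have hM : ∀ c : Fin k → ℝ, (1 - θ) * ∑ i, c i ^ 2 ≤
      Ma (Pool.Agent.PPW.comb c fun i => U i n) (Pool.Agent.PPW.comb c fun i => U i n) := by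
    intro c
    rw [Ma_comb c fun i => ((hU i).tc n).toLc]
    have h1 := sum_err c (fun i j => Ma (U i n) (U j n) - Ma (e i) (e j))
      (fun i j => (hn i j).1.le)
    have h2 : ∑ i, ∑ j, c i * c j * (Ma (U i n) (U j n) - Ma (e i) (e j)) =
        (∑ i, ∑ j, c i * c j * Ma (U i n) (U j n)) - ∑ i, c i ^ 2 := by
      rw [← hid c, ← Finset.sum_sub_distrib]
      refine Finset.sum_congr rfl fun i _ => ?_
      rw [← Finset.sum_sub_distrib]
      refine Finset.sum_congr rfl fun j _ => ?_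
      ring
    rw [h2, div_mul_cancel₀ θ hk0.ne'] at h1
    have h3 := (abs_le.1 h1).1
    linarith
  refine mem_admS (m := 1 - θ) hθ2 (e := fun i => U i n) (fun i => (hU i).tc n) hM ?_
  intro c
  have h1 := sum_err c (fun i j => En (U i n) (U j n) - En (e i) (e j))
    (fun i j => (hn i j).2.le)
  have h2 : ∑ i, ∑ j, c i * c j * (En (U i n) (U j n) - En (e i) (e j)) =
      (∑ i, ∑ j, c i * c j * En (U i n) (U j n)) - ∑ i, ∑ j, c i * c j * En (e i) (e j) := by
    rw [← Finset.sum_sub_distrib]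
    refine Finset.sum_congr rfl fun i _ => ?_
    rw [← Finset.sum_sub_distrib]
    refine Finset.sum_congr rfl fun j _ => ?_
    ring
  rw [h2, div_mul_cancel₀ θ hk0.ne'] at h1
  have h3 := (abs_le.1 h1).2
  have h4 := hE c
  rw [En_comb c fun i => ((hU i).tc n).toLc]
  have h5 := mul_le_mul_of_nonneg_left (hM c) (by positivity : (0 : ℝ) ≤ t + δ)
  refine le_trans ?_ h5
  have h6 : (t + δ) * ((1 - θ) * ∑ i, c i ^ 2) = (t + θ) * ∑ i, c i ^ 2 := by
    have h7 : (t + δ) * (1 - θ) = t + θ := by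
      rw [hθ]
      field_simp
      ring
    rw [← mul_assoc, h7]
  rw [h6]
  linarith

/-- Trace bound (Ky Fan): the sum of the first `k` values is at most the sum of the energies of an
orthonormal family of Lipschitz functions. -/
theorem sum_lamk_le {Ω : Set E2} (hΩ : IsOpen Ω) {k : ℕ} {f : Fin k → E2 → ℝ}
    (hf : ∀ i, Lc Ω (f i)) (hN : ∀ i j, Ma (f i) (f j) = if i = j then 1 else 0) :
    ∑ i : Fin k, lamk (i + 1) Ω ≤ ∑ i, En (f i) (f i) := by
  obtain ⟨e, μ, hmono, -, heN, heD, htr⟩ := exists_diag (MaL Ω) (EnL Ω)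
    (fun x y => En_comm _ _) (fun i => (⟨f i, hf i⟩ : LcS Ω)) hN
  have h1 : ∑ i, En (f i) (f i) = ∑ i, μ i := htr.symm
  rw [h1]
  refine Finset.sum_le_sum fun j _ => ?_
  have hj : (j : ℕ) + 1 ≤ k := j.2
  refine lamk_le_of_orthonormal hΩ (Nat.succ_ne_zero _)
    (e := fun i : Fin (j + 1) => ((e (Fin.castLE hj i) : LcS Ω) : E2 → ℝ))
    (fun i => (e (Fin.castLE hj i)).2) ?_ ?_
  · intro a b
    have h2 := heN (Fin.castLE hj a) (Fin.castLE hj b)
    rw [MaL_apply] at h2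
    rw [h2]
    by_cases hab : a = b
    · rw [if_pos hab, if_pos (congrArg _ hab)]
    · rw [if_neg hab, if_neg fun h => hab (Fin.castLE_injective hj h)]
  · intro c
    rw [Finset.mul_sum]
    refine Finset.sum_le_sum fun a _ => ?_
    have h3 : ∑ b, c a * c b * En ((e (Fin.castLE hj a) : LcS Ω) : E2 → ℝ)
        ((e (Fin.castLE hj b) : LcS Ω) : E2 → ℝ) = c a ^ 2 * μ (Fin.castLE hj a) := by
      rw [Finset.sum_eq_single a]
      · have h4 := heD (Fin.castLE hj a) (Fin.castLE hj a)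
        rw [EnL_apply, if_pos rfl] at h4
        rw [h4]
        ring
      · intro b _ hb
        have h4 := heD (Fin.castLE hj a) (Fin.castLE hj b)
        rw [EnL_apply, if_neg fun h => hb (Fin.castLE_injective hj h).symm] at h4
        rw [h4, mul_zero]
      · intro h
        exact absurd (Finset.mem_univ _) h
    rw [h3, mul_comm]
    apply mul_le_mul_of_nonneg_right _ (sq_nonneg _)
    apply hmono
    rw [Fin.le_def, Fin.val_castLE]
    have := a.2
    omega

/-- The first three values and an orthogonal triple. -/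
theorem sum_three_le {Ω : Set E2} (hΩ : IsOpen Ω) {f g h : E2 → ℝ}
    (hf : Lc Ω f) (hg : Lc Ω g) (hh : Lc Ω h) (hff : 0 < Ma f f) (hgg : 0 < Ma g g)
    (hhh : 0 < Ma h h) (hfg : Ma f g = 0) (hfh : Ma f h = 0) (hgh : Ma g h = 0) :
    lamk 1 Ω + lamk 2 Ω + lamk 3 Ω ≤
      En f f / Ma f f + En g g / Ma g g + En h h / Ma h h := by
  have hs := Ma_smul_smul
  have he := En_smul_smul
  set a := (Real.sqrt (Ma f f))⁻¹ with ha
  set b := (Real.sqrt (Ma g g))⁻¹ with hb
  set c := (Real.sqrt (Ma h h))⁻¹ with hc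
  have hinv : ∀ m : ℝ, 0 < m → (Real.sqrt m)⁻¹ * (Real.sqrt m)⁻¹ = m⁻¹ := by
    intro m hm
    rw [← mul_inv, Real.mul_self_sqrt hm.le]
  have key := sum_lamk_le hΩ (k := 3) (f := ![fun x => a * f x, fun x => b * g x,
    fun x => c * h x]) ?_ ?_
  · rw [Fin.sum_univ_three, Fin.sum_univ_three] at key
    have e0 : En (fun x => a * f x) (fun x => a * f x) = En f f / Ma f f := by
      rw [he, ha, hinv _ hff]
      ring
    have e1 : En (fun x => b * g x) (fun x => b * g x) = En g g / Ma g g := by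
      rw [he, hb, hinv _ hgg]
      ring
    have e2 : En (fun x => c * h x) (fun x => c * h x) = En h h / Ma h h := by
      rw [he, hc, hinv _ hhh]
      ring
    rw [← e0, ← e1, ← e2]
    exact key
  · intro i
    fin_cases i
    · exact hf.smul a
    · exact hg.smul b
    · exact hh.smul c
  · intro i j
    fin_cases i <;> fin_cases j
    · show Ma (fun x => a * f x) (fun x => a * f x) = _
      rw [hs, ha, hinv _ hff, inv_mul_cancel₀ hff.ne']
      rfl
    · show Ma (fun x => a * f x) (fun x => b * g x) = _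
      rw [hs, hfg, mul_zero]
      rfl
    · show Ma (fun x => a * f x) (fun x => c * h x) = _
      rw [hs, hfh, mul_zero]
      rfl
    · show Ma (fun x => b * g x) (fun x => a * f x) = _
      rw [hs, Ma_comm, hfg, mul_zero]
      rfl
    · show Ma (fun x => b * g x) (fun x => b * g x) = _
      rw [hs, hb, hinv _ hgg, inv_mul_cancel₀ hgg.ne']
      rfl
    · show Ma (fun x => b * g x) (fun x => c * h x) = _
      rw [hs, hgh, mul_zero]
      rfl
    · show Ma (fun x => c * h x) (fun x => a * f x) = _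
      rw [hs, Ma_comm, hfh, mul_zero]
      rfl
    · show Ma (fun x => c * h x) (fun x => b * g x) = _
      rw [hs, Ma_comm, hgh, mul_zero]
      rfl
    · show Ma (fun x => c * h x) (fun x => c * h x) = _
      rw [hs, hc, hinv _ hhh, inv_mul_cancel₀ hhh.ne']
      rfl

/-- The first value is a lower bound of the Dirichlet form. -/
theorem low_lamk (Ω : Set E2) : Low (lamk 1 Ω) Ω := by
  intro u hu
  by_cases h0 : u = 0
  · have h5 : Ma u u = 0 := by
      rw [h0]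
      unfold Ma
      simp
    rw [h5, mul_zero]
    exact En_nonneg u
  have hpos := Ma_pos hu.smooth.continuous hu.cpt h0
  rw [← le_div_iff₀ hpos]
  apply lamk_le one_ne_zero
  have hcomb : ∀ c : Fin 1 → ℝ, Pool.Agent.PPW.comb c (fun _ => u) = fun x => c 0 * u x := by
    intro c
    unfold Pool.Agent.PPW.comb
    rw [Fin.sum_univ_one]
    rfl
  refine mem_admS (m := Ma u u) hpos (e := fun _ => u) (fun _ => hu) ?_ ?_
  · intro c
    rw [hcomb, Ma_smul_smul, Fin.sum_univ_one]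
    apply le_of_eq
    ring
  · intro c
    rw [hcomb, Ma_smul_smul, En_smul_smul]
    apply le_of_eq
    field_simp

/-- A bump function in a nonempty open set. -/
theorem exists_tc {Ω : Set E2} (hΩ : IsOpen Ω) (hne : Ω.Nonempty) :
    ∃ u, Tc Ω u ∧ 0 < Ma u u := by
  obtain ⟨x, hx⟩ := hne
  obtain ⟨u, h1, h2, h3, h4, h5⟩ := exists_contDiff_tsupport_subset (n := (⊤ : ℕ∞))
    (hΩ.mem_nhds hx)
  refine ⟨u, ⟨h3, h2, h1⟩, Ma_pos h3.continuous h2 ?_⟩
  intro h
  rw [h] at h5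
  exact zero_ne_one h5

/-- Near minimisers exist. -/
theorem exists_near {Ω : Set E2} (hΩ : IsOpen Ω) (hne : Ω.Nonempty) {ε : ℝ} (hε : 0 < ε) :
    ∃ φ, Tc Ω φ ∧ Ma φ φ = 1 ∧ En φ φ ≤ lamk 1 Ω + ε := by
  have hne1 : (admS 1 Ω).Nonempty := by
    obtain ⟨u, hu, hpos⟩ := exists_tc hΩ hne
    refine ⟨En u u / Ma u u, mem_admS (m := Ma u u) hpos (e := fun _ => u) (fun _ => hu) ?_ ?_⟩
    · intro c
      have hcomb : Pool.Agent.PPW.comb c (fun _ => u) = fun x => c 0 * u x := by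
        unfold Pool.Agent.PPW.comb
        rw [Fin.sum_univ_one]
        rfl
      rw [hcomb, Ma_smul_smul, Fin.sum_univ_one]
      apply le_of_eq
      ring
    · intro c
      have hcomb : Pool.Agent.PPW.comb c (fun _ => u) = fun x => c 0 * u x := by
        unfold Pool.Agent.PPW.comb
        rw [Fin.sum_univ_one]
        rfl
      rw [hcomb, Ma_smul_smul, En_smul_smul]
      apply le_of_eq
      field_simp
  obtain ⟨t, ht, hlt⟩ := exists_lt_of_csInf_lt hne1 (lt_add_of_pos_right (lamk 1 Ω) hε)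
  obtain ⟨u, hu, hpos, hle⟩ := exists_of_mem one_ne_zero ht
  have hsq : (Real.sqrt (Ma u u))⁻¹ * (Real.sqrt (Ma u u))⁻¹ = (Ma u u)⁻¹ := by
    rw [← mul_inv, Real.mul_self_sqrt hpos.le]
  refine ⟨fun x => (Real.sqrt (Ma u u))⁻¹ * u x, hu.smul _, ?_, ?_⟩
  · rw [Ma_smul_smul, hsq, inv_mul_cancel₀ hpos.ne']
  · rw [En_smul_smul, hsq]
    have h1 : (Ma u u)⁻¹ * En u u ≤ t := by
      rw [inv_mul_le_iff₀ hpos]
      linarith
    linarith

end Pool.Agent.PPW
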