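import Mathlib
import Pool.Agent.Lib.MP_eb7570_an.Lam

/-!
Polar coordinates in the plane, and circle integrals of a smooth function.
-/

set_option autoImplicit false

open MeasureTheory Set Filter Topology

namespace Pool.Agent.PPW

/-- the point with polar coordinates `(r, θ)` -/
noncomputable def pt (r θ : ℝ) : E2 := WithLp.toLp 2 ![r * Real.cos θ, r * Real.sin θ]

theorem integral_polar (g : E2 → ℝ) :
    ∫ x, g x = ∫ p in Ioi (0 : ℝ) ×ˢ Ioo (-Real.pi) Real.pi, p.1 * g (pt p.1 p.2) := by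
  have h1 := (EuclideanSpace.volume_preserving_symm_measurableEquiv_toLp (Fin 2)).symm
  have h2 := (volume_preserving_finTwoArrow ℝ).symm
  rw [← h1.integral_comp (MeasurableEquiv.measurableEmbedding _),
    ← h2.integral_comp (MeasurableEquiv.measurableEmbedding _),
    ← integral_comp_polarCoord_symm]
  rfl

theorem norm_pt (r θ : ℝ) : ‖pt r θ‖ = |r| := by
  rw [← Real.sqrt_sq_eq_abs, EuclideanSpace.norm_eq, Fin.sum_univ_two]
  congr 1
  simp only [pt, Real.norm_eq_abs, sq_abs]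
  change (r * Real.cos θ) ^ 2 + (r * Real.sin θ) ^ 2 = r ^ 2
  nlinarith [Real.sin_sq_add_cos_sq θ]

theorem pt_eq (r θ : ℝ) : pt r θ = (r * Real.cos θ) • ev 0 + (r * Real.sin θ) • ev 1 := by
  ext i
  fin_cases i <;> simp [pt, ev]

theorem continuous_pt : Continuous fun p : ℝ × ℝ => pt p.1 p.2 := by
  simp only [pt_eq]
  fun_prop

/-- Iterated integral in polar coordinates. -/
theorem integral_polar_iter {g : E2 → ℝ} (hg : Continuous g) (h0 : ∀ x, 1 ≤ ‖x‖ → g x = 0) :
    ∫ x, g x = ∫ r in (0 : ℝ)..1, r * ∫ θ in (-Real.pi)..Real.pi, g (pt r θ) := by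
  have hpi := Real.pi_pos
  have hc : Continuous fun p : ℝ × ℝ => p.1 * g (pt p.1 p.2) :=
    continuous_fst.mul (hg.comp continuous_pt)
  rw [integral_polar]
  have hsub : Ioc (0 : ℝ) 1 ×ˢ Ioo (-Real.pi) Real.pi ⊆ Ioi 0 ×ˢ Ioo (-Real.pi) Real.pi :=
    prod_mono (fun x hx => hx.1) subset_rfl
  rw [setIntegral_eq_of_subset_of_forall_sdiff_eq_zero
    (measurableSet_Ioi.prod measurableSet_Ioo) hsub]
  · have hint : IntegrableOn (fun p : ℝ × ℝ => p.1 * g (pt p.1 p.2))
        (Ioc (0 : ℝ) 1 ×ˢ Ioo (-Real.pi) Real.pi) := by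
      refine (hc.continuousOn.integrableOn_compact
        (isCompact_Icc.prod isCompact_Icc : IsCompact (Icc (0 : ℝ) 1 ×ˢ
          Icc (-Real.pi) Real.pi))).mono_set (prod_mono Ioc_subset_Icc_self Ioo_subset_Icc_self)
    rw [show (volume : Measure (ℝ × ℝ)) = volume.prod volume from rfl] at hint ⊢
    rw [setIntegral_prod _ hint, intervalIntegral.integral_of_le zero_le_one]
    refine setIntegral_congr_fun measurableSet_Ioc fun r _ => ?_
    simp only
    rw [integral_const_mul, intervalIntegral.integral_of_le (by linarith),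
      integral_Ioc_eq_integral_Ioo]
  · intro p hp
    have h1 : 1 ≤ p.1 := by
      by_contra h
      push Not at h
      exact hp.2 ⟨⟨hp.1.1, h.le⟩, hp.1.2⟩
    rw [h0 _ (by rw [norm_pt]; exact h1.trans (le_abs_self _)), mul_zero]

/-- Differentiation under an integral over a compact interval. -/
theorem hasDerivAt_circle {f f' : ℝ → ℝ → ℝ} {a b : ℝ}
    (hd : ∀ r θ, HasDerivAt (fun r => f r θ) (f' r θ) r)
    (hf : Continuous fun p : ℝ × ℝ => f p.1 p.2) (hf' : Continuous fun p : ℝ × ℝ => f' p.1 p.2)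
    (r : ℝ) :
    HasDerivAt (fun r => ∫ θ in a..b, f r θ) (∫ θ in a..b, f' r θ) r := by
  obtain ⟨C, hC⟩ := (isCompact_Icc.prod isCompact_uIcc : IsCompact (Icc (r - 1) (r + 1) ×ˢ
    uIcc a b)).exists_bound_of_continuousOn hf'.continuousOn
  have hs : ∀ r, Continuous fun θ => f r θ := fun r => by
    have : Continuous fun θ : ℝ => ((r, θ) : ℝ × ℝ) := by fun_prop
    exact hf.comp this
  have hs' : ∀ r, Continuous fun θ => f' r θ := fun r => by
    have : Continuous fun θ : ℝ => ((r, θ) : ℝ × ℝ) := by fun_prop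
    exact hf'.comp this
  refine (intervalIntegral.hasDerivAt_integral_of_dominated_loc_of_deriv_le
    (bound := fun _ => C) (s := Icc (r - 1) (r + 1)) (F := f) (F' := f') ?_ ?_ ?_ ?_ ?_ ?_ ?_).2
  · exact Icc_mem_nhds (by linarith) (by linarith)
  · exact Eventually.of_forall fun r => (hs r).aestronglyMeasurable
  · exact (hs r).intervalIntegrable _ _
  · exact (hs' r).aestronglyMeasurable
  · exact Eventually.of_forall fun θ hθ x hx => hC (x, θ) ⟨hx, uIoc_subset_uIcc hθ⟩
  · exact intervalIntegrable_const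
  · exact Eventually.of_forall fun θ _ x _ => hd x θ

theorem continuous_circle {f : ℝ → ℝ → ℝ} {a b : ℝ}
    (hf : Continuous fun p : ℝ × ℝ => f p.1 p.2) :
    Continuous fun r => ∫ θ in a..b, f r θ :=
  intervalIntegral.continuous_parametric_intervalIntegral_of_continuous' hf a b

/-! ### A smooth function in polar coordinates -/

/-- radial derivative -/
noncomputable def vr (u : E2 → ℝ) (r θ : ℝ) : ℝ :=
  Real.cos θ * pd 0 u (pt r θ) + Real.sin θ * pd 1 u (pt r θ)

/-- tangential derivative -/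
noncomputable def vt (u : E2 → ℝ) (r θ : ℝ) : ℝ :=
  -Real.sin θ * pd 0 u (pt r θ) + Real.cos θ * pd 1 u (pt r θ)

theorem vr_sq_add_vt_sq (u : E2 → ℝ) (r θ : ℝ) :
    vr u r θ ^ 2 + vt u r θ ^ 2 = pd 0 u (pt r θ) * pd 0 u (pt r θ) +
      pd 1 u (pt r θ) * pd 1 u (pt r θ) := by
  unfold vr vt
  have h := Real.sin_sq_add_cos_sq θ
  linear_combination (pd 0 u (pt r θ) ^ 2 + pd 1 u (pt r θ) ^ 2) * h

variable {u : E2 → ℝ}

theorem continuous_pd (hu : ContDiff ℝ ((⊤ : ℕ∞) : WithTop ℕ∞) u) (i : Fin 2) :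
    Continuous (pd i u) := by
  have h : pd i u = fun x => fderiv ℝ u x (ev i) := by
    funext x
    exact (hu.differentiable (by simp) x).lineDeriv_eq_fderiv
  rw [h]
  exact (hu.continuous_fderiv (by simp)).clm_apply continuous_const

theorem hasDerivAt_pt_r (hu : ContDiff ℝ ((⊤ : ℕ∞) : WithTop ℕ∞) u) (r θ : ℝ) :
    HasDerivAt (fun r => u (pt r θ)) (vr u r θ) r := by
  have hd := (hu.differentiable (by simp) (pt r θ))
  have h1 : HasDerivAt (fun r => pt r θ) (Real.cos θ • ev 0 + Real.sin θ • ev 1) r := by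
    simp only [pt_eq]
    have a1 : HasDerivAt (fun r : ℝ => r * Real.cos θ) (Real.cos θ) r := by
      simpa using (hasDerivAt_id r).mul_const (Real.cos θ)
    have a2 : HasDerivAt (fun r : ℝ => r * Real.sin θ) (Real.sin θ) r := by
      simpa using (hasDerivAt_id r).mul_const (Real.sin θ)
    exact (a1.smul_const _).add (a2.smul_const _)
  have h2 := hd.hasFDerivAt.comp_hasDerivAt r h1
  refine h2.congr_deriv ?_
  unfold vr pd
  rw [hd.lineDeriv_eq_fderiv, hd.lineDeriv_eq_fderiv, map_add, map_smul, map_smul]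
  rfl

theorem hasDerivAt_pt_t (hu : ContDiff ℝ ((⊤ : ℕ∞) : WithTop ℕ∞) u) (r θ : ℝ) :
    HasDerivAt (fun θ => u (pt r θ)) (r * vt u r θ) θ := by
  have hd := (hu.differentiable (by simp) (pt r θ))
  have h1 : HasDerivAt (fun θ => pt r θ)
      ((r * -Real.sin θ) • ev 0 + (r * Real.cos θ) • ev 1) θ := by
    simp only [pt_eq]
    have a1 : HasDerivAt (fun θ : ℝ => r * Real.cos θ) (r * -Real.sin θ) θ :=
      (Real.hasDerivAt_cos θ).const_mul r
    have a2 : HasDerivAt (fun θ : ℝ => r * Real.sin θ) (r * Real.cos θ) θ :=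
      (Real.hasDerivAt_sin θ).const_mul r
    exact (a1.smul_const _).add (a2.smul_const _)
  have h2 := hd.hasFDerivAt.comp_hasDerivAt θ h1
  refine h2.congr_deriv ?_
  unfold vt pd
  rw [hd.lineDeriv_eq_fderiv, hd.lineDeriv_eq_fderiv, map_add, map_smul, map_smul, smul_eq_mul,
    smul_eq_mul]
  ring

theorem continuous_upt (hu : ContDiff ℝ ((⊤ : ℕ∞) : WithTop ℕ∞) u) :
    Continuous fun p : ℝ × ℝ => u (pt p.1 p.2) := hu.continuous.comp continuous_pt

theorem continuous_vr (hu : ContDiff ℝ ((⊤ : ℕ∞) : WithTop ℕ∞) u) :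
    Continuous fun p : ℝ × ℝ => vr u p.1 p.2 := by
  have h0 := (continuous_pd hu 0).comp continuous_pt
  have h1 := (continuous_pd hu 1).comp continuous_pt
  simp only [Function.comp_def] at h0 h1
  unfold vr
  fun_prop

theorem continuous_vt (hu : ContDiff ℝ ((⊤ : ℕ∞) : WithTop ℕ∞) u) :
    Continuous fun p : ℝ × ℝ => vt u p.1 p.2 := by
  have h0 := (continuous_pd hu 0).comp continuous_pt
  have h1 := (continuous_pd hu 1).comp continuous_pt
  simp only [Function.comp_def] at h0 h1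
  unfold vt
  fun_prop

/-! ### Circle integrals -/

/-- `∫ u` over the circle -/
noncomputable def cS (u : E2 → ℝ) (r : ℝ) : ℝ := ∫ θ in (-Real.pi)..Real.pi, u (pt r θ)
/-- `∫ u²` over the circle -/
noncomputable def cT (u : E2 → ℝ) (r : ℝ) : ℝ := ∫ θ in (-Real.pi)..Real.pi, u (pt r θ) ^ 2
/-- `∫ u_r²` over the circle -/
noncomputable def cP (u : E2 → ℝ) (r : ℝ) : ℝ := ∫ θ in (-Real.pi)..Real.pi, vr u r θ ^ 2
/-- integral of the square of the tangential derivative over the circle -/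
noncomputable def cR (u : E2 → ℝ) (r : ℝ) : ℝ := ∫ θ in (-Real.pi)..Real.pi, vt u r θ ^ 2
/-- `∫ u u_r` over the circle -/
noncomputable def cN (u : E2 → ℝ) (r : ℝ) : ℝ :=
  ∫ θ in (-Real.pi)..Real.pi, u (pt r θ) * vr u r θ
/-- `∫ u_r` over the circle -/
noncomputable def cS1 (u : E2 → ℝ) (r : ℝ) : ℝ := ∫ θ in (-Real.pi)..Real.pi, vr u r θ

theorem hasDerivAt_cS (hu : ContDiff ℝ ((⊤ : ℕ∞) : WithTop ℕ∞) u) (r : ℝ) :
    HasDerivAt (cS u) (cS1 u r) r :=
  hasDerivAt_circle (f := fun r θ => u (pt r θ)) (f' := vr u)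
    (fun r θ => hasDerivAt_pt_r hu r θ) (continuous_upt hu) (continuous_vr hu) r

theorem hasDerivAt_cT (hu : ContDiff ℝ ((⊤ : ℕ∞) : WithTop ℕ∞) u) (r : ℝ) :
    HasDerivAt (cT u) (2 * cN u r) r := by
  have h := hasDerivAt_circle (a := -Real.pi) (b := Real.pi) (f := fun r θ => u (pt r θ) ^ 2)
    (f' := fun r θ => 2 * (u (pt r θ) * vr u r θ))
    (fun r θ => by
      have := (hasDerivAt_pt_r hu r θ).fun_pow 2
      refine this.congr_deriv ?_
      push_cast
      ring)
    ((continuous_upt hu).pow 2)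
    (continuous_const.mul ((continuous_upt hu).mul (continuous_vr hu))) r
  simp only [intervalIntegral.integral_const_mul] at h
  exact h

theorem continuous_cT (hu : ContDiff ℝ ((⊤ : ℕ∞) : WithTop ℕ∞) u) : Continuous (cT u) :=
  continuous_circle (f := fun r θ => u (pt r θ) ^ 2) ((continuous_upt hu).pow 2)

theorem continuous_cP (hu : ContDiff ℝ ((⊤ : ℕ∞) : WithTop ℕ∞) u) : Continuous (cP u) :=
  continuous_circle (f := fun r θ => vr u r θ ^ 2) ((continuous_vr hu).pow 2)

theorem continuous_cR (hu : ContDiff ℝ ((⊤ : ℕ∞) : WithTop ℕ∞) u) : Continuous (cR u) :=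
  continuous_circle (f := fun r θ => vt u r θ ^ 2) ((continuous_vt hu).pow 2)

/-- Slices. -/
theorem cont_slice {f : ℝ → ℝ → ℝ} (hf : Continuous fun p : ℝ × ℝ => f p.1 p.2) (r : ℝ) :
    Continuous fun θ => f r θ := by
  have : Continuous fun θ : ℝ => ((r, θ) : ℝ × ℝ) := by fun_prop
  exact hf.comp this

theorem gen_one {A V : ℝ → ℝ} (hA : Continuous A) (hV : Continuous V) (r α : ℝ) :
    (∫ θ in (-Real.pi)..Real.pi, (r * V θ - α * A θ) ^ 2) =
      r ^ 2 * (∫ θ in (-Real.pi)..Real.pi, V θ ^ 2) -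
      2 * α * r * (∫ θ in (-Real.pi)..Real.pi, A θ * V θ) +
      α ^ 2 * (∫ θ in (-Real.pi)..Real.pi, A θ ^ 2) := by
  rw [← intervalIntegral.integral_const_mul, ← intervalIntegral.integral_const_mul,
    ← intervalIntegral.integral_const_mul, ← intervalIntegral.integral_sub,
    ← intervalIntegral.integral_add]
  · refine intervalIntegral.integral_congr fun θ _ => ?_
    ring
  all_goals exact Continuous.intervalIntegrable (by fun_prop) _ _

theorem gen_two {A V : ℝ → ℝ} (hA : Continuous A) (hV : Continuous V) (r α m : ℝ) :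
    (∫ θ in (-Real.pi)..Real.pi, ((r * V θ - α * A θ) - m) ^ 2) =
      (∫ θ in (-Real.pi)..Real.pi, (r * V θ - α * A θ) ^ 2) -
      2 * m * (r * (∫ θ in (-Real.pi)..Real.pi, V θ) - α * (∫ θ in (-Real.pi)..Real.pi, A θ)) +
      2 * Real.pi * m ^ 2 := by
  have e3 : (2 * Real.pi * m ^ 2 : ℝ) = ∫ _ in (-Real.pi)..Real.pi, m ^ 2 := by
    rw [intervalIntegral.integral_const, smul_eq_mul]
    ring
  have e2 : (∫ θ in (-Real.pi)..Real.pi, (r * V θ - α * A θ)) =
      r * (∫ θ in (-Real.pi)..Real.pi, V θ) - α * (∫ θ in (-Real.pi)..Real.pi, A θ) := by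
    rw [← intervalIntegral.integral_const_mul, ← intervalIntegral.integral_const_mul,
      ← intervalIntegral.integral_sub]
    all_goals exact Continuous.intervalIntegrable (by fun_prop) _ _
  rw [← e2, e3, ← intervalIntegral.integral_const_mul, ← intervalIntegral.integral_sub,
    ← intervalIntegral.integral_add]
  · refine intervalIntegral.integral_congr fun θ _ => ?_
    ring
  all_goals exact Continuous.intervalIntegrable (by fun_prop) _ _

/-- `∫ (r u_r - α u)² ≥ 0` -/
theorem quad_one (hu : ContDiff ℝ ((⊤ : ℕ∞) : WithTop ℕ∞) u) (r α : ℝ) :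
    0 ≤ r ^ 2 * cP u r - 2 * α * r * cN u r + α ^ 2 * cT u r := by
  have c1 := cont_slice (f := fun r θ => u (pt r θ)) (continuous_upt hu) r
  have c2 := cont_slice (f := vr u) (continuous_vr hu) r
  have h : 0 ≤ ∫ θ in (-Real.pi)..Real.pi, (r * vr u r θ - α * u (pt r θ)) ^ 2 :=
    intervalIntegral.integral_nonneg (by linarith [Real.pi_pos]) fun θ _ => sq_nonneg _
  rw [gen_one c1 c2] at h
  exact h

/-- the same after subtraction of the mean values -/
theorem quad_two (hu : ContDiff ℝ ((⊤ : ℕ∞) : WithTop ℕ∞) u) (r α : ℝ) :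
    0 ≤ r ^ 2 * (cP u r - cS1 u r ^ 2 / (2 * Real.pi)) -
      2 * α * r * (cN u r - cS u r * cS1 u r / (2 * Real.pi)) +
      α ^ 2 * (cT u r - cS u r ^ 2 / (2 * Real.pi)) := by
  have hpi := Real.pi_pos
  have c1 := cont_slice (f := fun r θ => u (pt r θ)) (continuous_upt hu) r
  have c2 := cont_slice (f := vr u) (continuous_vr hu) r
  set m : ℝ := r * (cS1 u r / (2 * Real.pi)) - α * (cS u r / (2 * Real.pi)) with hm
  have h : 0 ≤ ∫ θ in (-Real.pi)..Real.pi, ((r * vr u r θ - α * u (pt r θ)) - m) ^ 2 :=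
    intervalIntegral.integral_nonneg (by linarith [Real.pi_pos]) fun θ _ => sq_nonneg _
  rw [gen_two c1 c2, gen_one c1 c2] at h
  change 0 ≤ r ^ 2 * cP u r - 2 * α * r * cN u r + α ^ 2 * cT u r -
        2 * m * (r * cS1 u r - α * cS u r) + 2 * Real.pi * m ^ 2 at h
  have e4 : r ^ 2 * (cP u r - cS1 u r ^ 2 / (2 * Real.pi)) -
      2 * α * r * (cN u r - cS u r * cS1 u r / (2 * Real.pi)) +
      α ^ 2 * (cT u r - cS u r ^ 2 / (2 * Real.pi)) =
      r ^ 2 * cP u r - 2 * α * r * cN u r + α ^ 2 * cT u r -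
        2 * m * (r * cS1 u r - α * cS u r) + 2 * Real.pi * m ^ 2 := by
    rw [hm]
    field_simp
    ring
  rw [e4]
  exact h

end Pool.Agent.PPW
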