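import Mathlib

/-!
Wirtinger inequality for periodic functions, by the cotangent (Riccati) trick.
-/

set_option autoImplicit false

open MeasureTheory Set Filter Topology

namespace Pool.Agent.PPW

/-- A square of a function with a zero, divided by a function with a simple zero, is continuous. -/
theorem continuousAt_sq_div {S D : ℝ → ℝ} {r0 S' c : ℝ} (hS : HasDerivAt S S' r0)
    (hD : HasDerivAt D c r0) (hc : c ≠ 0) (hS0 : S r0 = 0) (hD0 : D r0 = 0) :
    ContinuousAt (fun r => S r ^ 2 / D r) r0 := by
  rw [continuousAt_iff_punctured_nhds]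
  have h1 := hasDerivAt_iff_tendsto_slope.1 hS
  have h2 := hasDerivAt_iff_tendsto_slope.1 hD
  have h3 : Tendsto S (𝓝[≠] r0) (𝓝 0) := by
    have := hS.continuousAt.tendsto
    rw [hS0] at this
    exact this.mono_left nhdsWithin_le_nhds
  have h4 := h3.mul (h1.div h2 hc)
  rw [zero_mul] at h4
  have h5 : S r0 ^ 2 / D r0 = 0 := by
    rw [hS0]
    simp
  rw [h5]
  refine h4.congr' ?_
  filter_upwards [self_mem_nhdsWithin] with r hr
  have hr' : r - r0 ≠ 0 := sub_ne_zero.2 hr
  rw [Pi.div_apply, slope_def_field, slope_def_field, hS0, hD0, sub_zero, sub_zero]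
  rcases eq_or_ne (D r) 0 with h | h
  · rw [h]
    simp
  · field_simp

/-- Dirichlet inequality on an interval of length `π`. -/
theorem dirichlet_pi {f f' : ℝ → ℝ} {a : ℝ} (hd : ∀ x, HasDerivAt f (f' x) x)
    (hc : Continuous f') (h0 : f a = 0) (h1 : f (a + Real.pi) = 0) :
    ∫ x in a..(a + Real.pi), f x ^ 2 ≤ ∫ x in a..(a + Real.pi), f' x ^ 2 := by
  have hfc : Continuous f := continuous_iff_continuousAt.2 fun x => (hd x).continuousAt
  set g : ℝ → ℝ := fun x => f x ^ 2 / Real.sin (x - a) * Real.cos (x - a) with hg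
  have hsin : ∀ x, HasDerivAt (fun x => Real.sin (x - a)) (Real.cos (x - a)) x := by
    intro x
    exact HasDerivAt.comp_sub_const x a (Real.hasDerivAt_sin (x - a))
  have hcos : ∀ x, HasDerivAt (fun x => Real.cos (x - a)) (-Real.sin (x - a)) x := by
    intro x
    exact HasDerivAt.comp_sub_const x a (Real.hasDerivAt_cos (x - a))
  have hcont : ∀ x, a ≤ x → x ≤ a + Real.pi → ContinuousAt g x := by
    intro x hx1 hx2
    refine ContinuousAt.mul ?_ (hcos x).continuousAt
    rcases eq_or_lt_of_le hx1 with h | h
    · subst h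
      refine continuousAt_sq_div (hd _) (hsin _) ?_ h0 ?_
      · simp
      · simp
    · rcases eq_or_lt_of_le hx2 with h' | h'
      · subst h'
        refine continuousAt_sq_div (hd _) (hsin _) ?_ h1 ?_
        · simp
        · simp
      · refine ContinuousAt.div (hfc.continuousAt.pow 2) (hsin x).continuousAt ?_
        exact (Real.sin_pos_of_pos_of_lt_pi (by linarith) (by linarith)).ne'
  have key := intervalIntegral.sub_le_integral_of_hasDeriv_right_of_le
    (g := g) (g' := fun x => 2 * f x * f' x * Real.cos (x - a) / Real.sin (x - a) -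
      f x ^ 2 / Real.sin (x - a) ^ 2) (φ := fun x => f' x ^ 2 - f x ^ 2)
    (show a ≤ a + Real.pi by linarith [Real.pi_pos])
    (fun x hx => (hcont x hx.1 hx.2).continuousWithinAt)
    (fun x hx => by
      have hs : Real.sin (x - a) ≠ 0 :=
        (Real.sin_pos_of_pos_of_lt_pi (by linarith [hx.1]) (by linarith [hx.2])).ne'
      have h2 := (((hd x).fun_pow 2).div (hsin x) hs).mul (hcos x)
      have h3 : HasDerivAt g (2 * f x * f' x * Real.cos (x - a) / Real.sin (x - a) -
          f x ^ 2 / Real.sin (x - a) ^ 2) x := by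
        refine h2.congr_deriv ?_
        have hsc : Real.cos (x - a) ^ 2 = 1 - Real.sin (x - a) ^ 2 := Real.cos_sq' _
        simp only [Nat.cast_ofNat, Nat.add_one_sub_one, pow_one, Pi.div_apply]
        field_simp
        linear_combination (-f x ^ 2) * hsc
      exact h3.hasDerivWithinAt)
    ((((hc.pow 2).sub (hfc.pow 2)).continuousOn).integrableOn_compact isCompact_Icc)
    (fun x hx => by
      have hs : Real.sin (x - a) ≠ 0 :=
        (Real.sin_pos_of_pos_of_lt_pi (by linarith [hx.1]) (by linarith [hx.2])).ne'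
      have hsc : Real.cos (x - a) ^ 2 = 1 - Real.sin (x - a) ^ 2 := Real.cos_sq' _
      have h4 : f' x ^ 2 - f x ^ 2 - (2 * f x * f' x * Real.cos (x - a) / Real.sin (x - a) -
          f x ^ 2 / Real.sin (x - a) ^ 2) =
          (f' x - f x * Real.cos (x - a) / Real.sin (x - a)) ^ 2 := by
        field_simp
        linear_combination (-f x ^ 2) * hsc
      nlinarith [sq_nonneg (f' x - f x * Real.cos (x - a) / Real.sin (x - a))])
  have hga : g a = 0 := by
    simp only [hg]
    rw [h0]
    simp
  have hgb : g (a + Real.pi) = 0 := by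
    simp only [hg]
    rw [h1]
    simp
  rw [hga, hgb, sub_zero, intervalIntegral.integral_sub] at key
  · linarith
  · exact (hc.pow 2).intervalIntegrable _ _
  · exact (hfc.pow 2).intervalIntegrable _ _

/-- **Wirtinger inequality**. -/
theorem wirtinger {h h' : ℝ → ℝ} (hd : ∀ x, HasDerivAt h (h' x) x) (hc : Continuous h')
    (hper : ∀ x, h (x + 2 * Real.pi) = h x) :
    (∫ x in (-Real.pi)..Real.pi, h x ^ 2) - (∫ x in (-Real.pi)..Real.pi, h x) ^ 2 / (2 * Real.pi) ≤
      ∫ x in (-Real.pi)..Real.pi, h' x ^ 2 := by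
  have hpi := Real.pi_pos
  have hhc : Continuous h := continuous_iff_continuousAt.2 fun x => (hd x).continuousAt
  -- the point with equal values
  obtain ⟨a, -, ha⟩ : ∃ a ∈ Icc (-Real.pi) 0, h a - h (a + Real.pi) = 0 := by
    set k : ℝ → ℝ := fun x => h x - h (x + Real.pi) with hk
    have hkc : Continuous k := by
      simp only [hk]
      fun_prop
    have hk1 : k 0 = -k (-Real.pi) := by
      simp only [hk]
      have := hper (-Real.pi)
      have e : -Real.pi + 2 * Real.pi = Real.pi := by ring
      rw [e] at this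
      rw [zero_add, neg_add_cancel, this]
      ring
    rcases le_total (k (-Real.pi)) 0 with h1 | h1
    · have := intermediate_value_Icc (show -Real.pi ≤ 0 by linarith) hkc.continuousOn
      obtain ⟨x, hx, hx2⟩ := this ⟨h1, by linarith⟩
      exact ⟨x, hx, hx2⟩
    · have := intermediate_value_Icc' (show -Real.pi ≤ 0 by linarith) hkc.continuousOn
      obtain ⟨x, hx, hx2⟩ := this ⟨by linarith, h1⟩
      exact ⟨x, hx, hx2⟩
  have ha' : h (a + Real.pi) = h a := by linarith
  -- the function minus its value
  set f : ℝ → ℝ := fun x => h x - h a with hf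
  have hfd : ∀ x, HasDerivAt f (h' x) x := fun x => (hd x).sub_const (h a)
  have hfc : Continuous f := by
    simp only [hf]
    fun_prop
  have hf2 : Continuous (fun x => f x ^ 2) := by fun_prop
  have hc2 : Continuous (fun x => h' x ^ 2) := by fun_prop
  have hh2 : Continuous (fun x => h x ^ 2) := by fun_prop
  have hper' : ∀ x, h' (x + 2 * Real.pi) = h' x := by
    intro x
    have h1 : HasDerivAt (fun y => h (y + 2 * Real.pi)) (h' (x + 2 * Real.pi)) x :=
      HasDerivAt.comp_add_const x (2 * Real.pi) (hd (x + 2 * Real.pi))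
    have h2 : (fun y => h (y + 2 * Real.pi)) = h := funext hper
    rw [h2] at h1
    exact h1.unique (hd x)
  have e1 : a + Real.pi + Real.pi = a + 2 * Real.pi := by ring
  have d1 := dirichlet_pi (a := a) hfd hc (by simp [hf]) (by simp [hf, ha'])
  have d2 := dirichlet_pi (a := a + Real.pi) hfd hc (by simp [hf, ha'])
    (by rw [e1]; simp [hf, hper])
  rw [e1] at d2
  -- periodicity of integrals
  have per : ∀ k : ℝ → ℝ, (∀ x, k (x + 2 * Real.pi) = k x) →
      ∫ x in (-Real.pi)..Real.pi, k x = ∫ x in a..(a + 2 * Real.pi), k x := by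
    intro k hk
    have h1 : Function.Periodic k (2 * Real.pi) := hk
    have h2 := h1.intervalIntegral_add_eq (-Real.pi) a
    have e : -Real.pi + 2 * Real.pi = Real.pi := by ring
    rw [e] at h2
    exact h2
  rw [per (fun x => h x ^ 2) (fun x => by rw [hper]), per h hper,
    per (fun x => h' x ^ 2) (fun x => by rw [hper'])]
  have a1 : ∫ x in a..(a + 2 * Real.pi), f x ^ 2 ≤ ∫ x in a..(a + 2 * Real.pi), h' x ^ 2 := by
    rw [← intervalIntegral.integral_add_adjacent_intervals (b := a + Real.pi)
      (hf2.intervalIntegrable _ _) (hf2.intervalIntegrable _ _),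
      ← intervalIntegral.integral_add_adjacent_intervals (b := a + Real.pi)
      (hc2.intervalIntegrable _ _) (hc2.intervalIntegrable _ _)]
    linarith
  have a2 : ∫ x in a..(a + 2 * Real.pi), f x ^ 2 = (∫ x in a..(a + 2 * Real.pi), h x ^ 2) -
      2 * h a * (∫ x in a..(a + 2 * Real.pi), h x) + 2 * Real.pi * h a ^ 2 := by
    have e : ∀ x, f x ^ 2 = (h x ^ 2 - 2 * h a * h x) + h a ^ 2 := by
      intro x
      simp only [hf]
      ring
    simp only [e]
    rw [intervalIntegral.integral_add, intervalIntegral.integral_sub,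
      intervalIntegral.integral_const_mul, intervalIntegral.integral_const]
    · simp only [add_sub_cancel_left, smul_eq_mul]
    · exact hh2.intervalIntegrable _ _
    · exact (continuous_const.mul hhc).intervalIntegrable _ _
    · exact (hh2.sub (continuous_const.mul hhc)).intervalIntegrable _ _
    · exact intervalIntegrable_const
  set I : ℝ := ∫ x in a..(a + 2 * Real.pi), h x with hI
  have a3 : 0 ≤ (I - 2 * Real.pi * h a) ^ 2 / (2 * Real.pi) := by positivity
  have a4 : (I - 2 * Real.pi * h a) ^ 2 / (2 * Real.pi) =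
      I ^ 2 / (2 * Real.pi) - 2 * h a * I + 2 * Real.pi * h a ^ 2 := by
    field_simp
    ring
  linarith

end Pool.Agent.PPW
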