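import Mathlib
import Pool.Agent.Lib.MP_eb7570_an.Polar
import Pool.Agent.Lib.MP_eb7570_an.Wirt
import Pool.Agent.Lib.MP_eb7570_an.Bes.Zeros

/-!
Lower bounds for the Dirichlet eigenvalues of the unit disk: `lam1 ≥ j0²`, `lam2 ≥ j1²`
(Riccati form of the Barta argument in the radius, Wirtinger inequality on the circles).
Here `j0² = 4 s0`, `j1² = 4 s1`.
-/

set_option autoImplicit false

open MeasureTheory Set Filter Topology

namespace Pool.Agent.PPW

open Bes

/-- the unit disk -/
noncomputable abbrev D1 : Set E2 := Metric.ball (0 : E2) 1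

variable {u : E2 → ℝ}

theorem Tc.exists_radius (hu : Tc D1 u) : ∃ ρ : ℝ, ρ < 1 ∧ ∀ x, ρ ≤ ‖x‖ → x ∉ tsupport u := by
  rcases (tsupport u).eq_empty_or_nonempty with h | h
  · exact ⟨0, one_pos, fun x _ => by rw [h]; exact notMem_empty x⟩
  · obtain ⟨x0, hx0, hmax⟩ := IsCompact.exists_isMaxOn (f := fun x : E2 => ‖x‖) hu.cpt h
      continuous_norm.continuousOn
    have h1 : ‖x0‖ < 1 := by
      have := hu.sub hx0
      rwa [mem_ball_zero_iff] at this
    refine ⟨(‖x0‖ + 1) / 2, by linarith, fun x hx hmem => ?_⟩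
    have h2 : ‖x‖ ≤ ‖x0‖ := hmax hmem
    linarith

theorem Tc.zero_of (hu : Tc D1 u) : ∃ ρ : ℝ, ρ < 1 ∧ ∀ r, ρ ≤ r → 0 ≤ r → ∀ θ, u (pt r θ) = 0 := by
  obtain ⟨ρ, hρ, h⟩ := hu.exists_radius
  refine ⟨ρ, hρ, fun r hr hr0 θ => ?_⟩
  by_contra hne
  exact h (pt r θ) (by rw [norm_pt, abs_of_nonneg hr0]; exact hr) (subset_tsupport u hne)

theorem Ma_polar (hu : Tc D1 u) : Ma u u = ∫ r in (0 : ℝ)..1, r * cT u r := by
  have hc : Continuous fun x => u x * u x := hu.smooth.continuous.mul hu.smooth.continuous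
  unfold Ma
  rw [integral_polar_iter hc]
  · refine intervalIntegral.integral_congr fun r _ => ?_
    simp only [cT]
    congr 1
    refine intervalIntegral.integral_congr fun θ _ => ?_
    ring
  · intro x hx
    have h1 : u x = 0 := by
      by_contra hne
      have := hu.sub (subset_tsupport u hne)
      rw [mem_ball_zero_iff] at this
      linarith
    rw [h1, zero_mul]

theorem pd_eq_zero (hu : Tc D1 u) {x : E2} (hx : 1 ≤ ‖x‖) (i : Fin 2) : pd i u x = 0 := by
  have h1 : x ∉ tsupport u := by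
    intro h
    have := hu.sub h
    rw [mem_ball_zero_iff] at this
    linarith
  have h2 : fderiv ℝ u x = 0 := by
    by_contra hne
    exact h1 (support_fderiv_subset ℝ hne)
  have h3 : pd i u x = fderiv ℝ u x (ev i) :=
    (hu.smooth.differentiable (by simp) x).lineDeriv_eq_fderiv
  rw [h3, h2]
  rfl

theorem En_polar (hu : Tc D1 u) : En u u = ∫ r in (0 : ℝ)..1, r * (cP u r + cR u r) := by
  have hc : Continuous fun x => pd 0 u x * pd 0 u x + pd 1 u x * pd 1 u x :=
    ((continuous_pd hu.smooth 0).mul (continuous_pd hu.smooth 0)).add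
      ((continuous_pd hu.smooth 1).mul (continuous_pd hu.smooth 1))
  unfold En
  rw [integral_polar_iter hc]
  · refine intervalIntegral.integral_congr fun r _ => ?_
    simp only [cP, cR]
    congr 1
    rw [← intervalIntegral.integral_add]
    · refine intervalIntegral.integral_congr fun θ _ => ?_
      exact (vr_sq_add_vt_sq u r θ).symm
    · exact ((cont_slice (f := vr u) (continuous_vr hu.smooth) r).pow 2).intervalIntegrable _ _
    · exact ((cont_slice (f := vt u) (continuous_vt hu.smooth) r).pow 2).intervalIntegrable _ _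
  · intro x hx
    rw [pd_eq_zero hu hx, pd_eq_zero hu hx]
    ring

/-! ### Riccati functions -/

/-- `r y'/y` for `y = J0(2 √σ r)` -/
noncomputable def Yf (σ r : ℝ) : ℝ := -2 * σ * (r ^ 2 * F 1 (σ * r ^ 2)) / F 0 (σ * r ^ 2)

/-- `r w'/w` for `w = J1(2 √σ r)` -/
noncomputable def Wf (σ r : ℝ) : ℝ := 1 - 2 * σ * (r ^ 2 * F 2 (σ * r ^ 2)) / F 1 (σ * r ^ 2)

theorem hasDerivAt_Fr (n : ℕ) (σ r : ℝ) :
    HasDerivAt (fun r => F n (σ * r ^ 2)) (-(2 * σ * r * F (n + 1) (σ * r ^ 2))) r := by
  have h1 : HasDerivAt (fun r : ℝ => σ * r ^ 2) (σ * (2 * r)) r := by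
    have := ((hasDerivAt_id r).fun_pow 2).const_mul σ
    refine this.congr_deriv ?_
    simp
  have h2 := (hasDerivAt_F n (σ * r ^ 2)).comp r h1
  refine h2.congr_deriv ?_
  ring

theorem continuous_Fr (n : ℕ) (σ : ℝ) : Continuous fun r : ℝ => F n (σ * r ^ 2) :=
  (continuous_F n).comp (by fun_prop)

theorem hasDerivAt_sq (r : ℝ) : HasDerivAt (fun r : ℝ => r ^ 2) (2 * r) r := by
  have := (hasDerivAt_id r).fun_pow 2
  refine this.congr_deriv ?_
  simp

theorem hasDerivAt_Yf {σ r : ℝ} (hr : r ≠ 0) (h0 : F 0 (σ * r ^ 2) ≠ 0) :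
    HasDerivAt (Yf σ) ((-4 * σ * r ^ 2 - Yf σ r ^ 2) / r) r := by
  have h1 := ((((hasDerivAt_sq r).mul (hasDerivAt_Fr 1 σ r)).const_mul (-2 * σ)).div
    (hasDerivAt_Fr 0 σ r) h0)
  refine h1.congr_deriv ?_
  have h2 := F_rec 0 (σ * r ^ 2)
  unfold Yf
  simp only [Pi.mul_apply] at *
  have h3 : σ * r ^ 2 * F 2 (σ * r ^ 2) = F 1 (σ * r ^ 2) - F 0 (σ * r ^ 2) := by
    norm_num at h2
    linarith
  field_simp
  norm_num
  linear_combination (4 * σ * F 0 (σ * r ^ 2)) * h3

theorem hasDerivAt_Wf {σ r : ℝ} (hr : r ≠ 0) (h0 : F 1 (σ * r ^ 2) ≠ 0) :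
    HasDerivAt (Wf σ) ((1 - 4 * σ * r ^ 2 - Wf σ r ^ 2) / r) r := by
  have h1 := ((((hasDerivAt_sq r).mul (hasDerivAt_Fr 2 σ r)).const_mul (2 * σ)).div
    (hasDerivAt_Fr 1 σ r) h0).const_sub 1
  refine h1.congr_deriv ?_
  have h2 := F_rec 1 (σ * r ^ 2)
  unfold Wf
  simp only [Pi.mul_apply] at *
  have h3 : σ * r ^ 2 * F 3 (σ * r ^ 2) = 2 * F 2 (σ * r ^ 2) - F 1 (σ * r ^ 2) := by
    norm_num at h2
    linarith
  field_simp
  norm_num
  linear_combination (4 * σ * r ^ 2 * F 1 (σ * r ^ 2)) * h3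

/-! ### The first eigenvalue -/

theorem disk_low (hu : Tc D1 u) : 4 * s0 * Ma u u ≤ En u u := by
  have hs0 := s0_pos
  obtain ⟨ρ, hρ, hz⟩ := hu.zero_of
  set ρ' : ℝ := max ρ 0 with hρ'
  have hρ1 : ρ' < 1 := max_lt hρ one_pos
  have hρ0 : 0 ≤ ρ' := le_max_right _ _
  have hT0 : ∀ r, ρ' ≤ r → cT u r = 0 := by
    intro r hr
    unfold cT
    have : ∀ θ, u (pt r θ) ^ 2 = 0 := fun θ => by
      rw [hz r ((le_max_left _ _).trans hr) (hρ0.trans hr)]
      ring
    simp only [this]
    simp
  have hF : ∀ r, 0 ≤ r → r < 1 → 0 < F 0 (s0 * r ^ 2) := by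
    intro r h0 h1
    refine F0_pos (by positivity) ?_
    have : r ^ 2 < 1 := by nlinarith
    nlinarith
  have hcT := continuous_cT hu.smooth
  have key := intervalIntegral.sub_le_integral_of_hasDeriv_right_of_le
    (g := fun r => cT u r * Yf s0 r)
    (g' := fun r => 2 * cN u r * Yf s0 r + cT u r * ((-4 * s0 * r ^ 2 - Yf s0 r ^ 2) / r))
    (φ := fun r => r * (cP u r + cR u r) - 4 * s0 * (r * cT u r))
    (show (0 : ℝ) ≤ 1 by norm_num)
    (fun x hx => by
      refine ContinuousAt.continuousWithinAt ?_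
      rcases lt_or_ge x 1 with h | h
      · refine hcT.continuousAt.mul ?_
        unfold Yf
        refine ContinuousAt.div ?_ (continuous_Fr 0 s0).continuousAt (hF x hx.1 h).ne'
        exact ((continuous_const.mul ((continuous_pow 2).mul (continuous_Fr 1 s0)))).continuousAt
      · have hx1 : ρ' < x := hρ1.trans_le h
        have h2 : (fun r => cT u r * Yf s0 r) =ᶠ[𝓝 x] fun _ => 0 := by
          filter_upwards [Ioi_mem_nhds hx1] with r hr
          rw [hT0 r (le_of_lt hr), zero_mul]
        exact continuousAt_const.congr h2.symm)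
    (fun x hx => ((hasDerivAt_cT hu.smooth x).mul
      (hasDerivAt_Yf hx.1.ne' (hF x hx.1.le hx.2).ne')).hasDerivWithinAt)
    (by
      have h1 := continuous_cP hu.smooth
      have h2 := continuous_cR hu.smooth
      have h3 : Continuous fun r => r * (cP u r + cR u r) - 4 * s0 * (r * cT u r) := by fun_prop
      exact h3.continuousOn.integrableOn_compact isCompact_Icc)
    (fun x hx => by
      have hx0 := hx.1
      have h1 := quad_one hu.smooth x (Yf s0 x)
      have h2 : 0 ≤ cR u x := by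
        unfold cR
        exact intervalIntegral.integral_nonneg (by linarith [Real.pi_pos]) fun θ _ => sq_nonneg _
      have e : x * (x * (cP u x + cR u x) - 4 * s0 * (x * cT u x)) -
          x * (2 * cN u x * Yf s0 x + cT u x * ((-4 * s0 * x ^ 2 - Yf s0 x ^ 2) / x)) =
          (x ^ 2 * cP u x - 2 * Yf s0 x * x * cN u x + Yf s0 x ^ 2 * cT u x) +
            x ^ 2 * cR u x := by
        field_simp
        ring
      have h3 : 0 ≤ x ^ 2 * cR u x := by positivity
      refine le_of_mul_le_mul_left (a := x) ?_ hx0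
      linarith)
  have g1 : cT u 1 * Yf s0 1 = 0 := by rw [hT0 1 hρ1.le, zero_mul]
  have g0 : cT u 0 * Yf s0 0 = 0 := by
    unfold Yf
    simp
  rw [g1, g0, sub_zero] at key
  rw [Ma_polar hu, En_polar hu]
  have h1 := continuous_cP hu.smooth
  have h2 := continuous_cR hu.smooth
  rw [intervalIntegral.integral_sub, intervalIntegral.integral_const_mul] at key
  · linarith
  · exact Continuous.intervalIntegrable (by fun_prop) _ _
  · exact Continuous.intervalIntegrable (by fun_prop) _ _

/-! ### The second eigenvalue -/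

theorem cT_zero (u : E2 → ℝ) : cT u 0 = 2 * Real.pi * u 0 ^ 2 := by
  have h : ∀ θ, pt 0 θ = 0 := fun θ => by rw [pt_eq]; simp
  unfold cT
  simp only [h]
  rw [intervalIntegral.integral_const, smul_eq_mul]
  ring

theorem cS_zero (u : E2 → ℝ) : cS u 0 = 2 * Real.pi * u 0 := by
  have h : ∀ θ, pt 0 θ = 0 := fun θ => by rw [pt_eq]; simp
  unfold cS
  simp only [h]
  rw [intervalIntegral.integral_const, smul_eq_mul]
  ring

theorem circle_wirtinger (hu : ContDiff ℝ ((⊤ : ℕ∞) : WithTop ℕ∞) u) (r : ℝ) :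
    cT u r - cS u r ^ 2 / (2 * Real.pi) ≤ r ^ 2 * cR u r := by
  have hc := cont_slice (f := vt u) (continuous_vt hu) r
  have h := wirtinger (h := fun θ => u (pt r θ)) (h' := fun θ => r * vt u r θ)
    (fun θ => hasDerivAt_pt_t hu r θ) (continuous_const.mul hc)
    (fun θ => by
      have : pt r (θ + 2 * Real.pi) = pt r θ := by
        unfold pt
        rw [Real.cos_add_two_pi, Real.sin_add_two_pi]
      rw [this])
  simp only [mul_pow, intervalIntegral.integral_const_mul] at h
  exact h

/-- the radius where `J0(j1 r)` vanishes -/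
noncomputable def r0 : ℝ := Real.sqrt (s0 / s1)

theorem r0_pos : 0 < r0 := Real.sqrt_pos.2 (div_pos s0_pos s1_pos)

theorem r0_sq : s1 * r0 ^ 2 = s0 := by
  unfold r0
  rw [Real.sq_sqrt (div_pos s0_pos s1_pos).le]
  field_simp [s1_pos.ne']

theorem r0_lt : r0 < 1 := by
  have h1 := r0_sq
  have h2 := s0_lt_s1
  have h3 := s1_pos
  have h4 := r0_pos
  by_contra h
  push Not at h
  have h5 : 1 ≤ r0 ^ 2 := by nlinarith
  have h6 : s1 * 1 ≤ s1 * r0 ^ 2 := mul_le_mul_of_nonneg_left h5 h3.le
  linarith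

theorem disk_low_two (hu : Tc D1 u) (hS : cS u r0 = 0) : 4 * s1 * Ma u u ≤ En u u := by
  have hs1 := s1_pos
  have hs0 := s0_pos
  have hpi := Real.pi_pos
  have hr0 := r0_pos
  have hr1 := r0_lt
  obtain ⟨ρ, hρ, hz⟩ := hu.zero_of
  set ρ' : ℝ := max ρ 0 with hρ'
  have hρ1 : ρ' < 1 := max_lt hρ one_pos
  have hρ0 : 0 ≤ ρ' := le_max_right _ _
  have hT0 : ∀ r, ρ' ≤ r → cT u r = 0 := by
    intro r hr
    unfold cT
    have : ∀ θ, u (pt r θ) ^ 2 = 0 := fun θ => by
      rw [hz r ((le_max_left _ _).trans hr) (hρ0.trans hr)]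
      ring
    simp only [this]
    simp
  have hS0 : ∀ r, ρ' ≤ r → cS u r = 0 := by
    intro r hr
    unfold cS
    have : ∀ θ, u (pt r θ) = 0 := fun θ => hz r ((le_max_left _ _).trans hr) (hρ0.trans hr) θ
    simp only [this]
    simp
  have hF1 : ∀ r, 0 ≤ r → r < 1 → 0 < F 1 (s1 * r ^ 2) := by
    intro r h0 h1
    refine F1_pos (by positivity) ?_
    have : r ^ 2 < 1 := by nlinarith
    nlinarith
  have hF0 : ∀ r, 0 ≤ r → r ≤ 1 → r ≠ r0 → F 0 (s1 * r ^ 2) ≠ 0 := by
    intro r h0 h1 hne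
    have hsq := r0_sq
    rcases lt_or_gt_of_ne hne with h | h
    · refine (F0_pos (by positivity) ?_).ne'
      rw [← hsq]
      have : r ^ 2 < r0 ^ 2 := by nlinarith
      nlinarith
    · refine (F0_neg ?_ ?_).ne
      · rw [← hsq]
        have : r0 ^ 2 < r ^ 2 := by nlinarith
        nlinarith
      · have : r ^ 2 ≤ 1 := by nlinarith
        nlinarith
  have hcT := continuous_cT hu.smooth
  have hcS : Continuous (cS u) :=
    continuous_iff_continuousAt.2 fun x => (hasDerivAt_cS hu.smooth x).continuousAt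
  set g : ℝ → ℝ := fun r => (cT u r - cS u r ^ 2 / (2 * Real.pi)) * Wf s1 r +
    cS u r ^ 2 * Yf s1 r / (2 * Real.pi) with hg
  set φ : ℝ → ℝ := fun r => r * (cP u r + cR u r) - 4 * s1 * (r * cT u r) with hφ
  have hφc : Continuous φ := by
    have h1 := continuous_cP hu.smooth
    have h2 := continuous_cR hu.smooth
    simp only [hφ]
    fun_prop
  -- continuity of `g`
  have hgc : ∀ x, 0 ≤ x → x ≤ 1 → ContinuousAt g x := by
    intro x hx0 hx1
    rcases lt_or_ge x 1 with h | h
    · refine ContinuousAt.add (ContinuousAt.mul ?_ ?_) (ContinuousAt.div_const ?_ _)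
      · exact (hcT.sub ((hcS.pow 2).div_const _)).continuousAt
      · unfold Wf
        refine continuousAt_const.sub (ContinuousAt.div ?_ (continuous_Fr 1 s1).continuousAt
          (hF1 x hx0 h).ne')
        exact (continuous_const.mul ((continuous_pow 2).mul (continuous_Fr 2 s1))).continuousAt
      · rcases eq_or_ne x r0 with hx | hx
        · subst hx
          have e : (fun r => cS u r ^ 2 * Yf s1 r) = fun r =>
              (cS u r ^ 2 / F 0 (s1 * r ^ 2)) * (-2 * s1 * (r ^ 2 * F 1 (s1 * r ^ 2))) := by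
            funext r
            unfold Yf
            ring
          rw [e]
          refine ContinuousAt.mul ?_ ?_
          · refine continuousAt_sq_div (hasDerivAt_cS hu.smooth _) (hasDerivAt_Fr 0 s1 _) ?_ hS ?_
            · rw [r0_sq]
              have h4 : 0 < F (0 + 1) s0 := by
                rw [zero_add]
                exact F1_pos hs0.le s0_lt_s1
              have : 0 < 2 * s1 * r0 * F (0 + 1) s0 := by positivity
              exact neg_ne_zero.2 this.ne'
            · rw [r0_sq, F0_s0]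
          · exact (continuous_const.mul ((continuous_pow 2).mul
              (continuous_Fr 1 s1))).continuousAt
        · refine (hcS.pow 2).continuousAt.mul ?_
          unfold Yf
          refine ContinuousAt.div ?_ (continuous_Fr 0 s1).continuousAt (hF0 x hx0 hx1 hx)
          exact (continuous_const.mul ((continuous_pow 2).mul
            (continuous_Fr 1 s1))).continuousAt
    · have hx1 : ρ' < x := hρ1.trans_le h
      have h2 : g =ᶠ[𝓝 x] fun _ => 0 := by
        filter_upwards [Ioi_mem_nhds hx1] with r hr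
        simp only [hg]
        rw [hT0 r (le_of_lt hr), hS0 r (le_of_lt hr)]
        ring
      exact continuousAt_const.congr h2.symm
  -- derivative of `g`
  set g' : ℝ → ℝ := fun r => (2 * cN u r - 2 * cS u r * cS1 u r / (2 * Real.pi)) * Wf s1 r +
    (cT u r - cS u r ^ 2 / (2 * Real.pi)) * ((1 - 4 * s1 * r ^ 2 - Wf s1 r ^ 2) / r) +
    (2 * cS u r * cS1 u r * Yf s1 r +
      cS u r ^ 2 * ((-4 * s1 * r ^ 2 - Yf s1 r ^ 2) / r)) / (2 * Real.pi) with hg'
  have hgd : ∀ x, 0 < x → x < 1 → x ≠ r0 → HasDerivAt g (g' x) x := by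
    intro x h0 h1 hne
    have hW := hasDerivAt_Wf h0.ne' (hF1 x h0.le h1).ne'
    have hY := hasDerivAt_Yf h0.ne' (hF0 x h0.le h1.le hne)
    have hS2 : HasDerivAt (fun r => cS u r ^ 2) (2 * cS u x * cS1 u x) x := by
      refine ((hasDerivAt_cS hu.smooth x).fun_pow 2).congr_deriv ?_
      push_cast
      ring
    exact (((hasDerivAt_cT hu.smooth x).sub (hS2.div_const _)).mul hW).add
      ((hS2.mul hY).div_const _)
  have hle : ∀ x, 0 < x → g' x ≤ φ x := by
    intro x hx0
    have h1 := quad_two hu.smooth x (Wf s1 x)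
    have h2 := circle_wirtinger hu.smooth x
    have h3 : 0 ≤ (x * cS1 u x - Yf s1 x * cS u x) ^ 2 / (2 * Real.pi) := by positivity
    have e : x * φ x - x * g' x =
        (x ^ 2 * (cP u x - cS1 u x ^ 2 / (2 * Real.pi)) -
          2 * Wf s1 x * x * (cN u x - cS u x * cS1 u x / (2 * Real.pi)) +
          Wf s1 x ^ 2 * (cT u x - cS u x ^ 2 / (2 * Real.pi))) +
        (x ^ 2 * cR u x - (cT u x - cS u x ^ 2 / (2 * Real.pi))) +
        (x * cS1 u x - Yf s1 x * cS u x) ^ 2 / (2 * Real.pi) := by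
      simp only [hφ, hg']
      field_simp
      ring
    refine le_of_mul_le_mul_left (a := x) ?_ hx0
    linarith
  have k1 := intervalIntegral.sub_le_integral_of_hasDeriv_right_of_le
    (g := g) (g' := g') (φ := φ) hr0.le
    (fun x hx => (hgc x hx.1 (hx.2.trans hr1.le)).continuousWithinAt)
    (fun x hx => (hgd x hx.1 (hx.2.trans hr1) hx.2.ne).hasDerivWithinAt)
    (hφc.continuousOn.integrableOn_compact isCompact_Icc)
    (fun x hx => hle x hx.1)
  have k2 := intervalIntegral.sub_le_integral_of_hasDeriv_right_of_le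
    (g := g) (g' := g') (φ := φ) hr1.le
    (fun x hx => (hgc x (hr0.le.trans hx.1) hx.2).continuousWithinAt)
    (fun x hx => (hgd x (hr0.trans hx.1) hx.2 hx.1.ne').hasDerivWithinAt)
    (hφc.continuousOn.integrableOn_compact isCompact_Icc)
    (fun x hx => hle x (hr0.trans hx.1))
  have hg1 : g 1 = 0 := by
    simp only [hg]
    rw [hT0 1 hρ1.le, hS0 1 hρ1.le]
    ring
  have hg0 : g 0 = 0 := by
    simp only [hg]
    rw [cT_zero, cS_zero]
    unfold Yf
    field_simp
    ring
  have k3 := intervalIntegral.integral_add_adjacent_intervals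
    (hφc.intervalIntegrable 0 r0) (hφc.intervalIntegrable r0 1) (μ := volume)
  have key : 0 ≤ ∫ r in (0 : ℝ)..1, φ r := by
    rw [← k3]
    linarith
  rw [Ma_polar hu, En_polar hu]
  have h1 := continuous_cP hu.smooth
  have h2 := continuous_cR hu.smooth
  simp only [hφ] at key
  rw [intervalIntegral.integral_sub, intervalIntegral.integral_const_mul] at key
  · linarith
  · exact Continuous.intervalIntegrable (by fun_prop) _ _
  · exact Continuous.intervalIntegrable (by fun_prop) _ _

end Pool.Agent.PPW
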