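import Mathlib
import Pool.Agent.Lib.MP_eb7570_an.DiskLow

/-!
The Dirichlet eigenvalues of the unit disk, in the min-max form of the frozen statement:
`lamk 1 D = 4 s0 = j0²`, `lamk k D ≥ 4 s1 = j1²` for `k ≥ 2`.
-/

set_option autoImplicit false

open MeasureTheory Set Filter Topology

namespace Pool.Agent.PPW

open Bes

/-! ### The min-max set of the disk is not empty -/

theorem exists_bumps (k : ℕ) : ∃ e : Fin k → E2 → ℝ, (∀ i, Tc D1 (e i)) ∧
    (∀ i j, Ma (e i) (e j) = if i = j then 1 else 0) ∧ ∀ i j, i ≠ j → En (e i) (e j) = 0 := by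
  rcases Nat.eq_zero_or_pos k with hk | hk
  · subst hk
    exact ⟨fun i => i.elim0, fun i => i.elim0, fun i => i.elim0, fun i => i.elim0⟩
  have hk' : (0 : ℝ) < k := by exact_mod_cast hk
  set c : Fin k → E2 := fun i => ((i : ℝ) / (2 * k)) • ev 0 with hc
  set δ : ℝ := 1 / (4 * k) with hδ
  have hδ0 : 0 < δ := by positivity
  have hδ1 : δ ≤ 1 / 4 := by
    have h1 : (1 : ℝ) ≤ k := by exact_mod_cast hk
    rw [hδ, div_le_div_iff₀ (by positivity) (by norm_num)]
    linarith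
  have hsub : ∀ i, Metric.ball (c i) δ ⊆ D1 := by
    intro i x hx
    rw [Metric.mem_ball] at hx
    rw [mem_ball_zero_iff]
    have h1 : ‖c i‖ ≤ 1 / 2 := by
      simp only [hc]
      rw [norm_smul, norm_ev, mul_one, Real.norm_eq_abs, abs_of_nonneg (by positivity),
        div_le_div_iff₀ (by positivity) (by norm_num)]
      have : (i : ℝ) ≤ k := by exact_mod_cast i.2.le
      linarith
    have h2 : ‖x‖ ≤ dist x (c i) + ‖c i‖ := by
      rw [dist_eq_norm]
      calc ‖x‖ = ‖(x - c i) + c i‖ := by rw [sub_add_cancel]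
        _ ≤ _ := norm_add_le _ _
    linarith
  have hdisj : ∀ i j, i ≠ j → Disjoint (Metric.ball (c i) δ) (Metric.ball (c j) δ) := by
    intro i j hij
    apply Metric.ball_disjoint_ball
    rw [dist_eq_norm]
    simp only [hc]
    rw [← sub_smul, norm_smul, norm_ev, mul_one, Real.norm_eq_abs, ← sub_div, abs_div,
      abs_of_pos (by positivity : (0 : ℝ) < 2 * k), hδ]
    have h1 : (1 : ℝ) ≤ |(i : ℝ) - (j : ℝ)| := by
      have hne : ((i : ℕ) : ℤ) - ((j : ℕ) : ℤ) ≠ 0 := by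
        intro h
        apply hij
        ext
        omega
      have h2 : (1 : ℤ) ≤ |((i : ℕ) : ℤ) - ((j : ℕ) : ℤ)| := Int.one_le_abs hne
      exact_mod_cast h2
    rw [← add_div, div_le_div_iff₀ (by positivity) (by positivity)]
    nlinarith
  have hex : ∀ i, ∃ u, Tc (Metric.ball (c i) δ) u ∧ 0 < Ma u u := fun i =>
    exists_tc Metric.isOpen_ball ⟨c i, Metric.mem_ball_self hδ0⟩
  choose u hu hpos using hex
  have hsupp : ∀ i j, i ≠ j → ∀ x, x ∉ tsupport (u i) ∨ x ∉ tsupport (u j) := by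
    intro i j hij x
    by_contra h
    push Not at h
    exact Set.disjoint_left.1 (hdisj i j hij) ((hu i).sub h.1) ((hu j).sub h.2)
  have hpd : ∀ i x, x ∉ tsupport (u i) → ∀ l, pd l (u i) x = 0 := by
    intro i x hx l
    have h2 : fderiv ℝ (u i) x = 0 := by
      by_contra hne
      exact hx (support_fderiv_subset ℝ hne)
    have h3 : pd l (u i) x = fderiv ℝ (u i) x (ev l) :=
      ((hu i).smooth.differentiable (by simp) x).lineDeriv_eq_fderiv
    rw [h3, h2]
    rfl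
  have hsq : ∀ i, (Real.sqrt (Ma (u i) (u i)))⁻¹ * (Real.sqrt (Ma (u i) (u i)))⁻¹ =
      (Ma (u i) (u i))⁻¹ := fun i => by
    rw [← mul_inv, Real.mul_self_sqrt (hpos i).le]
  refine ⟨fun i x => (Real.sqrt (Ma (u i) (u i)))⁻¹ * u i x, fun i => ?_, fun i j => ?_,
    fun i j hij => ?_⟩
  · have h1 : Tc D1 (u i) := ⟨(hu i).smooth, (hu i).cpt, (hu i).sub.trans (hsub i)⟩
    exact h1.smul _
  · rw [Ma_smul_smul]
    rcases eq_or_ne i j with h | h
    · subst h
      rw [hsq, inv_mul_cancel₀ (hpos i).ne', if_pos rfl]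
    · rw [if_neg h]
      have h0 : Ma (u i) (u j) = 0 := by
        unfold Ma
        have : ∀ x, u i x * u j x = 0 := fun x => by
          rcases hsupp i j h x with h1 | h1
          · rw [image_eq_zero_of_notMem_tsupport h1, zero_mul]
          · rw [image_eq_zero_of_notMem_tsupport h1, mul_zero]
        simp only [this]
        simp
      rw [h0, mul_zero]
  · rw [En_smul_smul]
    have h0 : En (u i) (u j) = 0 := by
      unfold En
      have : ∀ x, pd 0 (u i) x * pd 0 (u j) x + pd 1 (u i) x * pd 1 (u j) x = 0 := fun x => by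
        rcases hsupp i j hij x with h1 | h1
        · rw [hpd i x h1, hpd i x h1, zero_mul, zero_mul, add_zero]
        · rw [hpd j x h1, hpd j x h1, mul_zero, mul_zero, add_zero]
      simp only [this]
      simp
    rw [h0, mul_zero]

theorem admS_disk_nonempty (k : ℕ) : (admS k D1).Nonempty := by
  obtain ⟨e, he, hM, hE⟩ := exists_bumps k
  have hL : ∀ i, Lc D1 (e i) := fun i => (he i).toLc
  have hMc : ∀ c : Fin k → ℝ, Ma (Pool.Agent.PPW.comb c e) (Pool.Agent.PPW.comb c e) =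
      ∑ i, c i ^ 2 := by
    intro c
    rw [Ma_comb c hL]
    refine Finset.sum_congr rfl fun i _ => ?_
    rw [Finset.sum_eq_single i]
    · rw [hM, if_pos rfl]
      ring
    · intro j _ hj
      rw [hM, if_neg (Ne.symm hj), mul_zero]
    · intro h
      exact absurd (Finset.mem_univ i) h
  have hEc : ∀ c : Fin k → ℝ, En (Pool.Agent.PPW.comb c e) (Pool.Agent.PPW.comb c e) =
      ∑ i, c i ^ 2 * En (e i) (e i) := by
    intro c
    rw [En_comb c hL]
    refine Finset.sum_congr rfl fun i _ => ?_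
    rw [Finset.sum_eq_single i]
    · ring
    · intro j _ hj
      rw [hE i j (Ne.symm hj), mul_zero]
    · intro h
      exact absurd (Finset.mem_univ i) h
  refine ⟨∑ i, En (e i) (e i), mem_admS (m := 1) one_pos he (fun c => ?_) (fun c => ?_)⟩
  · rw [hMc, one_mul]
  · rw [hMc, hEc, Finset.mul_sum]
    refine Finset.sum_le_sum fun i _ => ?_
    have h1 : En (e i) (e i) ≤ ∑ j, En (e j) (e j) :=
      Finset.single_le_sum (fun j _ => En_nonneg (e j)) (Finset.mem_univ i)
    have h2 := mul_le_mul_of_nonneg_left h1 (sq_nonneg (c i))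
    linarith

/-! ### Lower bounds -/

theorem disk_lam1_ge : 4 * s0 ≤ lamk 1 D1 := by
  refine le_csInf (admS_disk_nonempty 1) fun t ht => ?_
  obtain ⟨u, hu, hpos, hle⟩ := exists_of_mem one_ne_zero ht
  have h1 := disk_low hu
  exact le_of_mul_le_mul_right (h1.trans hle) hpos

theorem disk_lam1_pos : 0 < lamk 1 D1 := by
  have h1 := disk_lam1_ge
  have h2 := s0_pos
  linarith

theorem disk_lam_ge {k : ℕ} (hk : 2 ≤ k) : 4 * s1 ≤ lamk k D1 := by
  refine le_csInf (admS_disk_nonempty k) fun t ht => ?_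
  obtain ⟨V, hV, h1, h2⟩ := ht
  -- the circle integral as a linear functional
  let L : V →ₗ[ℝ] ℝ :=
    { toFun := fun u => cS (u : E2 → ℝ) r0
      map_add' := fun u w => by
        have c1 := cont_slice (f := fun r θ => (u : E2 → ℝ) (pt r θ))
          (continuous_upt (h1 u u.2).1) r0
        have c2 := cont_slice (f := fun r θ => (w : E2 → ℝ) (pt r θ))
          (continuous_upt (h1 w w.2).1) r0
        unfold cS
        rw [← intervalIntegral.integral_add (c1.intervalIntegrable _ _)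
          (c2.intervalIntegrable _ _)]
        rfl
      map_smul' := fun a u => by
        unfold cS
        rw [RingHom.id_apply, smul_eq_mul, ← intervalIntegral.integral_const_mul]
        rfl }
  have hfin : Module.Finite ℝ V := Module.finite_of_finrank_pos (by omega)
  have hker : 0 < Module.finrank ℝ (LinearMap.ker L) := by
    have h3 := LinearMap.finrank_range_add_finrank_ker L
    have h4 : Module.finrank ℝ (LinearMap.range L) ≤ Module.finrank ℝ ℝ :=
      Submodule.finrank_le _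
    rw [Module.finrank_self] at h4
    omega
  have hnt : Nontrivial (LinearMap.ker L) := Module.nontrivial_of_finrank_pos hker
  obtain ⟨w, hw⟩ := exists_ne (0 : LinearMap.ker L)
  set u : E2 → ℝ := ((w : V) : E2 → ℝ) with hu
  have hmem : u ∈ V := (w : V).2
  obtain ⟨a, b, c⟩ := h1 u hmem
  have hTc : Tc D1 u := ⟨a, b, c⟩
  have hne : u ≠ 0 := by
    intro h
    apply hw
    apply Subtype.ext
    apply Subtype.ext
    exact h
  have hpos : 0 < Ma u u := Ma_pos a.continuous b hne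
  have hS : cS u r0 = 0 := w.2
  have h5 := disk_low_two hTc hS
  have h6 := h2 u hmem
  rw [En_eq_of_smooth a, Ma_eq] at h6
  exact le_of_mul_le_mul_right (h5.trans h6) hpos

/-! ### Upper bound for the first eigenvalue -/

/-- the profile of the first eigenfunction of the disk of radius `ρ` -/
noncomputable def prof (ρ t : ℝ) : ℝ := F 0 (s0 / ρ ^ 2 * t ^ 2)

/-- the first eigenfunction of the disk of radius `ρ`, extended by zero -/
noncomputable def eig (ρ : ℝ) (x : E2) : ℝ := prof ρ (min ‖x‖ ρ)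

theorem prof_deriv (ρ t : ℝ) :
    HasDerivAt (prof ρ) (-(2 * (s0 / ρ ^ 2) * t * F 1 (s0 / ρ ^ 2 * t ^ 2))) t :=
  hasDerivAt_Fr 0 (s0 / ρ ^ 2) t

theorem prof_end {ρ : ℝ} (hρ : 0 < ρ) : prof ρ ρ = 0 := by
  unfold prof
  rw [div_mul_cancel₀ _ (pow_pos hρ 2).ne', F0_s0]

theorem eig_zero {ρ : ℝ} (hρ : 0 < ρ) {x : E2} (hx : ρ ≤ ‖x‖) : eig ρ x = 0 := by
  unfold eig
  rw [min_eq_right hx, prof_end hρ]

theorem eig_lip {ρ : ℝ} (hρ : 0 < ρ) : ∃ C, LipschitzWith C (eig ρ) := by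
  have hc : Continuous fun t : ℝ => -(2 * (s0 / ρ ^ 2) * t * F 1 (s0 / ρ ^ 2 * t ^ 2)) := by
    have := continuous_Fr 1 (s0 / ρ ^ 2)
    fun_prop
  obtain ⟨C, hC⟩ := (isCompact_Icc : IsCompact (Icc (0 : ℝ) ρ)).exists_bound_of_continuousOn
    hc.continuousOn
  have hC0 : 0 ≤ C := (norm_nonneg _).trans (hC 0 ⟨le_rfl, hρ.le⟩)
  have hL : LipschitzOnWith (Real.toNNReal C) (prof ρ) (Icc 0 ρ) := by
    refine Convex.lipschitzOnWith_of_nnnorm_hasDerivWithin_le (convex_Icc 0 ρ)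
      (fun t _ => (prof_deriv ρ t).hasDerivWithinAt) (fun t ht => ?_)
    rw [← NNReal.coe_le_coe, coe_nnnorm, Real.coe_toNNReal _ hC0]
    exact hC t ht
  refine ⟨Real.toNNReal C, LipschitzWith.of_dist_le_mul fun x y => ?_⟩
  have h1 : LipschitzWith 1 fun x : E2 => min ‖x‖ ρ := lipschitzWith_one_norm.min_const ρ
  have hm : ∀ x : E2, min ‖x‖ ρ ∈ Icc (0 : ℝ) ρ := fun x =>
    ⟨le_min (norm_nonneg _) hρ.le, min_le_right _ _⟩
  have h2 := hL.dist_le_mul _ (hm x) _ (hm y)
  have h3 := h1.dist_le_mul x y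
  rw [NNReal.coe_one, one_mul] at h3
  exact h2.trans (mul_le_mul_of_nonneg_left h3 NNReal.zero_le_coe)

theorem eig_tsupport {ρ : ℝ} (hρ : 0 < ρ) : tsupport (eig ρ) ⊆ Metric.closedBall 0 ρ := by
  refine closure_minimal (fun x hx => ?_) Metric.isClosed_closedBall
  rw [mem_closedBall_zero_iff]
  by_contra h
  push Not at h
  exact hx (eig_zero hρ h.le)

theorem eig_Lc {ρ : ℝ} (hρ : 0 < ρ) (hρ1 : ρ < 1) : Lc D1 (eig ρ) := by
  refine ⟨eig_lip hρ, ?_, ?_⟩
  · exact (isCompact_closedBall (0 : E2) ρ).of_isClosed_subset (isClosed_tsupport _)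
      (eig_tsupport hρ)
  · refine (eig_tsupport hρ).trans fun x hx => ?_
    rw [mem_closedBall_zero_iff] at hx
    rw [mem_ball_zero_iff]
    linarith

theorem norm_add_smul_sq (x : E2) (i : Fin 2) (t : ℝ) :
    ‖x + t • ev i‖ ^ 2 = ‖x‖ ^ 2 + 2 * t * x i + t ^ 2 := by
  rw [EuclideanSpace.norm_sq_eq, EuclideanSpace.norm_sq_eq, Fin.sum_univ_two, Fin.sum_univ_two]
  fin_cases i
  · simp [ev]
    ring
  · simp [ev]
    ring

theorem pd_eig_in {ρ : ℝ} {x : E2} (hx : ‖x‖ < ρ) (i : Fin 2) :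
    pd i (eig ρ) x = -(2 * (s0 / ρ ^ 2) * x i * F 1 (s0 / ρ ^ 2 * ‖x‖ ^ 2)) := by
  set σ : ℝ := s0 / ρ ^ 2 with hσ
  have h1 : HasLineDerivAt ℝ (eig ρ) (-(2 * σ * x i * F 1 (σ * ‖x‖ ^ 2))) x (ev i) := by
    unfold HasLineDerivAt
    have h2 : (fun t : ℝ => eig ρ (x + t • ev i)) =ᶠ[𝓝 0]
        fun t => F 0 (σ * (‖x‖ ^ 2 + 2 * t * x i + t ^ 2)) := by
      have hc : ContinuousAt (fun t : ℝ => ‖x + t • ev i‖) 0 := by fun_prop
      have h3 : ∀ᶠ t : ℝ in 𝓝 0, ‖x + t • ev i‖ < ρ := by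
        apply hc.eventually (Iio_mem_nhds _)
        simpa using hx
      filter_upwards [h3] with t ht
      unfold eig prof
      rw [min_eq_left ht.le, norm_add_smul_sq]
    refine HasDerivAt.congr_of_eventuallyEq ?_ h2
    have h4 : HasDerivAt (fun t : ℝ => σ * (‖x‖ ^ 2 + 2 * t * x i + t ^ 2))
        (σ * (2 * x i)) 0 := by
      have a1 : HasDerivAt (fun t : ℝ => 2 * t * x i) (2 * x i) 0 := by
        have := ((hasDerivAt_id (0 : ℝ)).const_mul 2).mul_const (x i)
        simpa using this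
      have a2 : HasDerivAt (fun t : ℝ => t ^ 2) 0 0 := by
        have := hasDerivAt_sq 0
        simpa using this
      have a3 := ((a1.const_add (‖x‖ ^ 2)).add a2).const_mul σ
      refine a3.congr_deriv ?_
      ring
    have h5 := (hasDerivAt_F 0 (σ * (‖x‖ ^ 2 + 2 * 0 * x i + 0 ^ 2))).comp (0 : ℝ) h4
    refine h5.congr_deriv ?_
    have e : ‖x‖ ^ 2 + 2 * 0 * x i + 0 ^ 2 = ‖x‖ ^ 2 := by ring
    rw [e]
    ring
  exact h1.lineDeriv

theorem pd_eig_out {ρ : ℝ} (hρ : 0 < ρ) {x : E2} (hx : ρ < ‖x‖) (i : Fin 2) :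
    pd i (eig ρ) x = 0 := by
  have h1 : HasLineDerivAt ℝ (eig ρ) 0 x (ev i) := by
    unfold HasLineDerivAt
    have h2 : (fun t : ℝ => eig ρ (x + t • ev i)) =ᶠ[𝓝 0] fun _ => 0 := by
      have hc : ContinuousAt (fun t : ℝ => ‖x + t • ev i‖) 0 := by fun_prop
      have h3 : ∀ᶠ t : ℝ in 𝓝 0, ρ < ‖x + t • ev i‖ := by
        apply hc.eventually (Ioi_mem_nhds _)
        simpa using hx
      filter_upwards [h3] with t ht
      exact eig_zero hρ ht.le
    exact (hasDerivAt_const (0 : ℝ) (0 : ℝ)).congr_of_eventuallyEq h2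
  exact h1.lineDeriv

/-- radial integrals supported in the disk of radius `ρ` -/
theorem integral_radial {ρ : ℝ} (hρ : 0 < ρ) {h k : ℝ → ℝ} (h0 : ∀ t, ρ < t → h t = 0)
    (hk : ∀ t, 0 < t → t ≤ ρ → t * h t = k t) :
    ∫ x : E2, h ‖x‖ = 2 * (volume.real (Metric.ball (0 : E2) 1)) * ∫ t in (0 : ℝ)..ρ, k t := by
  rw [integral_fun_norm_addHaar (volume : Measure E2) h]
  have hd : Module.finrank ℝ E2 = 2 := by simp
  rw [hd, intervalIntegral.integral_of_le hρ.le,
    setIntegral_eq_of_subset_of_forall_sdiff_eq_zero measurableSet_Ioi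
      (Ioc_subset_Ioi_self : Ioc (0 : ℝ) ρ ⊆ Ioi 0)]
  · rw [nsmul_eq_mul, smul_eq_mul, Nat.cast_ofNat, mul_assoc]
    congr 2
    refine setIntegral_congr_fun measurableSet_Ioc fun t ht => ?_
    simp only [Nat.add_one_sub_one, pow_one, smul_eq_mul]
    exact hk t ht.1 ht.2
  · intro t ht
    have h1 : ρ < t := by
      by_contra h
      push Not at h
      exact ht.2 ⟨ht.1, h⟩
    rw [h0 t h1, smul_zero]

theorem eig_energy {ρ : ℝ} (hρ : 0 < ρ) : En (eig ρ) (eig ρ) = 4 * (s0 / ρ ^ 2) *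
    Ma (eig ρ) (eig ρ) := by
  set σ : ℝ := s0 / ρ ^ 2 with hσ
  have hσρ : σ * ρ ^ 2 = s0 := by
    rw [hσ]
    field_simp
  -- the energy
  have hE : En (eig ρ) (eig ρ) = 2 * (volume.real (Metric.ball (0 : E2) 1)) *
      ∫ t in (0 : ℝ)..ρ, 4 * σ ^ 2 * (t ^ 3 * F 1 (σ * t ^ 2) ^ 2) := by
    rw [← integral_radial hρ (h := fun t => if t ≤ ρ then (2 * σ * t * F 1 (σ * t ^ 2)) ^ 2 else 0)]
    · unfold En
      apply integral_congr_ae
      have hsph : ∀ᵐ x ∂(volume : Measure E2), x ∉ Metric.sphere (0 : E2) ρ := by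
        rw [ae_iff]
        simp only [not_not]
        exact Measure.addHaar_sphere_of_ne_zero _ _ hρ.ne'
      filter_upwards [hsph] with x hx
      have hne : ‖x‖ ≠ ρ := by
        intro h
        exact hx (by rw [mem_sphere_zero_iff_norm, h])
      rcases lt_or_gt_of_ne hne with h | h
      · rw [pd_eig_in h, pd_eig_in h, if_pos h.le]
        have h3 : ‖x‖ ^ 2 = x 0 ^ 2 + x 1 ^ 2 := by
          rw [EuclideanSpace.norm_sq_eq, Fin.sum_univ_two, Real.norm_eq_abs, Real.norm_eq_abs,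
            sq_abs, sq_abs]
        rw [← hσ]
        linear_combination (-(4 * σ ^ 2 * F 1 (σ * ‖x‖ ^ 2) ^ 2)) * h3
      · rw [pd_eig_out hρ h, pd_eig_out hρ h, if_neg (not_le.2 h)]
        ring
    · intro t ht
      rw [if_neg (not_le.2 ht)]
    · intro t _ ht
      rw [if_pos ht]
      ring
  -- the mass
  have hM : Ma (eig ρ) (eig ρ) = 2 * (volume.real (Metric.ball (0 : E2) 1)) *
      ∫ t in (0 : ℝ)..ρ, t * F 0 (σ * t ^ 2) ^ 2 := by
    rw [← integral_radial hρ (h := fun t => prof ρ (min t ρ) ^ 2)]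
    · unfold Ma
      apply integral_congr_ae
      refine Eventually.of_forall fun x => ?_
      simp only [eig]
      ring
    · intro t ht
      rw [min_eq_right ht.le, prof_end hρ]
      ring
    · intro t _ ht
      rw [min_eq_left ht]
      rfl
  -- the integral identity
  have hI : ∫ t in (0 : ℝ)..ρ, (2 * (t * F 0 (σ * t ^ 2) ^ 2) -
      2 * σ * (t ^ 3 * F 1 (σ * t ^ 2) ^ 2)) = 0 := by
    have hd : ∀ t ∈ uIcc (0 : ℝ) ρ, HasDerivAt
        (fun t => t ^ 2 * (F 0 (σ * t ^ 2) * F 1 (σ * t ^ 2)))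
        (2 * (t * F 0 (σ * t ^ 2) ^ 2) - 2 * σ * (t ^ 3 * F 1 (σ * t ^ 2) ^ 2)) t := by
      intro t _
      refine ((hasDerivAt_sq t).mul ((hasDerivAt_Fr 0 σ t).mul
        (hasDerivAt_Fr 1 σ t))).congr_deriv ?_
      have h2 := F_rec 0 (σ * t ^ 2)
      have h3 : σ * t ^ 2 * F 2 (σ * t ^ 2) = F 1 (σ * t ^ 2) - F 0 (σ * t ^ 2) := by
        norm_num at h2
        linarith
      simp only [Pi.mul_apply]
      norm_num
      linear_combination (-2 * t * F 0 (σ * t ^ 2)) * h3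
    rw [intervalIntegral.integral_eq_sub_of_hasDerivAt hd]
    · rw [hσρ, F0_s0]
      ring
    · have h0 := continuous_Fr 0 σ
      have h1 := continuous_Fr 1 σ
      exact Continuous.intervalIntegrable (by fun_prop) _ _
  have h0 := continuous_Fr 0 σ
  have h1 := continuous_Fr 1 σ
  rw [intervalIntegral.integral_sub (Continuous.intervalIntegrable (by fun_prop) _ _)
    (Continuous.intervalIntegrable (by fun_prop) _ _), intervalIntegral.integral_const_mul,
    intervalIntegral.integral_const_mul] at hI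
  rw [hE, hM, intervalIntegral.integral_const_mul]
  linear_combination (-(4 * σ * volume.real (Metric.ball (0 : E2) 1))) * hI

theorem eig_Ma_pos {ρ : ℝ} (hρ : 0 < ρ) (hρ1 : ρ < 1) : 0 < Ma (eig ρ) (eig ρ) := by
  have hL := eig_Lc hρ hρ1
  refine Ma_pos hL.cont hL.cpt ?_
  intro h
  have h1 : eig ρ 0 = 0 := congrFun h 0
  unfold eig prof at h1
  rw [norm_zero, min_eq_left hρ.le] at h1
  have h2 := F0_pos (le_refl (0 : ℝ)) s0_pos
  norm_num at h1
  linarith

theorem disk_lam1_le : lamk 1 D1 ≤ 4 * s0 := by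
  have hlow : ∀ ρ : ℝ, 0 < ρ → ρ < 1 → lamk 1 D1 * ρ ^ 2 ≤ 4 * s0 := by
    intro ρ hρ hρ1
    have h1 := (low_lamk D1).lc Metric.isOpen_ball (eig_Lc hρ hρ1)
    rw [eig_energy hρ] at h1
    have h2 := le_of_mul_le_mul_right h1 (eig_Ma_pos hρ hρ1)
    have h3 : 0 < ρ ^ 2 := by positivity
    have h4 : 4 * (s0 / ρ ^ 2) = 4 * s0 / ρ ^ 2 := by ring
    rw [h4, le_div_iff₀ h3] at h2
    exact h2
  have hlim : Tendsto (fun ρ : ℝ => lamk 1 D1 * ρ ^ 2) (𝓝[<] 1) (𝓝 (lamk 1 D1 * 1 ^ 2)) := by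
    have hc : Continuous fun ρ : ℝ => lamk 1 D1 * ρ ^ 2 := by fun_prop
    exact (hc.tendsto 1).mono_left nhdsWithin_le_nhds
  rw [one_pow, mul_one] at hlim
  refine le_of_tendsto hlim ?_
  have h5 : ∀ᶠ ρ : ℝ in 𝓝[<] 1, 0 < ρ :=
    eventually_nhdsWithin_of_eventually_nhds (Ioi_mem_nhds one_pos)
  filter_upwards [h5, self_mem_nhdsWithin] with ρ h6 h7
  exact hlow ρ h6 h7

/-- The disk side of the inequality. -/
theorem disk_ratio : 2 * (s1 / s0) ≤ (lamk 2 D1 + lamk 3 D1) / lamk 1 D1 := by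
  have h1 := disk_lam1_le
  have h2 := disk_lam1_pos
  have h3 := disk_lam_ge (k := 2) le_rfl
  have h4 := disk_lam_ge (k := 3) (by norm_num)
  have h5 := s0_pos
  have h6 := s1_pos
  rw [le_div_iff₀ h2]
  calc 2 * (s1 / s0) * lamk 1 D1 ≤ 2 * (s1 / s0) * (4 * s0) := by gcongr
    _ = 4 * s1 + 4 * s1 := by
      field_simp
      ring
    _ ≤ _ := by linarith

end Pool.Agent.PPW
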