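import Pool.Agent.Lib.MP_eb7570_an.CertLem

/-!
MP_eb7570_an, the strip end of the path: the pair (x 0, S (x 1)), S y = sin (clamp y), is admissible
and certified for every weight 0 < r <= 1/25, by the explicit certificate
v = A cos^2, U = (-c A x0 cos^2, -2 A sin cos), q = A sin^2 + c^2 A x0^2 cos^2.
-/

set_option autoImplicit false

open MeasureTheory Filter Topology Metric Set

namespace Pool.Agent.PPW

/-- Clamp to the interval from -pi/2 to pi/2. -/
noncomputable def clp (y : ℝ) : ℝ := max (-(Real.pi / 2)) (min y (Real.pi / 2))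

/-- Clamped sine. -/
noncomputable def stSin (y : ℝ) : ℝ := Real.sin (clp y)

/-- Clamped cosine. -/
noncomputable def stCos (y : ℝ) : ℝ := Real.cos (clp y)

/-- The second function of the strip pair. -/
noncomputable def stripQ (x : E2) : ℝ := stSin (x 1)

/-- The first function of the strip pair. -/
noncomputable def stripP (x : E2) : ℝ := x 0

private theorem clp_lip : LipschitzWith 1 clp := by
  unfold clp
  have h1 : LipschitzWith 1 (fun y : ℝ => min y (Real.pi / 2)) := LipschitzWith.id.min_const _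
  exact h1.const_max _

private theorem clp_in {y : ℝ} (h1 : -(Real.pi / 2) ≤ y) (h2 : y ≤ Real.pi / 2) : clp y = y := by
  unfold clp
  rw [min_eq_left h2, max_eq_right h1]

private theorem clp_hi {y : ℝ} (h : Real.pi / 2 ≤ y) : clp y = Real.pi / 2 := by
  unfold clp
  have hp := Real.pi_pos
  rw [min_eq_right h, max_eq_right (by linarith)]

private theorem clp_lo {y : ℝ} (h : y ≤ -(Real.pi / 2)) : clp y = -(Real.pi / 2) := by
  unfold clp
  have hp := Real.pi_pos
  rw [min_eq_left (by linarith), max_eq_left h]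

private theorem clp_neg (y : ℝ) : clp (-y) = -clp y := by
  rcases le_total (Real.pi / 2) y with h | h
  · rw [clp_hi h, clp_lo (by linarith)]
  · rcases le_total y (-(Real.pi / 2)) with h' | h'
    · rw [clp_lo h', clp_hi (by linarith)]; ring
    · rw [clp_in h' h, clp_in (by linarith) (by linarith)]

private theorem sc_sq (y : ℝ) : stSin y ^ 2 + stCos y ^ 2 = 1 := Real.sin_sq_add_cos_sq _

private theorem sS_lip : LipschitzWith 1 stSin := by
  have h : LipschitzWith (1 * 1) (Real.sin ∘ clp) := Real.lipschitzWith_sin.comp clp_lip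
  rw [one_mul] at h
  exact h

private theorem cS_lip : LipschitzWith 1 stCos := by
  have h : LipschitzWith (1 * 1) (Real.cos ∘ clp) := Real.lipschitzWith_cos.comp clp_lip
  rw [one_mul] at h
  exact h

private theorem sS_abs (y : ℝ) : |stSin y| ≤ 1 := Real.abs_sin_le_one _

private theorem cS_abs (y : ℝ) : |stCos y| ≤ 1 := Real.abs_cos_le_one _

/-- All the derivatives that are needed. -/
private theorem hd_all {y : ℝ} (h1 : y ≠ Real.pi / 2) (h2 : y ≠ -(Real.pi / 2)) :
    ∃ d : ℝ, HasDerivAt stSin (stCos y) y ∧ HasDerivAt stCos d y ∧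
      (d = -stSin y ∨ (d = 0 ∧ stCos y = 0 ∧ stSin y ^ 2 = 1)) := by
  have hp := Real.pi_pos
  rcases lt_or_gt_of_ne h1 with ha | ha
  · rcases lt_or_gt_of_ne h2 with hb | hb
    · refine ⟨0, ?_, ?_, Or.inr ⟨rfl, ?_, ?_⟩⟩
      · have he : stSin =ᶠ[𝓝 y] fun _ => Real.sin (-(Real.pi / 2)) := by
          filter_upwards [Iio_mem_nhds hb] with z hz
          unfold stSin
          rw [clp_lo (le_of_lt hz)]
        have hc : stCos y = 0 := by
          unfold stCos
          rw [clp_lo hb.le, Real.cos_neg, Real.cos_pi_div_two]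
        rw [hc]
        exact (hasDerivAt_const y _).congr_of_eventuallyEq he
      · have he : stCos =ᶠ[𝓝 y] fun _ => Real.cos (-(Real.pi / 2)) := by
          filter_upwards [Iio_mem_nhds hb] with z hz
          unfold stCos
          rw [clp_lo (le_of_lt hz)]
        exact (hasDerivAt_const y _).congr_of_eventuallyEq he
      · unfold stCos
        rw [clp_lo hb.le, Real.cos_neg, Real.cos_pi_div_two]
      · unfold stSin
        rw [clp_lo hb.le, Real.sin_neg, Real.sin_pi_div_two]
        norm_num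
    · refine ⟨-stSin y, ?_, ?_, Or.inl rfl⟩
      · have he : stSin =ᶠ[𝓝 y] Real.sin := by
          filter_upwards [Ioo_mem_nhds hb ha] with z hz
          unfold stSin
          rw [clp_in hz.1.le hz.2.le]
        have hc : stCos y = Real.cos y := by
          unfold stCos
          rw [clp_in hb.le ha.le]
        rw [hc]
        exact (Real.hasDerivAt_sin y).congr_of_eventuallyEq he
      · have he : stCos =ᶠ[𝓝 y] Real.cos := by
          filter_upwards [Ioo_mem_nhds hb ha] with z hz
          unfold stCos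
          rw [clp_in hz.1.le hz.2.le]
        have hc : stSin y = Real.sin y := by
          unfold stSin
          rw [clp_in hb.le ha.le]
        rw [hc]
        exact (Real.hasDerivAt_cos y).congr_of_eventuallyEq he
  · refine ⟨0, ?_, ?_, Or.inr ⟨rfl, ?_, ?_⟩⟩
    · have he : stSin =ᶠ[𝓝 y] fun _ => Real.sin (Real.pi / 2) := by
        filter_upwards [Ioi_mem_nhds ha] with z hz
        unfold stSin
        rw [clp_hi (le_of_lt hz)]
      have hc : stCos y = 0 := by
        unfold stCos
        rw [clp_hi ha.le, Real.cos_pi_div_two]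
      rw [hc]
      exact (hasDerivAt_const y _).congr_of_eventuallyEq he
    · have he : stCos =ᶠ[𝓝 y] fun _ => Real.cos (Real.pi / 2) := by
        filter_upwards [Ioi_mem_nhds ha] with z hz
        unfold stCos
        rw [clp_hi (le_of_lt hz)]
      exact (hasDerivAt_const y _).congr_of_eventuallyEq he
    · unfold stCos
      rw [clp_hi ha.le, Real.cos_pi_div_two]
    · unfold stSin
      rw [clp_hi ha.le, Real.sin_pi_div_two]
      norm_num

private theorem add_ev0 (x : E2) (t : ℝ) : (x + t • ev 0) 0 = x 0 + t ∧ (x + t • ev 0) 1 = x 1 := by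
  unfold ev
  constructor <;> simp

private theorem add_ev1 (x : E2) (t : ℝ) : (x + t • ev 1) 0 = x 0 ∧ (x + t • ev 1) 1 = x 1 + t := by
  unfold ev
  constructor <;> simp

private theorem pd0_prod {a b : ℝ → ℝ} {a' : ℝ} {x : E2} (ha : HasDerivAt a a' (x 0)) :
    pd 0 (fun x => a (x 0) * b (x 1)) x = a' * b (x 1) := by
  have h : HasLineDerivAt ℝ (fun x : E2 => a (x 0) * b (x 1)) (a' * b (x 1)) x (ev 0) := by
    unfold HasLineDerivAt
    have h1 : HasDerivAt (fun t : ℝ => x 0 + t) 1 0 := by
      simpa using (hasDerivAt_id (0 : ℝ)).const_add (x 0)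
    have h2 : HasDerivAt (fun t : ℝ => a (x 0 + t)) (a' * 1) 0 := by
      refine HasDerivAt.comp (0 : ℝ) ?_ h1
      simpa using ha
    have h3 := h2.mul_const (b (x 1))
    rw [mul_one] at h3
    refine h3.congr_of_eventuallyEq (Eventually.of_forall fun t => ?_)
    simp only [(add_ev0 x t).1, (add_ev0 x t).2]
  exact h.lineDeriv

private theorem pd1_prod {a b : ℝ → ℝ} {b' : ℝ} {x : E2} (hb : HasDerivAt b b' (x 1)) :
    pd 1 (fun x => a (x 0) * b (x 1)) x = a (x 0) * b' := by
  have h : HasLineDerivAt ℝ (fun x : E2 => a (x 0) * b (x 1)) (a (x 0) * b') x (ev 1) := by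
    unfold HasLineDerivAt
    have h1 : HasDerivAt (fun t : ℝ => x 1 + t) 1 0 := by
      simpa using (hasDerivAt_id (0 : ℝ)).const_add (x 1)
    have h2 : HasDerivAt (fun t : ℝ => b (x 1 + t)) (b' * 1) 0 := by
      refine HasDerivAt.comp (0 : ℝ) ?_ h1
      simpa using hb
    have h3 := h2.const_mul (a (x 0))
    rw [mul_one] at h3
    refine h3.congr_of_eventuallyEq (Eventually.of_forall fun t => ?_)
    simp only [(add_ev1 x t).1, (add_ev1 x t).2]
  exact h.lineDeriv

private theorem coord_lip (i : Fin 2) : LipschitzWith 1 (fun x : E2 => x i) := by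
  refine LipschitzWith.of_dist_le_mul fun x y => ?_
  rw [NNReal.coe_one, one_mul, Real.dist_eq, dist_eq_norm]
  have h := PiLp.norm_apply_le (x - y) i
  simpa using h

private theorem ae_ne (c : ℝ) : ∀ᵐ x ∂(volume : Measure E2), x 1 ≠ c := by
  have h : (volume : Measure (Fin 2 → ℝ)) {f | f 1 = c} = 0 :=
    Measure.pi_hyperplane (fun _ => (volume : Measure ℝ)) 1 c
  have h2 := (PiLp.volume_preserving_ofLp (Fin 2)).quasiMeasurePreserving.preimage_null h
  rw [ae_iff]
  refine measure_mono_null (fun x hx => ?_) h2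
  simp only [ne_eq, not_not, mem_ofPred_eq] at hx
  exact hx

private theorem stripQ_lip : LipschitzWith 1 stripQ := by
  have h : LipschitzWith (1 * 1) (stSin ∘ fun x : E2 => x 1) := sS_lip.comp (coord_lip 1)
  rw [one_mul] at h
  exact h

private theorem stripP_lip : LipschitzWith 1 stripP := coord_lip 0

/-- Products of bounded Lipschitz functions. -/
private theorem lip_mul {f g : E2 → ℝ} {C D : NNReal} {M N : ℝ} (hf : LipschitzWith C f)
    (hg : LipschitzWith D g) (hM : ∀ x, |f x| ≤ M) (hN : ∀ x, |g x| ≤ N) :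
    ∃ L : NNReal, LipschitzWith L (fun x => f x * g x) := by
  have hM0 : 0 ≤ M := (abs_nonneg _).trans (hM 0)
  have hN0 : 0 ≤ N := (abs_nonneg _).trans (hN 0)
  have hMN : 0 ≤ M * D + N * C := by positivity
  refine ⟨(M * D + N * C).toNNReal, LipschitzWith.of_dist_le_mul fun x y => ?_⟩
  have h1 := hf.dist_le_mul x y
  have h2 := hg.dist_le_mul x y
  rw [Real.dist_eq] at h1 h2 ⊢
  have e : f x * g x - f y * g y = f x * (g x - g y) + g y * (f x - f y) := by ring
  rw [e]
  refine (abs_add_le _ _).trans ?_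
  rw [abs_mul, abs_mul]
  have h3 : |f x| * |g x - g y| ≤ M * (D * dist x y) :=
    mul_le_mul (hM x) h2 (abs_nonneg _) hM0
  have h4 : |g y| * |f x - f y| ≤ N * (C * dist x y) :=
    mul_le_mul (hN y) h1 (abs_nonneg _) hN0
  rw [Real.coe_toNNReal _ hMN]
  nlinarith

private theorem gsq_stripP (x : E2) : gsq stripP x = 1 := by
  unfold gsq
  have h0 := pd0_prod (a := fun t => t) (b := fun _ => 1) (a' := 1) (x := x) (hasDerivAt_id _)
  have h1 := pd1_prod (a := fun t => t) (b := fun _ => 1) (b' := 0) (x := x) (hasDerivAt_const _ _)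
  simp only [mul_one, mul_zero] at h0 h1
  have e : stripP = fun x : E2 => x 0 := rfl
  rw [e, h0, h1]
  norm_num

private theorem gsq_stripQ {x : E2} (h : HasDerivAt stSin (stCos (x 1)) (x 1)) :
    gsq stripQ x = stCos (x 1) ^ 2 := by
  unfold gsq
  have h0 := pd0_prod (a := fun _ => 1) (b := stSin) (a' := 0) (x := x) (hasDerivAt_const _ _)
  have h1 := pd1_prod (a := fun _ => 1) (b := stSin) (b' := stCos (x 1)) (x := x) h
  simp only [one_mul, zero_mul] at h0 h1
  have e : stripQ = fun x : E2 => stSin (x 1) := rfl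
  rw [e, h0, h1]
  ring

/-- The strip pair is certified. -/
theorem strip_cert {r A c α β : ℝ} (hr : 0 ≤ r) (hA0 : 0 ≤ A) (hA : A ≤ 2) (hc : 0 ≤ c)
    (hα : 0 ≤ α) (h1 : 1 + r ≤ A * (1 + c)) (h2 : c ^ 2 * A ≤ r * α) (h3 : r + 3 * A ≤ β) :
    Cert 32 (Fp α β r stripP stripQ) := by
  have hv : LipschitzWith 4 (fun x : E2 => A * stCos (x 1) ^ 2) := by
    refine LipschitzWith.of_dist_le_mul fun x y => ?_
    have e1 := cS_lip.dist_le_mul (x 1) (y 1)
    have e2 := (coord_lip 1).dist_le_mul x y
    simp only [NNReal.coe_one, one_mul] at e1 e2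
    rw [Real.dist_eq] at e1 ⊢
    have e3 : A * stCos (x 1) ^ 2 - A * stCos (y 1) ^ 2 =
        A * ((stCos (x 1) + stCos (y 1)) * (stCos (x 1) - stCos (y 1))) := by ring
    rw [e3, abs_mul, abs_mul, abs_of_nonneg hA0]
    have e4 : |stCos (x 1) + stCos (y 1)| ≤ 2 :=
      (abs_add_le _ _).trans (by linarith [cS_abs (x 1), cS_abs (y 1)])
    have e5 : |stCos (x 1) - stCos (y 1)| ≤ dist x y := e1.trans e2
    have e6 : |stCos (x 1) + stCos (y 1)| * |stCos (x 1) - stCos (y 1)| ≤ 2 * dist x y :=
      mul_le_mul e4 e5 (abs_nonneg _) (by norm_num)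
    have e7 : (((4 : NNReal)) : ℝ) = 4 := rfl
    rw [e7]
    have e8 : 0 ≤ |stCos (x 1) + stCos (y 1)| * |stCos (x 1) - stCos (y 1)| := by positivity
    nlinarith [dist_nonneg (x := x) (y := y)]
  have hK := cert_of_data (F := Fp α β r stripP stripQ)
    (v := fun x : E2 => A * stCos (x 1) ^ 2)
    (U1 := fun x : E2 => (-(c * A) * x 0) * stCos (x 1) ^ 2)
    (U2 := fun x : E2 => (-(2 * A)) * (stSin (x 1) * stCos (x 1)))
    (q := fun x : E2 => A * stSin (x 1) ^ 2 + c ^ 2 * A * x 0 ^ 2 * stCos (x 1) ^ 2)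
    (L := 4) (B := 2) (Wt_Fp stripP_lip stripQ_lip) hv
    (fun x => mul_nonneg hA0 (sq_nonneg _))
    (fun x => ?_) ?_ ?_ ?_ (fun x => ?_) ?_ ?_
  · refine hK.mono_const ?_
    have e7 : (((4 : NNReal)) : ℝ) = 4 := rfl
    rw [e7]
    norm_num
  · have := abs_le.1 (cS_abs (x 1))
    have h4 : stCos (x 1) ^ 2 ≤ 1 := by nlinarith
    nlinarith
  · -- U1
    intro R
    have hm : LipschitzWith 1 (fun x : E2 => max (-|R|) (min (x 0) |R|)) :=
      ((coord_lip 0).min_const _).const_max _
    have hm' : ∀ x : E2, |max (-|R|) (min (x 0) |R|)| ≤ |R| := by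
      intro x
      rw [abs_le]
      exact ⟨le_max_left _ _, max_le (by linarith [abs_nonneg R]) (min_le_right _ _)⟩
    have hcs : LipschitzWith 1 (fun x : E2 => stCos (x 1)) := by
      have h : LipschitzWith (1 * 1) (stCos ∘ fun x : E2 => x 1) := cS_lip.comp (coord_lip 1)
      rw [one_mul] at h
      exact h
    obtain ⟨L1, hL1⟩ := lip_mul hcs hcs (fun x => cS_abs _) (fun x => cS_abs _)
    have hb : ∀ x : E2, |stCos (x 1) * stCos (x 1)| ≤ 1 := by
      intro x
      rw [abs_mul]
      have := cS_abs (x 1)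
      have h0 := abs_nonneg (stCos (x 1))
      nlinarith
    obtain ⟨L2, hL2⟩ := lip_mul hm hL1 hm' hb
    have hk : LipschitzWith ‖-(c * A)‖₊ (fun y : ℝ => -(c * A) * y) := lipschitzWith_smul (-(c * A))
    refine ⟨_, fun x => -(c * A) * (max (-|R|) (min (x 0) |R|) * (stCos (x 1) * stCos (x 1))),
      hk.comp hL2, fun x hx => ?_⟩
    have hx0 : |x 0| ≤ |R| := by
      have h := PiLp.norm_apply_le x 0
      rw [Real.norm_eq_abs] at h
      exact (h.trans hx).trans (le_abs_self R)
    have := abs_le.1 hx0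
    simp only [min_eq_left this.2, max_eq_right this.1]
    ring
  · -- U2
    intro R
    have hcs : LipschitzWith 1 (fun x : E2 => stCos (x 1)) := by
      have h : LipschitzWith (1 * 1) (stCos ∘ fun x : E2 => x 1) := cS_lip.comp (coord_lip 1)
      rw [one_mul] at h
      exact h
    obtain ⟨L1, hL1⟩ := lip_mul stripQ_lip hcs (fun x => sS_abs _) (fun x => cS_abs _)
    have hk : LipschitzWith ‖-(2 * A)‖₊ (fun y : ℝ => -(2 * A) * y) := lipschitzWith_smul (-(2 * A))
    exact ⟨_, _, hk.comp hL1, fun x _ => rfl⟩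
  · -- q
    refine Wt.of_continuous ?_
    have hc0 : Continuous (fun x : E2 => x 0) := (coord_lip 0).continuous
    have hc1 : Continuous (fun x : E2 => stSin (x 1)) := stripQ_lip.continuous
    have hc2 : Continuous (fun x : E2 => stCos (x 1)) := cS_lip.continuous.comp (coord_lip 1).continuous
    fun_prop
  · positivity
  · -- N
    filter_upwards [ae_ne (Real.pi / 2), ae_ne (-(Real.pi / 2))] with x hx1 hx2
    obtain ⟨d, hs, hcd, hdd⟩ := hd_all hx1 hx2
    have e0 : pd 0 (fun x : E2 => A * stCos (x 1) ^ 2) x = 0 := by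
      have := pd0_prod (a := fun _ => A) (b := fun y => stCos y ^ 2) (a' := 0) (x := x)
        (hasDerivAt_const _ _)
      rw [zero_mul] at this
      exact this
    have e1 : pd 1 (fun x : E2 => A * stCos (x 1) ^ 2) x = A * (2 * stCos (x 1) * d) := by
      have hb : HasDerivAt (fun y => stCos y ^ 2) (2 * stCos (x 1) * d) (x 1) := by
        have := hcd.fun_pow 2
        simpa using this
      exact pd1_prod (a := fun _ => A) (b := fun y => stCos y ^ 2) (x := x) hb
    simp only [e0, e1]
    have hsc := sc_sq (x 1)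
    rcases hdd with hd | ⟨hd, hc0, hs1⟩
    · rw [hd]
      apply le_of_eq
      ring
    · rw [hd, hc0]
      apply le_of_eq
      ring
  · -- E
    filter_upwards [ae_ne (Real.pi / 2), ae_ne (-(Real.pi / 2))] with x hx1 hx2
    obtain ⟨d, hs, hcd, hdd⟩ := hd_all hx1 hx2
    have e0 : pd 0 (fun x : E2 => (-(c * A) * x 0) * stCos (x 1) ^ 2) x =
        -(c * A) * stCos (x 1) ^ 2 := by
      have ha : HasDerivAt (fun t : ℝ => -(c * A) * t) (-(c * A)) (x 0) := by
        simpa using (hasDerivAt_id (x 0)).const_mul (-(c * A))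
      exact pd0_prod (a := fun t => -(c * A) * t) (b := fun y => stCos y ^ 2) (x := x) ha
    have e1 : pd 1 (fun x : E2 => (-(2 * A)) * (stSin (x 1) * stCos (x 1))) x =
        -(2 * A) * (stCos (x 1) * stCos (x 1) + stSin (x 1) * d) := by
      exact pd1_prod (a := fun _ => -(2 * A)) (b := fun y => stSin y * stCos y) (x := x) (hs.mul hcd)
    simp only [e0, e1]
    unfold Fp
    rw [gsq_stripP, gsq_stripQ hs]
    have hsc := sc_sq (x 1)
    have hP : stripP x = x 0 := rfl
    have hQ : stripQ x = stSin (x 1) := rfl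
    rw [hP, hQ]
    have n0 : 0 ≤ x 0 ^ 2 := sq_nonneg _
    have n1 : 0 ≤ stCos (x 1) ^ 2 := sq_nonneg _
    have n2 : 0 ≤ stSin (x 1) ^ 2 := sq_nonneg _
    have n3 : 0 ≤ (r * α - c ^ 2 * A) * (x 0 ^ 2 * stCos (x 1) ^ 2) :=
      mul_nonneg (by linarith) (by positivity)
    have n4 : 0 ≤ (A * (1 + c) - 1 - r) * stCos (x 1) ^ 2 := mul_nonneg (by linarith) n1
    have n5 : 0 ≤ (β - r - 3 * A) * stSin (x 1) ^ 2 := mul_nonneg (by linarith) n2
    have n6 : 0 ≤ r * α * (x 0 ^ 2 * stSin (x 1) ^ 2) := by positivity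
    rcases hdd with hd | ⟨hd, hc0, hs1⟩
    · rw [hd]
      have key : r * (α * x 0 ^ 2 - 1) + (β * stSin (x 1) ^ 2 - stCos (x 1) ^ 2) -
          (A * stCos (x 1) ^ 2 + -(c * A) * stCos (x 1) ^ 2 +
            -(2 * A) * (stCos (x 1) * stCos (x 1) + stSin (x 1) * -stSin (x 1)) +
            (A * stSin (x 1) ^ 2 + c ^ 2 * A * x 0 ^ 2 * stCos (x 1) ^ 2)) =
          (r * α - c ^ 2 * A) * (x 0 ^ 2 * stCos (x 1) ^ 2) +
          (A * (1 + c) - 1 - r) * stCos (x 1) ^ 2 + (β - r - 3 * A) * stSin (x 1) ^ 2 +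
          r * α * (x 0 ^ 2 * stSin (x 1) ^ 2) +
          (r * α * x 0 ^ 2 - r) * (1 - (stSin (x 1) ^ 2 + stCos (x 1) ^ 2)) := by ring
      rw [hsc] at key
      linarith
    · rw [hd, hc0, hs1]
      have n7 : 0 ≤ r * α * x 0 ^ 2 := by positivity
      nlinarith

/-- The strip pair is admissible. -/
theorem strip_node : Node stripP stripQ := by
  unfold Node
  have hp := Real.pi_pos
  refine ⟨?_, ?_, ?_, ?_, ?_, ?_, ⟨1, fun s _ => ⟨stripP_lip, stripQ_lip⟩⟩, ?_⟩
  · exact (stripP_lip.continuous.comp continuous_snd).continuousOn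
  · exact (stripQ_lip.continuous.comp continuous_snd).continuousOn
  · intro s _ x
    simp [stripP]
  · intro s _ x
    simp only [stripQ, stSin, PiLp.neg_apply, clp_neg, Real.sin_neg]
  · intro s _ x
    exact mul_self_nonneg (x 0)
  · intro s _ x
    simp only [stripQ, stSin]
    rcases le_total 0 (x 1) with h | h
    · refine mul_nonneg h (Real.sin_nonneg_of_nonneg_of_le_pi ?_ ?_)
      · unfold clp
        exact le_max_of_le_right (le_min h (by positivity))
      · unfold clp
        exact max_le (by linarith) ((min_le_right _ _).trans (by linarith))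
    · have h2 : 0 ≤ Real.sin (clp (-(x 1))) := by
        refine Real.sin_nonneg_of_nonneg_of_le_pi ?_ ?_
        · unfold clp
          exact le_max_of_le_right (le_min (by linarith) (by positivity))
        · unfold clp
          exact max_le (by linarith) ((min_le_right _ _).trans (by linarith))
      rw [clp_neg, Real.sin_neg] at h2
      nlinarith
  · refine ⟨1 / 2, by norm_num, fun s _ x => ⟨?_, ?_⟩⟩
    · have h0 := norm_nonneg x
      have h1 := abs_nonneg (x 0)
      have e : stripP x = x 0 := rfl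
      rw [e]
      nlinarith
    · have e : stripQ x = stSin (x 1) := rfl
      rw [e]
      have hn : |x 1| ≤ ‖x‖ := by
        have h := PiLp.norm_apply_le x 1
        rwa [Real.norm_eq_abs] at h
      have h0 := norm_nonneg x
      by_cases hb : |x 1| ≤ Real.pi / 2
      · have hb' := abs_le.1 hb
        have e2 : stSin (x 1) = Real.sin (x 1) := by
          unfold stSin
          rw [clp_in hb'.1 hb'.2]
        rw [e2]
        have h3 : 2 / Real.pi * |x 1| ≤ |Real.sin (x 1)| := Real.mul_abs_le_abs_sin hb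
        have h4 : 1 / 2 ≤ 2 / Real.pi := by
          rw [div_le_div_iff₀ (by norm_num) hp]
          linarith [Real.pi_le_four]
        have h5 : 1 / 2 * |x 1| ≤ |Real.sin (x 1)| :=
          (mul_le_mul_of_nonneg_right h4 (abs_nonneg _)).trans h3
        have h6 := abs_nonneg (Real.sin (x 1))
        nlinarith
      · have e2 : |stSin (x 1)| = 1 := by
          unfold stSin
          rw [not_le] at hb
          rcases lt_abs.1 hb with h | h
          · rw [clp_hi h.le, Real.sin_pi_div_two, abs_one]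
          · rw [clp_lo (by linarith), Real.sin_neg, Real.sin_pi_div_two, abs_neg, abs_one]
        rw [e2]
        have := abs_nonneg (x 1)
        linarith

/-- The strip pair is certified for all small weights, with a common constant. -/
theorem strip_family : ∀ r : ℝ, 0 < r → r ≤ 1 / 25 → ∃ α β : ℝ, α + β ≤ 30774 / 10000 ∧
    Cert 32 (Fp α β r stripP stripQ) := by
  intro r hr hr1
  have hd : 0 < 1 + 3 * r / 2 := by positivity
  refine ⟨9 / 4 * r * ((1 + r) / (1 + 3 * r / 2)), r + 3 * ((1 + r) / (1 + 3 * r / 2)), ?_, ?_⟩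
  · have e : 9 / 4 * r * ((1 + r) / (1 + 3 * r / 2)) + (r + 3 * ((1 + r) / (1 + 3 * r / 2))) =
        ((9 / 4 * r + 3) * (1 + r) + r * (1 + 3 * r / 2)) / (1 + 3 * r / 2) := by
      field_simp
      ring
    rw [e, div_le_iff₀ hd]
    nlinarith
  · refine strip_cert (A := (1 + r) / (1 + 3 * r / 2)) (c := 3 * r / 2) hr.le (by positivity) ?_
      (by positivity) (by positivity) ?_ ?_ le_rfl
    · rw [div_le_iff₀ hd]
      nlinarith
    · rw [div_mul_cancel₀ _ hd.ne']
    · apply le_of_eq
      ring

/-- The certificate at the joining parameter. -/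
theorem strip_join {α β : ℝ} (hα : 16 / 100 ≤ α) (hβ : 29174 / 10000 ≤ β) :
    Cert 32 (Fp α β 1 (fun x => Real.sqrt (11 / 500) * stripP x) stripQ) := by
  have h := strip_cert (r := 11 / 500) (A := (1022 / 1000) / (10604 / 10000)) (c := 604 / 10000)
    (α := α) (β := β) (by norm_num) (by norm_num) (by norm_num) (by norm_num) (by linarith)
    (by norm_num) (by norm_num; linarith) (by norm_num; linarith)
  refine h.congr fun x => ?_
  unfold Fp gsq
  have hs : Real.sqrt (11 / 500) ^ 2 = 11 / 500 := Real.sq_sqrt (by norm_num)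
  rw [pd_const_mul, pd_const_mul]
  linear_combination (-(α * stripP x ^ 2) + pd 0 stripP x ^ 2 + pd 1 stripP x ^ 2) * hs

end Pool.Agent.PPW
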