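import Pool.Agent.Lib.MP_eb7570_an.Final
import Pool.Agent.Lib.MP_eb7570_an.StripEnd
import Pool.Agent.Lib.MP_eb7570_an.Disk

/-!
MP_eb7570_an: the conclusion, given the near-disk part.
-/

set_option autoImplicit false

open MeasureTheory Filter Topology Metric Set

namespace Pool.Agent.PPW

theorem stripPart : StripPart := by
  refine ⟨stripP, stripQ, strip_node, ⟨32, strip_join (by norm_num) (by norm_num)⟩, 32, ?_⟩
  intro r h0 h1
  obtain ⟨α, β, h2, h3⟩ := strip_family r h0 (h1.trans (by norm_num))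
  have hC : (3077467934177510 / 10 ^ 15 : ℝ) < Bes.C0 := Bes.C0_gt
  exact ⟨α, β, by linarith, h3⟩

theorem ratio_le_disk (hN : NearDisk) {Ω : Set E2} (hΩ : Dom Ω) :
    (lamk 2 Ω + lamk 3 Ω) / lamk 1 Ω ≤
      (lamk 2 (Metric.ball (0 : E2) 1) + lamk 3 (Metric.ball (0 : E2) 1)) /
        lamk 1 (Metric.ball (0 : E2) 1) :=
  ratio_le hN stripPart disk_lam1_le (disk_lam_ge le_rfl) (disk_lam_ge (by norm_num)) hΩ

end Pool.Agent.PPW
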