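import Pool.Agent.Lib.MP_eb7570_an.Iso

/-!
Scaling of the min-max values and positivity of the first one.
-/

set_option autoImplicit false

open MeasureTheory Filter Topology Metric Set
open scoped Pointwise

namespace Pool.Agent.PPW

private noncomputable def dilE (r : ℝ) (hr : r ≠ 0) : E2 ≃ₜ E2 := Homeomorph.smulOfNeZero r hr

private theorem dil_hasFDerivAt (r : ℝ) (x : E2) :
    HasFDerivAt (fun y : E2 => r • y) (r • ContinuousLinearMap.id ℝ E2) x := by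
  exact (r • ContinuousLinearMap.id ℝ E2).hasFDerivAt

private theorem fderiv_dil {u : E2 → ℝ} (hu : Differentiable ℝ u) (r : ℝ) (x : E2) :
    ‖fderiv ℝ (fun y => u (r • y)) x‖ ^ 2 = r ^ 2 * ‖fderiv ℝ u (r • x)‖ ^ 2 := by
  have h1 : HasFDerivAt (fun y => u (r • y))
      ((fderiv ℝ u (r • x)).comp (r • ContinuousLinearMap.id ℝ E2)) x :=
    (hu (r • x)).hasFDerivAt.comp x (dil_hasFDerivAt r x)
  rw [h1.fderiv, ContinuousLinearMap.comp_smul, ContinuousLinearMap.comp_id, norm_smul, mul_pow,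
    Real.norm_eq_abs, sq_abs]

private theorem int_dil (g : E2 → ℝ) {r : ℝ} (hr : 0 < r) :
    ∫ x, g (r • x) = (r ^ 2)⁻¹ * ∫ x, g x := by
  have h := Measure.integral_comp_smul (μ := (volume : Measure E2)) g r
  rw [h]
  have h2 : Module.finrank ℝ E2 = 2 := by simp
  rw [h2, abs_of_pos (by positivity), smul_eq_mul]

private theorem adm_dil {k : ℕ} {Ω : Set E2} {t r : ℝ} (hr : 0 < r) (ht : t ∈ admS k Ω) :
    r ^ 2 * t ∈ admS k ((fun x : E2 => r • x) ⁻¹' Ω) := by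
  obtain ⟨V, hV, h1, h2⟩ := ht
  set L : (E2 → ℝ) ≃ₗ[ℝ] (E2 → ℝ) :=
    LinearEquiv.funCongrLeft ℝ ℝ (dilE r hr.ne').toEquiv with hL
  have hLa : ∀ u : E2 → ℝ, L u = fun x => u (r • x) := fun u => rfl
  refine ⟨V.map (L : (E2 → ℝ) →ₗ[ℝ] (E2 → ℝ)), ?_, ?_, ?_⟩
  · rw [← hV]
    exact LinearEquiv.finrank_map_eq L V
  · rintro _ ⟨u, hu, rfl⟩
    obtain ⟨a, b, c⟩ := h1 u hu
    refine ⟨a.comp (contDiff_const_smul r), b.comp_homeomorph (dilE r hr.ne'), ?_⟩
    show tsupport (fun x => u (r • x)) ⊆ _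
    have h3 : tsupport (fun x => u (r • x)) = (fun x : E2 => r • x) ⁻¹' tsupport u :=
      tsupport_comp_eq_preimage u (dilE r hr.ne')
    rw [h3]
    exact preimage_mono c
  · rintro _ ⟨u, hu, rfl⟩
    obtain ⟨a, b, c⟩ := h1 u hu
    have h3 := h2 u hu
    show (∫ x, ‖fderiv ℝ (fun y => u (r • y)) x‖ ^ 2) ≤ r ^ 2 * t * ∫ x, (u (r • x)) ^ 2
    have h4 : ∫ x, ‖fderiv ℝ (fun y => u (r • y)) x‖ ^ 2 =
        ∫ x, (fun z => r ^ 2 * ‖fderiv ℝ u z‖ ^ 2) (r • x) := by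
      apply integral_congr_ae
      refine Eventually.of_forall fun x => ?_
      exact fderiv_dil (a.differentiable (by simp)) r x
    have h5 : ∫ x, (u (r • x)) ^ 2 = (r ^ 2)⁻¹ * ∫ x, (u x) ^ 2 :=
      int_dil (fun z => u z ^ 2) hr
    have h8 : ∫ x, (fun z => r ^ 2 * ‖fderiv ℝ u z‖ ^ 2) (r • x) =
        (r ^ 2)⁻¹ * ∫ x, r ^ 2 * ‖fderiv ℝ u x‖ ^ 2 :=
      int_dil (fun z => r ^ 2 * ‖fderiv ℝ u z‖ ^ 2) hr
    rw [h4, h8, h5, integral_const_mul]
    have h6 : (r ^ 2)⁻¹ * (r ^ 2 * ∫ x, ‖fderiv ℝ u x‖ ^ 2) = ∫ x, ‖fderiv ℝ u x‖ ^ 2 := by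
      field_simp
    have h7 : r ^ 2 * t * ((r ^ 2)⁻¹ * ∫ x, (u x) ^ 2) = t * ∫ x, (u x) ^ 2 := by
      field_simp
    rw [h6, h7]
    exact h3

/-- Scaling of the min-max values. -/
theorem lamk_dil (k : ℕ) (Ω : Set E2) {r : ℝ} (hr : 0 < r) :
    lamk k ((fun x : E2 => r • x) ⁻¹' Ω) = r ^ 2 * lamk k Ω := by
  have hset : admS k ((fun x : E2 => r • x) ⁻¹' Ω) = (r ^ 2) • admS k Ω := by
    apply Subset.antisymm
    · intro t ht
      have h1 := adm_dil (inv_pos.2 hr) ht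
      have h2 : (fun x : E2 => r⁻¹ • x) ⁻¹' ((fun x : E2 => r • x) ⁻¹' Ω) = Ω := by
        ext x
        simp only [mem_preimage, smul_smul, mul_inv_cancel₀ hr.ne', one_smul]
      rw [h2] at h1
      refine ⟨_, h1, ?_⟩
      show r ^ 2 • (r⁻¹ ^ 2 * t) = t
      rw [smul_eq_mul]
      field_simp
    · rintro _ ⟨t, ht, rfl⟩
      exact adm_dil hr ht
  unfold lamk
  rw [hset, Real.sInf_smul_of_nonneg (by positivity), smul_eq_mul]

private theorem lip_coord : LipschitzWith 1 (fun x : E2 => x 0) := by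
  apply LipschitzWith.of_dist_le_mul
  intro x y
  rw [NNReal.coe_one, one_mul, dist_eq_norm, dist_eq_norm]
  exact PiLp.norm_apply_le (x - y) 0

private theorem pd_coord (x : E2) : pd 0 (fun x : E2 => x 0) x = 1 := by
  have h : HasLineDerivAt ℝ (fun x : E2 => x 0) 1 x (ev 0) := by
    unfold HasLineDerivAt
    have h1 : (fun t : ℝ => (x + t • ev 0) 0) = fun t : ℝ => x 0 + t := by
      funext t
      unfold ev
      simp
    rw [h1]
    exact (hasDerivAt_id (0 : ℝ)).const_add (x 0)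
  exact h.lineDeriv

/-- Poincare inequality. -/
theorem poincare {Ω : Set E2} {R : ℝ} (hR : 0 < R) (hΩ : Ω ⊆ closedBall 0 R) :
    Low (1 / (4 * R ^ 2)) Ω := by
  intro u hu
  have huL := hu.toLc
  have h1 := parts_sq hu lip_coord 0
  have h2 : ∫ x, pd 0 (fun x : E2 => x 0) x * u x ^ 2 = Ma u u := by
    rw [← Ma_eq]
    apply integral_congr_ae
    refine Eventually.of_forall fun x => ?_
    show pd 0 (fun x : E2 => x 0) x * u x ^ 2 = u x ^ 2
    rw [pd_coord, one_mul]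
  rw [h2, ← integral_neg] at h1
  have i1 : Integrable (fun x => u x ^ 2) (volume : Measure E2) := by
    refine (huL.int_mul huL.wt).congr (Eventually.of_forall fun x => ?_)
    show u x * u x = u x ^ 2
    ring
  have i2 := huL.int_en huL
  have i3 : Integrable (fun x => -(x 0 * (2 * u x * pd 0 u x))) (volume : Measure E2) := by
    have h := huL.int_mul_pd 0 (((Wt.of_lip lip_coord).mul (huL.wt.smul 2)).neg)
    refine h.congr (Eventually.of_forall fun x => ?_)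
    show -(x 0 * (2 * u x)) * pd 0 u x = -(x 0 * (2 * u x * pd 0 u x))
    ring
  have h3 : ∫ x, -(x 0 * (2 * u x * pd 0 u x)) ≤
      ∫ x, (1 / 2 * u x ^ 2 + 2 * R ^ 2 * (pd 0 u x * pd 0 u x + pd 1 u x * pd 1 u x)) := by
    apply integral_mono i3 ((i1.const_mul _).add (i2.const_mul _))
    intro x
    show -(x 0 * (2 * u x * pd 0 u x)) ≤
      1 / 2 * u x ^ 2 + 2 * R ^ 2 * (pd 0 u x * pd 0 u x + pd 1 u x * pd 1 u x)
    have hR2 : 0 < R ^ 2 := by positivity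
    by_cases hx : x ∈ tsupport u
    · have h4 : |x 0| ≤ R := by
        have h5 := hΩ (hu.sub hx)
        rw [mem_closedBall, dist_zero_right] at h5
        exact (PiLp.norm_apply_le x 0).trans h5
      have h6 : x 0 ^ 2 ≤ R ^ 2 := by
        rw [← sq_abs]
        exact pow_le_pow_left₀ (abs_nonneg _) h4 2
      have h7 : x 0 ^ 2 * pd 0 u x ^ 2 ≤ R ^ 2 * pd 0 u x ^ 2 :=
        mul_le_mul_of_nonneg_right h6 (sq_nonneg _)
      have h8 : 0 ≤ R ^ 2 * (pd 1 u x ^ 2) := by positivity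
      nlinarith [sq_nonneg (u x + 2 * (x 0 * pd 0 u x))]
    · rw [image_eq_zero_of_notMem_tsupport hx]
      have h9 : 0 ≤ pd 0 u x * pd 0 u x + pd 1 u x * pd 1 u x := by
        nlinarith [mul_self_nonneg (pd 0 u x), mul_self_nonneg (pd 1 u x)]
      have h10 : 0 ≤ 2 * R ^ 2 * (pd 0 u x * pd 0 u x + pd 1 u x * pd 1 u x) := by positivity
      nlinarith
  have h4 : ∫ x, (1 / 2 * u x ^ 2 + 2 * R ^ 2 * (pd 0 u x * pd 0 u x + pd 1 u x * pd 1 u x)) =
      1 / 2 * Ma u u + 2 * R ^ 2 * En u u := by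
    have h5 : ∫ x, (1 / 2 * u x ^ 2 +
        2 * R ^ 2 * (pd 0 u x * pd 0 u x + pd 1 u x * pd 1 u x)) =
        (∫ x, 1 / 2 * u x ^ 2) +
        ∫ x, 2 * R ^ 2 * (pd 0 u x * pd 0 u x + pd 1 u x * pd 1 u x) :=
      integral_add (i1.const_mul _) (i2.const_mul _)
    rw [h5, integral_const_mul, integral_const_mul, Ma_eq]
    rfl
  rw [h4, ← h1] at h3
  rw [div_mul_eq_mul_div, one_mul, div_le_iff₀ (by positivity)]
  linarith

/-- A lower bound of the form is a lower bound of the first value. -/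
theorem le_lamk_one {Ω : Set E2} (hΩ : IsOpen Ω) (hne : Ω.Nonempty) {m : ℝ} (h : Low m Ω) :
    m ≤ lamk 1 Ω := by
  apply le_of_forall_pos_le_add
  intro ε hε
  obtain ⟨φ, hφ, hm, hE⟩ := exists_near hΩ hne hε
  have h1 := h φ hφ
  rw [hm, mul_one] at h1
  exact h1.trans hE

end Pool.Agent.PPW
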