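import Pool.Agent.Lib.MP_eb7570_an.CDefs

/-!
MP_eb7570_an: existence of test spaces of every dimension: k disjoint small balls in Omega, bump
functions with disjoint supports, t = the maximum of the Rayleigh quotients.
-/

set_option autoImplicit false

open MeasureTheory Filter Topology Metric Set

namespace Pool.Agent.PPW

/-- Disjoint nonempty open subsets. -/
private theorem dims_sets {Ω : Set E2} (hΩ : Dom Ω) (k : ℕ) :
    ∃ U : Fin k → Set E2, (∀ i, IsOpen (U i) ∧ (U i).Nonempty ∧ U i ⊆ Ω) ∧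
      ∀ i j, i ≠ j → Disjoint (U i) (U j) := by
  obtain ⟨x, hx⟩ := hΩ.ne
  obtain ⟨r, hr, hball⟩ := Metric.isOpen_iff.1 hΩ.op x hx
  set d : ℝ := r / (k + 1) with hd
  have hd0 : 0 < d := by positivity
  refine ⟨fun j => Ω ∩ {y : E2 | |y 0 - x 0 - (j : ℕ) * d| < d / 2}, fun j => ⟨?_, ?_, ?_⟩, ?_⟩
  · apply hΩ.op.inter
    exact isOpen_lt (by fun_prop) continuous_const
  · refine ⟨x + ((j : ℕ) * d) • ev 0, ?_, ?_⟩
    · apply hball
      rw [Metric.mem_ball, dist_eq_norm, add_sub_cancel_left, norm_smul, norm_ev, mul_one,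
        Real.norm_eq_abs, abs_of_nonneg (by positivity)]
      have h1 : ((j : ℕ) : ℝ) < k + 1 := by
        have : ((j : ℕ) : ℝ) < k := by exact_mod_cast j.2
        linarith
      calc ((j : ℕ) : ℝ) * d < (k + 1) * d := by gcongr
        _ = r := by rw [hd]; field_simp
    · show |(x + ((j : ℕ) * d) • ev 0) 0 - x 0 - (j : ℕ) * d| < d / 2
      have h1 : (x + ((j : ℕ) * d) • ev 0) 0 - x 0 - (j : ℕ) * d = 0 := by
        simp [ev]
      rw [h1, abs_zero]
      positivity
  · exact inter_subset_left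
  · intro i j hij
    rw [Set.disjoint_left]
    rintro y ⟨-, h1⟩ ⟨-, h2⟩
    have h1' : |y 0 - x 0 - (i : ℕ) * d| < d / 2 := h1
    have h2' : |y 0 - x 0 - (j : ℕ) * d| < d / 2 := h2
    have h3 : |((i : ℕ) : ℝ) * d - (j : ℕ) * d| < d := by
      have e : ((i : ℕ) : ℝ) * d - (j : ℕ) * d =
        (y 0 - x 0 - (j : ℕ) * d) - (y 0 - x 0 - (i : ℕ) * d) := by ring
      rw [e]
      calc _ ≤ |y 0 - x 0 - (j : ℕ) * d| + |y 0 - x 0 - (i : ℕ) * d| := abs_sub _ _
        _ < d := by linarith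
    have h4 : |((i : ℕ) : ℝ) - (j : ℕ)| < 1 := by
      rw [← sub_mul, abs_mul, abs_of_pos hd0] at h3
      by_contra hcon
      push Not at hcon
      nlinarith
    apply hij
    apply Fin.ext
    have h5 := abs_lt.1 h4
    have h6 : ((i : ℕ) : ℝ) < (j : ℕ) + 1 := by linarith
    have h7 : ((j : ℕ) : ℝ) < (i : ℕ) + 1 := by linarith
    have h8 : (i : ℕ) < (j : ℕ) + 1 := by exact_mod_cast h6
    have h9 : (j : ℕ) < (i : ℕ) + 1 := by exact_mod_cast h7
    omega

/-- Existence of test spaces of every dimension. -/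
theorem admS_nonempty {Ω : Set E2} (hΩ : Dom Ω) (k : ℕ) : (admS k Ω).Nonempty := by
  obtain ⟨U, hU, hdis⟩ := dims_sets hΩ k
  choose u hu hpos using fun i => exists_tc (hU i).1 (hU i).2.1
  have hinv : ∀ m : ℝ, 0 < m → (Real.sqrt m)⁻¹ * (Real.sqrt m)⁻¹ = m⁻¹ := by
    intro m hm
    rw [← mul_inv, Real.mul_self_sqrt hm.le]
  set e : Fin k → E2 → ℝ := fun i x => (Real.sqrt (Ma (u i) (u i)))⁻¹ * u i x with he
  have heU : ∀ i, Tc (U i) (e i) := fun i => (hu i).smul _
  have heΩ : ∀ i, Tc Ω (e i) := fun i =>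
    ⟨(heU i).smooth, (heU i).cpt, (heU i).sub.trans (hU i).2.2⟩
  have hsep : ∀ i j, i ≠ j → ∀ x, x ∉ tsupport (e i) ∨ x ∉ tsupport (e j) := by
    intro i j hij x
    by_contra hcon
    push Not at hcon
    exact Set.disjoint_left.1 (hdis i j hij) ((heU i).sub hcon.1) ((heU j).sub hcon.2)
  have hMa : ∀ i j, Ma (e i) (e j) = if i = j then 1 else 0 := by
    intro i j
    by_cases hij : i = j
    · subst hij
      rw [if_pos rfl, he]
      show Ma (fun x => (Real.sqrt (Ma (u i) (u i)))⁻¹ * u i x)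
        (fun x => (Real.sqrt (Ma (u i) (u i)))⁻¹ * u i x) = 1
      rw [Ma_smul_smul, hinv _ (hpos i), inv_mul_cancel₀ (hpos i).ne']
    · rw [if_neg hij]
      unfold Ma
      have h1 : (fun x => e i x * e j x) = fun _ => 0 := by
        funext x
        rcases hsep i j hij x with h | h
        · rw [image_eq_zero_of_notMem_tsupport h, zero_mul]
        · rw [image_eq_zero_of_notMem_tsupport h, mul_zero]
      rw [h1, integral_zero]
  have hEn : ∀ i j, i ≠ j → En (e i) (e j) = 0 := by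
    intro i j hij
    unfold En
    have h1 : (fun x => pd 0 (e i) x * pd 0 (e j) x + pd 1 (e i) x * pd 1 (e j) x) =
        fun _ => 0 := by
      funext x
      rcases hsep i j hij x with h | h
      · rw [pd_zero_of_notMem h, pd_zero_of_notMem h]
        ring
      · rw [pd_zero_of_notMem h, pd_zero_of_notMem h]
        ring
    rw [h1, integral_zero]
  have hMc : ∀ c : Fin k → ℝ, Ma (Pool.Agent.PPW.comb c e) (Pool.Agent.PPW.comb c e) =
      ∑ i, c i ^ 2 := by
    intro c
    rw [Ma_comb c fun i => (heΩ i).toLc]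
    refine Finset.sum_congr rfl fun i _ => ?_
    rw [Finset.sum_eq_single i]
    · rw [hMa, if_pos rfl]
      ring
    · intro j _ hj
      rw [hMa, if_neg (Ne.symm hj), mul_zero]
    · intro h
      exact absurd (Finset.mem_univ _) h
  refine ⟨∑ i, En (e i) (e i), mem_admS (m := 1) one_pos heΩ ?_ ?_⟩
  · intro c
    rw [hMc, one_mul]
  · intro c
    rw [hMc, En_comb c fun i => (heΩ i).toLc, Finset.mul_sum]
    refine Finset.sum_le_sum fun i _ => ?_
    rw [Finset.sum_eq_single i]
    · have h1 : En (e i) (e i) ≤ ∑ i, En (e i) (e i) :=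
        Finset.single_le_sum (f := fun i => En (e i) (e i)) (fun j _ => En_nonneg _)
          (Finset.mem_univ i)
      nlinarith [sq_nonneg (c i)]
    · intro j _ hj
      rw [hEn i j (Ne.symm hj), mul_zero]
    · intro h
      exact absurd (Finset.mem_univ _) h

theorem lamk_mono {Ω : Set E2} (hΩ : Dom Ω) {k l : ℕ} (hk : k ≠ 0) (h : k ≤ l) :
    lamk k Ω ≤ lamk l Ω := by
  apply csInf_le_csInf (admS_bdd hk) (admS_nonempty hΩ l)
  rintro t ⟨V, hV, h1, h2⟩
  obtain ⟨f, hf⟩ := exists_linearIndependent_of_le_finrank (R := ℝ) (M := V) (n := k)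
    (by rw [hV]; exact h)
  have hf2 : LinearIndependent ℝ (fun i => (f i : E2 → ℝ)) :=
    hf.map' V.subtype V.ker_subtype
  have hsub : Submodule.span ℝ (Set.range fun i => (f i : E2 → ℝ)) ≤ V := by
    rw [Submodule.span_le]
    rintro _ ⟨i, rfl⟩
    exact (f i).2
  refine ⟨Submodule.span ℝ (Set.range fun i => (f i : E2 → ℝ)), ?_, ?_, ?_⟩
  · rw [finrank_span_eq_card hf2, Fintype.card_fin]
  · intro u hu
    exact h1 u (hsub hu)
  · intro u hu
    exact h2 u (hsub hu)

end Pool.Agent.PPW
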