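import Pool.Agent.Lib.MP_eb7570_an.Abstract
import Pool.Agent.Lib.MP_eb7570_an.Chain
import Pool.Agent.Lib.MP_eb7570_an.Dims

/-!
MP_eb7570_an: assembly.
-/

set_option autoImplicit false

open MeasureTheory Filter Topology Metric Set

namespace Pool.Agent.PPW

/-- What the near-disk part delivers. -/
def NearDisk : Prop :=
  ∃ Q1 Q2 : ℝ → E2 → ℝ, Path (Icc 0 (3 / 10)) Q1 Q2 ∧ Equi (Q1 0) (Q2 0) ∧
    ∃ K : ℝ, ∀ e ∈ Icc (0 : ℝ) (3 / 10),
      Cert K (Fp (Bes.kap2 - 1 - e * (Bes.kap2 / (2 * Bes.s0)))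
        (Bes.kap2 - 1 + e * (Bes.kap2 / (2 * Bes.s0))) 1 (Q1 e) (Q2 e))

/-- What the strip part delivers. -/
def StripPart : Prop :=
  ∃ p1 p2 : E2 → ℝ, Node p1 p2 ∧
    (∃ K : ℝ, Cert K (Fp (4 / 25) (14587 / 5000) 1 (fun x => Real.sqrt (11 / 500) * p1 x) p2)) ∧
    ∃ K : ℝ, ∀ r : ℝ, 0 < r → r ≤ 11 / 500 → ∃ α β : ℝ, α + β ≤ Bes.C0 ∧ Cert K (Fp α β r p1 p2)

theorem Path.node {I : Set ℝ} {P1 P2 : ℝ → E2 → ℝ} (h : Path I P1 P2) {s : ℝ} (hs : s ∈ I) :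
    Node (P1 s) (P2 s) := by
  obtain ⟨L, hL⟩ := h.lip
  obtain ⟨c, hc, hlow⟩ := h.low
  exact ⟨((hL s hs).1.continuous.comp continuous_snd).continuousOn,
    ((hL s hs).2.continuous.comp continuous_snd).continuousOn,
    fun _ _ => h.odd1 s hs, fun _ _ => h.odd2 s hs, fun _ _ => h.sgn1 s hs,
    fun _ _ => h.sgn2 s hs, ⟨L, fun _ _ => hL s hs⟩, ⟨c, hc, fun _ _ => hlow s hs⟩⟩

theorem Node.scale {p1 p2 : E2 → ℝ} (h : Node p1 p2) {k : ℝ} (hk : 0 < k) :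
    Node (fun x => k * p1 x) p2 := by
  have h0 : (0 : ℝ) ∈ ({0} : Set ℝ) := mem_singleton _
  obtain ⟨L, hL⟩ := h.lip
  obtain ⟨c, hc, hlow⟩ := h.low
  have hl1 : LipschitzWith (k.toNNReal * L) (fun x => k * p1 x) := by
    apply LipschitzWith.of_dist_le_mul
    intro x y
    have h1 := (hL 0 h0).1.dist_le_mul x y
    rw [Real.dist_eq] at h1 ⊢
    rw [← mul_sub, abs_mul, abs_of_pos hk, NNReal.coe_mul, Real.coe_toNNReal _ hk.le, mul_assoc]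
    exact mul_le_mul_of_nonneg_left h1 hk.le
  refine ⟨(hl1.continuous.comp continuous_snd).continuousOn,
    ((hL 0 h0).2.continuous.comp continuous_snd).continuousOn, ?_, fun _ _ => h.odd2 0 h0, ?_,
    fun _ _ => h.sgn2 0 h0, ⟨max L (k.toNNReal * L), fun _ _ =>
      ⟨hl1.weaken (le_max_right _ _), (hL 0 h0).2.weaken (le_max_left _ _)⟩⟩,
    ⟨min c (c * k), lt_min hc (mul_pos hc hk), fun _ _ x => ?_⟩⟩
  · intro s _ x
    show k * p1 (-x) = -(k * p1 x)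
    rw [h.odd1 0 h0 x]
    ring
  · intro s _ x
    show 0 ≤ x 0 * (k * p1 x)
    have := mul_nonneg hk.le (h.sgn1 0 h0 x)
    linarith
  · have h1 := hlow 0 h0 x
    constructor
    · show min c (c * k) * |x 0| ≤ (1 + ‖x‖) * |k * p1 x|
      rw [abs_mul, abs_of_pos hk]
      calc min c (c * k) * |x 0| ≤ (c * k) * |x 0| :=
            mul_le_mul_of_nonneg_right (min_le_right _ _) (abs_nonneg _)
        _ = k * (c * |x 0|) := by ring
        _ ≤ k * ((1 + ‖x‖) * |p1 x|) := mul_le_mul_of_nonneg_left h1.1 hk.le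
        _ = (1 + ‖x‖) * (k * |p1 x|) := by ring
    · exact (mul_le_mul_of_nonneg_right (min_le_left _ _) (abs_nonneg _)).trans h1.2

/-- The bound for all domains. -/
theorem sum_le_all (hN : NearDisk) (hS : StripPart) {Ω : Set E2} (hΩ : Dom Ω) :
    lamk 2 Ω + lamk 3 Ω ≤ (2 + Bes.C0) * lamk 1 Ω := by
  obtain ⟨Q1, Q2, hQ, hE, K, hK⟩ := hN
  obtain ⟨p1, p2, hp, ⟨K1, h1⟩, K2, h2⟩ := hS
  have hsum : ∀ e : ℝ, (Bes.kap2 - 1 - e * (Bes.kap2 / (2 * Bes.s0))) +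
      (Bes.kap2 - 1 + e * (Bes.kap2 / (2 * Bes.s0))) ≤ Bes.C0 := by
    intro e
    unfold Bes.C0
    linarith
  have he0 : (3 / 10 : ℝ) ∈ Icc (0 : ℝ) (3 / 10) := ⟨by norm_num, le_rfl⟩
  have hst : Reach Bes.C0 (1 / 2) (Q1 (3 / 10)) (Q2 (3 / 10)) :=
    Reach.start (by norm_num) hQ hE fun e he => ⟨_, _, hsum e, hK e he⟩
  have hs0 := Bes.s0_pos
  have hs0l : (144579649073669613029 / 10 ^ 20 : ℝ) < Bes.s0 := Bes.s0_gt
  have hs0u : Bes.s0 < (144579649073669613030 / 10 ^ 20 : ℝ) := Bes.s0_lt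
  have hkl : (25387339670887552 / 10 ^ 16 : ℝ) < Bes.kap2 := Bes.kap2_gt
  have hku : Bes.kap2 < (25387339670887553 / 10 ^ 16 : ℝ) := Bes.kap2_lt
  have hα : (12753 / 10000 : ℝ) ≤ Bes.kap2 - 1 - (3 / 10) * (Bes.kap2 / (2 * Bes.s0)) := by
    have h3 : Bes.kap2 / (2 * Bes.s0) ≤ 87798 / 100000 := by
      rw [div_le_iff₀ (by linarith)]
      norm_num at hs0l hku ⊢
      linarith
    norm_num at hkl ⊢
    linarith
  have hβ : (18021 / 10000 : ℝ) ≤ Bes.kap2 - 1 + (3 / 10) * (Bes.kap2 / (2 * Bes.s0)) := by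
    have h3 : (87796 / 100000 : ℝ) ≤ Bes.kap2 / (2 * Bes.s0) := by
      rw [le_div_iff₀ (by linarith)]
      norm_num at hs0u hkl ⊢
      linarith
    norm_num at hkl ⊢
    linarith
  have hpn : Node (fun x => Real.sqrt (rho aend) * p1 x) p2 := by
    rw [rho_aend]
    exact hp.scale (Real.sqrt_pos.2 (by norm_num))
  have hcp : Cert K1 (Fp (4 / 25) (14587 / 5000) 1
      (fun x => Real.sqrt (rho aend) * p1 x) p2) := by
    rw [rho_aend]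
    exact h1
  have hr := reach_strip hst (hQ.node he0) hα hβ (hsum _) (hK _ he0) hpn hcp
  obtain ⟨P1, P2, hP, hPE, hC⟩ := hr.close hp (r0 := 11 / 500) (by rw [rho_aend]) h2
  exact sum_le_of_path hP hPE hC hΩ

/-- The final inequality between ratios. -/
theorem ratio_le (hN : NearDisk) (hS : StripPart)
    (hd1 : lamk 1 (Metric.ball (0 : E2) 1) ≤ 4 * Bes.s0)
    (hd2 : 4 * Bes.s1 ≤ lamk 2 (Metric.ball (0 : E2) 1))
    (hd3 : 4 * Bes.s1 ≤ lamk 3 (Metric.ball (0 : E2) 1)) {Ω : Set E2} (hΩ : Dom Ω) :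
    (lamk 2 Ω + lamk 3 Ω) / lamk 1 Ω ≤
      (lamk 2 (Metric.ball (0 : E2) 1) + lamk 3 (Metric.ball (0 : E2) 1)) /
        lamk 1 (Metric.ball (0 : E2) 1) := by
  have hB : Dom (Metric.ball (0 : E2) 1) :=
    ⟨Metric.isOpen_ball, Metric.isBounded_ball, ⟨0, Metric.mem_ball_self one_pos⟩⟩
  have p1 := lamk_one_pos hΩ
  have p2 := lamk_one_pos hB
  have key := sum_le_all hN hS hΩ
  have hs0 := Bes.s0_pos
  have hC : 2 + Bes.C0 = 2 * (Bes.s1 / Bes.s0) := by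
    unfold Bes.C0 Bes.kap2
    ring
  have h1 : (lamk 2 Ω + lamk 3 Ω) / lamk 1 Ω ≤ 2 * (Bes.s1 / Bes.s0) := by
    rw [div_le_iff₀ p1, ← hC]
    exact key
  have h2 : 2 * (Bes.s1 / Bes.s0) ≤
      (lamk 2 (Metric.ball (0 : E2) 1) + lamk 3 (Metric.ball (0 : E2) 1)) /
        lamk 1 (Metric.ball (0 : E2) 1) := by
    rw [le_div_iff₀ p2]
    have hs1 := Bes.s1_pos
    have h3 : 0 ≤ 2 * (Bes.s1 / Bes.s0) := by positivity
    calc 2 * (Bes.s1 / Bes.s0) * lamk 1 (Metric.ball (0 : E2) 1)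
        ≤ 2 * (Bes.s1 / Bes.s0) * (4 * Bes.s0) := mul_le_mul_of_nonneg_left hd1 h3
      _ = 4 * Bes.s1 + 4 * Bes.s1 := by field_simp; ring
      _ ≤ _ := add_le_add hd2 hd3
  exact h1.trans h2

end Pool.Agent.PPW
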