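import Pool.Agent.Lib.MP_eb7570_an.Mol

/-!
The Dirichlet form on Lipschitz functions with compact support: integrability, bilinearity,
approximation by smooth functions, positivity and the Cauchy Schwarz inequality.
-/

set_option autoImplicit false

open MeasureTheory Filter Topology Metric Set

namespace Pool.Agent.PPW

/-! ### Locally bounded measurable weights -/

/-- Measurable and bounded on bounded sets. -/
structure Wt (g : E2 → ℝ) : Prop where
  meas : AEStronglyMeasurable g (volume : Measure E2)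
  bdd : ∀ R : ℝ, ∃ M : ℝ, 0 ≤ M ∧ ∀ x, ‖x‖ ≤ R → |g x| ≤ M

theorem Wt.of_continuous {g : E2 → ℝ} (hg : Continuous g) : Wt g := by
  refine ⟨hg.aestronglyMeasurable, fun R => ?_⟩
  obtain ⟨M, hM⟩ := (isCompact_closedBall (0 : E2) R).exists_bound_of_continuousOn hg.continuousOn
  refine ⟨max M 0, le_max_right _ _, fun x hx => ?_⟩
  exact (hM x (by rw [mem_closedBall, dist_zero_right]; exact hx)).trans (le_max_left _ _)

theorem Wt.const (c : ℝ) : Wt (fun _ => c) := Wt.of_continuous continuous_const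

theorem Wt.add {g h : E2 → ℝ} (hg : Wt g) (hh : Wt h) : Wt (fun x => g x + h x) := by
  refine ⟨hg.meas.add hh.meas, fun R => ?_⟩
  obtain ⟨M, hM0, hM⟩ := hg.bdd R
  obtain ⟨N, hN0, hN⟩ := hh.bdd R
  exact ⟨M + N, by positivity, fun x hx => (abs_add_le _ _).trans (add_le_add (hM x hx) (hN x hx))⟩

theorem Wt.mul {g h : E2 → ℝ} (hg : Wt g) (hh : Wt h) : Wt (fun x => g x * h x) := by
  refine ⟨hg.meas.mul hh.meas, fun R => ?_⟩
  obtain ⟨M, hM0, hM⟩ := hg.bdd R
  obtain ⟨N, hN0, hN⟩ := hh.bdd R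
  refine ⟨M * N, by positivity, fun x hx => ?_⟩
  rw [abs_mul]
  exact mul_le_mul (hM x hx) (hN x hx) (abs_nonneg _) hM0

theorem Wt.neg {g : E2 → ℝ} (hg : Wt g) : Wt (fun x => -g x) := by
  refine ⟨hg.meas.neg, fun R => ?_⟩
  obtain ⟨M, hM0, hM⟩ := hg.bdd R
  exact ⟨M, hM0, fun x hx => by rw [abs_neg]; exact hM x hx⟩

theorem Wt.sub {g h : E2 → ℝ} (hg : Wt g) (hh : Wt h) : Wt (fun x => g x - h x) := by
  have := hg.add hh.neg
  simpa only [sub_eq_add_neg] using this

theorem Wt.smul {g : E2 → ℝ} (c : ℝ) (hg : Wt g) : Wt (fun x => c * g x) :=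
  (Wt.const c).mul hg

theorem Wt.sq {g : E2 → ℝ} (hg : Wt g) : Wt (fun x => g x ^ 2) := by
  have h : (fun x => g x ^ 2) = fun x => g x * g x := by
    funext x
    exact pow_two (g x)
  rw [h]
  exact hg.mul hg

theorem Wt.abs {g : E2 → ℝ} (hg : Wt g) : Wt (fun x => |g x|) := by
  refine ⟨hg.meas.norm, fun R => ?_⟩
  obtain ⟨M, hM0, hM⟩ := hg.bdd R
  exact ⟨M, hM0, fun x hx => by rw [abs_abs]; exact hM x hx⟩

theorem Wt.of_lip {u : E2 → ℝ} {C : NNReal} (hu : LipschitzWith C u) : Wt u :=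
  Wt.of_continuous hu.continuous

theorem norm_ev (i : Fin 2) : ‖ev i‖ = 1 := by
  unfold ev
  simp

theorem abs_pd_le {u : E2 → ℝ} {C : NNReal} (hu : LipschitzWith C u) (i : Fin 2) (x : E2) :
    |pd i u x| ≤ C := by
  have h := norm_lineDeriv_le_of_lipschitz (x₀ := x) (v := ev i) ℝ hu
  rw [norm_ev, mul_one] at h
  exact h

theorem Wt.pd {u : E2 → ℝ} {C : NNReal} (hu : LipschitzWith C u) (i : Fin 2) :
    Wt (fun x => pd i u x) :=
  ⟨aestronglyMeasurable_lineDeriv hu.continuous volume,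
    fun _ => ⟨C, C.coe_nonneg, fun x _ => abs_pd_le hu i x⟩⟩

/-- A weight vanishing outside a compact set is integrable. -/
theorem Wt.integrable {g : E2 → ℝ} (hg : Wt g) {K : Set E2} (hK : IsCompact K)
    (h0 : ∀ x, x ∉ K → g x = 0) : Integrable g (volume : Measure E2) := by
  obtain ⟨R, hR⟩ := hK.isBounded.exists_norm_le
  obtain ⟨M, hM0, hM⟩ := hg.bdd R
  have hb : ∀ x, ‖g x‖ ≤ M := by
    intro x
    by_cases hx : x ∈ K
    · exact hM x (hR x hx)
    · rw [h0 x hx, norm_zero]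
      exact hM0
  have h1 : IntegrableOn g K (volume : Measure E2) :=
    Measure.integrableOn_of_bounded hK.measure_lt_top.ne hg.meas (Eventually.of_forall hb)
  refine (integrableOn_iff_integrable_of_support_subset ?_).1 h1
  intro x hx
  by_contra h
  exact hx (h0 x h)

/-! ### Pointwise rules for partial derivatives -/

theorem ae_hasPd {u : E2 → ℝ} {C : NNReal} (hu : LipschitzWith C u) (i : Fin 2) :
    ∀ᵐ x ∂(volume : Measure E2), HasLineDerivAt ℝ u (pd i u x) x (ev i) := by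
  filter_upwards [hu.ae_lineDifferentiableAt (μ := (volume : Measure E2)) (ev i)] with x hx
  exact hx.hasLineDerivAt

theorem pd_add {u w : E2 → ℝ} {a b : ℝ} {x : E2} {i : Fin 2}
    (hu : HasLineDerivAt ℝ u a x (ev i)) (hw : HasLineDerivAt ℝ w b x (ev i)) :
    HasLineDerivAt ℝ (fun y => u y + w y) (a + b) x (ev i) := by
  unfold HasLineDerivAt at *
  exact hu.add hw

theorem pd_sub {u w : E2 → ℝ} {a b : ℝ} {x : E2} {i : Fin 2}
    (hu : HasLineDerivAt ℝ u a x (ev i)) (hw : HasLineDerivAt ℝ w b x (ev i)) :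
    HasLineDerivAt ℝ (fun y => u y - w y) (a - b) x (ev i) := by
  unfold HasLineDerivAt at *
  exact hu.sub hw

theorem pd_mul {u w : E2 → ℝ} {a b : ℝ} {x : E2} {i : Fin 2}
    (hu : HasLineDerivAt ℝ u a x (ev i)) (hw : HasLineDerivAt ℝ w b x (ev i)) :
    HasLineDerivAt ℝ (fun y => u y * w y) (a * w x + u x * b) x (ev i) := by
  unfold HasLineDerivAt at *
  have h := hu.mul hw
  simp only [zero_smul, add_zero] at h
  exact h

theorem pd_const_mul (c : ℝ) (u : E2 → ℝ) (i : Fin 2) (x : E2) :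
    pd i (fun y => c * u y) x = c * pd i u x := by
  unfold pd lineDeriv
  exact deriv_const_mul_field c

theorem pd_add_ae {u w : E2 → ℝ} {C D : NNReal} (hu : LipschitzWith C u)
    (hw : LipschitzWith D w) (i : Fin 2) :
    ∀ᵐ x ∂(volume : Measure E2), pd i (fun y => u y + w y) x = pd i u x + pd i w x := by
  filter_upwards [ae_hasPd hu i, ae_hasPd hw i] with x h1 h2
  exact (pd_add h1 h2).lineDeriv

theorem pd_sub_ae {u w : E2 → ℝ} {C D : NNReal} (hu : LipschitzWith C u)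
    (hw : LipschitzWith D w) (i : Fin 2) :
    ∀ᵐ x ∂(volume : Measure E2), pd i (fun y => u y - w y) x = pd i u x - pd i w x := by
  filter_upwards [ae_hasPd hu i, ae_hasPd hw i] with x h1 h2
  exact (pd_sub h1 h2).lineDeriv

theorem pd_mul_ae {u w : E2 → ℝ} {C D : NNReal} (hu : LipschitzWith C u)
    (hw : LipschitzWith D w) (i : Fin 2) :
    ∀ᵐ x ∂(volume : Measure E2),
      pd i (fun y => u y * w y) x = pd i u x * w x + u x * pd i w x := by
  filter_upwards [ae_hasPd hu i, ae_hasPd hw i] with x h1 h2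
  exact (pd_mul h1 h2).lineDeriv

theorem pd_zero_of_notMem {u : E2 → ℝ} {x : E2} (hx : x ∉ tsupport u) (i : Fin 2) :
    pd i u x = 0 := by
  have h2 := notMem_tsupport_iff_eventuallyEq.1 hx
  unfold pd
  rw [Filter.EventuallyEq.lineDeriv_eq h2]
  have h3 : HasLineDerivAt ℝ (0 : E2 → ℝ) 0 x (ev i) := by
    unfold HasLineDerivAt
    exact hasDerivAt_const _ _
  exact h3.lineDeriv

/-! ### The class of Lipschitz functions with compact support -/

theorem Tc.toLc {Ω : Set E2} {u : E2 → ℝ} (hu : Tc Ω u) : Lc Ω u := by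
  obtain ⟨C, hC⟩ := hu.smooth.lipschitzWith_of_hasCompactSupport hu.cpt (by simp)
  exact ⟨⟨C, hC⟩, hu.cpt, hu.sub⟩

theorem Lc.cont {Ω : Set E2} {u : E2 → ℝ} (hu : Lc Ω u) : Continuous u := by
  obtain ⟨C, hC⟩ := hu.lip
  exact hC.continuous

theorem Lc.wt {Ω : Set E2} {u : E2 → ℝ} (hu : Lc Ω u) : Wt u := Wt.of_continuous hu.cont

theorem Lc.wtd {Ω : Set E2} {u : E2 → ℝ} (hu : Lc Ω u) (i : Fin 2) : Wt (fun x => pd i u x) := by
  obtain ⟨C, hC⟩ := hu.lip
  exact Wt.pd hC i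

theorem Lc.zero_out {Ω : Set E2} {u : E2 → ℝ} (_hu : Lc Ω u) {x : E2} (hx : x ∉ tsupport u) :
    u x = 0 := image_eq_zero_of_notMem_tsupport hx

theorem Lc.hasPd {Ω : Set E2} {u : E2 → ℝ} (hu : Lc Ω u) (i : Fin 2) :
    ∀ᵐ x ∂(volume : Measure E2), HasLineDerivAt ℝ u (pd i u x) x (ev i) := by
  obtain ⟨C, hC⟩ := hu.lip
  exact ae_hasPd hC i

theorem Lc.bound {Ω : Set E2} {u : E2 → ℝ} (hu : Lc Ω u) :
    ∃ M : ℝ, 0 ≤ M ∧ (∀ x, |u x| ≤ M) ∧ ∀ i x, |pd i u x| ≤ M := by
  obtain ⟨C, hC⟩ := hu.lip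
  obtain ⟨M, hM⟩ := hu.cpt.exists_bound_of_continuous hC.continuous
  have hM0 : 0 ≤ M := (norm_nonneg _).trans (hM 0)
  have hC0 : (0 : ℝ) ≤ C := C.coe_nonneg
  refine ⟨M + C, by positivity, fun x => ?_, fun i x => ?_⟩
  · have h := hM x
    rw [Real.norm_eq_abs] at h
    linarith
  · have h := abs_pd_le hC i x
    linarith

theorem Lc.mono {Ω Ω' : Set E2} {u : E2 → ℝ} (hu : Lc Ω u) (h : Ω ⊆ Ω') : Lc Ω' u :=
  ⟨hu.lip, hu.cpt, hu.sub.trans h⟩

theorem Lc.zero (Ω : Set E2) : Lc Ω (fun _ => (0 : ℝ)) := by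
  refine ⟨⟨0, LipschitzWith.const 0⟩, HasCompactSupport.zero, ?_⟩
  have h : tsupport (fun _ : E2 => (0 : ℝ)) = ∅ := tsupport_eq_empty_iff.2 rfl
  rw [h]
  exact empty_subset _

theorem Lc.add {Ω : Set E2} {u w : E2 → ℝ} (hu : Lc Ω u) (hw : Lc Ω w) :
    Lc Ω (fun x => u x + w x) := by
  obtain ⟨C, hC⟩ := hu.lip
  obtain ⟨D, hD⟩ := hw.lip
  exact ⟨⟨C + D, hC.add hD⟩, hu.cpt.add hw.cpt,
    (tsupport_add u w).trans (union_subset hu.sub hw.sub)⟩

theorem Lc.smul {Ω : Set E2} {u : E2 → ℝ} (c : ℝ) (hu : Lc Ω u) :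
    Lc Ω (fun x => c * u x) := by
  obtain ⟨C, hC⟩ := hu.lip
  refine ⟨⟨Real.nnabs c * C, ?_⟩, ?_, ?_⟩
  · apply LipschitzWith.of_dist_le_mul
    intro x y
    rw [Real.dist_eq, ← mul_sub, abs_mul, NNReal.coe_mul, Real.coe_nnabs, mul_assoc]
    exact mul_le_mul_of_nonneg_left (hC.dist_le_mul x y) (abs_nonneg c)
  · exact hu.cpt.mul_left
  · exact (tsupport_mul_subset_right).trans hu.sub

/-- Product with a Lipschitz function. -/
theorem Lc.mul_lip {Ω : Set E2} {u : E2 → ℝ} (hu : Lc Ω u) {P : E2 → ℝ} {D : NNReal}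
    (hP : LipschitzWith D P) : Lc Ω (fun x => P x * u x) := by
  obtain ⟨C, hC⟩ := hu.lip
  obtain ⟨M, hM0, hM, -⟩ := hu.bound
  obtain ⟨N, hN⟩ := hu.cpt.isCompact.exists_bound_of_continuousOn hP.continuous.continuousOn
  have hN' : ∀ x ∈ tsupport u, |P x| ≤ max N 0 := fun x hx => (hN x hx).trans (le_max_left _ _)
  refine ⟨⟨Real.toNNReal (D * M + max N 0 * C), ?_⟩, hu.cpt.mul_left,
    (tsupport_mul_subset_right).trans hu.sub⟩
  apply LipschitzWith.of_dist_le_mul
  have hc0 : 0 ≤ (D : ℝ) * M + max N 0 * C := by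
    have h1 : (0 : ℝ) ≤ max N 0 := le_max_right _ _
    positivity
  rw [Real.coe_toNNReal _ hc0]
  -- the estimate when the second point is in the support
  have key : ∀ x y, y ∈ tsupport u → |P x * u x - P y * u y| ≤
      (D * M + max N 0 * C) * dist x y := by
    intro x y hy
    have h1 : P x * u x - P y * u y = (P x - P y) * u x + P y * (u x - u y) := by ring
    have h2 := hP.dist_le_mul x y
    have h3 := hC.dist_le_mul x y
    rw [Real.dist_eq] at h2 h3
    rw [h1]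
    refine (abs_add_le _ _).trans ?_
    rw [abs_mul, abs_mul]
    have h4 : |P x - P y| * |u x| ≤ (D * dist x y) * M :=
      mul_le_mul h2 (hM x) (abs_nonneg _) (by positivity)
    have h5 : |P y| * |u x - u y| ≤ max N 0 * (C * dist x y) :=
      mul_le_mul (hN' y hy) h3 (abs_nonneg _) (le_max_right _ _)
    refine (add_le_add h4 h5).trans (le_of_eq ?_)
    ring
  intro x y
  rw [Real.dist_eq]
  by_cases hy : y ∈ tsupport u
  · exact key x y hy
  · by_cases hx : x ∈ tsupport u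
    · rw [abs_sub_comm, dist_comm]
      exact key y x hx
    · rw [hu.zero_out hx, hu.zero_out hy, mul_zero, mul_zero, sub_zero, abs_zero]
      positivity

/-! ### Integrability and bilinearity -/

theorem Lc.int_mul {Ω : Set E2} {u : E2 → ℝ} (hu : Lc Ω u) {g : E2 → ℝ} (hg : Wt g) :
    Integrable (fun x => g x * u x) (volume : Measure E2) := by
  refine (hg.mul hu.wt).integrable hu.cpt fun x hx => ?_
  rw [hu.zero_out hx, mul_zero]

theorem Lc.int_mul_pd {Ω : Set E2} {u : E2 → ℝ} (hu : Lc Ω u) (i : Fin 2) {g : E2 → ℝ}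
    (hg : Wt g) : Integrable (fun x => g x * pd i u x) (volume : Measure E2) := by
  refine (hg.mul (hu.wtd i)).integrable hu.cpt fun x hx => ?_
  rw [pd_zero_of_notMem hx, mul_zero]

theorem Lc.int_en {Ω : Set E2} {u w : E2 → ℝ} (hu : Lc Ω u) (hw : Lc Ω w) :
    Integrable (fun x => pd 0 u x * pd 0 w x + pd 1 u x * pd 1 w x) (volume : Measure E2) :=
  (hw.int_mul_pd 0 (hu.wtd 0)).add (hw.int_mul_pd 1 (hu.wtd 1))

theorem Ma_comm (u w : E2 → ℝ) : Ma u w = Ma w u := by
  unfold Ma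
  apply integral_congr_ae
  exact Eventually.of_forall fun x => mul_comm _ _

theorem En_comm (u w : E2 → ℝ) : En u w = En w u := by
  unfold En
  apply integral_congr_ae
  refine Eventually.of_forall fun x => ?_
  show pd 0 u x * pd 0 w x + pd 1 u x * pd 1 w x = pd 0 w x * pd 0 u x + pd 1 w x * pd 1 u x
  ring

theorem Ma_add_left {Ω : Set E2} {u v w : E2 → ℝ} (hu : Lc Ω u) (hv : Lc Ω v) (hw : Lc Ω w) :
    Ma (fun x => u x + v x) w = Ma u w + Ma v w := by
  unfold Ma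
  rw [← integral_add (hw.int_mul hu.wt) (hw.int_mul hv.wt)]
  apply integral_congr_ae
  exact Eventually.of_forall fun x => add_mul _ _ _

theorem Ma_smul_left (c : ℝ) (u w : E2 → ℝ) :
    Ma (fun x => c * u x) w = c * Ma u w := by
  unfold Ma
  rw [← integral_const_mul]
  apply integral_congr_ae
  exact Eventually.of_forall fun x => mul_assoc _ _ _

theorem En_add_left {Ω : Set E2} {u v w : E2 → ℝ} (hu : Lc Ω u) (hv : Lc Ω v) (hw : Lc Ω w) :
    En (fun x => u x + v x) w = En u w + En v w := by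
  obtain ⟨C, hC⟩ := hu.lip
  obtain ⟨D, hD⟩ := hv.lip
  unfold En
  rw [← integral_add (hu.int_en hw) (hv.int_en hw)]
  apply integral_congr_ae
  filter_upwards [pd_add_ae hC hD 0, pd_add_ae hC hD 1] with x h0 h1
  show pd 0 (fun x => u x + v x) x * pd 0 w x + pd 1 (fun x => u x + v x) x * pd 1 w x =
    (pd 0 u x * pd 0 w x + pd 1 u x * pd 1 w x) + (pd 0 v x * pd 0 w x + pd 1 v x * pd 1 w x)
  rw [h0, h1]
  ring

theorem En_smul_left (c : ℝ) (u w : E2 → ℝ) :
    En (fun x => c * u x) w = c * En u w := by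
  unfold En
  rw [← integral_const_mul]
  apply integral_congr_ae
  refine Eventually.of_forall fun x => ?_
  show pd 0 (fun x => c * u x) x * pd 0 w x + pd 1 (fun x => c * u x) x * pd 1 w x =
    c * (pd 0 u x * pd 0 w x + pd 1 u x * pd 1 w x)
  rw [pd_const_mul, pd_const_mul]
  ring

/-- The submodule of Lipschitz functions with compact support in `Ω`. -/
def LcS (Ω : Set E2) : Submodule ℝ (E2 → ℝ) where
  carrier := {u | Lc Ω u}
  add_mem' := fun ha hb => Lc.add ha hb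
  zero_mem' := Lc.zero Ω
  smul_mem' := fun c _ hu => Lc.smul c hu

/-- The scalar product as a bilinear map. -/
noncomputable def MaL (Ω : Set E2) : LcS Ω →ₗ[ℝ] LcS Ω →ₗ[ℝ] ℝ :=
  LinearMap.mk₂ ℝ (fun u w => Ma (u : E2 → ℝ) (w : E2 → ℝ))
    (fun u v w => Ma_add_left u.2 v.2 w.2)
    (fun c u w => Ma_smul_left c _ _)
    (fun u v w => by
      show Ma (u : E2 → ℝ) (fun x => (v : E2 → ℝ) x + (w : E2 → ℝ) x) = _
      rw [Ma_comm, Ma_add_left v.2 w.2 u.2, Ma_comm, Ma_comm (w : E2 → ℝ)])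
    (fun c u w => by
      show Ma (u : E2 → ℝ) (fun x => c * (w : E2 → ℝ) x) = c * Ma (u : E2 → ℝ) (w : E2 → ℝ)
      rw [Ma_comm, Ma_smul_left, Ma_comm])

/-- The Dirichlet form as a bilinear map. -/
noncomputable def EnL (Ω : Set E2) : LcS Ω →ₗ[ℝ] LcS Ω →ₗ[ℝ] ℝ :=
  LinearMap.mk₂ ℝ (fun u w => En (u : E2 → ℝ) (w : E2 → ℝ))
    (fun u v w => En_add_left u.2 v.2 w.2)
    (fun c u w => En_smul_left c _ _)
    (fun u v w => by
      show En (u : E2 → ℝ) (fun x => (v : E2 → ℝ) x + (w : E2 → ℝ) x) = _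
      rw [En_comm, En_add_left v.2 w.2 u.2, En_comm, En_comm (w : E2 → ℝ)])
    (fun c u w => by
      show En (u : E2 → ℝ) (fun x => c * (w : E2 → ℝ) x) = c * En (u : E2 → ℝ) (w : E2 → ℝ)
      rw [En_comm, En_smul_left, En_comm])

theorem MaL_apply {Ω : Set E2} (u w : LcS Ω) : MaL Ω u w = Ma (u : E2 → ℝ) (w : E2 → ℝ) := rfl

theorem EnL_apply {Ω : Set E2} (u w : LcS Ω) : EnL Ω u w = En (u : E2 → ℝ) (w : E2 → ℝ) := rfl

/-! ### Approximation -/

/-- `U n` is a good smooth approximation of `u`. -/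
structure Apx (Ω : Set E2) (U : ℕ → E2 → ℝ) (u : E2 → ℝ) : Prop where
  tc : ∀ n, Tc Ω (U n)
  bd : ∃ (C : ℝ) (K : Set E2), IsCompact K ∧ (∀ n x, |U n x| ≤ C) ∧
    (∀ n i x, |pd i (U n) x| ≤ C) ∧ (∀ n x, x ∉ K → U n x = 0) ∧
    (∀ n i x, x ∉ K → pd i (U n) x = 0)
  lim : ∀ x, Tendsto (fun n => U n x) atTop (𝓝 (u x))
  limd : ∀ i, ∀ᵐ x ∂(volume : Measure E2),
    Tendsto (fun n => pd i (U n) x) atTop (𝓝 (pd i u x))

theorem exists_apx {Ω : Set E2} (hΩ : IsOpen Ω) {u : E2 → ℝ} (hu : Lc Ω u) :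
    ∃ U, Apx Ω U u := by
  obtain ⟨U, C, K, hK, h1, h2, h3, h4, h5, h6, h7⟩ := exists_mol hΩ hu
  exact ⟨U, h1, ⟨C, K, hK, h2, h3, h4, h5⟩, h6, h7⟩

theorem Apx.ma {Ω : Set E2} {U W : ℕ → E2 → ℝ} {u w : E2 → ℝ} (hU : Apx Ω U u)
    (hW : Apx Ω W w) : Tendsto (fun n => Ma (U n) (W n)) atTop (𝓝 (Ma u w)) := by
  obtain ⟨C, K, hK, h1, h2, h3, h4⟩ := hU.bd
  obtain ⟨D, L, hL, g1, g2, g3, g4⟩ := hW.bd
  have hC0 : 0 ≤ C := (abs_nonneg _).trans (h1 0 0)
  have hD0 : 0 ≤ D := (abs_nonneg _).trans (g1 0 0)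
  unfold Ma
  apply tendsto_integral_of_dominated_convergence (fun x => K.indicator (fun _ => C * D) x)
  · intro n
    exact ((hU.tc n).smooth.continuous.mul (hW.tc n).smooth.continuous).aestronglyMeasurable
  · exact (integrable_indicator_iff hK.measurableSet).2 (integrableOn_const hK.measure_lt_top.ne)
  · intro n
    refine Eventually.of_forall fun x => ?_
    by_cases hx : x ∈ K
    · rw [indicator_of_mem hx, norm_mul, Real.norm_eq_abs, Real.norm_eq_abs]
      exact mul_le_mul (h1 n x) (g1 n x) (abs_nonneg _) hC0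
    · rw [indicator_of_notMem hx, h3 n x hx, zero_mul, norm_zero]
  · exact Eventually.of_forall fun x => (hU.lim x).mul (hW.lim x)

theorem Apx.en {Ω : Set E2} {U W : ℕ → E2 → ℝ} {u w : E2 → ℝ} (hU : Apx Ω U u)
    (hW : Apx Ω W w) : Tendsto (fun n => En (U n) (W n)) atTop (𝓝 (En u w)) := by
  obtain ⟨C, K, hK, h1, h2, h3, h4⟩ := hU.bd
  obtain ⟨D, L, hL, g1, g2, g3, g4⟩ := hW.bd
  have hC0 : 0 ≤ C := (abs_nonneg _).trans (h1 0 0)
  have hD0 : 0 ≤ D := (abs_nonneg _).trans (g1 0 0)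
  unfold En
  apply tendsto_integral_of_dominated_convergence (fun x => K.indicator (fun _ => 2 * (C * D)) x)
  · intro n
    exact ((hU.tc n).toLc.int_en (hW.tc n).toLc).aestronglyMeasurable
  · exact (integrable_indicator_iff hK.measurableSet).2 (integrableOn_const hK.measure_lt_top.ne)
  · intro n
    refine Eventually.of_forall fun x => ?_
    by_cases hx : x ∈ K
    · rw [indicator_of_mem hx]
      refine (norm_add_le _ _).trans ?_
      rw [norm_mul, norm_mul, Real.norm_eq_abs, Real.norm_eq_abs, Real.norm_eq_abs,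
        Real.norm_eq_abs]
      have e1 := mul_le_mul (h2 n 0 x) (g2 n 0 x) (abs_nonneg _) hC0
      have e2 := mul_le_mul (h2 n 1 x) (g2 n 1 x) (abs_nonneg _) hC0
      linarith
    · rw [indicator_of_notMem hx, h4 n 0 x hx, h4 n 1 x hx, zero_mul, zero_mul, add_zero,
        norm_zero]
  · filter_upwards [hU.limd 0, hU.limd 1, hW.limd 0, hW.limd 1] with x a0 a1 b0 b1
    exact (a0.mul b0).add (a1.mul b1)

/-! ### Positivity -/

/-- `lam` is a lower bound of the spectrum of `Ω`. -/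
def Low (lam : ℝ) (Ω : Set E2) : Prop := ∀ u, Tc Ω u → lam * Ma u u ≤ En u u

theorem Low.lc {lam : ℝ} {Ω : Set E2} (hΩ : IsOpen Ω) (h : Low lam Ω) {u : E2 → ℝ}
    (hu : Lc Ω u) : lam * Ma u u ≤ En u u := by
  obtain ⟨U, hU⟩ := exists_apx hΩ hu
  exact le_of_tendsto_of_tendsto' ((hU.ma hU).const_mul lam) (hU.en hU) fun n => h _ (hU.tc n)

theorem En_nonneg (u : E2 → ℝ) : 0 ≤ En u u := by
  unfold En
  apply integral_nonneg
  intro x
  show 0 ≤ pd 0 u x * pd 0 u x + pd 1 u x * pd 1 u x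
  nlinarith [mul_self_nonneg (pd 0 u x), mul_self_nonneg (pd 1 u x)]

theorem Ma_nonneg (u : E2 → ℝ) : 0 ≤ Ma u u := by
  unfold Ma
  exact integral_nonneg fun x => mul_self_nonneg _

/-- Cauchy Schwarz inequality for the nonnegative form `En - lam Ma`. -/
theorem Low.cs {lam : ℝ} {Ω : Set E2} (hΩ : IsOpen Ω) (h : Low lam Ω) {u w : E2 → ℝ}
    (hu : Lc Ω u) (hw : Lc Ω w) :
    |En u w - lam * Ma u w| ≤
      Real.sqrt (En u u - lam * Ma u u) * Real.sqrt (En w w - lam * Ma w w) := by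
  have hq : ∀ t : ℝ, 0 ≤ (En w w - lam * Ma w w) * (t * t) +
      2 * (En u w - lam * Ma u w) * t + (En u u - lam * Ma u u) := by
    intro t
    have htw : Lc Ω (fun x => t * w x) := hw.smul t
    have hs : Lc Ω (fun x => u x + t * w x) := hu.add htw
    have h1 := h.lc hΩ hs
    have e1 : En (fun x => u x + t * w x) (fun x => u x + t * w x) =
        En u u + 2 * t * En u w + t * t * En w w := by
      rw [En_add_left hu htw hs, En_comm u, En_add_left hu htw hu,
        En_comm (fun x => t * w x) (fun x => u x + t * w x), En_add_left hu htw htw,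
        En_smul_left, En_comm u (fun x => t * w x), En_smul_left, En_smul_left,
        En_comm w (fun x => t * w x), En_smul_left, En_comm w u]
      ring
    have e2 : Ma (fun x => u x + t * w x) (fun x => u x + t * w x) =
        Ma u u + 2 * t * Ma u w + t * t * Ma w w := by
      rw [Ma_add_left hu htw hs, Ma_comm u, Ma_add_left hu htw hu,
        Ma_comm (fun x => t * w x) (fun x => u x + t * w x), Ma_add_left hu htw htw,
        Ma_smul_left, Ma_comm u (fun x => t * w x), Ma_smul_left, Ma_smul_left,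
        Ma_comm w (fun x => t * w x), Ma_smul_left, Ma_comm w u]
      ring
    rw [e1, e2] at h1
    linarith
  have hd := discrim_le_zero hq
  unfold discrim at hd
  have hu0 : 0 ≤ En u u - lam * Ma u u := by linarith [h.lc hΩ hu]
  rw [← Real.sqrt_mul hu0]
  apply Real.abs_le_sqrt
  nlinarith

end Pool.Agent.PPW
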