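import Pool.Agent.Lib.MP_eb7570_an.CDefs

/-!
MP_eb7570_an: gluing and reparametrisation of admissible families.
-/

set_option autoImplicit false

open MeasureTheory Filter Topology Metric Set

namespace Pool.Agent.PPW

private theorem cont_glue {a b c : ℝ} (hab : a ≤ b) (hbc : b ≤ c) {P P' : ℝ → E2 → ℝ}
    (h : ContinuousOn (fun p : ℝ × E2 => P p.1 p.2) (Icc a b ×ˢ univ))
    (h' : ContinuousOn (fun p : ℝ × E2 => P' p.1 p.2) (Icc b c ×ˢ univ)) (he : P b = P' b) :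
    ContinuousOn (fun p : ℝ × E2 => (if p.1 ≤ b then P p.1 else P' p.1) p.2)
      (Icc a c ×ˢ univ) := by
  have hu : (Icc a c ×ˢ univ : Set (ℝ × E2)) = (Icc a b ×ˢ univ) ∪ (Icc b c ×ˢ univ) := by
    rw [← union_prod, Icc_union_Icc_eq_Icc hab hbc]
  rw [hu]
  apply ContinuousOn.union_of_isClosed
  · refine h.congr fun p hp => ?_
    simp only [if_pos hp.1.2]
  · refine h'.congr fun p hp => ?_
    rcases eq_or_lt_of_le hp.1.1 with h1 | h1
    · simp only [← h1, le_refl, if_true]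
      rw [he]
    · simp only [if_neg (not_le.2 h1)]
  · exact isClosed_Icc.prod isClosed_univ
  · exact isClosed_Icc.prod isClosed_univ

theorem Path.glue {a b c : ℝ} (hab : a ≤ b) (hbc : b ≤ c) {P1 P2 P1' P2' : ℝ → E2 → ℝ}
    (h : Path (Icc a b) P1 P2) (h' : Path (Icc b c) P1' P2') (he1 : P1 b = P1' b)
    (he2 : P2 b = P2' b) :
    Path (Icc a c) (fun s => if s ≤ b then P1 s else P1' s)
      (fun s => if s ≤ b then P2 s else P2' s) := by
  have key : ∀ s ∈ Icc a c, (s ≤ b ∧ s ∈ Icc a b) ∨ (¬ s ≤ b ∧ s ∈ Icc b c) := by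
    intro s hs
    by_cases hsb : s ≤ b
    · exact Or.inl ⟨hsb, hs.1, hsb⟩
    · exact Or.inr ⟨hsb, (not_le.1 hsb).le, hs.2⟩
  obtain ⟨L, hL⟩ := h.lip
  obtain ⟨L', hL'⟩ := h'.lip
  obtain ⟨k, hk, hlow⟩ := h.low
  obtain ⟨k', hk', hlow'⟩ := h'.low
  refine ⟨cont_glue hab hbc h.cont1 h'.cont1 he1, cont_glue hab hbc h.cont2 h'.cont2 he2,
    ?_, ?_, ?_, ?_, ⟨max L L', ?_⟩, ⟨min k k', lt_min hk hk', ?_⟩⟩
  · intro s hs
    rcases key s hs with ⟨h1, h2⟩ | ⟨h1, h2⟩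
    · simp only [if_pos h1]; exact h.odd1 s h2
    · simp only [if_neg h1]; exact h'.odd1 s h2
  · intro s hs
    rcases key s hs with ⟨h1, h2⟩ | ⟨h1, h2⟩
    · simp only [if_pos h1]; exact h.odd2 s h2
    · simp only [if_neg h1]; exact h'.odd2 s h2
  · intro s hs
    rcases key s hs with ⟨h1, h2⟩ | ⟨h1, h2⟩
    · simp only [if_pos h1]; exact h.sgn1 s h2
    · simp only [if_neg h1]; exact h'.sgn1 s h2
  · intro s hs
    rcases key s hs with ⟨h1, h2⟩ | ⟨h1, h2⟩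
    · simp only [if_pos h1]; exact h.sgn2 s h2
    · simp only [if_neg h1]; exact h'.sgn2 s h2
  · intro s hs
    rcases key s hs with ⟨h1, h2⟩ | ⟨h1, h2⟩
    · simp only [if_pos h1]
      exact ⟨(hL s h2).1.weaken (le_max_left _ _), (hL s h2).2.weaken (le_max_left _ _)⟩
    · simp only [if_neg h1]
      exact ⟨(hL' s h2).1.weaken (le_max_right _ _), (hL' s h2).2.weaken (le_max_right _ _)⟩
  · intro s hs x
    rcases key s hs with ⟨h1, h2⟩ | ⟨h1, h2⟩
    · simp only [if_pos h1]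
      have e1 : min k k' * |x 0| ≤ k * |x 0| :=
        mul_le_mul_of_nonneg_right (min_le_left _ _) (abs_nonneg _)
      have e2 : min k k' * |x 1| ≤ k * |x 1| :=
        mul_le_mul_of_nonneg_right (min_le_left _ _) (abs_nonneg _)
      exact ⟨e1.trans (hlow s h2 x).1, e2.trans (hlow s h2 x).2⟩
    · simp only [if_neg h1]
      have e1 : min k k' * |x 0| ≤ k' * |x 0| :=
        mul_le_mul_of_nonneg_right (min_le_right _ _) (abs_nonneg _)
      have e2 : min k k' * |x 1| ≤ k' * |x 1| :=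
        mul_le_mul_of_nonneg_right (min_le_right _ _) (abs_nonneg _)
      exact ⟨e1.trans (hlow' s h2 x).1, e2.trans (hlow' s h2 x).2⟩

/-- Reparametrised and unnormalised families. -/
theorem Path.unR_comp {a b : ℝ} (ha : 0 ≤ a) (hb : b < 1) {Q1 Q2 : ℝ → E2 → ℝ} {θ : ℝ → ℝ}
    {J : Set ℝ} (hQ : Path J Q1 Q2) (hθ : ContinuousOn θ (Icc a b)) (hJ : MapsTo θ (Icc a b) J) :
    Path (Icc a b) (fun s x => Q1 (θ s) x / Real.sqrt (rho s)) (fun s x => Q2 (θ s) x) := by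
  have hr : ∀ s ∈ Icc a b, 0 < rho s := by
    intro s hs
    unfold rho
    exact div_pos (by linarith [hs.2]) (by linarith [hs.1])
  have hr1 : ∀ s ∈ Icc a b, rho s ≤ 1 := by
    intro s hs
    unfold rho
    exact (div_le_one (by linarith [hs.1])).2 (by linarith [hs.1])
  have hrb : ∀ s ∈ Icc a b, rho b ≤ rho s := by
    intro s hs
    unfold rho
    rw [div_le_div_iff₀ (by linarith [hs.1, hs.2]) (by linarith [hs.1])]
    nlinarith [hs.1, hs.2]
  have hsr : ∀ s ∈ Icc a b, 0 < Real.sqrt (rho s) := fun s hs => Real.sqrt_pos.2 (hr s hs)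
  have hsr1 : ∀ s ∈ Icc a b, Real.sqrt (rho s) ≤ 1 := by
    intro s hs
    exact Real.sqrt_le_one.2 (hr1 s hs)
  have hmap : ContinuousOn (fun p : ℝ × E2 => (θ p.1, p.2)) (Icc a b ×ˢ univ) :=
    (hθ.comp continuousOn_fst fun p hp => hp.1).prodMk continuousOn_snd
  have hmm : MapsTo (fun p : ℝ × E2 => (θ p.1, p.2)) (Icc a b ×ˢ univ) (J ×ˢ univ) :=
    fun p hp => ⟨hJ hp.1, mem_univ _⟩
  have hrc : ContinuousOn (fun p : ℝ × E2 => Real.sqrt (rho p.1)) (Icc a b ×ˢ univ) := by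
    apply Real.continuous_sqrt.comp_continuousOn
    unfold rho
    apply ContinuousOn.div
    · exact (continuous_const.sub continuous_fst).continuousOn
    · exact (continuous_const.add continuous_fst).continuousOn
    · intro p hp
      have := hp.1.1
      linarith
  obtain ⟨L, hL⟩ := hQ.lip
  obtain ⟨k, hk, hlow⟩ := hQ.low
  refine ⟨(hQ.cont1.comp hmap hmm).div hrc fun p hp => (hsr p.1 hp.1).ne',
    hQ.cont2.comp hmap hmm, ?_, ?_, ?_, ?_, ?_, ⟨k, hk, ?_⟩⟩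
  · intro s hs x
    show Q1 (θ s) (-x) / Real.sqrt (rho s) = -(Q1 (θ s) x / Real.sqrt (rho s))
    rw [hQ.odd1 _ (hJ hs), neg_div]
  · intro s hs x
    exact hQ.odd2 _ (hJ hs) x
  · intro s hs x
    show 0 ≤ x 0 * (Q1 (θ s) x / Real.sqrt (rho s))
    rw [← mul_div_assoc]
    exact div_nonneg (hQ.sgn1 _ (hJ hs) x) (hsr s hs).le
  · intro s hs x
    exact hQ.sgn2 _ (hJ hs) x
  · refine ⟨max L (L * (Real.sqrt (rho b))⁻¹.toNNReal), fun s hs => ⟨?_, ?_⟩⟩
    · refine LipschitzWith.weaken ?_ (le_max_right _ _)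
      apply LipschitzWith.of_dist_le_mul
      intro x y
      have h1 := (hL _ (hJ hs)).1.dist_le_mul x y
      have hbb : b ∈ Icc a b := ⟨hs.1.trans hs.2, le_rfl⟩
      have hb0 := hsr b hbb
      have h2 : (Real.sqrt (rho s))⁻¹ ≤ (Real.sqrt (rho b))⁻¹ :=
        inv_anti₀ hb0 (Real.sqrt_le_sqrt (hrb s hs))
      rw [NNReal.coe_mul, Real.coe_toNNReal _ (inv_nonneg.2 hb0.le)]
      rw [Real.dist_eq] at h1 ⊢
      rw [← sub_div, abs_div, abs_of_pos (hsr s hs), div_eq_mul_inv]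
      calc |Q1 (θ s) x - Q1 (θ s) y| * (Real.sqrt (rho s))⁻¹
          ≤ (L * dist x y) * (Real.sqrt (rho b))⁻¹ :=
            mul_le_mul h1 h2 (inv_nonneg.2 (hsr s hs).le) (by positivity)
        _ = L * (Real.sqrt (rho b))⁻¹ * dist x y := by ring
    · exact (hL _ (hJ hs)).2.weaken (le_max_left _ _)
  · intro s hs x
    have h1 := hlow _ (hJ hs) x
    refine ⟨h1.1.trans ?_, h1.2⟩
    apply mul_le_mul_of_nonneg_left _ (by positivity)
    rw [abs_div, abs_of_pos (hsr s hs), le_div_iff₀ (hsr s hs)]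
    exact mul_le_of_le_one_right (abs_nonneg _) (hsr1 s hs)

end Pool.Agent.PPW
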