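import Pool.Agent.Lib.MP_eb7570_an.GlueSeg
import Pool.Agent.Lib.MP_eb7570_an.GluePath

/-!
MP_eb7570_an: reachable nodes: one step, start, closing.
-/

set_option autoImplicit false

open MeasureTheory Filter Topology Metric Set

namespace Pool.Agent.PPW

theorem rho_pos {s : ℝ} (h0 : 0 ≤ s) (h1 : s < 1) : 0 < rho s := by
  unfold rho
  exact div_pos (by linarith) (by linarith)

theorem rho_anti {a s : ℝ} (h0 : 0 ≤ a) (h : a ≤ s) : rho s ≤ rho a := by
  unfold rho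
  rw [div_le_div_iff₀ (by linarith) (by linarith)]
  nlinarith

theorem rho_zero : rho 0 = 1 := by
  unfold rho
  norm_num

/-- A constant family. -/
theorem Node.path {q1 q2 : E2 → ℝ} (h : Node q1 q2) (I : Set ℝ) :
    Path I (fun _ => q1) (fun _ => q2) := by
  have h0 : (0 : ℝ) ∈ ({0} : Set ℝ) := mem_singleton _
  obtain ⟨L, hL⟩ := h.lip
  obtain ⟨c, hc, hlow⟩ := h.low
  exact ⟨((hL 0 h0).1.continuous.comp continuous_snd).continuousOn,
    ((hL 0 h0).2.continuous.comp continuous_snd).continuousOn,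
    fun _ _ => h.odd1 0 h0, fun _ _ => h.odd2 0 h0, fun _ _ => h.sgn1 0 h0,
    fun _ _ => h.sgn2 0 h0, ⟨L, fun _ _ => hL 0 h0⟩, ⟨c, hc, fun _ _ => hlow 0 h0⟩⟩

/-- One step: two certificates at the same parameters. -/
theorem Reach.step {C a b : ℝ} {q1 q2 r1 r2 : E2 → ℝ} (h : Reach C a q1 q2) (hq : Node q1 q2)
    (hr : Node r1 r2) (hab : a < b) (hb : b < 1) {α β K K' : ℝ} (hαβ : α + β ≤ C)
    (hc : Cert K (Fp α β 1 q1 q2)) (hc' : Cert K' (Fp α β 1 r1 r2)) : Reach C b r1 r2 := by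
  obtain ⟨ha0, ha1, P1, P2, hP, hE, ⟨K0, hK0⟩, h1, h2⟩ := h
  obtain ⟨hsp, hse⟩ := seg_path hq hr
  have hba : 0 < b - a := sub_pos.2 hab
  set θ : ℝ → ℝ := fun s => (s - a) / (b - a) with hθ
  have hθc : ContinuousOn θ (Icc a b) := by
    apply Continuous.continuousOn
    exact (continuous_id.sub continuous_const).div_const _
  have hθm : MapsTo θ (Icc a b) (Icc 0 1) := by
    intro s hs
    exact ⟨div_nonneg (by linarith [hs.1]) hba.le, (div_le_one hba).2 (by linarith [hs.2])⟩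
  have hθa : θ a = 0 := by simp [hθ]
  have hθb : θ b = 1 := by simp only [hθ]; exact div_self hba.ne'
  have hnew := Path.unR_comp ha0 hb hsp hθc hθm
  have e1 : P1 a = fun x => seg1 (θ a) q1 r1 x / Real.sqrt (rho a) := by
    funext x
    rw [h1 x, hθa, (hse x).1]
  have e2 : P2 a = fun x => seg2 (θ a) q2 r2 x := by
    funext x
    rw [h2 x, hθa, (hse x).2.1]
  have hgl := Path.glue ha0 hab.le hP hnew e1 e2
  refine ⟨ha0.trans hab.le, hb, _, _, hgl, ?_, ?_, ?_, ?_⟩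
  · simpa only [if_pos ha0] using hE
  · refine ⟨max K0 (max K K'), fun s hs => ?_⟩
    by_cases hsa : s ≤ a
    · obtain ⟨α', β', hs1, hs2⟩ := hK0 s ⟨hs.1, hsa⟩
      refine ⟨α', β', hs1, ?_⟩
      simp only [if_pos hsa]
      exact hs2.mono_const (le_max_left _ _)
    · refine ⟨α, β, hαβ, ?_⟩
      simp only [if_neg hsa]
      have hsI : s ∈ Icc a b := ⟨(not_le.1 hsa).le, hs.2⟩
      have hcs := seg_cert hq hr
        (hc.mono_const ((le_max_left K K').trans (le_max_right K0 _)))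
        (hc'.mono_const ((le_max_right K K').trans (le_max_right K0 _))) (hθm hsI)
      refine hcs.congr fun x => ?_
      exact (Fp_div_sqrt α β (rho_pos hs.1 (lt_of_le_of_lt hs.2 hb)) (fun x => rfl) x).symm
  · intro x
    simp only [if_neg (not_le.2 hab)]
    rw [hθb, (hse x).2.2.1]
  · intro x
    simp only [if_neg (not_le.2 hab)]
    rw [hθb, (hse x).2.2.2]

/-- Start of the path: a certified family of pairs (Q1, Q2) on [0, e0] beginning with an
equivariant pair. -/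
theorem Reach.start {C e0 : ℝ} (he0 : 0 < e0) {Q1 Q2 : ℝ → E2 → ℝ}
    (hQ : Path (Icc 0 e0) Q1 Q2) (heq : Equi (Q1 0) (Q2 0)) {K : ℝ}
    (hC : ∀ e ∈ Icc 0 e0, ∃ α β : ℝ, α + β ≤ C ∧ Cert K (Fp α β 1 (Q1 e) (Q2 e))) :
    Reach C (1 / 2) (Q1 e0) (Q2 e0) := by
  set θ : ℝ → ℝ := fun s => 2 * e0 * s with hθ
  have hθc : ContinuousOn θ (Icc 0 (1 / 2)) :=
    (continuous_const.mul continuous_id).continuousOn
  have hθm : MapsTo θ (Icc 0 (1 / 2)) (Icc 0 e0) := by
    intro s hs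
    refine ⟨by simp only [hθ]; exact mul_nonneg (by linarith) hs.1, ?_⟩
    simp only [hθ]
    nlinarith [hs.2]
  have hP := Path.unR_comp (a := 0) (b := 1 / 2) le_rfl (by norm_num) hQ hθc hθm
  refine ⟨by norm_num, by norm_num, _, _, hP, ?_, ?_, ?_, ?_⟩
  · have e1 : (fun x => Q1 (θ 0) x / Real.sqrt (rho 0)) = Q1 0 := by
      funext x
      rw [rho_zero, Real.sqrt_one, div_one]
      simp only [hθ, mul_zero]
    have e2 : (fun x => Q2 (θ 0) x) = Q2 0 := by
      funext x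
      simp only [hθ, mul_zero]
    show Equi (fun x => Q1 (θ 0) x / Real.sqrt (rho 0)) (fun x => Q2 (θ 0) x)
    rw [e1, e2]
    exact heq
  · refine ⟨K, fun s hs => ?_⟩
    obtain ⟨α, β, h1, h2⟩ := hC (θ s) (hθm hs)
    refine ⟨α, β, h1, h2.congr fun x => ?_⟩
    exact (Fp_div_sqrt α β (rho_pos hs.1 (lt_of_le_of_lt hs.2 (by norm_num)))
      (fun x => rfl) x).symm
  · intro x
    simp only [hθ]
    rw [show 2 * e0 * (1 / 2) = e0 by ring]
  · intro x
    simp only [hθ]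
    rw [show 2 * e0 * (1 / 2) = e0 by ring]

/-- Closing with the constant pair (p1, p2) of the strip end. -/
theorem Reach.close {C a : ℝ} {p1 p2 : E2 → ℝ} (hp : Node p1 p2) {r0 : ℝ}
    (ha : rho a ≤ r0) (h : Reach C a (fun x => Real.sqrt (rho a) * p1 x) p2) {K : ℝ}
    (hC : ∀ r : ℝ, 0 < r → r ≤ r0 → ∃ α β : ℝ, α + β ≤ C ∧ Cert K (Fp α β r p1 p2)) :
    ∃ P1 P2 : ℝ → E2 → ℝ, Path (Icc (0 : ℝ) 1) P1 P2 ∧ Equi (P1 0) (P2 0) ∧
      CertPath C (Ico (0 : ℝ) 1) P1 P2 := by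
  obtain ⟨ha0, ha1, P1, P2, hP, hE, ⟨K0, hK0⟩, h1, h2⟩ := h
  have hra : 0 < Real.sqrt (rho a) := Real.sqrt_pos.2 (rho_pos ha0 ha1)
  have hnew := hp.path (Icc a 1)
  have e1 : P1 a = (fun _ => p1 : ℝ → E2 → ℝ) a := by
    funext x
    rw [h1 x]
    field_simp
  have e2 : P2 a = (fun _ => p2 : ℝ → E2 → ℝ) a := by
    funext x
    exact h2 x
  have hgl := Path.glue ha0 ha1.le hP hnew e1 e2
  refine ⟨_, _, hgl, ?_, ?_⟩
  · simpa only [if_pos ha0] using hE
  · refine ⟨max K0 K, fun s hs => ?_⟩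
    by_cases hsa : s ≤ a
    · obtain ⟨α', β', hs1, hs2⟩ := hK0 s ⟨hs.1, hsa⟩
      refine ⟨α', β', hs1, ?_⟩
      simp only [if_pos hsa]
      exact hs2.mono_const (le_max_left _ _)
    · obtain ⟨α', β', hs1, hs2⟩ := hC (rho s) (rho_pos hs.1 hs.2)
        ((rho_anti ha0 (not_le.1 hsa).le).trans ha)
      refine ⟨α', β', hs1, ?_⟩
      simp only [if_neg hsa]
      exact hs2.mono_const (le_max_right _ _)

end Pool.Agent.PPW
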