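import Pool.Agent.Lib.MP_eb7570_an.CertLem

/-!
MP_eb7570_an: segments between two admissible pairs, by concavity in the squares.
seg_path: on each closed half plane seg1 t q q' is +- the norm of the vector (sqrt(1-t) q, sqrt t q'),
Lipschitz with the common constant; both vanish on x 0 = 0 (Path.zero1), which glues the half planes.
Joint continuity, oddness, sign and low (sqrt((1-t)a^2+t b^2) >= min |a| |b|) are direct.
seg_cert: where q, q', seg are differentiable and x 0 /= 0: seg * grad seg = (1-t) q grad q + t q' grad q',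
Cauchy-Schwarz gives |grad seg|^2 <= (1-t)|grad q|^2 + t|grad q'|^2; then Cert.add, Cert.smul, Cert.mono.
-/

set_option autoImplicit false

open MeasureTheory Filter Topology Metric Set

namespace Pool.Agent.PPW

theorem Fp_div_sqrt (α β : ℝ) {r : ℝ} (hr : 0 < r) {q1 q2 p1 : E2 → ℝ}
    (h : ∀ x, p1 x = q1 x / Real.sqrt r) (x : E2) : Fp α β r p1 q2 x = Fp α β 1 q1 q2 x := by
  have hs : 0 < Real.sqrt r := Real.sqrt_pos.2 hr
  have hp : p1 = fun y => (Real.sqrt r)⁻¹ * q1 y := by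
    funext y
    rw [h y, div_eq_inv_mul]
  have hd : ∀ i : Fin 2, pd i p1 x = (Real.sqrt r)⁻¹ * pd i q1 x := fun i => by
    rw [hp, pd_const_mul]
  have hsq : r * ((Real.sqrt r)⁻¹) ^ 2 = 1 := by
    rw [inv_pow, Real.sq_sqrt hr.le]
    exact mul_inv_cancel₀ hr.ne'
  have h0 : p1 x = (Real.sqrt r)⁻¹ * q1 x := by rw [hp]
  unfold Fp gsq
  rw [hd 0, hd 1, h0]
  linear_combination (α * q1 x ^ 2 - (pd 0 q1 x ^ 2 + pd 1 q1 x ^ 2)) * hsq

/-- Signed quadratic mean. -/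
noncomputable def mixr (t a b x : ℝ) : ℝ :=
  if 0 ≤ x then Real.sqrt ((1 - t) * a ^ 2 + t * b ^ 2)
  else - Real.sqrt ((1 - t) * a ^ 2 + t * b ^ 2)

noncomputable def seg1 (t : ℝ) (q q' : E2 → ℝ) (x : E2) : ℝ := mixr t (q x) (q' x) (x 0)

noncomputable def seg2 (t : ℝ) (q q' : E2 → ℝ) (x : E2) : ℝ := mixr t (q x) (q' x) (x 1)

/-! ### the signed quadratic mean -/

private lemma rad_nonneg {t : ℝ} (ht : t ∈ Icc (0 : ℝ) 1) (a b : ℝ) :
    0 ≤ (1 - t) * a ^ 2 + t * b ^ 2 := by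
  have h1 : 0 ≤ 1 - t := by linarith [ht.2]
  have h2 : 0 ≤ t := ht.1
  positivity

private lemma mixr_sq {t : ℝ} (ht : t ∈ Icc (0 : ℝ) 1) (a b x : ℝ) :
    mixr t a b x ^ 2 = (1 - t) * a ^ 2 + t * b ^ 2 := by
  unfold mixr
  split_ifs
  · exact Real.sq_sqrt (rad_nonneg ht a b)
  · rw [neg_sq]
    exact Real.sq_sqrt (rad_nonneg ht a b)

private lemma mixr_abs (t a b x : ℝ) :
    |mixr t a b x| = Real.sqrt ((1 - t) * a ^ 2 + t * b ^ 2) := by
  unfold mixr
  split_ifs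
  · exact abs_of_nonneg (Real.sqrt_nonneg _)
  · rw [abs_neg]
    exact abs_of_nonneg (Real.sqrt_nonneg _)

private lemma mixr_sgn (t a b x : ℝ) : 0 ≤ x * mixr t a b x := by
  unfold mixr
  split_ifs with h
  · exact mul_nonneg h (Real.sqrt_nonneg _)
  · push Not at h
    exact mul_nonneg_of_nonpos_of_nonpos h.le (neg_nonpos.2 (Real.sqrt_nonneg _))

private lemma sqrt_le_add {t : ℝ} (ht : t ∈ Icc (0 : ℝ) 1) {a b a' b' d : ℝ} (hd : 0 ≤ d)
    (ha : |a - a'| ≤ d) (hb : |b - b'| ≤ d) :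
    Real.sqrt ((1 - t) * a ^ 2 + t * b ^ 2) ≤
      Real.sqrt ((1 - t) * a' ^ 2 + t * b' ^ 2) + d := by
  have h1 : 0 ≤ 1 - t := by linarith [ht.2]
  have h2 : 0 ≤ t := ht.1
  set N := Real.sqrt ((1 - t) * a' ^ 2 + t * b' ^ 2) with hN
  have hN0 : 0 ≤ N := Real.sqrt_nonneg _
  have hNsq : N ^ 2 = (1 - t) * a' ^ 2 + t * b' ^ 2 := Real.sq_sqrt (rad_nonneg ht a' b')
  apply Real.sqrt_le_iff.2
  refine ⟨by positivity, ?_⟩
  have ha1 : |a| ≤ |a'| + d := by
    have := abs_sub_abs_le_abs_sub a a'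
    linarith
  have hb1 : |b| ≤ |b'| + d := by
    have := abs_sub_abs_le_abs_sub b b'
    linarith
  have ha2 : a ^ 2 ≤ (|a'| + d) ^ 2 := by
    rw [← sq_abs a]
    exact pow_le_pow_left₀ (abs_nonneg _) ha1 2
  have hb2 : b ^ 2 ≤ (|b'| + d) ^ 2 := by
    rw [← sq_abs b]
    exact pow_le_pow_left₀ (abs_nonneg _) hb1 2
  -- Jensen
  have hJ : (1 - t) * |a'| + t * |b'| ≤ N := by
    apply Real.le_sqrt_of_sq_le
    rw [← sq_abs a', ← sq_abs b']
    nlinarith [mul_nonneg (mul_nonneg h1 h2) (sq_nonneg (|a'| - |b'|))]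
  have e1 : (1 - t) * a ^ 2 ≤ (1 - t) * (|a'| + d) ^ 2 := mul_le_mul_of_nonneg_left ha2 h1
  have e2 : t * b ^ 2 ≤ t * (|b'| + d) ^ 2 := mul_le_mul_of_nonneg_left hb2 h2
  have e3 : d * ((1 - t) * |a'| + t * |b'|) ≤ d * N := mul_le_mul_of_nonneg_left hJ hd
  have e4 : (1 - t) * (|a'| + d) ^ 2 + t * (|b'| + d) ^ 2 =
      ((1 - t) * a' ^ 2 + t * b' ^ 2) + 2 * (d * ((1 - t) * |a'| + t * |b'|)) + d ^ 2 := by
    rw [← sq_abs a', ← sq_abs b']
    ring
  nlinarith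

private lemma sqrt_le_of_le {t : ℝ} (ht : t ∈ Icc (0 : ℝ) 1) {a b m : ℝ} (hm : 0 ≤ m)
    (ha : |a| ≤ m) (hb : |b| ≤ m) : Real.sqrt ((1 - t) * a ^ 2 + t * b ^ 2) ≤ m := by
  have h := sqrt_le_add ht (a := a) (b := b) (a' := 0) (b' := 0) hm (by simpa using ha)
    (by simpa using hb)
  simpa using h

private lemma le_sqrt_of_le {t : ℝ} (ht : t ∈ Icc (0 : ℝ) 1) {a b m : ℝ} (hm : 0 ≤ m)
    (ha : m ≤ |a|) (hb : m ≤ |b|) : m ≤ Real.sqrt ((1 - t) * a ^ 2 + t * b ^ 2) := by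
  have h1 : 0 ≤ 1 - t := by linarith [ht.2]
  have h2 : 0 ≤ t := ht.1
  apply Real.le_sqrt_of_sq_le
  have ha2 : m ^ 2 ≤ a ^ 2 := by
    rw [← sq_abs a]
    exact pow_le_pow_left₀ hm ha 2
  have hb2 : m ^ 2 ≤ b ^ 2 := by
    rw [← sq_abs b]
    exact pow_le_pow_left₀ hm hb 2
  have e1 := mul_le_mul_of_nonneg_left ha2 h1
  have e2 := mul_le_mul_of_nonneg_left hb2 h2
  nlinarith

/-! ### one component -/

/-- What we use of one component of a node, for the coordinate i. -/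
private structure Comp (i : Fin 2) (L : NNReal) (c : ℝ) (q : E2 → ℝ) : Prop where
  lip : LipschitzWith L q
  zero : ∀ x : E2, x i = 0 → q x = 0
  odd : ∀ x, q (-x) = - q x
  sgn : ∀ x : E2, 0 ≤ x i * q x
  pos : 0 < c
  low : ∀ x : E2, c * |x i| ≤ (1 + ‖x‖) * |q x|

private lemma Comp.abs_le {i : Fin 2} {L : NNReal} {c : ℝ} {q : E2 → ℝ} (h : Comp i L c q)
    (x : E2) : |q x| ≤ L * |x i| := by
  set z : E2 := x - x i • ev i with hz
  have hzi : z i = 0 := by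
    simp [hz, ev]
  have h1 := h.lip.dist_le_mul x z
  rw [Real.dist_eq, h.zero z hzi, sub_zero] at h1
  have h2 : dist x z = |x i| := by
    rw [dist_eq_norm, hz]
    simp [norm_smul, norm_ev]
  rw [h2] at h1
  exact h1

private noncomputable def sg (i : Fin 2) (t : ℝ) (q q' : E2 → ℝ) (x : E2) : ℝ :=
  mixr t (q x) (q' x) (x i)

private lemma sg_cont {i : Fin 2} {q q' : E2 → ℝ} (hq : Continuous q) (hq' : Continuous q')
    (hz : ∀ x : E2, x i = 0 → q x = 0) (hz' : ∀ x : E2, x i = 0 → q' x = 0) :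
    Continuous (fun p : ℝ × E2 => sg i p.1 q q' p.2) := by
  have hN : Continuous (fun p : ℝ × E2 =>
      Real.sqrt ((1 - p.1) * q p.2 ^ 2 + p.1 * q' p.2 ^ 2)) := by
    fun_prop
  have hx : Continuous (fun p : ℝ × E2 => p.2 i) := by fun_prop
  have h := Continuous.if_le (f := fun _ : ℝ × E2 => (0 : ℝ)) (g := fun p : ℝ × E2 => p.2 i)
    hN hN.neg continuous_const hx (by
      intro p hp
      have h0 : p.2 i = 0 := hp.symm
      have e1 : q p.2 = 0 := hz _ h0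
      have e2 : q' p.2 = 0 := hz' _ h0
      show Real.sqrt ((1 - p.1) * q p.2 ^ 2 + p.1 * q' p.2 ^ 2) =
        - Real.sqrt ((1 - p.1) * q p.2 ^ 2 + p.1 * q' p.2 ^ 2)
      rw [e1, e2]
      simp)
  exact h

private lemma sg_lip {i : Fin 2} {L : NNReal} {c c' t : ℝ} (ht : t ∈ Icc (0 : ℝ) 1)
    {q q' : E2 → ℝ} (h : Comp i L c q) (h' : Comp i L c' q') :
    LipschitzWith L (sg i t q q') := by
  have hL : (0 : ℝ) ≤ L := L.coe_nonneg
  -- same sign
  have same : ∀ x y : E2, Real.sqrt ((1 - t) * q x ^ 2 + t * q' x ^ 2) ≤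
      Real.sqrt ((1 - t) * q y ^ 2 + t * q' y ^ 2) + L * dist x y := fun x y => by
    have h1 := h.lip.dist_le_mul x y
    have h2 := h'.lip.dist_le_mul x y
    rw [Real.dist_eq] at h1 h2
    exact sqrt_le_add ht (by positivity) h1 h2
  have same' : ∀ x y : E2, |Real.sqrt ((1 - t) * q x ^ 2 + t * q' x ^ 2) -
      Real.sqrt ((1 - t) * q y ^ 2 + t * q' y ^ 2)| ≤ L * dist x y := fun x y => by
    have h1 := same x y
    have h2 := same y x
    rw [dist_comm y x] at h2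
    rw [abs_le]
    constructor <;> linarith
  have sm : ∀ x : E2, Real.sqrt ((1 - t) * q x ^ 2 + t * q' x ^ 2) ≤ L * |x i| := fun x =>
    sqrt_le_of_le ht (by positivity) (h.abs_le x) (h'.abs_le x)
  have opp : ∀ x y : E2, 0 ≤ x i → y i < 0 →
      Real.sqrt ((1 - t) * q x ^ 2 + t * q' x ^ 2) +
      Real.sqrt ((1 - t) * q y ^ 2 + t * q' y ^ 2) ≤ L * dist x y := fun x y hx hy => by
    have h1 := sm x
    have h2 := sm y
    have h3 : |x i| + |y i| ≤ dist x y := by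
      rw [abs_of_nonneg hx, abs_of_neg hy, dist_eq_norm]
      have h4 := EuclideanSpace.norm_eq (x - y)
      have h5 : |(x - y) i| ≤ ‖x - y‖ := by
        have := PiLp.norm_apply_le (x - y) i
        simpa using this
      have h6 : (x - y) i = x i - y i := rfl
      rw [h6, abs_of_nonneg (by linarith)] at h5
      linarith
    calc _ ≤ L * |x i| + L * |y i| := add_le_add h1 h2
      _ = L * (|x i| + |y i|) := by ring
      _ ≤ L * dist x y := mul_le_mul_of_nonneg_left h3 hL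
  apply LipschitzWith.of_dist_le_mul
  intro x y
  rw [Real.dist_eq]
  unfold sg mixr
  by_cases hx : 0 ≤ x i
  · by_cases hy : 0 ≤ y i
    · rw [if_pos hx, if_pos hy]
      exact same' x y
    · rw [if_pos hx, if_neg hy, sub_neg_eq_add]
      push Not at hy
      rw [abs_of_nonneg (add_nonneg (Real.sqrt_nonneg _) (Real.sqrt_nonneg _))]
      exact opp x y hx hy
  · by_cases hy : 0 ≤ y i
    · rw [if_neg hx, if_pos hy]
      push Not at hx
      have h1 := opp y x hy hx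
      rw [dist_comm y x] at h1
      have h2 : -Real.sqrt ((1 - t) * q x ^ 2 + t * q' x ^ 2) -
          Real.sqrt ((1 - t) * q y ^ 2 + t * q' y ^ 2) =
          -(Real.sqrt ((1 - t) * q y ^ 2 + t * q' y ^ 2) +
          Real.sqrt ((1 - t) * q x ^ 2 + t * q' x ^ 2)) := by ring
      rw [h2, abs_neg, abs_of_nonneg (add_nonneg (Real.sqrt_nonneg _) (Real.sqrt_nonneg _))]
      exact h1
    · rw [if_neg hx, if_neg hy]
      have h2 : -Real.sqrt ((1 - t) * q x ^ 2 + t * q' x ^ 2) -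
          -Real.sqrt ((1 - t) * q y ^ 2 + t * q' y ^ 2) =
          -(Real.sqrt ((1 - t) * q x ^ 2 + t * q' x ^ 2) -
          Real.sqrt ((1 - t) * q y ^ 2 + t * q' y ^ 2)) := by ring
      rw [h2, abs_neg]
      exact same' x y

private lemma sg_odd {i : Fin 2} {L : NNReal} {c c' t : ℝ}
    {q q' : E2 → ℝ} (h : Comp i L c q) (h' : Comp i L c' q') (x : E2) :
    sg i t q q' (-x) = - sg i t q q' x := by
  unfold sg mixr
  rw [h.odd, h'.odd, neg_sq, neg_sq]
  have hn : (-x) i = - x i := rfl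
  rw [hn]
  rcases lt_trichotomy (x i) 0 with hx | hx | hx
  · rw [if_pos (by linarith), if_neg (by linarith), neg_neg]
  · rw [h.zero x hx, h'.zero x hx]
    simp
  · rw [if_neg (by linarith), if_pos (by linarith)]

private lemma sg_low {i : Fin 2} {L : NNReal} {c c' t : ℝ} (ht : t ∈ Icc (0 : ℝ) 1)
    {q q' : E2 → ℝ} (h : Comp i L c q) (h' : Comp i L c' q') (x : E2) :
    min c c' * |x i| ≤ (1 + ‖x‖) * |sg i t q q' x| := by
  have hx : 0 < 1 + ‖x‖ := by positivity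
  unfold sg
  rw [mixr_abs]
  have h1 : min c c' * |x i| / (1 + ‖x‖) ≤ |q x| := by
    rw [div_le_iff₀ hx, mul_comm |q x|]
    exact (mul_le_mul_of_nonneg_right (min_le_left _ _) (abs_nonneg _)).trans (h.low x)
  have h2 : min c c' * |x i| / (1 + ‖x‖) ≤ |q' x| := by
    rw [div_le_iff₀ hx, mul_comm |q' x|]
    exact (mul_le_mul_of_nonneg_right (min_le_right _ _) (abs_nonneg _)).trans (h'.low x)
  have h3 : 0 ≤ min c c' * |x i| / (1 + ‖x‖) := by
    have : 0 < min c c' := lt_min h.pos h'.pos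
    positivity
  have h4 := le_sqrt_of_le ht h3 h1 h2
  rw [div_le_iff₀ hx] at h4
  linarith

private lemma sg_zero {i : Fin 2} {L : NNReal} {c : ℝ} {q : E2 → ℝ} (h : Comp i L c q)
    (x : E2) (b : ℝ) : mixr 0 (q x) b (x i) = q x := by
  unfold mixr
  rw [sub_zero, one_mul, zero_mul, add_zero, Real.sqrt_sq_eq_abs]
  have hs := h.sgn x
  split_ifs with hx
  · rcases hx.eq_or_lt with h0 | h0
    · rw [h.zero x h0.symm, abs_zero]
    · exact abs_of_nonneg (nonneg_of_mul_nonneg_right hs h0)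
  · push Not at hx
    have : q x ≤ 0 := by nlinarith
    rw [abs_of_nonpos this, neg_neg]

private lemma sg_one {i : Fin 2} {L : NNReal} {c : ℝ} {q : E2 → ℝ} (h : Comp i L c q)
    (x : E2) (a : ℝ) : mixr 1 a (q x) (x i) = q x := by
  have e : mixr 1 a (q x) (x i) = mixr 0 (q x) a (x i) := by
    unfold mixr
    simp
  rw [e]
  exact sg_zero h x a

private lemma zero_of {i : Fin 2} {L : NNReal} {q : E2 → ℝ} (hl : LipschitzWith L q)
    (hs : ∀ x : E2, 0 ≤ x i * q x) (x : E2) (hx : x i = 0) : q x = 0 := by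
  have hn : ∀ e : ℝ, |e| ≤ dist (x + e • ev i) x ∧ dist (x + e • ev i) x ≤ |e| := fun e => by
    have : dist (x + e • ev i) x = |e| := by
      rw [dist_eq_norm]
      simp [norm_smul, norm_ev]
    rw [this]
    exact ⟨le_rfl, le_rfl⟩
  have hi : ∀ e : ℝ, (x + e • ev i) i = e := fun e => by
    simp [hx, ev]
  have key : ∀ e : ℝ, 0 < e → |q x| ≤ L * e := by
    intro e he
    have h1 := hl.dist_le_mul (x + e • ev i) x
    have h2 := hl.dist_le_mul (x + (-e) • ev i) x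
    rw [Real.dist_eq] at h1 h2
    have h3 : 0 ≤ q (x + e • ev i) := by
      have h := hs (x + e • ev i)
      rw [hi] at h
      exact nonneg_of_mul_nonneg_right h he
    have h4 : q (x + (-e) • ev i) ≤ 0 := by
      have h := hs (x + (-e) • ev i)
      rw [hi] at h
      nlinarith
    have h5 : L * dist (x + e • ev i) x ≤ L * e := by
      have := (hn e).2
      rw [abs_of_pos he] at this
      exact mul_le_mul_of_nonneg_left this L.coe_nonneg
    have h6 : L * dist (x + (-e) • ev i) x ≤ L * e := by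
      have := (hn (-e)).2
      rw [abs_neg, abs_of_pos he] at this
      exact mul_le_mul_of_nonneg_left this L.coe_nonneg
    have h7 := (abs_le.1 (h1.trans h5)).2
    have h8 := (abs_le.1 (h2.trans h6)).1
    rw [abs_le]
    constructor <;> linarith [(abs_le.1 (h1.trans h5)).1, (abs_le.1 (h2.trans h6)).2]
  by_contra h0
  have hpos : 0 < |q x| := abs_pos.2 h0
  have hL : (0 : ℝ) ≤ L := L.coe_nonneg
  have h1 := key (|q x| / (2 * (L + 1))) (by positivity)
  have h2 : (L : ℝ) * (|q x| / (2 * (L + 1))) ≤ |q x| / 2 := by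
    rw [mul_div_assoc', div_le_div_iff₀ (by positivity) (by positivity)]
    nlinarith
  linarith

private lemma comp_of {q1 q2 r1 r2 : E2 → ℝ} (h : Node q1 q2) (h' : Node r1 r2) :
    ∃ (L : NNReal) (c c' : ℝ), Comp 0 L c q1 ∧ Comp 1 L c q2 ∧ Comp 0 L c' r1 ∧
      Comp 1 L c' r2 := by
  obtain ⟨L, hL⟩ := h.lip
  obtain ⟨L', hL'⟩ := h'.lip
  obtain ⟨c, hc0, hc⟩ := h.low
  obtain ⟨c', hc0', hc'⟩ := h'.low
  have m : (0 : ℝ) ∈ ({0} : Set ℝ) := rfl
  refine ⟨max L L', c, c', ⟨(hL 0 m).1.weaken (le_max_left _ _), fun x hx => zero_of (hL 0 m).1 (h.sgn1 0 m) x hx,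
    h.odd1 0 m, h.sgn1 0 m, hc0, fun x => (hc 0 m x).1⟩,
    ⟨(hL 0 m).2.weaken (le_max_left _ _), fun x hx => zero_of (hL 0 m).2 (h.sgn2 0 m) x hx,
    h.odd2 0 m, h.sgn2 0 m, hc0, fun x => (hc 0 m x).2⟩,
    ⟨(hL' 0 m).1.weaken (le_max_right _ _), fun x hx => zero_of (hL' 0 m).1 (h'.sgn1 0 m) x hx,
    h'.odd1 0 m, h'.sgn1 0 m, hc0', fun x => (hc' 0 m x).1⟩,
    ⟨(hL' 0 m).2.weaken (le_max_right _ _), fun x hx => zero_of (hL' 0 m).2 (h'.sgn2 0 m) x hx,
    h'.odd2 0 m, h'.sgn2 0 m, hc0', fun x => (hc' 0 m x).2⟩⟩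

theorem seg_path {q1 q2 r1 r2 : E2 → ℝ} (h : Node q1 q2) (h' : Node r1 r2) :
    Path (Icc (0 : ℝ) 1) (fun t => seg1 t q1 r1) (fun t => seg2 t q2 r2) ∧
      (∀ x, seg1 0 q1 r1 x = q1 x ∧ seg2 0 q2 r2 x = q2 x ∧ seg1 1 q1 r1 x = r1 x ∧
        seg2 1 q2 r2 x = r2 x) := by
  obtain ⟨L, c, c', h1, h2, h1', h2'⟩ := comp_of h h'
  refine ⟨⟨?_, ?_, ?_, ?_, ?_, ?_, ?_, ?_⟩, ?_⟩
  · exact (sg_cont h1.lip.continuous h1'.lip.continuous h1.zero h1'.zero).continuousOn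
  · exact (sg_cont h2.lip.continuous h2'.lip.continuous h2.zero h2'.zero).continuousOn
  · exact fun t _ x => sg_odd h1 h1' x
  · exact fun t _ x => sg_odd h2 h2' x
  · exact fun t _ x => mixr_sgn _ _ _ _
  · exact fun t _ x => mixr_sgn _ _ _ _
  · exact ⟨L, fun t ht => ⟨sg_lip ht h1 h1', sg_lip ht h2 h2'⟩⟩
  · exact ⟨min c c', lt_min h1.pos h1'.pos, fun t ht x => ⟨sg_low ht h1 h1' x, sg_low ht h2 h2' x⟩⟩
  · exact fun x => ⟨sg_zero h1 x _, sg_zero h2 x _, sg_one h1' x _, sg_one h2' x _⟩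

/-! ### the gradient inequality -/

private lemma gsq_le_of {S a b : E2 → ℝ} {t : ℝ} (ht : t ∈ Icc (0 : ℝ) 1) {x : E2}
    (hS : ∀ y, S y ^ 2 = (1 - t) * a y ^ 2 + t * b y ^ 2) (h0 : S x ≠ 0)
    (dS : ∀ i, HasLineDerivAt ℝ S (pd i S x) x (ev i))
    (da : ∀ i, HasLineDerivAt ℝ a (pd i a x) x (ev i))
    (db : ∀ i, HasLineDerivAt ℝ b (pd i b x) x (ev i)) :
    gsq S x ≤ (1 - t) * gsq a x + t * gsq b x := by
  have h1 : 0 ≤ 1 - t := by linarith [ht.2]
  have h2 : 0 ≤ t := ht.1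
  have key : ∀ i, S x * pd i S x = (1 - t) * (a x * pd i a x) + t * (b x * pd i b x) := by
    intro i
    have e1 := pd_mul (dS i) (dS i)
    have e2 := pd_mul (da i) (da i)
    have e3 := pd_mul (db i) (db i)
    have e4 : HasLineDerivAt ℝ (fun y => (1 - t) * (a y * a y) + t * (b y * b y))
        ((1 - t) * (pd i a x * a x + a x * pd i a x) + t * (pd i b x * b x + b x * pd i b x))
        x (ev i) := by
      unfold HasLineDerivAt at *
      exact (e2.const_mul (1 - t)).add (e3.const_mul t)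
    have hfun : (fun y => S y * S y) = fun y => (1 - t) * (a y * a y) + t * (b y * b y) := by
      funext y
      have := hS y
      nlinarith [this]
    rw [hfun] at e1
    have e5 := HasDerivAt.unique (show HasDerivAt _ _ _ from e1) (show HasDerivAt _ _ _ from e4)
    linarith
  have k0 := key 0
  have k1 := key 1
  have hSx := hS x
  have hpos : 0 < S x ^ 2 := by positivity
  unfold gsq
  set s0 := pd 0 S x
  set s1 := pd 1 S x
  set a0 := pd 0 a x
  set a1 := pd 1 a x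
  set b0 := pd 0 b x
  set b1 := pd 1 b x
  set A := a x
  set B := b x
  set T := S x
  have hc : T ^ 2 * (s0 ^ 2 + s1 ^ 2) ≤
      T ^ 2 * ((1 - t) * (a0 ^ 2 + a1 ^ 2) + t * (b0 ^ 2 + b1 ^ 2)) := by
    have l : T ^ 2 * (s0 ^ 2 + s1 ^ 2) = ((1 - t) * (A * a0) + t * (B * b0)) ^ 2 +
        ((1 - t) * (A * a1) + t * (B * b1)) ^ 2 := by
      rw [← k0, ← k1]
      ring
    rw [l, hSx]
    have m : 0 ≤ (1 - t) * t := mul_nonneg h1 h2
    nlinarith [mul_nonneg m (sq_nonneg (A * b0 - B * a0)), mul_nonneg m (sq_nonneg (A * b1 - B * a1))]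
  exact le_of_mul_le_mul_left hc hpos

private lemma ae_ne (i : Fin 2) : ∀ᵐ x ∂(volume : Measure E2), x i ≠ 0 := by
  have h : volume ((LinearMap.ker ((EuclideanSpace.proj i : E2 →L[ℝ] ℝ) : E2 →ₗ[ℝ] ℝ) :
      Submodule ℝ E2) : Set E2) = 0 := by
    apply Measure.addHaar_submodule
    intro htop
    have h1 : ev i ∈ LinearMap.ker ((EuclideanSpace.proj i : E2 →L[ℝ] ℝ) : E2 →ₗ[ℝ] ℝ) := by
      rw [htop]
      trivial
    rw [LinearMap.mem_ker] at h1
    have h2 : (ev i) i = 0 := h1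
    simp [ev] at h2
  rw [ae_iff]
  convert h using 2
  ext x
  simp

private lemma gsq_sg {i : Fin 2} {L : NNReal} {c c' t : ℝ} (ht : t ∈ Icc (0 : ℝ) 1)
    {q q' : E2 → ℝ} (h : Comp i L c q) (h' : Comp i L c' q') :
    ∀ᵐ x ∂(volume : Measure E2), gsq (sg i t q q') x ≤ (1 - t) * gsq q x + t * gsq q' x := by
  have hl := sg_lip ht h h'
  filter_upwards [ae_ne i, ae_hasPd hl 0, ae_hasPd hl 1, ae_hasPd h.lip 0, ae_hasPd h.lip 1,
    ae_hasPd h'.lip 0, ae_hasPd h'.lip 1] with x hx s0 s1 a0 a1 b0 b1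
  refine gsq_le_of ht (fun y => mixr_sq ht _ _ _) ?_ ?_ ?_ ?_
  · intro h0
    have h1 := sg_low ht h h' x
    rw [h0, abs_zero, mul_zero] at h1
    have h2 : 0 < min c c' * |x i| := mul_pos (lt_min h.pos h'.pos) (abs_pos.2 hx)
    linarith
  · intro j
    fin_cases j
    · exact s0
    · exact s1
  · intro j
    fin_cases j
    · exact a0
    · exact a1
  · intro j
    fin_cases j
    · exact b0
    · exact b1

theorem seg_cert {q1 q2 r1 r2 : E2 → ℝ} (h : Node q1 q2) (h' : Node r1 r2) {α β K : ℝ}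
    (hc : Cert K (Fp α β 1 q1 q2)) (hc' : Cert K (Fp α β 1 r1 r2)) {t : ℝ}
    (ht : t ∈ Icc (0 : ℝ) 1) : Cert K (Fp α β 1 (seg1 t q1 r1) (seg2 t q2 r2)) := by
  obtain ⟨L, c, c', h1, h2, h1', h2'⟩ := comp_of h h'
  have ht1 : 0 ≤ 1 - t := by linarith [ht.2]
  have hsum := (Cert.smul ht1 hc).add (Cert.smul ht.1 hc')
  have hK : (1 - t) * K + t * K = K := by ring
  rw [hK] at hsum
  refine Cert.mono hsum (Wt_Fp (sg_lip ht h1 h1') (sg_lip ht h2 h2')) ?_
  filter_upwards [gsq_sg ht h1 h1', gsq_sg ht h2 h2'] with x g1 g2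
  have e1 : seg1 t q1 r1 x ^ 2 = (1 - t) * q1 x ^ 2 + t * r1 x ^ 2 := mixr_sq ht _ _ _
  have e2 : seg2 t q2 r2 x ^ 2 = (1 - t) * q2 x ^ 2 + t * r2 x ^ 2 := mixr_sq ht _ _ _
  have g1' : gsq (seg1 t q1 r1) x ≤ (1 - t) * gsq q1 x + t * gsq r1 x := g1
  have g2' : gsq (seg2 t q2 r2) x ≤ (1 - t) * gsq q2 x + t * gsq r2 x := g2
  unfold Fp
  rw [e1, e2]
  linarith

end Pool.Agent.PPW
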