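import Pool.Agent.Lib.MP_eb7570_an.CDefs

/-!
MP_eb7570_an: admissible families point inwards far away.
Proof: y = x - c. P . (-c) = P . y - P . x >= |P1| (|y0| - R0) + |P2| (|y1| - R0) by the sign
property. P1 vanishes for y0 = 0 (sign and continuity), so |P1 y| <= L |y0|. If |y0|, |y1| > R0 the
sum is positive (low). If |y0| <= R0 then the negative part is at most L R0^2 and
|P2| (|y1| - R0) >= (c/2)(|y|/2 - R0) is larger for |y| >= R - R0 large; same with 0, 1 exchanged.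
-/

set_option autoImplicit false

open MeasureTheory Filter Topology Metric Set

namespace Pool.Agent.PPW

private theorem pl_zero {i : Fin 2} {L : NNReal} {q : E2 → ℝ} (hl : LipschitzWith L q)
    (hs : ∀ x, 0 ≤ x i * q x) {x : E2} (hx : x i = 0) : q x = 0 := by
  have hd : ∀ t : ℝ, |q x - q (x + t • ev i)| ≤ L * |t| := by
    intro t
    have h := hl.dist_le_mul x (x + t • ev i)
    rw [Real.dist_eq] at h
    have e : dist x (x + t • ev i) = |t| := by
      rw [dist_eq_norm, show x - (x + t • ev i) = -(t • ev i) by abel, norm_neg, norm_smul]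
      unfold ev
      rw [EuclideanSpace.norm_single]
      simp
    rw [e] at h
    exact h
  have hc : ∀ t : ℝ, (x + t • ev i) i = t := by
    intro t
    simp [ev, hx]
  apply le_antisymm
  · by_contra hcon
    push Not at hcon
    have hL : (0:ℝ) ≤ L := L.2
    set t : ℝ := -(q x / (2 * (L + 1))) with ht
    have ht0 : t < 0 := by
      rw [ht]
      have : 0 < q x / (2 * (L + 1)) := by positivity
      linarith
    have h1 := hs (x + t • ev i)
    rw [hc] at h1
    have h2 : q (x + t • ev i) ≤ 0 := by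
      by_contra h3
      push Not at h3
      have := mul_neg_of_neg_of_pos ht0 h3
      linarith
    have h3 := hd t
    have h4 : q x ≤ L * |t| := by
      have := (abs_le.1 h3).2
      linarith
    have h5 : |t| = q x / (2 * (L + 1)) := by
      rw [abs_of_neg ht0, ht]
      ring
    rw [h5] at h4
    have h6 : (L : ℝ) * (q x / (2 * (L + 1))) < q x := by
      have : (L : ℝ) * (q x / (2 * (L + 1))) = q x * (L / (2 * (L + 1))) := by ring
      rw [this]
      have h7 : (L : ℝ) / (2 * (L + 1)) < 1 := by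
        rw [div_lt_one (by positivity)]
        linarith
      calc q x * (L / (2 * (L + 1))) < q x * 1 := by
            exact mul_lt_mul_of_pos_left h7 hcon
        _ = q x := mul_one _
    linarith
  · by_contra hcon
    push Not at hcon
    have hL : (0:ℝ) ≤ L := L.2
    set t : ℝ := -q x / (2 * (L + 1)) with ht
    have ht0 : 0 < t := by
      rw [ht]
      have : 0 < -q x := by linarith
      positivity
    have h1 := hs (x + t • ev i)
    rw [hc] at h1
    have h2 : 0 ≤ q (x + t • ev i) := by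
      by_contra h3
      push Not at h3
      have := mul_neg_of_pos_of_neg ht0 h3
      linarith
    have h3 := hd t
    have h4 : -q x ≤ L * |t| := by
      have := (abs_le.1 h3).1
      linarith
    rw [abs_of_pos ht0, ht] at h4
    have h6 : (L : ℝ) * (-q x / (2 * (L + 1))) < -q x := by
      have : (L : ℝ) * (-q x / (2 * (L + 1))) = -q x * (L / (2 * (L + 1))) := by ring
      rw [this]
      have h7 : (L : ℝ) / (2 * (L + 1)) < 1 := by
        rw [div_lt_one (by positivity)]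
        linarith
      calc -q x * (L / (2 * (L + 1))) < -q x * 1 := by
            exact mul_lt_mul_of_pos_left h7 (by linarith)
        _ = -q x := mul_one _
    linarith

private theorem pl_le {i : Fin 2} {L : NNReal} {q : E2 → ℝ} (hl : LipschitzWith L q)
    (hs : ∀ x, 0 ≤ x i * q x) (x : E2) : |q x| ≤ L * |x i| := by
  have h0 : q (x - (x i) • ev i) = 0 := by
    apply pl_zero hl hs
    simp [ev]
  have h := hl.dist_le_mul x (x - (x i) • ev i)
  rw [Real.dist_eq, h0, sub_zero] at h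
  have e : dist x (x - (x i) • ev i) = |x i| := by
    rw [dist_eq_norm, show x - (x - (x i) • ev i) = (x i) • ev i by abel, norm_smul]
    unfold ev
    rw [EuclideanSpace.norm_single]
    simp
  rw [e] at h
  exact h

private theorem pl_coord (x : E2) (i : Fin 2) : |x i| ≤ ‖x‖ := by
  have := EuclideanSpace.norm_eq x
  rw [← Real.norm_eq_abs]
  exact PiLp.norm_apply_le x i

private theorem pl_sum (x : E2) : ‖x‖ ≤ |x 0| + |x 1| := by
  have h : ‖x‖ ^ 2 ≤ (|x 0| + |x 1|) ^ 2 := by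
    rw [EuclideanSpace.norm_sq_eq, Fin.sum_univ_two, Real.norm_eq_abs, Real.norm_eq_abs]
    nlinarith [abs_nonneg (x 0), abs_nonneg (x 1)]
  exact (sq_le_sq₀ (norm_nonneg _) (by positivity)).1 h

theorem Path.zero1 {I : Set ℝ} {P1 P2 : ℝ → E2 → ℝ} (hP : Path I P1 P2) {s : ℝ} (hs : s ∈ I)
    {x : E2} (hx : x 0 = 0) : P1 s x = 0 := by
  obtain ⟨L, hL⟩ := hP.lip
  exact pl_zero (hL s hs).1 (hP.sgn1 s hs) hx

theorem Path.zero2 {I : Set ℝ} {P1 P2 : ℝ → E2 → ℝ} (hP : Path I P1 P2) {s : ℝ} (hs : s ∈ I)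
    {x : E2} (hx : x 1 = 0) : P2 s x = 0 := by
  obtain ⟨L, hL⟩ := hP.lip
  exact pl_zero (hL s hs).2 (hP.sgn2 s hs) hx

/-- The numerical core of `Path.inward`: the case of a small first coordinate. -/
private theorem pl_core {k L R0 T a b p q : ℝ} (hk : 0 < k) (hR0 : 0 < R0) (hL : 0 ≤ L)
    (hT : 4 * R0 + 1 + 8 * (L * R0 ^ 2 + 1) / k ≤ T) (hTab : T ≤ a + b) (hb : 0 ≤ b)
    (ha : 0 ≤ a) (haR : a ≤ R0) (hp : p ≤ L * a) (hp0 : 0 ≤ p)
    (hq : k * b ≤ (1 + T) * q) :
    0 < p * (a - R0) + q * (b - R0) := by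
  have h8 : 0 < 8 * (L * R0 ^ 2 + 1) / k := by positivity
  have hT1 : 4 * R0 + 1 ≤ T := by linarith
  have hT0 : 0 < 1 + T := by linarith
  have hbT : T - R0 ≤ b := by linarith
  have h1 : -(L * R0 ^ 2) ≤ p * (a - R0) := by
    have h2 : p * (R0 - a) ≤ (L * a) * R0 := by
      calc p * (R0 - a) ≤ p * R0 := by
            apply mul_le_mul_of_nonneg_left _ hp0
            linarith
        _ ≤ (L * a) * R0 := by
            apply mul_le_mul_of_nonneg_right hp hR0.le
    have h3 : L * a * R0 ≤ L * R0 * R0 := by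
      have : L * a ≤ L * R0 := mul_le_mul_of_nonneg_left haR hL
      exact mul_le_mul_of_nonneg_right this hR0.le
    nlinarith
  have hqk : k / 4 ≤ q := by
    have h2 : (1 + T) / 4 ≤ b := by linarith
    have h3 : k * ((1 + T) / 4) ≤ (1 + T) * q := le_trans (mul_le_mul_of_nonneg_left h2 hk.le) hq
    have h4 : (1 + T) * (k / 4) ≤ (1 + T) * q := by linarith
    exact le_of_mul_le_mul_left h4 hT0
  have hbR : T / 2 ≤ b - R0 := by linarith
  have h5 : k / 4 * (T / 2) ≤ q * (b - R0) := by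
    apply mul_le_mul hqk hbR (by linarith) (by linarith)
  have h6 : L * R0 ^ 2 + 1 ≤ k / 8 * T := by
    have h7 : 8 * (L * R0 ^ 2 + 1) / k ≤ T := by linarith
    rw [div_le_iff₀ hk] at h7
    linarith
  linarith

theorem Path.inward {I : Set ℝ} {P1 P2 : ℝ → E2 → ℝ} (hP : Path I P1 P2) {R0 : ℝ}
    (hR0 : 0 < R0) :
    ∃ R : ℝ, 0 < R ∧ ∀ s ∈ I, ∀ x c : E2, ‖x‖ ≤ R0 → ‖c‖ = R →
      0 < P1 s (x - c) * (- c 0) + P2 s (x - c) * (- c 1) := by
  obtain ⟨L, hL⟩ := hP.lip
  obtain ⟨k, hk, hlow⟩ := hP.low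
  have hL0 : (0:ℝ) ≤ L := L.2
  have h8 : 0 < 8 * ((L:ℝ) * R0 ^ 2 + 1) / k := by positivity
  refine ⟨R0 + (4 * R0 + 1 + 8 * (L * R0 ^ 2 + 1) / k), by linarith, ?_⟩
  intro s hs x c hx hc
  set y : E2 := x - c with hy
  have hyT : 4 * R0 + 1 + 8 * (L * R0 ^ 2 + 1) / k ≤ ‖y‖ := by
    have h1 : ‖c‖ ≤ ‖y‖ + ‖x‖ := by
      have : c = x - y := by rw [hy]; abel
      rw [this]
      calc ‖x - y‖ ≤ ‖x‖ + ‖y‖ := norm_sub_le _ _
        _ = ‖y‖ + ‖x‖ := add_comm _ _
    linarith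
  have hc0 : - c 0 = y 0 - x 0 := by rw [hy]; simp
  have hc1 : - c 1 = y 1 - x 1 := by rw [hy]; simp
  rw [hc0, hc1]
  have hs1 := hP.sgn1 s hs y
  have hs2 := hP.sgn2 s hs y
  have e1 : |P1 s y| * |y 0| = P1 s y * y 0 := by
    rw [← abs_mul, abs_of_nonneg (by linarith [mul_comm (P1 s y) (y 0)])]
  have e2 : |P2 s y| * |y 1| = P2 s y * y 1 := by
    rw [← abs_mul, abs_of_nonneg (by linarith [mul_comm (P2 s y) (y 1)])]
  have f1 : P1 s y * x 0 ≤ |P1 s y| * R0 := by
    calc P1 s y * x 0 ≤ |P1 s y * x 0| := le_abs_self _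
      _ = |P1 s y| * |x 0| := abs_mul _ _
      _ ≤ |P1 s y| * R0 := mul_le_mul_of_nonneg_left ((pl_coord x 0).trans hx) (abs_nonneg _)
  have f2 : P2 s y * x 1 ≤ |P2 s y| * R0 := by
    calc P2 s y * x 1 ≤ |P2 s y * x 1| := le_abs_self _
      _ = |P2 s y| * |x 1| := abs_mul _ _
      _ ≤ |P2 s y| * R0 := mul_le_mul_of_nonneg_left ((pl_coord x 1).trans hx) (abs_nonneg _)
  have key : |P1 s y| * (|y 0| - R0) + |P2 s y| * (|y 1| - R0) ≤
      P1 s y * (y 0 - x 0) + P2 s y * (y 1 - x 1) := by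
    have g1 : |P1 s y| * (|y 0| - R0) = P1 s y * y 0 - |P1 s y| * R0 := by rw [mul_sub, e1]
    have g2 : |P2 s y| * (|y 1| - R0) = P2 s y * y 1 - |P2 s y| * R0 := by rw [mul_sub, e2]
    rw [g1, g2]
    linarith
  refine lt_of_lt_of_le ?_ key
  have hl := hlow s hs y
  have hle1 := pl_le (hL s hs).1 (hP.sgn1 s hs) y
  have hle2 := pl_le (hL s hs).2 (hP.sgn2 s hs) y
  have hsum := pl_sum y
  by_cases h0 : |y 0| ≤ R0
  · exact pl_core hk hR0 hL0 hyT hsum (abs_nonneg _) (abs_nonneg _) h0 hle1 (abs_nonneg _) hl.2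
  · by_cases h1 : |y 1| ≤ R0
    · have := pl_core hk hR0 hL0 hyT (by linarith : ‖y‖ ≤ |y 1| + |y 0|) (abs_nonneg _)
        (abs_nonneg _) h1 hle2 (abs_nonneg _) hl.1
      linarith
    · push Not at h0 h1
      have hp1 : 0 < |P1 s y| := by
        have h2 : 0 < k * |y 0| := mul_pos hk (by linarith)
        have h3 : 0 < (1 + ‖y‖) * |P1 s y| := lt_of_lt_of_le h2 hl.1
        exact pos_of_mul_pos_right h3 (by positivity)
      have h2 : 0 < |P1 s y| * (|y 0| - R0) := mul_pos hp1 (by linarith)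
      have h3 : 0 ≤ |P2 s y| * (|y 1| - R0) := mul_nonneg (abs_nonneg _) (by linarith)
      linarith

theorem Path.bound {I : Set ℝ} {P1 P2 : ℝ → E2 → ℝ} (hP : Path I P1 P2) (R : ℝ) :
    ∃ B : ℝ, 0 ≤ B ∧ ∀ s ∈ I, ∀ x : E2, ‖x‖ ≤ R → |P1 s x| ≤ B ∧ |P2 s x| ≤ B := by
  obtain ⟨L, hL⟩ := hP.lip
  have hL0 : (0:ℝ) ≤ L := L.2
  refine ⟨L * |R|, by positivity, ?_⟩
  intro s hs x hx
  have h1 := pl_le (hL s hs).1 (hP.sgn1 s hs) x
  have h2 := pl_le (hL s hs).2 (hP.sgn2 s hs) x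
  have h3 : ∀ i, |x i| ≤ |R| := fun i => (pl_coord x i).trans (hx.trans (le_abs_self R))
  exact ⟨h1.trans (mul_le_mul_of_nonneg_left (h3 0) hL0),
    h2.trans (mul_le_mul_of_nonneg_left (h3 1) hL0)⟩

end Pool.Agent.PPW
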