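import Pool.Agent.Lib.MP_eb7570_an.Step

/-!
Invariance under rigid motions.
-/

set_option autoImplicit false

open MeasureTheory Filter Topology Metric Set

namespace Pool.Agent.PPW

/-- The rigid motion `x ↦ A (x - c)`. -/
noncomputable def mv (A : E2 ≃ₗᵢ[ℝ] E2) (c : E2) (x : E2) : E2 := A (x - c)

/-- The rigid motion as a homeomorphism. -/
noncomputable def mvH (A : E2 ≃ₗᵢ[ℝ] E2) (c : E2) : E2 ≃ₜ E2 :=
  (Homeomorph.subRight c).trans A.toHomeomorph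

theorem mvH_apply (A : E2 ≃ₗᵢ[ℝ] E2) (c x : E2) : mvH A c x = mv A c x := rfl

theorem mv_mp (A : E2 ≃ₗᵢ[ℝ] E2) (c : E2) :
    MeasurePreserving (mv A c) (volume : Measure E2) volume :=
  A.measurePreserving.comp (measurePreserving_sub_right volume c)

theorem mv_emb (A : E2 ≃ₗᵢ[ℝ] E2) (c : E2) : MeasurableEmbedding (mv A c) :=
  (mvH A c).measurableEmbedding

theorem int_mv (A : E2 ≃ₗᵢ[ℝ] E2) (c : E2) (g : E2 → ℝ) :
    ∫ x, g (mv A c x) = ∫ x, g x := (mv_mp A c).integral_comp (mv_emb A c) g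

theorem mv_inv (A : E2 ≃ₗᵢ[ℝ] E2) (c x : E2) : mv A.symm (-A c) (mv A c x) = x := by
  unfold mv
  simp

theorem mv_inv' (A : E2 ≃ₗᵢ[ℝ] E2) (c x : E2) : mv A c (mv A.symm (-A c) x) = x := by
  unfold mv
  simp

theorem mv_dist (A : E2 ≃ₗᵢ[ℝ] E2) (c x y : E2) : dist (mv A c x) (mv A c y) = dist x y := by
  unfold mv
  rw [A.dist_map, dist_sub_right]

theorem mv_norm_le (A : E2 ≃ₗᵢ[ℝ] E2) (c x : E2) : ‖mv A c x‖ ≤ ‖x‖ + ‖c‖ := by
  unfold mv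
  rw [A.norm_map]
  exact norm_sub_le _ _

theorem mv_contDiff (A : E2 ≃ₗᵢ[ℝ] E2) (c : E2) :
    ContDiff ℝ ((⊤ : ℕ∞) : WithTop ℕ∞) (mv A c) :=
  A.contDiff.comp (contDiff_id.sub contDiff_const)

theorem mv_hasFDerivAt (A : E2 ≃ₗᵢ[ℝ] E2) (c x : E2) :
    HasFDerivAt (mv A c) (A.toContinuousLinearEquiv : E2 →L[ℝ] E2) x := by
  have h1 : HasFDerivAt (fun y : E2 => y - c) (ContinuousLinearMap.id ℝ E2) x :=
    (hasFDerivAt_id x).sub_const c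
  have h2 : HasFDerivAt (fun y : E2 => A y) (A.toContinuousLinearEquiv : E2 →L[ℝ] E2) (x - c) :=
    (A.toContinuousLinearEquiv : E2 →L[ℝ] E2).hasFDerivAt
  exact h2.comp x h1

theorem g2_eq {u : E2 → ℝ} {x : E2} (hu : DifferentiableAt ℝ u x) :
    g2 u x = ‖fderiv ℝ u x‖ ^ 2 := by
  rw [norm_fderiv_sq hu]
  unfold g2
  ring

theorem g2_mv {u : E2 → ℝ} {A : E2 ≃ₗᵢ[ℝ] E2} {c x : E2}
    (hu : DifferentiableAt ℝ u (mv A c x)) :
    g2 (fun y => u (mv A c y)) x = g2 u (mv A c x) := by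
  have h1 : HasFDerivAt (fun y => u (mv A c y))
      ((fderiv ℝ u (mv A c x)).comp (A.toContinuousLinearEquiv : E2 →L[ℝ] E2)) x :=
    hu.hasFDerivAt.comp x (mv_hasFDerivAt A c x)
  rw [g2_eq h1.differentiableAt, g2_eq hu, h1.fderiv]
  congr 1
  exact ContinuousLinearMap.opNorm_comp_linearIsometryEquiv (fderiv ℝ u (mv A c x)) A

theorem lip_mv {u : E2 → ℝ} {C : NNReal} (hu : LipschitzWith C u) (A : E2 ≃ₗᵢ[ℝ] E2) (c : E2) :
    LipschitzWith C (fun x => u (mv A c x)) := by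
  apply LipschitzWith.of_dist_le_mul
  intro x y
  have h := hu.dist_le_mul (mv A c x) (mv A c y)
  rw [mv_dist] at h
  exact h

theorem g2_mv_ae {u : E2 → ℝ} {C : NNReal} (hu : LipschitzWith C u) (A : E2 ≃ₗᵢ[ℝ] E2)
    (c : E2) : ∀ᵐ x ∂(volume : Measure E2),
      g2 (fun y => u (mv A c y)) x = g2 u (mv A c x) := by
  have h1 := hu.ae_differentiableAt (μ := (volume : Measure E2))
  have h2 := (mv_mp A c).quasiMeasurePreserving.ae h1
  filter_upwards [h2] with x hx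
  exact g2_mv hx

theorem Ff_mv_ae {P1 P2 : E2 → ℝ} {C D : NNReal} (h1 : LipschitzWith C P1)
    (h2 : LipschitzWith D P2) (al be : ℝ) (A : E2 ≃ₗᵢ[ℝ] E2) (c : E2) :
    ∀ᵐ x ∂(volume : Measure E2), Ff al be (fun y => P1 (mv A c y)) (fun y => P2 (mv A c y)) x =
      Ff al be P1 P2 (mv A c x) := by
  filter_upwards [g2_mv_ae h1 A c, g2_mv_ae h2 A c] with x a b
  unfold Ff
  rw [a, b]

/-! ### Test functions, forms -/

theorem tsupport_mv (u : E2 → ℝ) (A : E2 ≃ₗᵢ[ℝ] E2) (c : E2) :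
    tsupport (fun x => u (mv A c x)) = mv A c ⁻¹' tsupport u :=
  tsupport_comp_eq_preimage u (mvH A c)

theorem cpt_mv {u : E2 → ℝ} (hu : HasCompactSupport u) (A : E2 ≃ₗᵢ[ℝ] E2) (c : E2) :
    HasCompactSupport (fun x => u (mv A c x)) := hu.comp_homeomorph (mvH A c)

theorem Tc.mv {Ω : Set E2} {u : E2 → ℝ} (hu : Tc Ω u) (A : E2 ≃ₗᵢ[ℝ] E2) (c : E2) :
    Tc (Pool.Agent.PPW.mv A c ⁻¹' Ω) (fun x => u (Pool.Agent.PPW.mv A c x)) := by
  refine ⟨hu.smooth.comp (mv_contDiff A c), cpt_mv hu.cpt A c, ?_⟩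
  rw [tsupport_mv]
  exact preimage_mono hu.sub

theorem Ma_mv (u w : E2 → ℝ) (A : E2 ≃ₗᵢ[ℝ] E2) (c : E2) :
    Ma (fun x => u (mv A c x)) (fun x => w (mv A c x)) = Ma u w := by
  unfold Ma
  exact int_mv A c (fun x => u x * w x)

theorem En_eq_g2 (u : E2 → ℝ) : En u u = ∫ x, g2 u x := by
  unfold En g2
  apply integral_congr_ae
  refine Eventually.of_forall fun x => ?_
  show pd 0 u x * pd 0 u x + pd 1 u x * pd 1 u x = pd 0 u x ^ 2 + pd 1 u x ^ 2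
  ring

theorem En_mv {u : E2 → ℝ} {C : NNReal} (hu : LipschitzWith C u) (A : E2 ≃ₗᵢ[ℝ] E2) (c : E2) :
    En (fun x => u (mv A c x)) (fun x => u (mv A c x)) = En u u := by
  rw [En_eq_g2, En_eq_g2, ← int_mv A c (fun x => g2 u x)]
  apply integral_congr_ae
  filter_upwards [g2_mv_ae hu A c] with x hx
  exact hx

theorem Low.mv {lam : ℝ} {Ω : Set E2} (h : Low lam Ω) (A : E2 ≃ₗᵢ[ℝ] E2) (c : E2) :
    Low lam (Pool.Agent.PPW.mv A c ⁻¹' Ω) := by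
  intro u hu
  have h1 := hu.mv A.symm (-A c)
  have h2 : Pool.Agent.PPW.mv A.symm (-A c) ⁻¹' (Pool.Agent.PPW.mv A c ⁻¹' Ω) = Ω := by
    ext x
    simp only [mem_preimage, mv_inv']
  rw [h2] at h1
  have h3 := h _ h1
  obtain ⟨C, hC⟩ := hu.toLc.lip
  rw [Ma_mv, En_mv hC] at h3
  exact h3

theorem isOpen_mv {Ω : Set E2} (h : IsOpen Ω) (A : E2 ≃ₗᵢ[ℝ] E2) (c : E2) :
    IsOpen (mv A c ⁻¹' Ω) := h.preimage (mvH A c).continuous

/-- Certified functions may be moved. -/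
theorem CertK.mv {K : ℝ} {F : E2 → ℝ} (h : CertK K F) (A : E2 ≃ₗᵢ[ℝ] E2) (c : E2) :
    CertK K (fun x => F (Pool.Agent.PPW.mv A c x)) := by
  intro Ω hΩ hlow ε hε hε1 φ hφ hm hE
  obtain ⟨C, hC⟩ := hφ.toLc.lip
  have h1 := h (Pool.Agent.PPW.mv A.symm (-A c) ⁻¹' Ω) (isOpen_mv hΩ _ _) (hlow.mv _ _) ε hε hε1
    (fun x => φ (Pool.Agent.PPW.mv A.symm (-A c) x)) (hφ.mv _ _) (by rw [Ma_mv, hm])
    (by rw [En_mv hC]; exact hE)
  rw [← int_mv A c] at h1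
  simp only [mv_inv] at h1
  exact h1

end Pool.Agent.PPW
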