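import Pool.Agent.Lib.MP_eb7570_an.CDefs
import Pool.Agent.Lib.MP_eb7570_an.CertLem
import Pool.Agent.Lib.MP_eb7570_an.Dil
import Pool.Agent.Lib.MP_eb7570_an.Iso

/-!
MP_eb7570_an: dilations and rigid motions.
-/

set_option autoImplicit false

open MeasureTheory Filter Topology Metric Set

namespace Pool.Agent.PPW

/-- Dilation of the domain. -/
theorem lamk_smul (k : ℕ) (Ω : Set E2) {r : ℝ} (hr : 0 < r) :
    lamk k ((fun x : E2 => r • x) ⁻¹' Ω) = r ^ 2 * lamk k Ω := lamk_dil k Ω hr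

theorem Dom.smul {Ω : Set E2} (hΩ : Dom Ω) {r : ℝ} (hr : 0 < r) :
    Dom ((fun x : E2 => r • x) ⁻¹' Ω) := by
  refine ⟨hΩ.op.preimage (continuous_const_smul r), ?_, ?_⟩
  · obtain ⟨R, hR⟩ := hΩ.bd.exists_norm_le
    refine (Metric.isBounded_closedBall (x := (0 : E2)) (r := r⁻¹ * R)).subset ?_
    intro x hx
    have h1 := hR (r • x) hx
    rw [norm_smul, Real.norm_eq_abs, abs_of_pos hr] at h1
    rw [mem_closedBall, dist_zero_right, ← div_eq_inv_mul, le_div_iff₀ hr]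
    linarith
  · obtain ⟨x, hx⟩ := hΩ.ne
    refine ⟨r⁻¹ • x, ?_⟩
    show r • r⁻¹ • x ∈ Ω
    rw [smul_smul, mul_inv_cancel₀ hr.ne', one_smul]
    exact hx

/-- Rigid motions. -/
noncomputable def rig (a b : ℝ) (c : E2) (x : E2) : E2 := rot a b (x - c)

private theorem rot_rot {a b : ℝ} (hab : a ^ 2 + b ^ 2 = 1) (x : E2) :
    rot a (-b) (rot a b x) = x := by
  ext i
  fin_cases i
  · simp [rot]
    linear_combination (x 0) * hab
  · simp [rot]
    linear_combination (x 1) * hab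

private theorem rot_norm {a b : ℝ} (hab : a ^ 2 + b ^ 2 = 1) (x : E2) : ‖rot a b x‖ = ‖x‖ := by
  have h : ‖rot a b x‖ ^ 2 = ‖x‖ ^ 2 := by
    rw [EuclideanSpace.norm_sq_eq, EuclideanSpace.norm_sq_eq, Fin.sum_univ_two, Fin.sum_univ_two]
    simp only [Real.norm_eq_abs, sq_abs]
    simp only [rot, Matrix.cons_val_zero, Matrix.cons_val_one, PiLp.toLp_apply]
    linear_combination (x 0 ^ 2 + x 1 ^ 2) * hab
  exact (sq_eq_sq₀ (norm_nonneg _) (norm_nonneg _)).1 h

/-- The rotation as a linear isometry equivalence. -/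
private noncomputable def rotE {a b : ℝ} (hab : a ^ 2 + b ^ 2 = 1) : E2 ≃ₗᵢ[ℝ] E2 where
  toFun := rot a b
  invFun := rot a (-b)
  left_inv := rot_rot hab
  right_inv := by
    intro x
    have h : a ^ 2 + (-b) ^ 2 = 1 := by rw [neg_sq]; exact hab
    have := rot_rot h x
    rwa [neg_neg] at this
  map_add' := by
    intro x y
    ext i
    fin_cases i <;> simp [rot] <;> ring
  map_smul' := by
    intro r x
    ext i
    fin_cases i <;> simp [rot] <;> ring
  norm_map' := rot_norm hab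

private theorem rotE_mv {a b : ℝ} (hab : a ^ 2 + b ^ 2 = 1) (c x : E2) :
    mv (rotE hab) c x = rig a b c x := rfl

private theorem gsq_eq_g2 (u : E2 → ℝ) (x : E2) : gsq u x = g2 u x := rfl

theorem Dom.rig {Ω : Set E2} (hΩ : Dom Ω) {a b : ℝ} (hab : a ^ 2 + b ^ 2 = 1) (c : E2) :
    Dom (rig a b c '' Ω) := by
  have e : Pool.Agent.PPW.rig a b c '' Ω = mvH (rotE hab) c '' Ω := rfl
  rw [e]
  refine ⟨(mvH (rotE hab) c).isOpenMap Ω hΩ.op, ?_, hΩ.ne.image _⟩
  obtain ⟨R, hR⟩ := hΩ.bd.exists_norm_le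
  refine (Metric.isBounded_closedBall (x := (0 : E2)) (r := R + ‖c‖)).subset ?_
  rintro y ⟨x, hx, rfl⟩
  rw [mem_closedBall, dist_zero_right, mvH_apply]
  have h1 := mv_norm_le (rotE hab) c x
  have h2 := hR x hx
  linarith

theorem gsq_rig {u : E2 → ℝ} {a b : ℝ} (hab : a ^ 2 + b ^ 2 = 1) (c x : E2)
    (hu : DifferentiableAt ℝ u (rig a b c x)) :
    gsq (fun y => u (rig a b c y)) x = gsq u (rig a b c x) := by
  have h := g2_mv (u := u) (A := rotE hab) (c := c) (x := x) hu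
  exact h

theorem integral_rig (F : E2 → ℝ) {a b : ℝ} (hab : a ^ 2 + b ^ 2 = 1) (c : E2) :
    ∫ x, F (rig a b c x) = ∫ x, F x := by
  have h := int_mv (rotE hab) c F
  exact h

/-- Certified functions are invariant under rigid motions. -/
theorem Cert.rig {K : ℝ} {F : E2 → ℝ} (h : Cert K F) {a b : ℝ} (hab : a ^ 2 + b ^ 2 = 1)
    (c : E2) : Cert K (fun x => F (rig a b c x)) := by
  obtain ⟨hW, hC⟩ := h
  have hW' : Wt (fun x => F (Pool.Agent.PPW.rig a b c x)) := by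
    refine ⟨?_, fun R => ?_⟩
    · exact hW.meas.comp_measurePreserving (mv_mp (rotE hab) c)
    · obtain ⟨M, hM0, hM⟩ := hW.bdd (R + ‖c‖)
      refine ⟨M, hM0, fun x hx => hM _ ?_⟩
      have h1 := mv_norm_le (rotE hab) c x
      rw [rotE_mv] at h1
      linarith
  refine ⟨hW', ?_⟩
  intro Ω hΩ hlow ε hε hε1 φ hφ
  -- transport the domain and the function
  set A := rotE hab with hA
  have hback : ∀ x, mv A.symm (-A c) (mv A c x) = x := mv_inv A c
  have hΩ' : Dom (mv A.symm (-A c) ⁻¹' Ω) := by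
    refine ⟨isOpen_mv hΩ.op A.symm (-A c), ?_, ?_⟩
    · obtain ⟨R, hR⟩ := hΩ.bd.exists_norm_le
      refine (Metric.isBounded_closedBall (x := (0 : E2)) (r := R + ‖c‖)).subset ?_
      intro x hx
      have h1 := hR _ hx
      have h2 := mv_norm_le A c (mv A.symm (-A c) x)
      rw [mv_inv'] at h2
      rw [mem_closedBall, dist_zero_right]
      linarith
    · obtain ⟨x, hx⟩ := hΩ.ne
      refine ⟨mv A c x, ?_⟩
      show mv A.symm (-A c) (mv A c x) ∈ Ω
      rw [hback]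
      exact hx
  have hlow' : Low 1 (mv A.symm (-A c) ⁻¹' Ω) := hlow.mv A.symm (-A c)
  have hN : Near (mv A.symm (-A c) ⁻¹' Ω) ε (fun x => φ (mv A.symm (-A c) x)) := by
    refine ⟨hφ.tst.mv A.symm (-A c), ?_, ?_⟩
    · rw [Ma_mv]
      exact hφ.nrm
    · obtain ⟨L, hL⟩ := hφ.tst.toLc.lip
      rw [En_mv hL]
      exact hφ.dir
  have hmain := hC _ hΩ' hlow' ε hε hε1 _ hN
  have e : ∫ x, F x * φ (mv A.symm (-A c) x) ^ 2 =
      ∫ x, F (Pool.Agent.PPW.rig a b c x) * φ x ^ 2 := by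
    rw [← int_mv A c (fun x => F x * φ (mv A.symm (-A c) x) ^ 2)]
    refine integral_congr_ae (Eventually.of_forall fun x => ?_)
    simp only [hback]
    rfl
  rw [e] at hmain
  exact hmain

/-- Rigid motions and the pair functional, almost everywhere. -/
theorem Fp_rig {α β r : ℝ} {p1 p2 : E2 → ℝ} {L : NNReal} (h1 : LipschitzWith L p1)
    (h2 : LipschitzWith L p2) {a b : ℝ} (hab : a ^ 2 + b ^ 2 = 1) (c : E2) :
    ∀ᵐ x ∂(volume : Measure E2),
      Fp α β r (fun y => p1 (rig a b c y)) (fun y => p2 (rig a b c y)) x =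
        Fp α β r p1 p2 (rig a b c x) := by
  filter_upwards [g2_mv_ae h1 (rotE hab) c, g2_mv_ae h2 (rotE hab) c] with x e1 e2
  unfold Fp
  have e1' : gsq (fun y => p1 (Pool.Agent.PPW.rig a b c y)) x =
      gsq p1 (Pool.Agent.PPW.rig a b c x) := e1
  have e2' : gsq (fun y => p2 (Pool.Agent.PPW.rig a b c y)) x =
      gsq p2 (Pool.Agent.PPW.rig a b c x) := e2
  rw [e1', e2']

end Pool.Agent.PPW
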