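import Pool.Agent.Lib.MP_eb7570_an.Strip
import Pool.Agent.Lib.MP_eb7570_an.Scale
import Pool.Agent.Lib.MP_eb7570_an.PathLem

/-!
MP_eb7570_an: uniform lower bound for the masses of the trial functions.
Proof: with delta = 1/16 the set |coordinate| <= delta of the moved frame has mass <= 1/2 (strip_mass),
outside of it and in the support |P_i| >= c delta / (1 + R + R0).
-/

set_option autoImplicit false

open MeasureTheory Filter Topology Metric Set

namespace Pool.Agent.PPW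

private theorem g_rot_norm {a b : ℝ} (hab : a ^ 2 + b ^ 2 = 1) (x : E2) : ‖rot a b x‖ = ‖x‖ := by
  have h : ‖rot a b x‖ ^ 2 = ‖x‖ ^ 2 := by
    rw [EuclideanSpace.norm_sq_eq, EuclideanSpace.norm_sq_eq, Fin.sum_univ_two, Fin.sum_univ_two]
    simp only [Real.norm_eq_abs, sq_abs]
    simp only [rot, Matrix.cons_val_zero, Matrix.cons_val_one, PiLp.toLp_apply]
    linear_combination (x 0 ^ 2 + x 1 ^ 2) * hab
  exact (sq_eq_sq₀ (norm_nonneg _) (norm_nonneg _)).1 h

private theorem g_rig_cont (a b : ℝ) (c : E2) : Continuous (rig a b c) := by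
  unfold rig rot
  fun_prop

private theorem g_rig0 (a b : ℝ) (c x : E2) :
    rig a b c x 0 = a * x 0 + (-b) * x 1 - (a * c 0 - b * c 1) := by
  simp only [rig, rot, Matrix.cons_val_zero, PiLp.toLp_apply, PiLp.sub_apply]
  ring

private theorem g_rig1 (a b : ℝ) (c x : E2) :
    rig a b c x 1 = b * x 0 + a * x 1 - (b * c 0 + a * c 1) := by
  simp only [rig, rot, Matrix.cons_val_one, PiLp.toLp_apply, PiLp.sub_apply]
  simp
  ring

/-- Abstract version for one function. -/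
private theorem g_one {Ω : Set E2} {φ : E2 → ℝ} (hφ : Tc Ω φ) (h1 : Ma φ φ = 1)
    (h2 : En φ φ ≤ 2) {a b : ℝ} (hab : a ^ 2 + b ^ 2 = 1) (d : ℝ) {Q : E2 → ℝ}
    (hQ : Continuous Q) {κ : ℝ} (hκ : 0 ≤ κ)
    (hlow : ∀ x ∈ Ω, 1 / 16 < |a * x 0 + b * x 1 - d| → κ ≤ |Q x|) :
    κ ^ 2 / 2 ≤ ∫ x, Q x ^ 2 * φ x ^ 2 := by
  set S : Set E2 := {x : E2 | |a * x 0 + b * x 1 - d| ≤ 1 / 16} with hS
  have hSc : IsClosed S := by
    have : Continuous (fun x : E2 => |a * x 0 + b * x 1 - d|) := by fun_prop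
    exact isClosed_le this continuous_const
  have hSm : MeasurableSet S := hSc.measurableSet
  have hφc : Continuous φ := hφ.smooth.continuous
  have hcs : HasCompactSupport (fun x => φ x ^ 2) := by
    have h := hφ.cpt.mul_right (f' := φ)
    have e : (fun x => φ x ^ 2) = φ * φ := by
      ext x
      simp [pow_two]
    rw [e]
    exact h
  have hcs1 : HasCompactSupport (fun x => Q x ^ 2 * φ x ^ 2) :=
    hcs.mul_left (f := fun x => Q x ^ 2)
  have hc1 : Continuous (fun x => φ x ^ 2) := hφc.pow 2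
  have hc2 : Continuous (fun x => Q x ^ 2 * φ x ^ 2) := (hQ.pow 2).mul hc1
  have hint0 : Integrable (fun x => φ x ^ 2) (volume : Measure E2) :=
    hc1.integrable_of_hasCompactSupport hcs
  have hint1 : Integrable (fun x => Q x ^ 2 * φ x ^ 2) (volume : Measure E2) :=
    hc2.integrable_of_hasCompactSupport hcs1
  have hstrip : ∫ x in S, φ x ^ 2 ≤ 1 / 2 := by
    have := strip_mass hφ h1 h2 hab d (δ := 1 / 16) (by norm_num)
    calc ∫ x in S, φ x ^ 2 ≤ 8 * (1 / 16) := this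
      _ = 1 / 2 := by norm_num
  have htot : ∫ x, φ x ^ 2 = 1 := by rw [Ma_eq, h1]
  have hadd := integral_add_compl hSm hint0
  have hcomp : 1 / 2 ≤ ∫ x in Sᶜ, φ x ^ 2 := by linarith
  calc κ ^ 2 / 2 = κ ^ 2 * (1 / 2) := by ring
    _ ≤ κ ^ 2 * ∫ x in Sᶜ, φ x ^ 2 := by gcongr
    _ = ∫ x in Sᶜ, κ ^ 2 * φ x ^ 2 := by rw [integral_const_mul]
    _ ≤ ∫ x in Sᶜ, Q x ^ 2 * φ x ^ 2 := by
        apply setIntegral_mono_on (hint0.const_mul _).integrableOn hint1.integrableOn hSm.compl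
        intro x hx
        by_cases hxΩ : x ∈ Ω
        · have hxs : 1 / 16 < |a * x 0 + b * x 1 - d| := by
            by_contra hcon
            exact hx (not_lt.1 hcon)
          have h3 := hlow x hxΩ hxs
          have h4 : κ ^ 2 ≤ Q x ^ 2 := by
            rw [← sq_abs (Q x)]
            exact pow_le_pow_left₀ hκ h3 2
          exact mul_le_mul_of_nonneg_right h4 (sq_nonneg _)
        · have h0 : φ x = 0 := image_eq_zero_of_notMem_tsupport fun h => hxΩ (hφ.sub h)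
          rw [h0]
          simp
    _ ≤ ∫ x, Q x ^ 2 * φ x ^ 2 := by
        apply setIntegral_le_integral hint1
        exact Eventually.of_forall fun x => mul_nonneg (sq_nonneg _) (sq_nonneg _)

theorem Path.mass_lower {I : Set ℝ} {P1 P2 : ℝ → E2 → ℝ} (hP : Path I P1 P2) (R0 R : ℝ) :
    ∃ c0 : ℝ, 0 < c0 ∧ ∀ (Ω : Set E2) (φ : E2 → ℝ), (∀ x ∈ Ω, ‖x‖ ≤ R0) → Tc Ω φ →
      Ma φ φ = 1 → En φ φ ≤ 2 → ∀ s ∈ I, ∀ a b : ℝ, a ^ 2 + b ^ 2 = 1 → ∀ c : E2, ‖c‖ ≤ R →
        c0 ≤ ∫ x, P2 s (rig a b c x) ^ 2 * φ x ^ 2 ∧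
        c0 ≤ ∫ x, P1 s (rig a b c x) ^ 2 * φ x ^ 2 := by
  obtain ⟨k, hk, hlow⟩ := hP.low
  obtain ⟨L, hL⟩ := hP.lip
  set D : ℝ := 1 + |R| + |R0| with hD
  have hD0 : 0 < D := by positivity
  refine ⟨(k * (1 / 16) / D) ^ 2 / 2, by positivity, ?_⟩
  intro Ω φ hΩ hφ h1 h2 s hs a b hab c hc
  have hnorm : ∀ x ∈ Ω, 1 + ‖rig a b c x‖ ≤ D := by
    intro x hx
    unfold rig
    rw [g_rot_norm hab]
    have h3 := hΩ x hx
    have h4 := norm_sub_le x c
    have h5 := le_abs_self R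
    have h6 := le_abs_self R0
    rw [hD]
    linarith
  have hcr := g_rig_cont a b c
  have key : ∀ {t q : ℝ} {y : E2}, k * |t| ≤ (1 + ‖y‖) * |q| → 1 + ‖y‖ ≤ D → 1 / 16 < |t| →
      k * (1 / 16) / D ≤ |q| := by
    intro t q y h3 h4 h5
    rw [div_le_iff₀ hD0]
    calc k * (1 / 16) ≤ k * |t| := by gcongr
      _ ≤ (1 + ‖y‖) * |q| := h3
      _ ≤ D * |q| := by gcongr
      _ = |q| * D := by ring
  constructor
  · have hc2 : Continuous (fun x => P2 s (rig a b c x)) := (hL s hs).2.continuous.comp hcr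
    apply g_one hφ h1 h2 (a := b) (b := a) (by linarith) (b * c 0 + a * c 1) hc2 (by positivity)
    intro x hx h3
    rw [← g_rig1] at h3
    exact key (hlow s hs (rig a b c x)).2 (hnorm x hx) h3
  · have hc2 : Continuous (fun x => P1 s (rig a b c x)) := (hL s hs).1.continuous.comp hcr
    apply g_one hφ h1 h2 (a := a) (b := -b) (by linarith [neg_sq b]) (a * c 0 - b * c 1) hc2
      (by positivity)
    intro x hx h3
    rw [← g_rig0] at h3
    exact key (hlow s hs (rig a b c x)).1 (hnorm x hx) h3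

end Pool.Agent.PPW
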