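import Pool.Agent.Lib.MP_eb7570_an.ADefs

/-!
Mollification of Lipschitz functions with compact support.
-/

set_option autoImplicit false

open MeasureTheory Filter Topology Metric Set ContinuousLinearMap
open scoped Convolution

namespace Pool.Agent.PPW

/-- The sequence of mollifiers. -/
private noncomputable def bmp (δ : ℝ) (hδ : 0 < δ) (n : ℕ) : ContDiffBump (0 : E2) where
  rIn := δ / 2 / (n + 1)
  rOut := δ / (n + 1)
  rIn_pos := by positivity
  rIn_lt_rOut := by
    have h1 : (0 : ℝ) < (n : ℝ) + 1 := by positivity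
    apply div_lt_div_of_pos_right _ h1
    linarith

private theorem bmp_rOut (δ : ℝ) (hδ : 0 < δ) :
    Tendsto (fun n => (bmp δ hδ n).rOut) atTop (𝓝 0) := by
  have h := (tendsto_one_div_add_atTop_nhds_zero_nat (𝕜 := ℝ)).const_mul δ
  rw [mul_zero] at h
  refine h.congr ?_
  intro n
  show δ * (1 / ((n : ℝ) + 1)) = δ / (n + 1)
  ring

private theorem bmp_rOut_le (δ : ℝ) (hδ : 0 < δ) (n : ℕ) : (bmp δ hδ n).rOut ≤ δ := by
  show δ / ((n : ℝ) + 1) ≤ δ
  apply div_le_self hδ.le
  have : (0 : ℝ) ≤ n := Nat.cast_nonneg n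
  linarith

private theorem bmp_ratio (δ : ℝ) (hδ : 0 < δ) (n : ℕ) :
    (bmp δ hδ n).rOut ≤ 2 * (bmp δ hδ n).rIn := by
  show δ / ((n : ℝ) + 1) ≤ 2 * (δ / 2 / (n + 1))
  apply le_of_eq
  ring

/-- derivative of a convolution of a bump with a Lipschitz function -/
private theorem lineDeriv_conv {f : E2 → ℝ} (hf : Continuous f) (hfc : HasCompactSupport f)
    {u : E2 → ℝ} {C : NNReal} (hu : LipschitzWith C u) (v x : E2) :
    HasLineDerivAt ℝ (f ⋆[lsmul ℝ ℝ, volume] u)
      ((f ⋆[lsmul ℝ ℝ, volume] (fun y => lineDeriv ℝ u y v)) x) x v := by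
  have hfi : Integrable f volume := hf.integrable_of_hasCompactSupport hfc
  have hpt : ∀ s : ℝ, ∀ t : E2, (f t) * u (x + s • v - t) =
      (lsmul ℝ ℝ (f t)) (u (x + s • v - t)) := by
    intro s t
    simp
  unfold HasLineDerivAt
  have key := hasDerivAt_integral_of_dominated_loc_of_lip (μ := (volume : Measure E2)) (𝕜 := ℝ)
    (F := fun s t => f t * u (x + s • v - t)) (x₀ := (0 : ℝ))
    (F' := fun t => f t * lineDeriv ℝ u (x - t) v) (s := univ)
    (bound := fun t => |f t| * (C * ‖v‖)) univ_mem ?_ ?_ ?_ ?_ ?_ ?_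
  · have h := key.2
    refine (HasDerivAt.congr_deriv (h.congr_of_eventuallyEq ?_) ?_)
    · apply Eventually.of_forall
      intro s
      simp only [convolution_def, lsmul_apply, smul_eq_mul]
    · simp only [convolution_def, lsmul_apply, smul_eq_mul]
  · apply Eventually.of_forall
    intro s
    apply Continuous.aestronglyMeasurable
    exact hf.mul (hu.continuous.comp (by fun_prop))
  · apply Continuous.integrable_of_hasCompactSupport
    · exact hf.mul (hu.continuous.comp (by fun_prop))
    · exact hfc.mul_right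
  · apply hf.aestronglyMeasurable.mul
    have h1 := measurable_lineDeriv (𝕜 := ℝ) (v := v) hu.continuous
    exact (h1.comp (measurable_const.sub measurable_id)).aestronglyMeasurable
  · apply Eventually.of_forall
    intro t
    rw [lipschitzOnWith_univ]
    apply LipschitzWith.of_dist_le_mul
    intro s s'
    have hb : ((Real.nnabs (|f t| * (C * ‖v‖)) : NNReal) : ℝ) = |f t| * (C * ‖v‖) := by
      rw [Real.coe_nnabs]
      exact abs_of_nonneg (by positivity)
    rw [hb, Real.dist_eq, ← mul_sub, abs_mul, mul_assoc]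
    apply mul_le_mul_of_nonneg_left _ (abs_nonneg _)
    have h1 := hu.dist_le_mul (x + s • v - t) (x + s' • v - t)
    rw [Real.dist_eq] at h1
    refine h1.trans (le_of_eq ?_)
    rw [dist_eq_norm]
    have h2 : x + s • v - t - (x + s' • v - t) = (s - s') • v := by
      rw [sub_smul]
      abel
    rw [h2, norm_smul, Real.dist_eq, Real.norm_eq_abs]
    ring
  · exact (hfi.abs).mul_const _
  · have h1 := hu.ae_lineDifferentiableAt (μ := (volume : Measure E2)) v
    have h2 : ∀ᵐ t ∂(volume : Measure E2), LineDifferentiableAt ℝ u (x - t) v :=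
      (quasiMeasurePreserving_sub_left_of_right_invariant (volume : Measure E2) x).ae h1
    filter_upwards [h2] with t ht
    have h3 := ht.hasLineDerivAt
    unfold HasLineDerivAt at h3
    have h4 : (fun s : ℝ => f t * u (x + s • v - t)) =
        fun s : ℝ => f t * u (x - t + s • v) := by
      funext s
      have h5 : x + s • v - t = x - t + s • v := by abel
      rw [h5]
    rw [h4]
    exact h3.const_mul (f t)

/-- Bound of a convolution with a normed bump. -/
private theorem conv_bound {δ : ℝ} (hδ : 0 < δ) (n : ℕ) {g : E2 → ℝ} {M : ℝ}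
    (hg : ∀ y, |g y| ≤ M) (x : E2) :
    |(((bmp δ hδ n).normed volume) ⋆[lsmul ℝ ℝ, volume] g) x| ≤ M := by
  rw [convolution_def]
  have hfc : Continuous ((bmp δ hδ n).normed (volume : Measure E2)) :=
    (bmp δ hδ n).continuous_normed
  have hcs : HasCompactSupport ((bmp δ hδ n).normed (volume : Measure E2)) :=
    (bmp δ hδ n).hasCompactSupport_normed
  have hfi : Integrable ((bmp δ hδ n).normed (volume : Measure E2)) volume :=
    hfc.integrable_of_hasCompactSupport hcs
  have h1 : ∀ t, ‖(lsmul ℝ ℝ ((bmp δ hδ n).normed (volume : Measure E2) t)) (g (x - t))‖ ≤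
      (bmp δ hδ n).normed (volume : Measure E2) t * M := by
    intro t
    simp only [lsmul_apply, smul_eq_mul, norm_mul, Real.norm_eq_abs]
    rw [abs_of_nonneg ((bmp δ hδ n).nonneg_normed t)]
    exact mul_le_mul_of_nonneg_left (hg _) ((bmp δ hδ n).nonneg_normed t)
  have h2 := norm_integral_le_of_norm_le (hfi.mul_const M) (Eventually.of_forall h1)
  rw [integral_mul_const, (bmp δ hδ n).integral_normed, one_mul] at h2
  exact h2

/-- Mollification of a Lipschitz function with compact support in an open set. -/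
theorem exists_mol {Ω : Set E2} (hΩ : IsOpen Ω) {u : E2 → ℝ} (hu : Lc Ω u) :
    ∃ (U : ℕ → E2 → ℝ) (C : ℝ) (K : Set E2), IsCompact K ∧ (∀ n, Tc Ω (U n)) ∧
      (∀ n x, |U n x| ≤ C) ∧ (∀ n i x, |pd i (U n) x| ≤ C) ∧
      (∀ n x, x ∉ K → U n x = 0) ∧ (∀ n i x, x ∉ K → pd i (U n) x = 0) ∧
      (∀ x, Tendsto (fun n => U n x) atTop (𝓝 (u x))) ∧
      (∀ i, ∀ᵐ x ∂(volume : Measure E2), Tendsto (fun n => pd i (U n) x) atTop (𝓝 (pd i u x))) := by
  obtain ⟨C, hC⟩ := hu.lip
  have hcont := hC.continuous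
  obtain ⟨δ, hδ, hδΩ⟩ := hu.cpt.exists_cthickening_subset_open hΩ hu.sub
  obtain ⟨M, hM⟩ := hu.cpt.exists_bound_of_continuous hcont
  have hK : IsCompact (cthickening δ (tsupport u)) := IsCompact.cthickening hu.cpt
  have hcf : ∀ n, Continuous ((bmp δ hδ n).normed (volume : Measure E2)) :=
    fun n => (bmp δ hδ n).continuous_normed
  have hcs : ∀ n, HasCompactSupport ((bmp δ hδ n).normed (volume : Measure E2)) :=
    fun n => (bmp δ hδ n).hasCompactSupport_normed
  have hts : ∀ n, tsupport (((bmp δ hδ n).normed (volume : Measure E2)) ⋆[lsmul ℝ ℝ, volume] u) ⊆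
      cthickening δ (tsupport u) := by
    intro n
    apply closure_minimal _ isClosed_cthickening
    refine (support_convolution_subset (lsmul ℝ ℝ)).trans ?_
    rintro z ⟨a, ha, b, hb, rfl⟩
    rw [(bmp δ hδ n).support_normed_eq] at ha
    apply mem_cthickening_of_dist_le (a + b) b δ (tsupport u) (subset_tsupport u hb)
    rw [mem_ball, dist_zero_right] at ha
    rw [dist_eq_norm, add_sub_cancel_right]
    exact ha.le.trans (bmp_rOut_le δ hδ n)
  have hTc : ∀ n, Tc Ω (((bmp δ hδ n).normed (volume : Measure E2)) ⋆[lsmul ℝ ℝ, volume] u) := by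
    intro n
    refine ⟨?_, ?_, (hts n).trans hδΩ⟩
    · exact (hcs n).contDiff_convolution_left (lsmul ℝ ℝ) (bmp δ hδ n).contDiff_normed
        hcont.locallyIntegrable
    · exact hK.of_isClosed_subset (isClosed_tsupport _) (hts n)
  have hpd : ∀ n i x, pd i (((bmp δ hδ n).normed (volume : Measure E2)) ⋆[lsmul ℝ ℝ, volume] u) x =
      (((bmp δ hδ n).normed (volume : Measure E2)) ⋆[lsmul ℝ ℝ, volume] (pd i u)) x := by
    intro n i x
    exact (lineDeriv_conv (hcf n) (hcs n) hC (ev i) x).lineDeriv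
  have hpdb : ∀ i x, |pd i u x| ≤ C * ‖ev i‖ := by
    intro i x
    exact norm_lineDeriv_le_of_lipschitz ℝ hC
  have hev : ∀ i, ‖ev i‖ ≤ 1 := by
    intro i
    unfold ev
    simp
  have hM0 : 0 ≤ M := (norm_nonneg _).trans (hM 0)
  refine ⟨fun n => ((bmp δ hδ n).normed (volume : Measure E2)) ⋆[lsmul ℝ ℝ, volume] u,
    M + C, cthickening δ (tsupport u), hK, hTc, ?_, ?_, ?_, ?_, ?_, ?_⟩
  · intro n x
    have h := conv_bound hδ n (fun y => hM y) x
    have hC0 : (0 : ℝ) ≤ C := C.coe_nonneg
    exact h.trans (by linarith)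
  · intro n i x
    rw [hpd]
    have h1 : ∀ y, |pd i u y| ≤ (C : ℝ) := by
      intro y
      refine (hpdb i y).trans ?_
      have hC0 : (0 : ℝ) ≤ C := C.coe_nonneg
      exact mul_le_of_le_one_right hC0 (hev i)
    have h := conv_bound hδ n h1 x
    exact h.trans (by linarith)
  · intro n x hx
    by_contra h
    exact hx (hts n (subset_tsupport _ h))
  · intro n i x hx
    have h1 : x ∉ tsupport (((bmp δ hδ n).normed (volume : Measure E2)) ⋆[lsmul ℝ ℝ, volume] u) :=
      fun h => hx (hts n h)
    have h2 := notMem_tsupport_iff_eventuallyEq.1 h1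
    unfold pd
    rw [Filter.EventuallyEq.lineDeriv_eq h2]
    have h3 : HasLineDerivAt ℝ (0 : E2 → ℝ) 0 x (ev i) := by
      unfold HasLineDerivAt
      exact hasDerivAt_const _ _
    exact h3.lineDeriv
  · intro x
    exact ContDiffBump.convolution_tendsto_right_of_continuous (bmp_rOut δ hδ) hcont x
  · intro i
    have h := ContDiffBump.ae_convolution_tendsto_right_of_locallyIntegrable
      (μ := (volume : Measure E2)) (φ := bmp δ hδ) (l := atTop) (K := 2)
      (bmp_rOut δ hδ) (Eventually.of_forall (bmp_ratio δ hδ))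
      (hC.locallyIntegrable_lineDeriv (μ := (volume : Measure E2)) (ev i))
    filter_upwards [h] with x hx
    refine hx.congr ?_
    intro n
    exact (hpd n i x).symm

end Pool.Agent.PPW
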