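import Pool.Agent.Lib.MP_eb7570_an.Iso

/-!
Nondegeneracy: a lower bound of `∫ G² φ²`, uniform in the near ground state, in the rigid motion
and along a compact family of functions `G`.
-/

set_option autoImplicit false

open MeasureTheory Filter Topology Metric Set
open scoped ENNReal

namespace Pool.Agent.PPW

private theorem finrank_E2 : Module.finrank ℝ E2 = 2 := by
  simp

/-- The fourth moment of a test function. -/
theorem exists_l4 : ∃ C : ℝ, 0 < C ∧ ∀ (Ω : Set E2) (φ : E2 → ℝ), Tc Ω φ → Ma φ φ = 1 →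
    En φ φ ≤ 2 → ∫ x, φ x ^ 4 ≤ C := by
  have hp : Real.HolderConjugate (Module.finrank ℝ E2 : ℝ) 2 := by
    rw [finrank_E2]
    norm_num
    exact Real.HolderConjugate.two_two
  set C0 := lintegralPowLePowLIntegralFDerivConst (volume : Measure E2) 2 with hC0
  refine ⟨C0 * 9 + 1, by positivity, ?_⟩
  intro Ω φ hφ hm hE
  have hsm : ContDiff ℝ 1 (fun x => φ x ^ 2) := (hφ.smooth.of_le (by simp)).pow 2
  have hcs : HasCompactSupport (fun x => φ x ^ 2) := by
    have h : (fun x => φ x ^ 2) = fun x => φ x * φ x := by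
      funext x
      exact pow_two _
    rw [h]
    exact hφ.cpt.mul_right
  have h1 := lintegral_pow_le_pow_lintegral_fderiv (volume : Measure E2) hsm hcs hp
  rw [← hC0] at h1
  -- the gradient term
  have hφL := hφ.toLc
  have hdiff : ∀ x, DifferentiableAt ℝ φ x := fun x => hφ.smooth.differentiable (by simp) x
  have hgr : ∀ x, ‖fderiv ℝ (fun x => φ x ^ 2) x‖ ≤ φ x ^ 2 + g2 φ x := by
    intro x
    have h2 : HasFDerivAt (fun x => φ x ^ 2) ((2 * φ x) • fderiv ℝ φ x) x := by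
      have h3 := (hdiff x).hasFDerivAt.pow 2
      refine h3.congr_fderiv ?_
      norm_num
    rw [h2.fderiv, norm_smul, Real.norm_eq_abs, abs_mul, abs_two, g2_eq (hdiff x), ← sq_abs (φ x)]
    nlinarith [sq_nonneg (|φ x| - ‖fderiv ℝ φ x‖)]
  have ig : Integrable (fun x => g2 φ x) (volume : Measure E2) := by
    refine (hφL.int_en hφL).congr (Eventually.of_forall fun x => ?_)
    show pd 0 φ x * pd 0 φ x + pd 1 φ x * pd 1 φ x = pd 0 φ x ^ 2 + pd 1 φ x ^ 2
    ring
  have isq : Integrable (fun x => φ x ^ 2) (volume : Measure E2) := by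
    refine (hφL.int_mul hφL.wt).congr (Eventually.of_forall fun x => ?_)
    show φ x * φ x = φ x ^ 2
    ring
  have hsum : ∫ x, (φ x ^ 2 + g2 φ x) ≤ 3 := by
    have h2 : ∫ x, (φ x ^ 2 + g2 φ x) = (∫ x, φ x ^ 2) + ∫ x, g2 φ x := integral_add isq ig
    rw [h2, Ma_eq, hm, ← En_eq_g2]
    linarith
  have isum : Integrable (fun x => φ x ^ 2 + g2 φ x) (volume : Measure E2) := isq.add ig
  have h3 : ∫⁻ x, ‖fderiv ℝ (fun x => φ x ^ 2) x‖ₑ ≤ ENNReal.ofReal 3 := by
    calc ∫⁻ x, ‖fderiv ℝ (fun x => φ x ^ 2) x‖ₑ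
        ≤ ∫⁻ x, ENNReal.ofReal (φ x ^ 2 + g2 φ x) := by
          apply lintegral_mono
          intro x
          show ‖fderiv ℝ (fun x => φ x ^ 2) x‖ₑ ≤ ENNReal.ofReal (φ x ^ 2 + g2 φ x)
          rw [← ofReal_norm]
          exact ENNReal.ofReal_le_ofReal (hgr x)
      _ = ENNReal.ofReal (∫ x, (φ x ^ 2 + g2 φ x)) := by
          rw [ofReal_integral_eq_lintegral_ofReal isum]
          refine Eventually.of_forall fun x => ?_
          show 0 ≤ φ x ^ 2 + g2 φ x
          unfold g2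
          positivity
      _ ≤ ENNReal.ofReal 3 := ENNReal.ofReal_le_ofReal hsum
  have i4 : Integrable (fun x => φ x ^ 4) (volume : Measure E2) := by
    refine (hφL.int_mul ((hφL.wt.mul hφL.wt).mul hφL.wt)).congr
      (Eventually.of_forall fun x => ?_)
    show φ x * φ x * φ x * φ x = φ x ^ 4
    ring
  have h4 : ENNReal.ofReal (∫ x, φ x ^ 4) ≤ ENNReal.ofReal (C0 * 9) := by
    rw [ofReal_integral_eq_lintegral_ofReal i4 (Eventually.of_forall fun x => by
      show 0 ≤ φ x ^ 4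
      positivity)]
    calc ∫⁻ x, ENNReal.ofReal (φ x ^ 4) = ∫⁻ x, ‖(fun x => φ x ^ 2) x‖ₑ ^ (2 : ℝ) := by
          apply lintegral_congr
          intro x
          show ENNReal.ofReal (φ x ^ 4) = ‖φ x ^ 2‖ₑ ^ (2 : ℝ)
          rw [← ofReal_norm, Real.norm_eq_abs, abs_of_nonneg (sq_nonneg (φ x)),
            ENNReal.ofReal_rpow_of_nonneg (sq_nonneg _) (by norm_num)]
          congr 1
          norm_num
          ring
      _ ≤ C0 * (∫⁻ x, ‖fderiv ℝ (fun x => φ x ^ 2) x‖ₑ) ^ (2 : ℝ) := h1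
      _ ≤ C0 * (ENNReal.ofReal 3) ^ (2 : ℝ) := by
          gcongr
      _ = ENNReal.ofReal (C0 * 9) := by
          rw [ENNReal.ofReal_rpow_of_nonneg (by norm_num) (by norm_num),
            ENNReal.ofReal_mul C0.coe_nonneg, ENNReal.ofReal_coe_nnreal]
          norm_num
  rw [ENNReal.ofReal_le_ofReal_iff (by positivity)] at h4
  linarith

/-- Small sublevel sets give nondegeneracy. -/
theorem nondeg_of_small {C : ℝ} (hC : 0 < C) {Ω : Set E2} {φ : E2 → ℝ} (hφ : Tc Ω φ)
    (hm : Ma φ φ = 1) (h4 : ∫ x, φ x ^ 4 ≤ C) {R0 : ℝ} (hsupp : ∀ x, R0 < ‖x‖ → φ x = 0)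
    {G : E2 → ℝ} (hG : Continuous G) {t : ℝ} (ht : 0 < t)
    (hS : volume {x : E2 | x ∈ closedBall (0 : E2) R0 ∧ |G x| ≤ t} ≤ ENNReal.ofReal (1 / (4 * C))) :
    t ^ 2 / 2 ≤ ∫ x, G x ^ 2 * φ x ^ 2 := by
  set S : Set E2 := {x : E2 | x ∈ closedBall (0 : E2) R0 ∧ |G x| ≤ t} with hSdef
  have hSc : IsClosed S := by
    have h1 : IsClosed {x : E2 | |G x| ≤ t} := isClosed_le (continuous_abs.comp hG) continuous_const
    exact isClosed_closedBall.inter h1
  have hSm : MeasurableSet S := hSc.measurableSet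
  have hφL := hφ.toLc
  have i1 : Integrable (fun x => G x ^ 2 * φ x ^ 2) (volume : Measure E2) :=
    int_wt_sq hφL (Wt.of_continuous hG).sq
  have i2 : Integrable (fun x => φ x ^ 2) (volume : Measure E2) := by
    refine (hφL.int_mul hφL.wt).congr (Eventually.of_forall fun x => ?_)
    show φ x * φ x = φ x ^ 2
    ring
  have i4 : Integrable (fun x => φ x ^ 4) (volume : Measure E2) := by
    refine (hφL.int_mul ((hφL.wt.mul hφL.wt).mul hφL.wt)).congr
      (Eventually.of_forall fun x => ?_)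
    show φ x * φ x * φ x * φ x = φ x ^ 4
    ring
  have hSfin : volume S ≠ ∞ := ne_top_of_le_ne_top ENNReal.ofReal_ne_top hS
  have i3 : Integrable (S.indicator fun _ => C) (volume : Measure E2) :=
    (integrable_indicator_iff hSm).2 (integrableOn_const hSfin)
  have hpt : ∀ x, t ^ 2 * φ x ^ 2 - t ^ 2 * (S.indicator (fun _ => C) x + φ x ^ 4 / (4 * C)) ≤
      G x ^ 2 * φ x ^ 2 := by
    intro x
    have ht2 : 0 ≤ t ^ 2 := sq_nonneg t
    by_cases hx : x ∈ S
    · rw [indicator_of_mem hx]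
      have h1 : φ x ^ 2 ≤ C + φ x ^ 4 / (4 * C) := by
        have h2 : 0 ≤ (φ x ^ 2 - 2 * C) ^ 2 / (4 * C) := by positivity
        have h3 : (φ x ^ 2 - 2 * C) ^ 2 / (4 * C) = φ x ^ 4 / (4 * C) - φ x ^ 2 + C := by
          field_simp
          ring
        rw [h3] at h2
        linarith
      have h2 := mul_le_mul_of_nonneg_left h1 ht2
      have h3 : 0 ≤ G x ^ 2 * φ x ^ 2 := by positivity
      linarith
    · rw [indicator_of_notMem hx, zero_add]
      have h5 : 0 ≤ t ^ 2 * (φ x ^ 4 / (4 * C)) := by positivity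
      by_cases hx0 : ‖x‖ ≤ R0
      · have h3 : t < |G x| := by
          by_contra h
          push Not at h
          exact hx ⟨by rw [mem_closedBall, dist_zero_right]; exact hx0, h⟩
        have h4 : t ^ 2 ≤ G x ^ 2 := by
          rw [← sq_abs (G x)]
          exact pow_le_pow_left₀ ht.le h3.le 2
        have h6 := mul_le_mul_of_nonneg_right h4 (sq_nonneg (φ x))
        linarith
      · push Not at hx0
        rw [hsupp x hx0]
        norm_num
  have iR : Integrable (fun x => t ^ 2 * φ x ^ 2 -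
      t ^ 2 * (S.indicator (fun _ => C) x + φ x ^ 4 / (4 * C))) (volume : Measure E2) :=
    (i2.const_mul _).sub ((i3.add (i4.div_const _)).const_mul _)
  have hint := integral_mono iR i1 hpt
  have hval : ∫ x, (t ^ 2 * φ x ^ 2 -
      t ^ 2 * (S.indicator (fun _ => C) x + φ x ^ 4 / (4 * C))) =
      t ^ 2 * 1 - t ^ 2 * (volume.real S * C + (∫ x, φ x ^ 4) / (4 * C)) := by
    have e1 : ∫ x, (t ^ 2 * φ x ^ 2 -
      t ^ 2 * (S.indicator (fun _ => C) x + φ x ^ 4 / (4 * C))) =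
      (∫ x, t ^ 2 * φ x ^ 2) - ∫ x, t ^ 2 * (S.indicator (fun _ => C) x + φ x ^ 4 / (4 * C)) :=
      integral_sub (i2.const_mul _) ((i3.add (i4.div_const _)).const_mul _)
    have e2 : ∫ x, (S.indicator (fun _ => C) x + φ x ^ 4 / (4 * C)) =
        (∫ x, S.indicator (fun _ => C) x) + ∫ x, φ x ^ 4 / (4 * C) :=
      integral_add i3 (i4.div_const _)
    rw [e1, integral_const_mul, integral_const_mul, e2, Ma_eq, hm, integral_indicator hSm,
      setIntegral_const, integral_div, smul_eq_mul]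
  rw [hval] at hint
  have hv : volume.real S * C ≤ 1 / 4 := by
    have h1 : volume.real S ≤ 1 / (4 * C) := by
      have h2 := ENNReal.toReal_mono ENNReal.ofReal_ne_top hS
      rw [ENNReal.toReal_ofReal (by positivity)] at h2
      exact h2
    calc volume.real S * C ≤ 1 / (4 * C) * C := mul_le_mul_of_nonneg_right h1 hC.le
      _ = 1 / 4 := by field_simp
  have hw : (∫ x, φ x ^ 4) / (4 * C) ≤ 1 / 4 := by
    rw [div_le_iff₀ (by positivity)]
    linarith
  have hz : t ^ 2 * (volume.real S * C + (∫ x, φ x ^ 4) / (4 * C)) ≤ t ^ 2 * (1 / 2) :=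
    mul_le_mul_of_nonneg_left (by linarith) (sq_nonneg t)
  linarith

/-- Uniformly small sublevel sets. -/
theorem uniform_small {G : ℝ → E2 → ℝ}
    (hG : ContinuousOn (fun p : ℝ × E2 => G p.1 p.2) (Icc (0 : ℝ) 1 ×ˢ univ))
    (hnz : ∀ s ∈ Icc (0 : ℝ) 1, ∀ᵐ x ∂(volume : Measure E2), G s x ≠ 0) (R : ℝ) {δ : ℝ}
    (hδ : 0 < δ) : ∃ t : ℝ, 0 < t ∧ ∀ s ∈ Icc (0 : ℝ) 1,
      volume {x : E2 | x ∈ closedBall (0 : E2) R ∧ |G s x| ≤ t} ≤ ENNReal.ofReal δ := by
  by_contra hcon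
  push Not at hcon
  have h1 : ∀ n : ℕ, ∃ s ∈ Icc (0 : ℝ) 1, ENNReal.ofReal δ <
      volume {x : E2 | x ∈ closedBall (0 : E2) R ∧ |G s x| ≤ 1 / ((n : ℝ) + 1)} := by
    intro n
    exact hcon _ (by positivity)
  choose σ hσ hlt using h1
  obtain ⟨s, hs, ν, hν, hlim⟩ := isCompact_Icc.tendsto_subseq hσ
  have hcs : ∀ r ∈ Icc (0 : ℝ) 1, Continuous (G r) := by
    intro r hr
    have h2 : Continuous (fun x : E2 => ((r, x) : ℝ × E2)) := by fun_prop
    exact continuousOn_univ.1 (hG.comp h2.continuousOn fun x _ => ⟨hr, mem_univ _⟩)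
  have hmeas : ∀ n, MeasurableSet {x : E2 | x ∈ closedBall (0 : E2) R ∧
      |G (σ (ν n)) x| ≤ 1 / ((ν n : ℝ) + 1)} := by
    intro n
    have h2 : IsClosed {x : E2 | |G (σ (ν n)) x| ≤ 1 / ((ν n : ℝ) + 1)} :=
      isClosed_le (continuous_abs.comp (hcs _ (hσ _))) continuous_const
    exact (isClosed_closedBall.inter h2).measurableSet
  have hsmall : Tendsto (fun n => 1 / ((ν n : ℝ) + 1)) atTop (𝓝 0) :=
    (tendsto_one_div_add_atTop_nhds_zero_nat (𝕜 := ℝ)).comp hν.tendsto_atTop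
  have hlimv := tendsto_measure_of_ae_tendsto_indicator (μ := (volume : Measure E2)) atTop
    (A := (∅ : Set E2)) MeasurableSet.empty hmeas (B := closedBall (0 : E2) R)
    measurableSet_closedBall (measure_closedBall_lt_top).ne
    (Eventually.of_forall fun n x hx => hx.1) (by
      filter_upwards [hnz s hs] with x hx
      have h3 : Tendsto (fun n => G (σ (ν n)) x) atTop (𝓝 (G s x)) := by
        have h4 : Tendsto (fun n => ((σ (ν n), x) : ℝ × E2)) atTop
            (𝓝[Icc (0 : ℝ) 1 ×ˢ univ] (s, x)) := by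
          rw [tendsto_nhdsWithin_iff]
          refine ⟨hlim.prodMk_nhds tendsto_const_nhds, Eventually.of_forall fun n => ?_⟩
          exact ⟨hσ _, mem_univ _⟩
        exact (hG (s, x) ⟨hs, mem_univ _⟩).tendsto.comp h4
      have h5 : Tendsto (fun n => |G (σ (ν n)) x| - 1 / ((ν n : ℝ) + 1)) atTop
          (𝓝 (|G s x| - 0)) := h3.abs.sub hsmall
      rw [sub_zero] at h5
      filter_upwards [h5.eventually (lt_mem_nhds (abs_pos.2 hx))] with n hn
      constructor
      · intro h6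
        have := h6.2
        linarith
      · intro h6
        exact absurd h6 (notMem_empty x))
  rw [measure_empty] at hlimv
  have h7 : ∀ᶠ n in atTop, volume {x : E2 | x ∈ closedBall (0 : E2) R ∧
      |G (σ (ν n)) x| ≤ 1 / ((ν n : ℝ) + 1)} < ENNReal.ofReal δ :=
    hlimv.eventually (gt_mem_nhds (ENNReal.ofReal_pos.2 hδ))
  obtain ⟨n, hn⟩ := h7.exists
  exact absurd (hlt (ν n)) (not_lt.2 hn.le)

/-- Uniform nondegeneracy along a compact family and under bounded rigid motions. -/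
theorem nondeg {G : ℝ → E2 → ℝ}
    (hG : ContinuousOn (fun p : ℝ × E2 => G p.1 p.2) (Icc (0 : ℝ) 1 ×ˢ univ))
    (hnz : ∀ s ∈ Icc (0 : ℝ) 1, ∀ᵐ x ∂(volume : Measure E2), G s x ≠ 0) (R0 R : ℝ) :
    ∃ b : ℝ, 0 < b ∧ ∀ s ∈ Icc (0 : ℝ) 1, ∀ (A : E2 ≃ₗᵢ[ℝ] E2) (c : E2), ‖c‖ ≤ R →
      ∀ (Ω : Set E2) (φ : E2 → ℝ), Tc Ω φ → Ma φ φ = 1 → En φ φ ≤ 2 →
        (∀ x, R0 < ‖x‖ → φ x = 0) →
        b ≤ ∫ x, G s (mv A c x) ^ 2 * φ x ^ 2 := by
  obtain ⟨C, hC, hl4⟩ := exists_l4
  obtain ⟨t, ht, hS⟩ := uniform_small hG hnz (R0 + R) (δ := 1 / (4 * C)) (by positivity)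
  refine ⟨t ^ 2 / 2, by positivity, ?_⟩
  intro s hs A c hc Ω φ hφ hm hE hsupp
  have hcs : Continuous (G s) := by
    have h2 : Continuous (fun x : E2 => ((s, x) : ℝ × E2)) := by fun_prop
    exact continuousOn_univ.1 (hG.comp h2.continuousOn fun x _ => ⟨hs, mem_univ _⟩)
  have hcm : Continuous (fun x => G s (mv A c x)) := hcs.comp (mvH A c).continuous
  refine nondeg_of_small hC hφ hm (hl4 Ω φ hφ hm hE) hsupp hcm ht ?_
  have h1 : volume (mv A c ⁻¹' {y : E2 | y ∈ closedBall (0 : E2) (R0 + R) ∧ |G s y| ≤ t}) =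
      volume {y : E2 | y ∈ closedBall (0 : E2) (R0 + R) ∧ |G s y| ≤ t} := by
    apply (mv_mp A c).measure_preimage
    have h2 : IsClosed {y : E2 | |G s y| ≤ t} :=
      isClosed_le (continuous_abs.comp hcs) continuous_const
    exact (isClosed_closedBall.inter h2).measurableSet.nullMeasurableSet
  refine le_trans (measure_mono ?_) (h1.le.trans (hS s hs))
  rintro x ⟨hx1, hx2⟩
  refine ⟨?_, hx2⟩
  rw [mem_closedBall, dist_zero_right] at hx1 ⊢
  have h3 := mv_norm_le A c x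
  linarith

end Pool.Agent.PPW
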