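import Pool.Agent.Lib.MP_eb7570_an.Top

/-!
MP_eb7570_an: the Dirichlet spectrum as the list of eigenvalues of an orthonormal basis of
`L²(Ω)` of eigenfunctions in `H¹₀(Ω)`, and its equality with the min-max numbers.
-/

set_option autoImplicit false

open MeasureTheory Filter Topology Metric Set
open scoped ENNReal InnerProductSpace

namespace Pool.Agent.PPW

section gen

variable {E : Type} [NormedAddCommGroup E] [InnerProductSpace ℝ E] [CompleteSpace E]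
  [MeasurableSpace E]

/-- Test functions: smooth with compact support in `Ω`. -/
def IsTest (Ω : Set E) (φ : E → ℝ) : Prop :=
  ContDiff ℝ ((⊤ : ℕ∞) : WithTop ℕ∞) φ ∧ HasCompactSupport φ ∧ tsupport φ ⊆ Ω

/-- For `μ` = Lebesgue measure on `Ω`: `u` belongs to the Sobolev space `H¹₀(Ω)` and `g` is its
gradient: `u` and `g` are square integrable, and there are test functions `φ n` with `φ n → u`
and `∇ φ n → g` in `L²(Ω)`. -/
structure IsH10 (μ : Measure E) (Ω : Set E) (u : E → ℝ) (g : E → E) : Prop where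
  memu : MemLp u 2 μ
  memg : MemLp g 2 μ
  apx : ∃ φ : ℕ → E → ℝ, (∀ n, IsTest Ω (φ n)) ∧
    Tendsto (fun n => eLpNorm (fun x => φ n x - u x) 2 μ) atTop (𝓝 0) ∧
    Tendsto (fun n => eLpNorm (fun x => gradient (φ n) x - g x) 2 μ) atTop (𝓝 0)

/-- `u ∈ H¹₀(Ω)` satisfies `-Δ u = lam u` in the weak sense. -/
def IsEigen (μ : Measure E) (Ω : Set E) (lam : ℝ) (u : E → ℝ) : Prop :=
  ∃ g : E → E, IsH10 μ Ω u g ∧
    ∀ ψ, IsTest Ω ψ → ∫ x, ⟪g x, gradient ψ x⟫_ℝ ∂μ = lam * ∫ x, u x * ψ x ∂μ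

/-- `lam 0 ≤ lam 1 ≤ …` are the eigenvalues of an orthonormal (Hilbert) basis `b 0, b 1, …` of
`L²(Ω)` of eigenfunctions. -/
def HasSpectrum (μ : Measure E) (Ω : Set E) (lam : ℕ → ℝ) : Prop :=
  Monotone lam ∧ ∃ b : HilbertBasis ℕ ℝ (Lp ℝ 2 μ), ∀ k, IsEigen μ Ω (lam k) (b k)

/-- For `μ` = Lebesgue measure: the min-max numbers of `Ω`. `minMaxG μ Ω k` is the infimum of the
`t` such that some space of test functions of dimension `k + 1` has all Rayleigh quotients at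
most `t`. -/
noncomputable def minMaxG (μ : Measure E) (Ω : Set E) (k : ℕ) : ℝ :=
  sInf {t : ℝ | ∃ V : Submodule ℝ (E → ℝ),
    Module.finrank ℝ V = k + 1 ∧ (∀ u ∈ V, IsTest Ω u) ∧
    ∀ u ∈ V, (∫ x, ‖fderiv ℝ u x‖ ^ 2 ∂μ) ≤ t * ∫ x, (u x) ^ 2 ∂μ}

end gen

/-- `lam 0 ≤ lam 1 ≤ …` is the spectrum of the Dirichlet Laplacian of the plane set `Ω`, listed
with multiplicity. -/
def IsDirichletSpectrum (Ω : Set (EuclideanSpace ℝ (Fin 2))) (lam : ℕ → ℝ) : Prop :=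
  HasSpectrum (volume.restrict Ω) Ω lam

/-- The min-max numbers of the plane set `Ω`. -/
noncomputable def minMax (Ω : Set (EuclideanSpace ℝ (Fin 2))) (k : ℕ) : ℝ :=
  minMaxG volume Ω k

theorem IsTest.tc {Ω : Set E2} {φ : E2 → ℝ} (h : IsTest Ω φ) : Tc Ω φ := ⟨h.1, h.2.1, h.2.2⟩

theorem Tc.isTest {Ω : Set E2} {φ : E2 → ℝ} (h : Tc Ω φ) : IsTest Ω φ := ⟨h.1, h.2, h.3⟩

/-! ### Test functions in `L²` -/

theorem grad_apply {φ : E2 → ℝ} {x : E2} (h : DifferentiableAt ℝ φ x) (i : Fin 2) :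
    gradient φ x i = pd i φ x := by
  have h1 : ⟪gradient φ x, ev i⟫_ℝ = fderiv ℝ φ x (ev i) := by
    unfold gradient
    rw [InnerProductSpace.toDual_symm_apply]
  have h2 : pd i φ x = fderiv ℝ φ x (ev i) := h.lineDeriv_eq_fderiv
  rw [h2, ← h1, real_inner_comm]
  unfold ev
  rw [EuclideanSpace.inner_single_left]
  simp

theorem inner_grad {φ ψ : E2 → ℝ} {x : E2} (h : DifferentiableAt ℝ φ x)
    (h' : DifferentiableAt ℝ ψ x) :
    ⟪gradient φ x, gradient ψ x⟫_ℝ = pd 0 φ x * pd 0 ψ x + pd 1 φ x * pd 1 ψ x := by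
  rw [PiLp.inner_apply, Fin.sum_univ_two, grad_apply h, grad_apply h, grad_apply h', grad_apply h']
  simp only [RCLike.inner_apply, conj_trivial]
  ring

theorem Tc.diff {Ω : Set E2} {φ : E2 → ℝ} (h : Tc Ω φ) (x : E2) : DifferentiableAt ℝ φ x :=
  h.smooth.differentiable (by simp) x

theorem Tc.grad_cont {Ω : Set E2} {φ : E2 → ℝ} (h : Tc Ω φ) : Continuous (gradient φ) := by
  unfold gradient
  exact (InnerProductSpace.toDual ℝ E2).symm.continuous.comp
    (h.smooth.continuous_fderiv (by simp))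

theorem Tc.grad_cpt {Ω : Set E2} {φ : E2 → ℝ} (h : Tc Ω φ) : HasCompactSupport (gradient φ) := by
  unfold gradient
  exact (h.cpt.fderiv ℝ).comp_left (map_zero _)

theorem Tc.memT {Ω : Set E2} {φ : E2 → ℝ} (h : Tc Ω φ) : MemLp φ 2 (volume.restrict Ω) :=
  (h.smooth.continuous.memLp_of_hasCompactSupport h.cpt).restrict Ω

theorem Tc.memG {Ω : Set E2} {φ : E2 → ℝ} (h : Tc Ω φ) :
    MemLp (gradient φ) 2 (volume.restrict Ω) :=
  (h.grad_cont.memLp_of_hasCompactSupport h.grad_cpt).restrict Ω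

theorem Tc.int_restrict {Ω : Set E2} {φ : E2 → ℝ} (h : Tc Ω φ) {F : E2 → ℝ}
    (hF : ∀ x, x ∉ tsupport φ → F x = 0) : ∫ x in Ω, F x = ∫ x, F x :=
  setIntegral_eq_integral_of_forall_compl_eq_zero fun x hx => hF x fun h' => hx (h.sub h')

theorem Tc.ma_eq {Ω : Set E2} {φ ψ : E2 → ℝ} (h : Tc Ω φ) :
    ∫ x in Ω, φ x * ψ x = Ma φ ψ :=
  h.int_restrict fun x hx => by rw [image_eq_zero_of_notMem_tsupport hx, zero_mul]

theorem Tc.en_eq {Ω : Set E2} {φ ψ : E2 → ℝ} (h : Tc Ω φ) (h' : Tc Ω ψ) :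
    ∫ x in Ω, ⟪gradient φ x, gradient ψ x⟫_ℝ = En φ ψ := by
  have h1 : ∀ x, ⟪gradient φ x, gradient ψ x⟫_ℝ = pd 0 φ x * pd 0 ψ x + pd 1 φ x * pd 1 ψ x :=
    fun x => inner_grad (h.diff x) (h'.diff x)
  simp only [h1]
  refine h.int_restrict fun x hx => ?_
  rw [pd_zero_of_notMem hx, pd_zero_of_notMem hx, zero_mul, zero_mul, add_zero]

/-- The class of a test function in `L²(Ω)`. -/
noncomputable def LT (Ω : Set E2) : TcS Ω →ₗ[ℝ] Lp ℝ 2 (volume.restrict Ω) where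
  toFun u := (Tc.memT (Ω := Ω) (φ := (u : E2 → ℝ)) u.2).toLp (u : E2 → ℝ)
  map_add' _ _ := rfl
  map_smul' _ _ := rfl

/-- The class of the gradient of a test function. -/
noncomputable def LG (Ω : Set E2) : TcS Ω →ₗ[ℝ] Lp E2 2 (volume.restrict Ω) where
  toFun u := (Tc.memG (Ω := Ω) (φ := (u : E2 → ℝ)) u.2).toLp (gradient (u : E2 → ℝ))
  map_add' u w := by
    rw [← MemLp.toLp_add]
    congr 1
    funext x
    have h1 : fderiv ℝ (((u + w : TcS Ω) : E2 → ℝ)) x =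
        fderiv ℝ (u : E2 → ℝ) x + fderiv ℝ (w : E2 → ℝ) x :=
      fderiv_add (Tc.diff (Ω := Ω) u.2 x) (Tc.diff (Ω := Ω) w.2 x)
    show (InnerProductSpace.toDual ℝ E2).symm _ = _
    rw [h1, map_add]
    rfl
  map_smul' c u := by
    rw [RingHom.id_apply, ← MemLp.toLp_const_smul]
    congr 1
    funext x
    have h1 : fderiv ℝ (((c • u : TcS Ω) : E2 → ℝ)) x = c • fderiv ℝ (u : E2 → ℝ) x :=
      fderiv_const_smul (Tc.diff (Ω := Ω) u.2 x) c
    show (InnerProductSpace.toDual ℝ E2).symm _ = _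
    rw [h1]
    simp [gradient]

theorem inner_LT {Ω : Set E2} (u w : TcS Ω) :
    ⟪LT Ω u, LT Ω w⟫_ℝ = Ma (u : E2 → ℝ) (w : E2 → ℝ) := by
  rw [L2.inner_def, ← Tc.ma_eq (Ω := Ω) u.2]
  apply integral_congr_ae
  filter_upwards [(Tc.memT (Ω := Ω) u.2).coeFn_toLp, (Tc.memT (Ω := Ω) w.2).coeFn_toLp]
    with x h1 h2
  show ⟪(Tc.memT (Ω := Ω) u.2).toLp _ x, (Tc.memT (Ω := Ω) w.2).toLp _ x⟫_ℝ = _
  rw [h1, h2]
  simp [mul_comm]

theorem inner_LG {Ω : Set E2} (u w : TcS Ω) :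
    ⟪LG Ω u, LG Ω w⟫_ℝ = En (u : E2 → ℝ) (w : E2 → ℝ) := by
  rw [L2.inner_def, ← Tc.en_eq (Ω := Ω) u.2 w.2]
  apply integral_congr_ae
  filter_upwards [(Tc.memG (Ω := Ω) u.2).coeFn_toLp, (Tc.memG (Ω := Ω) w.2).coeFn_toLp]
    with x h1 h2
  show ⟪(Tc.memG (Ω := Ω) u.2).toLp _ x, (Tc.memG (Ω := Ω) w.2).toLp _ x⟫_ℝ = _
  rw [h1, h2]

/-- The data of an eigenfunction in Hilbert space terms. -/
theorem IsEigen.data {Ω : Set E2} {l : ℝ} {U : Lp ℝ 2 (volume.restrict Ω)}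
    (h : IsEigen (volume.restrict Ω) Ω l U) : ∃ G : Lp E2 2 (volume.restrict Ω),
      (∀ w : TcS Ω, ⟪G, LG Ω w⟫_ℝ = l * ⟪U, LT Ω w⟫_ℝ) ∧
      ∃ φ : ℕ → TcS Ω, Tendsto (fun n => LT Ω (φ n)) atTop (𝓝 U) ∧
        Tendsto (fun n => LG Ω (φ n)) atTop (𝓝 G) := by
  obtain ⟨g, ⟨hu, hg, φ, hφ, h1, h2⟩, hw⟩ := h
  refine ⟨hg.toLp g, fun w => ?_, fun n => ⟨φ n, (hφ n).tc⟩, ?_, ?_⟩
  · have h3 := hw w (Tc.isTest w.2)
    rw [L2.inner_def, L2.inner_def]
    have h4 : ∫ x in Ω, ⟪(hg.toLp g) x, (LG Ω w) x⟫_ℝ = ∫ x in Ω, ⟪g x, gradient (w : E2 → ℝ) x⟫_ℝ := by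
      apply integral_congr_ae
      filter_upwards [hg.coeFn_toLp, (Tc.memG (Ω := Ω) w.2).coeFn_toLp] with x h5 h6
      show ⟪hg.toLp g x, (Tc.memG (Ω := Ω) w.2).toLp _ x⟫_ℝ = _
      rw [h5, h6]
    have h5 : ∫ x in Ω, ⟪U x, (LT Ω w) x⟫_ℝ = ∫ x in Ω, U x * (w : E2 → ℝ) x := by
      apply integral_congr_ae
      filter_upwards [(Tc.memT (Ω := Ω) w.2).coeFn_toLp] with x h6
      show ⟪U x, (Tc.memT (Ω := Ω) w.2).toLp _ x⟫_ℝ = _
      rw [h6]
      simp [mul_comm]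
    rw [h4, h5]
    exact h3
  · have h3 := (Lp.tendsto_Lp_iff_tendsto_eLpNorm'' (fun n => φ n) (fun n => (hφ n).tc.memT) U hu).2 h1
    have h4 : hu.toLp U = U := Lp.toLp_coeFn U hu
    rw [h4] at h3
    exact h3
  · exact (Lp.tendsto_Lp_iff_tendsto_eLpNorm'' (fun n => gradient (φ n))
      (fun n => (hφ n).tc.memG) g hg).2 h2

private theorem sum_err' {k : ℕ} (c : Fin k → ℝ) (E : Fin k → Fin k → ℝ) {η : ℝ}
    (hE : ∀ i j, |E i j| ≤ η) :
    |∑ i, ∑ j, c i * c j * E i j| ≤ η * k * ∑ i, c i ^ 2 := by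
  rcases Nat.eq_zero_or_pos k with hk | hk
  · subst hk
    simp
  have hη : 0 ≤ η := (abs_nonneg _).trans (hE ⟨0, hk⟩ ⟨0, hk⟩)
  have h1 : |∑ i, ∑ j, c i * c j * E i j| ≤ ∑ i, ∑ j, |c i| * |c j| * η := by
    refine (Finset.abs_sum_le_sum_abs _ _).trans (Finset.sum_le_sum fun i _ => ?_)
    refine (Finset.abs_sum_le_sum_abs _ _).trans (Finset.sum_le_sum fun j _ => ?_)
    rw [abs_mul, abs_mul]
    exact mul_le_mul_of_nonneg_left (hE i j) (by positivity)
  have h2 : ∑ i, ∑ j, |c i| * |c j| * η = η * (∑ i, |c i|) ^ 2 := by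
    rw [pow_two, Finset.sum_mul_sum, Finset.mul_sum]
    refine Finset.sum_congr rfl fun i _ => ?_
    rw [Finset.mul_sum]
    refine Finset.sum_congr rfl fun j _ => ?_
    ring
  have h3 : (∑ i, |c i|) ^ 2 ≤ k * ∑ i, c i ^ 2 := by
    have h4 := sq_sum_le_card_mul_sum_sq (s := (Finset.univ : Finset (Fin k)))
      (f := fun i => |c i|)
    simp only [sq_abs, Finset.card_univ, Fintype.card_fin] at h4
    exact h4
  calc |∑ i, ∑ j, c i * c j * E i j| ≤ η * (∑ i, |c i|) ^ 2 := h1.trans (le_of_eq h2)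
    _ ≤ η * (k * ∑ i, c i ^ 2) := mul_le_mul_of_nonneg_left h3 hη
    _ = η * k * ∑ i, c i ^ 2 := by ring

/-- Upper bound of `λ_k` by sequences of test functions with Gram matrices converging to
diagonal matrices. -/
theorem lamk_le_of_seq {Ω : Set E2} {k : ℕ} (hk : k ≠ 0) {t : ℝ} (ht : 0 ≤ t)
    {U : Fin k → ℕ → E2 → ℝ} (hU : ∀ i n, Tc Ω (U i n)) {l : Fin k → ℝ}
    (hM : ∀ i j, Tendsto (fun n => Ma (U i n) (U j n)) atTop (𝓝 (if i = j then 1 else 0)))
    (hE : ∀ i j, Tendsto (fun n => En (U i n) (U j n)) atTop (𝓝 (if i = j then l i else 0)))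
    (hl : ∀ i, l i ≤ t) : lamk k Ω ≤ t := by
  apply le_of_forall_pos_le_add
  intro δ hδ
  apply lamk_le hk
  set θ : ℝ := δ / (1 + t + δ) with hθ
  have hpos : 0 < 1 + t + δ := by positivity
  have hθ0 : 0 < θ := by positivity
  have hk0 : (0 : ℝ) < k := by
    exact_mod_cast Nat.pos_of_ne_zero hk
  have hη0 : 0 < θ / k := by positivity
  have hconv : ∀ᶠ n in atTop, ∀ i j, |Ma (U i n) (U j n) - (if i = j then 1 else 0)| < θ / k ∧
      |En (U i n) (U j n) - (if i = j then l i else 0)| < θ / k := by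
    rw [eventually_all]
    intro i
    rw [eventually_all]
    intro j
    have h1 := (Metric.tendsto_nhds.1 (hM i j)) (θ / k) hη0
    have h2 := (Metric.tendsto_nhds.1 (hE i j)) (θ / k) hη0
    filter_upwards [h1, h2] with n a b
    rw [Real.dist_eq] at a b
    exact ⟨a, b⟩
  obtain ⟨n, hn⟩ := hconv.exists
  have hθ1 : 1 - θ = (1 + t) / (1 + t + δ) := by
    rw [hθ]
    field_simp
    ring
  have hθ2 : 0 < 1 - θ := by
    rw [hθ1]
    positivity
  have hid : ∀ (c : Fin k → ℝ) (d : Fin k → ℝ),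
      ∑ i, ∑ j, c i * c j * (if i = j then d i else 0) = ∑ i, d i * c i ^ 2 := by
    intro c d
    refine Finset.sum_congr rfl fun i _ => ?_
    rw [Finset.sum_eq_single i]
    · rw [if_pos rfl]
      ring
    · intro j _ hj
      rw [if_neg (Ne.symm hj), mul_zero]
    · intro h
      exact absurd (Finset.mem_univ _) h
  have hM2 : ∀ c : Fin k → ℝ, (1 - θ) * ∑ i, c i ^ 2 ≤
      Ma (Pool.Agent.PPW.comb c fun i => U i n) (Pool.Agent.PPW.comb c fun i => U i n) := by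
    intro c
    rw [Ma_comb c fun i => (hU i n).toLc]
    have h1 := sum_err' c (fun i j => Ma (U i n) (U j n) - (if i = j then 1 else 0))
      (fun i j => (hn i j).1.le)
    have h2 : ∑ i, ∑ j, c i * c j * (Ma (U i n) (U j n) - (if i = j then 1 else 0)) =
        (∑ i, ∑ j, c i * c j * Ma (U i n) (U j n)) - ∑ i, c i ^ 2 := by
      have h3 := hid c (fun _ => 1)
      simp only [one_mul] at h3
      rw [← h3, ← Finset.sum_sub_distrib]
      refine Finset.sum_congr rfl fun i _ => ?_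
      rw [← Finset.sum_sub_distrib]
      refine Finset.sum_congr rfl fun j _ => ?_
      ring
    rw [h2, div_mul_cancel₀ θ hk0.ne'] at h1
    have h3 := (abs_le.1 h1).1
    linarith
  refine mem_admS (m := 1 - θ) hθ2 (e := fun i => U i n) (fun i => hU i n) hM2 ?_
  intro c
  have h1 := sum_err' c (fun i j => En (U i n) (U j n) - (if i = j then l i else 0))
    (fun i j => (hn i j).2.le)
  have h2 : ∑ i, ∑ j, c i * c j * (En (U i n) (U j n) - (if i = j then l i else 0)) =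
      (∑ i, ∑ j, c i * c j * En (U i n) (U j n)) - ∑ i, l i * c i ^ 2 := by
    rw [← hid c l, ← Finset.sum_sub_distrib]
    refine Finset.sum_congr rfl fun i _ => ?_
    rw [← Finset.sum_sub_distrib]
    refine Finset.sum_congr rfl fun j _ => ?_
    ring
  rw [h2, div_mul_cancel₀ θ hk0.ne'] at h1
  have h3 := (abs_le.1 h1).2
  have h4 : ∑ i, l i * c i ^ 2 ≤ t * ∑ i, c i ^ 2 := by
    rw [Finset.mul_sum]
    exact Finset.sum_le_sum fun i _ => mul_le_mul_of_nonneg_right (hl i) (sq_nonneg _)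
  have h5 := hM2 c
  have h6 : 0 ≤ ∑ i, c i ^ 2 := Finset.sum_nonneg fun i _ => sq_nonneg _
  have h7 : (t + δ) * (1 - θ) = t + θ := by
    rw [hθ]
    field_simp
    ring
  rw [En_comb c fun i => (hU i n).toLc]
  calc ∑ i, ∑ j, c i * c j * En (U i n) (U j n) ≤ (t + θ) * ∑ i, c i ^ 2 := by linarith
    _ = (t + δ) * ((1 - θ) * ∑ i, c i ^ 2) := by rw [← mul_assoc, h7]
    _ ≤ _ := mul_le_mul_of_nonneg_left h5 (by linarith)

/-- The eigenvalues of an orthonormal basis of eigenfunctions are the min-max numbers. -/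
theorem spectrum_eq {Ω : Set E2} (hΩ : Dom Ω) {lam : ℕ → ℝ} (h : IsDirichletSpectrum Ω lam)
    (k : ℕ) : lam k = lamk (k + 1) Ω := by
  obtain ⟨hmono, b, hb⟩ := h
  choose G hG φ hφT hφG using fun i => (hb i).data
  have hbo : ∀ i j, ⟪b i, b j⟫_ℝ = if i = j then (1 : ℝ) else 0 :=
    orthonormal_iff_ite.1 b.orthonormal
  have hGG : ∀ i j, ⟪G i, G j⟫_ℝ = if i = j then lam i else 0 := by
    intro i j
    have h1 : Tendsto (fun n => ⟪G i, LG Ω (φ j n)⟫_ℝ) atTop (𝓝 ⟪G i, G j⟫_ℝ) :=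
      tendsto_const_nhds.inner (hφG j)
    have h2 : Tendsto (fun n => lam i * ⟪b i, LT Ω (φ j n)⟫_ℝ) atTop
        (𝓝 (lam i * ⟪b i, b j⟫_ℝ)) := (tendsto_const_nhds.inner (hφT j)).const_mul _
    have h3 := tendsto_nhds_unique h1 (h2.congr fun n => (hG i (φ j n)).symm)
    rw [h3, hbo]
    split_ifs <;> simp
  have hlam0 : ∀ i, 0 ≤ lam i := by
    intro i
    have h1 := hGG i i
    rw [if_pos rfl] at h1
    rw [← h1]
    exact real_inner_self_nonneg
  apply le_antisymm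
  · -- lower bound
    refine le_csInf (admS_nonempty hΩ (k + 1)) fun t ht => ?_
    obtain ⟨V, hV, h1, h2⟩ := ht
    have hVT : ∀ v ∈ V, Tc Ω v := fun v hv => ⟨(h1 v hv).1, (h1 v hv).2.1, (h1 v hv).2.2⟩
    have hle : V ≤ TcS Ω := hVT
    have hfin : FiniteDimensional ℝ V := Module.finite_of_finrank_pos (by rw [hV]; omega)
    let f : V →ₗ[ℝ] (Fin k → ℝ) := LinearMap.pi fun i =>
      ((innerSL ℝ (b i)).toLinearMap.comp (LT Ω)).comp (Submodule.inclusion hle)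
    have hker : LinearMap.ker f ≠ ⊥ := by
      apply LinearMap.ker_ne_bot_of_finrank_lt
      rw [hV]
      simp
    obtain ⟨v, hv, hv0⟩ := Submodule.exists_mem_ne_zero_of_ne_bot hker
    have hw : ∀ i < k, ⟪b i, LT Ω (Submodule.inclusion hle v)⟫_ℝ = 0 := by
      intro i hi
      have h3 : f v = 0 := hv
      exact congrFun h3 ⟨i, hi⟩
    set w : TcS Ω := Submodule.inclusion hle v with hwdef
    have hwv : (w : E2 → ℝ) = (v : E2 → ℝ) := rfl
    have hv0' : (v : E2 → ℝ) ≠ 0 := fun h => hv0 (Subtype.ext h)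
    have hMpos : 0 < Ma (w : E2 → ℝ) (w : E2 → ℝ) :=
      Ma_pos (hVT v v.2).smooth.continuous (hVT v v.2).cpt hv0'
    have hray : En (w : E2 → ℝ) (w : E2 → ℝ) ≤ t * Ma (w : E2 → ℝ) (w : E2 → ℝ) := by
      have h3 := h2 v v.2
      rw [En_eq_of_smooth (hVT v v.2).smooth, Ma_eq] at h3
      exact h3
    -- Bessel
    have hbes : ∀ s : Finset ℕ, ∑ j ∈ s, lam j * ⟪b j, LT Ω w⟫_ℝ ^ 2 ≤
        En (w : E2 → ℝ) (w : E2 → ℝ) := by
      intro s
      set c : ℕ → ℝ := fun j => ⟪b j, LT Ω w⟫_ℝ with hc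
      have h3 : 0 ≤ ⟪LG Ω w - ∑ j ∈ s, c j • G j, LG Ω w - ∑ j ∈ s, c j • G j⟫_ℝ :=
        real_inner_self_nonneg
      have h4 : ⟪∑ j ∈ s, c j • G j, LG Ω w⟫_ℝ = ∑ j ∈ s, lam j * c j ^ 2 := by
        rw [sum_inner]
        refine Finset.sum_congr rfl fun j _ => ?_
        rw [real_inner_smul_left, hG]
        show c j * (lam j * c j) = _
        ring
      have h5 : ⟪∑ j ∈ s, c j • G j, ∑ j ∈ s, c j • G j⟫_ℝ = ∑ j ∈ s, lam j * c j ^ 2 := by
        rw [sum_inner]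
        refine Finset.sum_congr rfl fun i hi => ?_
        rw [real_inner_smul_left, inner_sum, Finset.sum_eq_single i]
        · rw [real_inner_smul_right, hGG, if_pos rfl]
          ring
        · intro j _ hj
          rw [real_inner_smul_right, hGG, if_neg (Ne.symm hj), mul_zero]
        · intro h
          exact absurd hi h
      have h6 : ⟪LG Ω w, ∑ j ∈ s, c j • G j⟫_ℝ = ∑ j ∈ s, lam j * c j ^ 2 := by
        rw [real_inner_comm]
        exact h4
      rw [inner_sub_left, inner_sub_right, inner_sub_right, h5, h4, h6, inner_LG] at h3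
      linarith
    have hpar := b.hasSum_inner_mul_inner (LT Ω w) (LT Ω w)
    have hpar2 : HasSum (fun j => lam k * ⟪b j, LT Ω w⟫_ℝ ^ 2)
        (lam k * Ma (w : E2 → ℝ) (w : E2 → ℝ)) := by
      have h3 := hpar.mul_left (lam k)
      rw [inner_LT] at h3
      have h4 : (fun j => lam k * (⟪LT Ω w, b j⟫_ℝ * ⟪b j, LT Ω w⟫_ℝ)) =
          fun j => lam k * ⟪b j, LT Ω w⟫_ℝ ^ 2 := by
        funext j
        rw [real_inner_comm, pow_two]
      rw [h4] at h3
      exact h3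
    have hfinal : lam k * Ma (w : E2 → ℝ) (w : E2 → ℝ) ≤ En (w : E2 → ℝ) (w : E2 → ℝ) := by
      refine hasSum_le_of_sum_le hpar2 fun s => ?_
      refine le_trans (Finset.sum_le_sum fun j _ => ?_) (hbes s)
      rcases Nat.lt_or_ge j k with h3 | h3
      · rw [hw j h3]
        simp
      · exact mul_le_mul_of_nonneg_right (hmono h3) (sq_nonneg _)
    exact le_of_mul_le_mul_right (hfinal.trans hray) hMpos
  · -- upper bound
    refine lamk_le_of_seq (Nat.succ_ne_zero k) (hlam0 k) (U := fun i n => (φ i n : E2 → ℝ))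
      (fun i n => (φ i n).2) (l := fun i => lam i) ?_ ?_ ?_
    · intro i j
      have h1 : Tendsto (fun n => ⟪LT Ω (φ i n), LT Ω (φ j n)⟫_ℝ) atTop (𝓝 ⟪b i, b j⟫_ℝ) :=
        (hφT i).inner (hφT j)
      simp only [inner_LT, hbo] at h1
      simpa only [Fin.val_inj] using h1
    · intro i j
      have h1 : Tendsto (fun n => ⟪LG Ω (φ i n), LG Ω (φ j n)⟫_ℝ) atTop (𝓝 ⟪G i, G j⟫_ℝ) :=
        (hφG i).inner (hφG j)
      simp only [inner_LG, hGG] at h1
      simpa only [Fin.val_inj] using h1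
    · intro i
      exact hmono (Nat.lt_succ_iff.1 i.2)

end Pool.Agent.PPW
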