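import Pool.Agent.Lib.MP_eb7570_an.Cert
import Pool.Agent.Lib.MP_eb7570_an.Lam

/-!
One near ground state and a pair of trial functions.
-/

set_option autoImplicit false

open MeasureTheory Filter Topology Metric Set

namespace Pool.Agent.PPW

/-- The square of the gradient. -/
noncomputable def g2 (u : E2 → ℝ) (x : E2) : ℝ := pd 0 u x ^ 2 + pd 1 u x ^ 2

/-- The function to be certified. -/
noncomputable def Ff (al be : ℝ) (P1 P2 : E2 → ℝ) (x : E2) : ℝ :=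
  al * P1 x ^ 2 + be * P2 x ^ 2 - g2 P1 x - g2 P2 x

theorem Wt.g2 {u : E2 → ℝ} {C : NNReal} (hu : LipschitzWith C u) :
    Wt (fun x => Pool.Agent.PPW.g2 u x) :=
  (Wt.pd hu 0).sq.add (Wt.pd hu 1).sq

theorem Wt.Ff {P1 P2 : E2 → ℝ} {C D : NNReal} (h1 : LipschitzWith C P1)
    (h2 : LipschitzWith D P2) (al be : ℝ) : Wt (fun x => Pool.Agent.PPW.Ff al be P1 P2 x) :=
  ((((Wt.of_lip h1).sq.smul al).add ((Wt.of_lip h2).sq.smul be)).sub (Wt.g2 h1)).sub (Wt.g2 h2)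

/-- The square of a bounded Lipschitz function. -/
theorem lip_sq {P : E2 → ℝ} {D : NNReal} (hP : LipschitzWith D P) {M : NNReal}
    (hM : ∀ x, |P x| ≤ M) : LipschitzWith (2 * M * D) (fun x => P x * P x) := by
  apply LipschitzWith.of_dist_le_mul
  intro x y
  have h1 := hP.dist_le_mul x y
  rw [Real.dist_eq] at h1
  rw [Real.dist_eq]
  have h2 : P x * P x - P y * P y = (P x - P y) * (P x + P y) := by ring
  rw [h2, abs_mul]
  have h3 : |P x + P y| ≤ 2 * M := by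
    refine (abs_add_le _ _).trans ?_
    linarith [hM x, hM y]
  have h4 : |P x - P y| * |P x + P y| ≤ (D * dist x y) * (2 * M) :=
    mul_le_mul h1 h3 (abs_nonneg _) (by positivity)
  refine h4.trans (le_of_eq ?_)
  push_cast
  ring

/-- The energy of `P φ`. -/
theorem energy_mul {Ω : Set E2} {φ : E2 → ℝ} (hφ : Lc Ω φ) {P : E2 → ℝ} {D : NNReal}
    (hP : LipschitzWith D P) {M : NNReal} (hM : ∀ x, |P x| ≤ M) :
    En (fun x => P x * φ x) (fun x => P x * φ x) =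
      (∫ x, g2 P x * φ x ^ 2) + En φ (fun x => (P x * P x) * φ x) := by
  have hsq := lip_sq hP hM
  have hw := hφ.mul_lip hsq
  have i1 := int_wt_sq hφ (Wt.g2 hP)
  have i2 := hφ.int_en hw
  unfold En
  rw [← integral_add i1 i2]
  apply integral_congr_ae
  filter_upwards [ae_hasPd hP 0, ae_hasPd hP 1, hφ.hasPd 0, hφ.hasPd 1] with x a0 a1 b0 b1
  have e0 : pd 0 (fun x => P x * φ x) x = pd 0 P x * φ x + P x * pd 0 φ x :=
    (pd_mul a0 b0).lineDeriv
  have e1 : pd 1 (fun x => P x * φ x) x = pd 1 P x * φ x + P x * pd 1 φ x :=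
    (pd_mul a1 b1).lineDeriv
  have d0 : pd 0 (fun x => (P x * P x) * φ x) x =
      (pd 0 P x * P x + P x * pd 0 P x) * φ x + (P x * P x) * pd 0 φ x :=
    (pd_mul (pd_mul a0 a0) b0).lineDeriv
  have d1 : pd 1 (fun x => (P x * P x) * φ x) x =
      (pd 1 P x * P x + P x * pd 1 P x) * φ x + (P x * P x) * pd 1 φ x :=
    (pd_mul (pd_mul a1 a1) b1).lineDeriv
  show pd 0 (fun x => P x * φ x) x * pd 0 (fun x => P x * φ x) x +
    pd 1 (fun x => P x * φ x) x * pd 1 (fun x => P x * φ x) x =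
    g2 P x * φ x ^ 2 + (pd 0 φ x * pd 0 (fun x => (P x * P x) * φ x) x +
      pd 1 φ x * pd 1 (fun x => (P x * P x) * φ x) x)
  rw [e0, e1, d0, d1]
  unfold g2
  ring

theorem Ma_mul_mul (φ P R : E2 → ℝ) :
    Ma (fun x => P x * φ x) (fun x => R x * φ x) = ∫ x, P x * R x * φ x ^ 2 := by
  unfold Ma
  apply integral_congr_ae
  refine Eventually.of_forall fun x => ?_
  show (P x * φ x) * (R x * φ x) = P x * R x * φ x ^ 2
  ring

/-- Rayleigh quotient bound for `P φ`. -/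
theorem energy_le {Ω : Set E2} (hΩ : IsOpen Ω) (hlow : Low 1 Ω) {ε : ℝ} (hε : 0 ≤ ε)
    (hε1 : ε ≤ 1) {φ : E2 → ℝ} (hφ : Tc Ω φ) (hm : Ma φ φ = 1) (hE : En φ φ ≤ 1 + ε)
    {P : E2 → ℝ} {D : NNReal} (hP : LipschitzWith D P) {M : NNReal} (hM : ∀ x, |P x| ≤ M) :
    En (fun x => P x * φ x) (fun x => P x * φ x) ≤
      (∫ x, P x ^ 2 * φ x ^ 2) + (∫ x, g2 P x * φ x ^ 2) +
        2 * (M ^ 2 + 2 * M * D) * Real.sqrt ε := by
  have hsq := lip_sq hP hM
  have hM2 : ∀ x, |P x * P x| ≤ (M : ℝ) ^ 2 := by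
    intro x
    rw [abs_mul, pow_two]
    exact mul_le_mul (hM x) (hM x) (abs_nonneg _) M.coe_nonneg
  have h1 := near_test hΩ hlow hε hε1 hφ hm hE hsq hM2
  rw [energy_mul hφ.toLc hP hM]
  have h2 := (abs_le.1 h1).2
  have h3 : Ma φ (fun x => (P x * P x) * φ x) = ∫ x, P x ^ 2 * φ x ^ 2 := by
    unfold Ma
    apply integral_congr_ae
    refine Eventually.of_forall fun x => ?_
    show φ x * ((P x * P x) * φ x) = P x ^ 2 * φ x ^ 2
    ring
  rw [h3] at h2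
  push_cast at h2
  linarith

/-- ONE STEP: a near ground state and a pair of trial functions with the right orthogonality. -/
theorem step {Ω : Set E2} (hΩ : IsOpen Ω) (hlow : Low 1 Ω) {ε : ℝ} (hε : 0 ≤ ε)
    (hε1 : ε ≤ 1) {φ : E2 → ℝ} (hφ : Tc Ω φ) (hm : Ma φ φ = 1) (hE : En φ φ ≤ 1 + ε)
    {P1 P2 : E2 → ℝ} {D : NNReal} (hP1 : LipschitzWith D P1) (hP2 : LipschitzWith D P2)
    {M : NNReal} (hM1 : ∀ x, |P1 x| ≤ M) (hM2 : ∀ x, |P2 x| ≤ M)
    (o1 : ∫ x, P1 x * φ x ^ 2 = 0) (o2 : ∫ x, P2 x * φ x ^ 2 = 0)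
    (o12 : ∫ x, P1 x * P2 x * φ x ^ 2 = 0) {B : ℝ} (hB : 0 < B)
    (b1 : ∫ x, P1 x ^ 2 * φ x ^ 2 = B) (b2 : ∫ x, P2 x ^ 2 * φ x ^ 2 = B)
    {al be K : ℝ} (hK : -(K * Real.sqrt ε) ≤ ∫ x, Ff al be P1 P2 x * φ x ^ 2) :
    lamk 1 Ω + lamk 2 Ω + lamk 3 Ω ≤
      3 + ε + (al + be) + (K + 4 * (M ^ 2 + 2 * M * D)) * Real.sqrt ε / B := by
  have hφL := hφ.toLc
  have l1 := hφL.mul_lip hP1
  have l2 := hφL.mul_lip hP2
  have m11 : Ma (fun x => P1 x * φ x) (fun x => P1 x * φ x) = B := by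
    rw [Ma_mul_mul, ← b1]
    apply integral_congr_ae
    refine Eventually.of_forall fun x => ?_
    show P1 x * P1 x * φ x ^ 2 = P1 x ^ 2 * φ x ^ 2
    ring
  have m22 : Ma (fun x => P2 x * φ x) (fun x => P2 x * φ x) = B := by
    rw [Ma_mul_mul, ← b2]
    apply integral_congr_ae
    refine Eventually.of_forall fun x => ?_
    show P2 x * P2 x * φ x ^ 2 = P2 x ^ 2 * φ x ^ 2
    ring
  have m01 : Ma φ (fun x => P1 x * φ x) = 0 := by
    rw [← o1]
    unfold Ma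
    apply integral_congr_ae
    refine Eventually.of_forall fun x => ?_
    show φ x * (P1 x * φ x) = P1 x * φ x ^ 2
    ring
  have m02 : Ma φ (fun x => P2 x * φ x) = 0 := by
    rw [← o2]
    unfold Ma
    apply integral_congr_ae
    refine Eventually.of_forall fun x => ?_
    show φ x * (P2 x * φ x) = P2 x * φ x ^ 2
    ring
  have m12 : Ma (fun x => P1 x * φ x) (fun x => P2 x * φ x) = 0 := by
    rw [Ma_mul_mul, o12]
  have h0 := sum_three_le hΩ hφL l1 l2 (by rw [hm]; exact one_pos) (by rw [m11]; exact hB)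
    (by rw [m22]; exact hB) m01 m02 m12
  rw [hm, m11, m22, div_one] at h0
  have e1 := energy_le hΩ hlow hε hε1 hφ hm hE hP1 hM1
  have e2 := energy_le hΩ hlow hε hε1 hφ hm hE hP2 hM2
  rw [b1] at e1
  rw [b2] at e2
  -- the certified integral
  have i1 : Integrable (fun x => P1 x ^ 2 * φ x ^ 2) (volume : Measure E2) :=
    int_wt_sq hφL (Wt.of_lip hP1).sq
  have i2 : Integrable (fun x => P2 x ^ 2 * φ x ^ 2) (volume : Measure E2) :=
    int_wt_sq hφL (Wt.of_lip hP2).sq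
  have j1 : Integrable (fun x => g2 P1 x * φ x ^ 2) (volume : Measure E2) :=
    int_wt_sq hφL (Wt.g2 hP1)
  have j2 : Integrable (fun x => g2 P2 x * φ x ^ 2) (volume : Measure E2) :=
    int_wt_sq hφL (Wt.g2 hP2)
  have hF : ∫ x, Ff al be P1 P2 x * φ x ^ 2 = al * B + be * B -
      (∫ x, g2 P1 x * φ x ^ 2) - ∫ x, g2 P2 x * φ x ^ 2 := by
    rw [← b2]
    nth_rewrite 1 [b2]
    rw [← b1, ← integral_const_mul, ← integral_const_mul]
    have s1 : ∫ x, (al * (P1 x ^ 2 * φ x ^ 2) + be * (P2 x ^ 2 * φ x ^ 2)) =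
        (∫ x, al * (P1 x ^ 2 * φ x ^ 2)) + ∫ x, be * (P2 x ^ 2 * φ x ^ 2) :=
      integral_add (i1.const_mul al) (i2.const_mul be)
    have s2 : ∫ x, ((al * (P1 x ^ 2 * φ x ^ 2) + be * (P2 x ^ 2 * φ x ^ 2)) -
        g2 P1 x * φ x ^ 2) = (∫ x, (al * (P1 x ^ 2 * φ x ^ 2) + be * (P2 x ^ 2 * φ x ^ 2))) -
        ∫ x, g2 P1 x * φ x ^ 2 := integral_sub ((i1.const_mul al).add (i2.const_mul be)) j1
    have s3 : ∫ x, (((al * (P1 x ^ 2 * φ x ^ 2) + be * (P2 x ^ 2 * φ x ^ 2)) -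
        g2 P1 x * φ x ^ 2) - g2 P2 x * φ x ^ 2) =
        (∫ x, ((al * (P1 x ^ 2 * φ x ^ 2) + be * (P2 x ^ 2 * φ x ^ 2)) -
        g2 P1 x * φ x ^ 2)) - ∫ x, g2 P2 x * φ x ^ 2 :=
      integral_sub (((i1.const_mul al).add (i2.const_mul be)).sub j1) j2
    rw [← s1, ← s2, ← s3]
    apply integral_congr_ae
    refine Eventually.of_forall fun x => ?_
    show Ff al be P1 P2 x * φ x ^ 2 = _
    unfold Ff
    ring
  rw [hF] at hK
  have k1 : En (fun x => P1 x * φ x) (fun x => P1 x * φ x) / B +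
      En (fun x => P2 x * φ x) (fun x => P2 x * φ x) / B ≤
      2 + (al + be) + (K + 4 * (M ^ 2 + 2 * M * D)) * Real.sqrt ε / B := by
    rw [← add_div, div_le_iff₀ hB]
    have k2 : (2 + (al + be) + (K + 4 * ((M : ℝ) ^ 2 + 2 * M * D)) * Real.sqrt ε / B) * B =
        (2 + (al + be)) * B + (K + 4 * ((M : ℝ) ^ 2 + 2 * M * D)) * Real.sqrt ε := by
      field_simp
    rw [k2]
    nlinarith
  linarith

end Pool.Agent.PPW
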