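import Pool.Agent.Lib.MP_eb7570_an.CDefs

/-!
MP_eb7570_an: mass of a strip under the density of a function with bounded energy.
In coordinates (t, y) with t = a x0 + b x1 (rotation), for each t, y:
phi(t,y)^2 <= 2 int |phi| |d_t phi| dt', so the integral over |t - c| <= delta is at most
2 delta * 2 int |phi||grad phi| <= 4 delta sqrt 2 <= 8 delta.
-/

set_option autoImplicit false

open MeasureTheory Filter Topology Metric Set

namespace Pool.Agent.PPW

/-- Integration by parts against the square of a test function. -/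
private theorem strip_ibp {Ω : Set E2} {u : E2 → ℝ} (hu : Tc Ω u) {f : E2 → ℝ} {C : NNReal}
    (hf : LipschitzWith C f) (a b : ℝ) :
    ∫ x, lineDeriv ℝ f x (a • ev 0 + b • ev 1) * u x ^ 2 =
      ∫ x, (-(2 * f x) * (a * pd 0 u x + b * pd 1 u x)) * u x := by
  have hg : ContDiff ℝ ((⊤ : ℕ∞) : WithTop ℕ∞) (fun x => u x ^ 2) := hu.smooth.pow 2
  have hcs : HasCompactSupport (fun x => u x ^ 2) := by
    have h1 : (fun x => u x ^ 2) = fun x => u x * u x := by
      funext x
      exact pow_two _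
    rw [h1]
    exact hu.cpt.mul_left
  obtain ⟨D, hD⟩ := hg.lipschitzWith_of_hasCompactSupport hcs (by simp)
  have h1 := LipschitzWith.integral_lineDeriv_mul_eq (μ := (volume : Measure E2)) hf hD hcs
    (a • ev 0 + b • ev 1)
  rw [h1]
  apply integral_congr_ae
  refine Eventually.of_forall fun x => ?_
  have h2 : DifferentiableAt ℝ u x := hu.smooth.differentiable (by simp) x
  have h3 : HasFDerivAt (fun x => u x ^ 2) (((2 : ℕ) • u x ^ (2 - 1)) • fderiv ℝ u x) x :=
    h2.hasFDerivAt.pow 2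
  have h4 : lineDeriv ℝ (fun x => u x ^ 2) x (-(a • ev 0 + b • ev 1)) =
      -(2 * u x * (a * pd 0 u x + b * pd 1 u x)) := by
    rw [h3.hasLineDerivAt (-(a • ev 0 + b • ev 1)) |>.lineDeriv]
    have h5 : ∀ i, fderiv ℝ u x (ev i) = pd i u x := fun i => h2.lineDeriv_eq_fderiv.symm
    simp only [_root_.smul_apply, map_neg, map_add, map_smul, h5, smul_eq_mul, nsmul_eq_mul]
    norm_num
    ring
  show lineDeriv ℝ (fun x => u x ^ 2) x (-(a • ev 0 + b • ev 1)) * f x =
    (-(2 * f x) * (a * pd 0 u x + b * pd 1 u x)) * u x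
  rw [h4]
  ring

/-- the truncation -/
private noncomputable def stripT (δ t : ℝ) : ℝ := max (-(2 * δ)) (min t (2 * δ))

private theorem stripT_mono (δ : ℝ) : Monotone (stripT δ) := by
  intro s t hst
  unfold stripT
  exact max_le_max le_rfl (min_le_min hst le_rfl)

private theorem stripT_abs {δ : ℝ} (hδ : 0 < δ) (t : ℝ) : |stripT δ t| ≤ 2 * δ := by
  unfold stripT
  rw [abs_le]
  exact ⟨le_max_left _ _, max_le (by linarith) (min_le_right _ _)⟩

private theorem stripT_lip (δ : ℝ) : LipschitzWith 1 (stripT δ) := by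
  have h1 : LipschitzWith 1 (fun t : ℝ => min t (2 * δ)) := LipschitzWith.id.min_const _
  exact h1.const_max _

private theorem stripT_eq {δ t : ℝ} (ht : |t| < 2 * δ) : stripT δ t = t := by
  unfold stripT
  rw [abs_lt] at ht
  rw [min_eq_left ht.2.le, max_eq_right ht.1.le]

theorem strip_mass {Ω : Set E2} {φ : E2 → ℝ} (hφ : Tc Ω φ) (h1 : Ma φ φ = 1)
    (h2 : En φ φ ≤ 2) {a b : ℝ} (hab : a ^ 2 + b ^ 2 = 1) (c : ℝ) {δ : ℝ} (hδ : 0 < δ) :
    ∫ x in {x : E2 | |a * x 0 + b * x 1 - c| ≤ δ}, φ x ^ 2 ≤ 8 * δ := by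
  have hL := hφ.toLc
  set v : E2 := a • ev 0 + b • ev 1 with hv
  -- the linear form
  set ℓ : E2 →L[ℝ] ℝ := a • (EuclideanSpace.proj (0 : Fin 2) : E2 →L[ℝ] ℝ) +
    b • (EuclideanSpace.proj (1 : Fin 2) : E2 →L[ℝ] ℝ) with hℓ
  have hℓx : ∀ x : E2, ℓ x = a * x 0 + b * x 1 := by
    intro x
    simp [hℓ]
  have hℓv : ℓ v = 1 := by
    rw [hℓx, hv]
    simp [ev]
    nlinarith
  set f : E2 → ℝ := fun x => stripT δ (ℓ x - c) with hf
  have hfl : ∃ C : NNReal, LipschitzWith C f := by
    have h3 : LipschitzWith ‖ℓ‖₊ (fun x => ℓ x - c) := by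
      apply LipschitzWith.of_dist_le_mul
      intro x y
      have h4 := ℓ.lipschitz.dist_le_mul x y
      rw [Real.dist_eq] at h4 ⊢
      have h5 : ℓ x - c - (ℓ y - c) = ℓ x - ℓ y := by ring
      rw [h5]
      exact h4
    exact ⟨1 * ‖ℓ‖₊, (stripT_lip δ).comp h3⟩
  obtain ⟨C, hC⟩ := hfl
  have hibp := strip_ibp hφ hC a b
  rw [← hv] at hibp
  -- the line derivative
  have hline : ∀ x : E2, (fun t : ℝ => f (x + t • v)) = fun t => stripT δ (ℓ x - c + t) := by
    intro x
    funext t
    show stripT δ (ℓ (x + t • v) - c) = stripT δ (ℓ x - c + t)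
    rw [map_add, map_smul, hℓv]
    congr 1
    simp only [smul_eq_mul, mul_one]
    ring
  have hd0 : ∀ x : E2, 0 ≤ lineDeriv ℝ f x v := by
    intro x
    unfold lineDeriv
    rw [hline]
    apply Monotone.deriv_nonneg
    intro s t hst
    exact stripT_mono δ (by linarith)
  have hd1 : ∀ x : E2, |ℓ x - c| ≤ δ → lineDeriv ℝ f x v = 1 := by
    intro x hx
    unfold lineDeriv
    rw [hline]
    have h3 : (fun t => stripT δ (ℓ x - c + t)) =ᶠ[𝓝 0] fun t => ℓ x - c + t := by
      have h4 : ∀ᶠ t : ℝ in 𝓝 0, |t| < δ := by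
        have : Metric.ball (0 : ℝ) δ ∈ 𝓝 (0 : ℝ) := Metric.ball_mem_nhds _ hδ
        filter_upwards [this] with t ht
        rwa [Metric.mem_ball, dist_zero_right, Real.norm_eq_abs] at ht
      filter_upwards [h4] with t ht
      apply stripT_eq
      calc |ℓ x - c + t| ≤ |ℓ x - c| + |t| := abs_add_le _ _
        _ < 2 * δ := by linarith
    rw [h3.deriv_eq]
    simp
  -- integrability
  have hi0 : Integrable (fun x => φ x ^ 2) (volume : Measure E2) := by
    have h3 : (fun x => φ x ^ 2) = fun x => φ x * φ x := by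
      funext x
      exact pow_two _
    rw [h3]
    exact hL.int_mul hL.wt
  have hi1 : Integrable (fun x => φ x * φ x) (volume : Measure E2) := hL.int_mul hL.wt
  have hi2 : Integrable (fun x => lineDeriv ℝ f x v * φ x ^ 2) (volume : Measure E2) := by
    refine hi0.bdd_mul (c := C * ‖v‖)
      (aestronglyMeasurable_lineDeriv hC.continuous volume) ?_
    exact Eventually.of_forall fun x => norm_lineDeriv_le_of_lipschitz ℝ hC
  have hi3 : Integrable (fun x => (-(2 * f x) * (a * pd 0 φ x + b * pd 1 φ x)) * φ x)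
      (volume : Measure E2) := by
    refine hL.int_mul (g := fun x => (-(2 * f x)) * (a * pd 0 φ x + b * pd 1 φ x)) ?_
    exact (Wt.smul 2 (Wt.of_lip hC)).neg.mul ((Wt.smul a (hL.wtd 0)).add (Wt.smul b (hL.wtd 1)))
  have hi4 := hL.int_en hL
  -- the set
  have hS : MeasurableSet {x : E2 | |a * x 0 + b * x 1 - c| ≤ δ} := by
    have h3 : {x : E2 | |a * x 0 + b * x 1 - c| ≤ δ} = {x : E2 | |ℓ x - c| ≤ δ} := by
      ext x
      simp only [hℓx]
    rw [h3]
    apply IsClosed.measurableSet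
    exact isClosed_le (by fun_prop) continuous_const
  calc ∫ x in {x : E2 | |a * x 0 + b * x 1 - c| ≤ δ}, φ x ^ 2
      = ∫ x, {x : E2 | |a * x 0 + b * x 1 - c| ≤ δ}.indicator (fun x => φ x ^ 2) x :=
        (integral_indicator hS).symm
    _ ≤ ∫ x, lineDeriv ℝ f x v * φ x ^ 2 := by
        apply integral_mono (hi0.indicator hS) hi2
        intro x
        show {x : E2 | |a * x 0 + b * x 1 - c| ≤ δ}.indicator (fun x => φ x ^ 2) x ≤
          lineDeriv ℝ f x v * φ x ^ 2
        by_cases hx : x ∈ {x : E2 | |a * x 0 + b * x 1 - c| ≤ δ}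
        · rw [indicator_of_mem hx, hd1 x (by rw [hℓx]; exact hx), one_mul]
        · rw [indicator_of_notMem hx]
          exact mul_nonneg (hd0 x) (sq_nonneg _)
    _ = ∫ x, (-(2 * f x) * (a * pd 0 φ x + b * pd 1 φ x)) * φ x := hibp
    _ ≤ ∫ x, (2 * δ * (φ x * φ x) + 2 * δ * (pd 0 φ x * pd 0 φ x + pd 1 φ x * pd 1 φ x)) := by
        apply integral_mono hi3 ((hi1.const_mul _).add (hi4.const_mul _))
        intro x
        show (-(2 * f x) * (a * pd 0 φ x + b * pd 1 φ x)) * φ x ≤
          2 * δ * (φ x * φ x) + 2 * δ * (pd 0 φ x * pd 0 φ x + pd 1 φ x * pd 1 φ x)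
        have h3 : |f x| ≤ 2 * δ := stripT_abs hδ _
        set p := pd 0 φ x
        set q := pd 1 φ x
        set w := a * p + b * q with hw
        have h4 : w ^ 2 ≤ p * p + q * q := by
          have : w ^ 2 + (a * q - b * p) ^ 2 = (a ^ 2 + b ^ 2) * (p * p + q * q) := by
            rw [hw]; ring
          rw [hab, one_mul] at this
          nlinarith [sq_nonneg (a * q - b * p)]
        have h5 : (-(2 * f x) * w) * φ x ≤ 2 * |f x| * (|w| * |φ x|) := by
          have h6 : (-(2 * f x) * w) * φ x = -(2 * (f x * (w * φ x))) := by ring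
          rw [h6]
          have h7 : -(f x * (w * φ x)) ≤ |f x| * (|w| * |φ x|) := by
            rw [← abs_mul, ← abs_mul]
            exact neg_le_abs _
          linarith
        have h6 : 2 * (|w| * |φ x|) ≤ w ^ 2 + φ x ^ 2 := by
          have := two_mul_le_add_sq |w| |φ x|
          rw [sq_abs, sq_abs] at this
          linarith
        have h7 : 0 ≤ |w| * |φ x| := by positivity
        calc (-(2 * f x) * w) * φ x ≤ 2 * |f x| * (|w| * |φ x|) := h5
          _ ≤ 2 * (2 * δ) * (|w| * |φ x|) := by gcongr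
          _ = 2 * δ * (2 * (|w| * |φ x|)) := by ring
          _ ≤ 2 * δ * (w ^ 2 + φ x ^ 2) := by gcongr
          _ ≤ 2 * δ * ((p * p + q * q) + φ x ^ 2) := by gcongr
          _ = _ := by ring
    _ = 2 * δ * Ma φ φ + 2 * δ * En φ φ := by
        rw [integral_add (hi1.const_mul _) (hi4.const_mul _), integral_const_mul,
          integral_const_mul]
        rfl
    _ ≤ 8 * δ := by
        rw [h1]
        nlinarith

end Pool.Agent.PPW
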