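import Pool.Agent.Lib.MP_eb7570_an.Close
import Pool.Agent.Lib.MP_eb7570_an.ND.Final

/-!
MP_eb7570_an: all inputs together.
-/

set_option autoImplicit false

open MeasureTheory Filter Topology Metric Set

namespace Pool.Agent.PPW

theorem nearDisk : NearDisk := by
  obtain ⟨K, hK⟩ := ND.cert_ND
  refine ⟨ND.Q1, ND.Q2, ND.path_ND, ND.equi_ND, K, fun e he => ?_⟩
  have h := hK e he
  have e1 : ND.alE e = Bes.kap2 - 1 - e * (Bes.kap2 / (2 * Bes.s0)) := by
    unfold ND.alE ND.mu ND.al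
    ring
  have e2 : ND.beE e = Bes.kap2 - 1 + e * (Bes.kap2 / (2 * Bes.s0)) := by
    unfold ND.beE ND.mu ND.al
    ring
  rw [e1, e2] at h
  exact h

/-- The conjecture of Payne, Polya and Weinberger for the ratio (lambda2 + lambda3) / lambda1, for
all bounded open nonempty plane sets. -/
theorem ppw {Ω : Set E2} (hΩ : Dom Ω) :
    (lamk 2 Ω + lamk 3 Ω) / lamk 1 Ω ≤
      (lamk 2 (Metric.ball (0 : E2) 1) + lamk 3 (Metric.ball (0 : E2) 1)) /
        lamk 1 (Metric.ball (0 : E2) 1) :=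
  ratio_le_disk nearDisk hΩ

end Pool.Agent.PPW
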